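import Pool.Agent.Lib.MP_2194ec_nt.LP.Defs

set_option autoImplicit false

/-!
# The numerical end of the proof, sharp form
-/

namespace Pool.DynLehmer.LP
open Real

/-- Row NUM2: the numerical end of the proof, sharp form. -/
def NumStatement2 : Prop :=
  ∀ (A B B' θ : ℝ), 0 < A → 0 < B → 1 ≤ B' → 0 < θ → θ ≤ 1 → ∃ C : ℝ, 0 < C ∧
    ∀ H : ℝ, 0 < H → ∃ c : ℝ, 0 < c ∧
    ∀ (d M E : ℕ), 1 ≤ d → 1 ≤ M →
      (M : ℝ) ≤ H * (d : ℝ) ^ 2 * Real.exp (-(C * (Real.log d) ^ θ)) →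
      (E : ℝ) ≤ 4 * (B' * (1 + Real.log d)) ^ 2 → 1 ≤ E →
      c ≤ d * (A / ((E : ℝ) * Real.sqrt M) * Real.exp (-(B * (1 + (Real.log M) ^ θ)))) /
        (B' * (1 + Real.log d))

theorem num2_aux (θ : ℝ) (hθ : 0 < θ) :
    ∃ K : ℝ, 1 ≤ K ∧ ∀ t : ℝ, 0 ≤ t → (1 + t) ^ 3 ≤ K * Real.exp (t ^ θ) := by
  obtain ⟨n, hn⟩ := exists_nat_ge (3 / θ)
  have hn' : 3 ≤ (n : ℝ) * θ := by
    rw [div_le_iff₀ hθ] at hn
    exact hn
  have hf : (1 : ℝ) ≤ (n.factorial : ℝ) := by exact_mod_cast n.factorial_pos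
  refine ⟨8 * n.factorial, by linarith, fun t ht => ?_⟩
  have hexp : 1 ≤ Real.exp (t ^ θ) := Real.one_le_exp (Real.rpow_nonneg ht _)
  rcases le_or_gt t 1 with h1 | h1
  · calc (1 + t) ^ 3 ≤ (2 : ℝ) ^ 3 := by gcongr; linarith
      _ = 8 * 1 * 1 := by norm_num
      _ ≤ 8 * n.factorial * Real.exp (t ^ θ) := by gcongr
  · have h2 := Real.pow_div_factorial_le_exp (t ^ θ) (Real.rpow_nonneg ht _) n
    have h3 : t ^ 3 ≤ (t ^ θ) ^ n := by
      rw [← Real.rpow_natCast (t ^ θ) n, ← Real.rpow_mul ht, ← Real.rpow_natCast t 3]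
      apply Real.rpow_le_rpow_of_exponent_le h1.le
      push_cast
      linarith
    rw [div_le_iff₀ (by linarith)] at h2
    calc (1 + t) ^ 3 ≤ (2 * t) ^ 3 := by gcongr; linarith
      _ = 8 * t ^ 3 := by ring
      _ ≤ 8 * (t ^ θ) ^ n := by gcongr
      _ ≤ 8 * (Real.exp (t ^ θ) * n.factorial) := by gcongr
      _ = _ := by ring

theorem num2 : NumStatement2 := by
  intro A B B' θ hA hB hB' hθ0 hθ1
  obtain ⟨K, hK1, hK⟩ := num2_aux θ hθ0
  have hKpos : 0 < K := by linarith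
  have hB'0 : 0 < B' := by linarith
  refine ⟨4 * B + 2, by linarith, ?_⟩
  intro H hH
  obtain ⟨H', hH'⟩ : ∃ H' : ℝ, H' = max 1 H := ⟨_, rfl⟩
  have hH1 : 1 ≤ H' := by rw [hH']; exact le_max_left _ _
  have hHH : H ≤ H' := by rw [hH']; exact le_max_right _ _
  have hlH : 0 ≤ Real.log H' := Real.log_nonneg hH1
  refine ⟨A / (4 * B' ^ 3 * K * Real.sqrt H') *
    Real.exp (-(B + B * (Real.log H') ^ θ)), by positivity, ?_⟩
  intro d M E hd hM1 hM hE hE1
  have hdR : (1 : ℝ) ≤ d := by exact_mod_cast hd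
  have hMR : (1 : ℝ) ≤ M := by exact_mod_cast hM1
  have hdpos : (0 : ℝ) < d := by linarith
  have hMpos : (0 : ℝ) < M := by linarith
  have hER : (1 : ℝ) ≤ E := by exact_mod_cast hE1
  have hE0 : (0 : ℝ) < E := by linarith
  obtain ⟨t, ht⟩ : ∃ t : ℝ, t = Real.log d := ⟨_, rfl⟩
  have ht0 : 0 ≤ t := by rw [ht]; exact Real.log_nonneg hdR
  obtain ⟨y, hy⟩ : ∃ y : ℝ, y = t ^ θ := ⟨_, rfl⟩
  have hy0 : 0 ≤ y := by rw [hy]; exact Real.rpow_nonneg ht0 _
  rw [← ht] at hM hE ⊢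
  rw [← hy] at hM
  -- the bound for the square root
  have hM' : (M : ℝ) ≤ H' * (d : ℝ) ^ 2 * Real.exp (-((4 * B + 2) * y)) := by
    refine hM.trans ?_
    gcongr
  have hsq : Real.sqrt M ≤ Real.sqrt H' * d * Real.exp (-((2 * B + 1) * y)) := by
    rw [Real.sqrt_le_left (by positivity)]
    refine hM'.trans (le_of_eq ?_)
    rw [mul_pow, mul_pow, Real.sq_sqrt (by linarith), ← Real.exp_nat_mul]
    congr 2
    push_cast
    ring
  -- the bound for the logarithm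
  have hlog : (Real.log M) ^ θ ≤ 2 * y + (Real.log H') ^ θ := by
    have h1 : Real.log M ≤ 2 * t + Real.log H' := by
      have h2 : (M : ℝ) ≤ H' * (d : ℝ) ^ 2 := by
        refine hM'.trans ?_
        have h3 : Real.exp (-((4 * B + 2) * y)) ≤ 1 := by
          apply Real.exp_le_one_iff.2
          have : 0 ≤ (4 * B + 2) * y := by positivity
          linarith
        exact mul_le_of_le_one_right (by positivity) h3
      have h4 := Real.log_le_log hMpos h2
      rw [Real.log_mul (by positivity) (by positivity), Real.log_pow, ← ht] at h4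
      push_cast at h4
      linarith
    have h5 : (Real.log M) ^ θ ≤ (2 * t + Real.log H') ^ θ :=
      Real.rpow_le_rpow (Real.log_nonneg hMR) h1 hθ0.le
    have h6 : (2 * t + Real.log H') ^ θ ≤ (2 * t) ^ θ + (Real.log H') ^ θ :=
      Real.rpow_add_le_add_rpow (by positivity) hlH hθ0.le hθ1
    have h7 : (2 * t) ^ θ ≤ 2 * y := by
      rw [Real.mul_rpow (by norm_num) ht0, ← hy]
      have h8 : (2 : ℝ) ^ θ ≤ 2 ^ (1 : ℝ) :=
        Real.rpow_le_rpow_of_exponent_le (by norm_num) hθ1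
      rw [Real.rpow_one] at h8
      exact mul_le_mul_of_nonneg_right h8 hy0
    linarith
  have he : Real.exp (-(B + B * (2 * y + (Real.log H') ^ θ))) ≤
      Real.exp (-(B * (1 + (Real.log M) ^ θ))) := by
    apply Real.exp_le_exp.2
    have := mul_le_mul_of_nonneg_left hlog hB.le
    linarith
  obtain ⟨X, hX⟩ : ∃ X : ℝ, X = 1 + t := ⟨_, rfl⟩
  have hXpos : 0 < X := by rw [hX]; linarith
  have hX3 : X ^ 3 ≤ K * Real.exp y := by
    rw [hX, hy]
    exact hK t ht0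
  rw [← hX] at hE ⊢
  rw [le_div_iff₀ (by positivity)]
  have hsH : 0 < Real.sqrt H' := Real.sqrt_pos.2 (by linarith)
  have hsM : 0 < Real.sqrt M := Real.sqrt_pos.2 hMpos
  have key : d * (A / (4 * (B' * X) ^ 2 * (Real.sqrt H' * d * Real.exp (-((2 * B + 1) * y)))) *
      Real.exp (-(B + B * (2 * y + (Real.log H') ^ θ)))) ≤
      d * (A / (E * Real.sqrt M) * Real.exp (-(B * (1 + (Real.log M) ^ θ)))) := by
    gcongr
  refine le_trans ?_ key
  have h5 : d * (A / (4 * (B' * X) ^ 2 * (Real.sqrt H' * d * Real.exp (-((2 * B + 1) * y)))) *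
      Real.exp (-(B + B * (2 * y + (Real.log H') ^ θ)))) =
      A / (4 * (B' * X) ^ 2 * Real.sqrt H') *
        (Real.exp y * Real.exp (-(B + B * (Real.log H') ^ θ))) := by
    have h6 : Real.exp (-(B + B * (2 * y + (Real.log H') ^ θ))) =
        Real.exp (-(B + B * (Real.log H') ^ θ)) * Real.exp y *
          Real.exp (-((2 * B + 1) * y)) := by
      rw [← Real.exp_add, ← Real.exp_add]
      congr 1
      ring
    rw [h6]
    have h7 := Real.exp_pos (-((2 * B + 1) * y))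
    field_simp
  rw [h5]
  have h8 : A / (4 * B' ^ 3 * K * Real.sqrt H') * Real.exp (-(B + B * (Real.log H') ^ θ)) *
      (B' * X) = (A / (4 * (B' * X) ^ 2 * Real.sqrt H') *
        Real.exp (-(B + B * (Real.log H') ^ θ))) * (X ^ 3 / K) := by
    field_simp
  rw [h8]
  have h9 : X ^ 3 / K ≤ Real.exp y := by
    rw [div_le_iff₀ hKpos]
    linarith
  calc A / (4 * (B' * X) ^ 2 * Real.sqrt H') *
        Real.exp (-(B + B * (Real.log H') ^ θ)) * (X ^ 3 / K)
      ≤ A / (4 * (B' * X) ^ 2 * Real.sqrt H') *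
        Real.exp (-(B + B * (Real.log H') ^ θ)) * Real.exp y := by gcongr
    _ = _ := by ring

end Pool.DynLehmer.LP
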