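import Pool.Agent.Lib.MP_2194ec_nt.LP.FinA
import Pool.Agent.Lib.MP_2194ec_nt.LP.Num2

set_option autoImplicit false
set_option linter.unusedSectionVars false

/-!
# The end of the proof
-/

namespace Pool.DynLehmer.LP
open MvPolynomial NumberField Filter Topology Pool.DynLehmer Pool.DynLehmer.SB Pool.DynLehmer.SP
  Pool.DynLehmer.GS
open scoped Classical

namespace FinAux

section count

variable {K : Type} [Field K] [NumberField K] {N : Type} [Field N] [NumberField N] [Algebra K N]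
  [IsGalois K N] {L : Type} [Field L] [NumberField L] [Algebra K L]

/-- the number of bad pairs (place, embedding) for one point -/
theorem bad_one (hHomc : HomcStatement) (φ₀ : L →ₐ[K] N) {Z : Fin 2 → L} (hZ : Z ≠ 0)
    {y : Fin 2 → N} (hy : (nz fun i => φ₀ (Z i)) ∈ orb (N ≃ₐ[K] N) (nz y))
    (S : Finset (FinitePlace N)) (e : FinitePlace N → ℕ) (T ρ : ℝ)
    (h : ∑ w ∈ S, (e w : ℝ) * (((orb (N ≃ₐ[K] N) (nz y)).filter fun z =>
      T ≤ (disc K w z : ℝ)).card : ℝ) ≤ ρ * Module.finrank K N * dgo K (nz y)) :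
    ∑ w ∈ S, (e w : ℝ) * (Nat.card {φ : L →ₐ[K] N // T ≤ (disc K w (nz fun i => φ (Z i)) : ℝ)}) ≤
      ρ * Module.finrank K N * Nat.card (L →ₐ[K] N) := by
  have horb : orb (N ≃ₐ[K] N) (nz fun i => φ₀ (Z i)) = orb (N ≃ₐ[K] N) (nz y) :=
    orb_eq_of_mem hy
  obtain ⟨-, -, h1⟩ := hHomc K N L φ₀ Z hZ
  have hdgo : dgo K (nz fun i => φ₀ (Z i)) = dgo K (nz y) := by
    unfold dgo; rw [horb]
  have hpos : (0 : ℝ) < dgo K (nz y) := by
    have : 0 < dgo K (nz y) := card_orb_pos _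
    exact_mod_cast this
  have h2 : ∀ w, (e w : ℝ) *
      (Nat.card {φ : L →ₐ[K] N // T ≤ (disc K w (nz fun i => φ (Z i)) : ℝ)}) * dgo K (nz y) =
      Nat.card (L →ₐ[K] N) * ((e w : ℝ) * (((orb (N ≃ₐ[K] N) (nz y)).filter fun z =>
      T ≤ (disc K w z : ℝ)).card : ℝ)) := by
    intro w
    have h3 := h1 fun z => T ≤ (disc K w z : ℝ)
    rw [hdgo, horb] at h3
    have h4 : ((Nat.card {φ : L →ₐ[K] N // T ≤ (disc K w (nz fun i => φ (Z i)) : ℝ)} : ℕ) : ℝ) *
        dgo K (nz y) = Nat.card (L →ₐ[K] N) * (((orb (N ≃ₐ[K] N) (nz y)).filter fun z =>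
        T ≤ (disc K w z : ℝ)).card : ℝ) := by
      exact_mod_cast h3
    linear_combination (e w : ℝ) * h4
  have h3 : (∑ w ∈ S, (e w : ℝ) *
      (Nat.card {φ : L →ₐ[K] N // T ≤ (disc K w (nz fun i => φ (Z i)) : ℝ)})) * dgo K (nz y) ≤
      (ρ * Module.finrank K N * Nat.card (L →ₐ[K] N)) * dgo K (nz y) := by
    rw [Finset.sum_mul, Finset.sum_congr rfl fun w _ => h2 w, ← Finset.mul_sum]
    refine (mul_le_mul_of_nonneg_left h (Nat.cast_nonneg _)).trans (le_of_eq ?_)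
    ring
  exact le_of_mul_le_mul_right h3 hpos

/-- the ramification is small for a proportion `7 / 8` of the pairs -/
theorem good_pairs (hHomc : HomcStatement) (hRamj : RamjStatement) (v : FinitePlace K) (u : K)
    (hu : ∀ a : K, v a < 1 → v a ≤ v u) (φ₀ : L →ₐ[K] N) {Y Y' : Fin 2 → L} (hY : Y ≠ 0)
    (hY' : Y' ≠ 0) (hadj : IntermediateField.adjoin K {Y 0 / Y 1, Y' 0 / Y' 1} = ⊤)
    {y : Fin 2 → N} (hy : (nz fun i => φ₀ (Y i)) ∈ orb (N ≃ₐ[K] N) (nz y))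
    (hy' : (nz fun i => φ₀ (Y' i)) ∈ orb (N ≃ₐ[K] N) (nz y))
    (S : Finset (FinitePlace N)) (e : FinitePlace N → ℕ) (hS : ∀ w ∈ S, Above v w (e w))
    (hsum : ∑ w ∈ S, e w = Module.finrank K N) (T : ℝ)
    (h : ∑ w ∈ S, (e w : ℝ) * (((orb (N ≃ₐ[K] N) (nz y)).filter fun z =>
      T ≤ (disc K w z : ℝ)).card : ℝ) ≤ 1 / 16 * Module.finrank K N * dgo K (nz y)) :
    7 * (Nat.card (L →ₐ[K] N) * ∑ w ∈ S, e w) ≤
      8 * ∑ w ∈ S, e w * Nat.card {φ : L →ₐ[K] N // Low u w φ (⌊T⌋₊ * ⌊T⌋₊)} := by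
  have h1 := bad_one hHomc φ₀ hY hy S e T (1 / 16) h
  have h2 := bad_one hHomc φ₀ hY' hy' S e T (1 / 16) h
  have hcard : ∀ p : (L →ₐ[K] N) → Prop, Nat.card {φ : L →ₐ[K] N // p φ} =
      (Finset.univ.filter p).card := by
    intro p
    rw [Nat.card_eq_fintype_card, Fintype.card_subtype]
  have hallc : Nat.card (L →ₐ[K] N) = (Finset.univ : Finset (L →ₐ[K] N)).card := by
    rw [Nat.card_eq_fintype_card, Finset.card_univ]
  have h3 : ∀ w ∈ S, Nat.card (L →ₐ[K] N) ≤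
      Nat.card {φ : L →ₐ[K] N // Low u w φ (⌊T⌋₊ * ⌊T⌋₊)} +
      (Nat.card {φ : L →ₐ[K] N // T ≤ (disc K w (nz fun i => φ (Y i)) : ℝ)} +
        Nat.card {φ : L →ₐ[K] N // T ≤ (disc K w (nz fun i => φ (Y' i)) : ℝ)}) := by
    intro w hw
    rw [hcard, hcard, hcard, hallc]
    refine le_trans (Finset.card_le_card ?_) ((Finset.card_union_le _ _).trans
      (Nat.add_le_add_left (Finset.card_union_le _ _) _))
    intro φ _
    rw [Finset.mem_union, Finset.mem_union, Finset.mem_filter, Finset.mem_filter,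
      Finset.mem_filter]
    by_contra hcon
    push Not at hcon
    obtain ⟨hc1, hc2, hc3⟩ := hcon
    have hc2' := hc2 (Finset.mem_univ _)
    have hc3' := hc3 (Finset.mem_univ _)
    exact hc1 (Finset.mem_univ _) (hRamj K N v w (e w) (hS w hw) u hu L Y Y' hY hY' hadj φ
      ⌊T⌋₊ ⌊T⌋₊ _ (Nat.le_floor hc2'.le) (Nat.le_floor hc3'.le) le_rfl)
  have h4 : (Nat.card (L →ₐ[K] N) : ℝ) * Module.finrank K N ≤
      (∑ w ∈ S, (e w : ℝ) * Nat.card {φ : L →ₐ[K] N // Low u w φ (⌊T⌋₊ * ⌊T⌋₊)}) +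
      (1 / 16 * Module.finrank K N * Nat.card (L →ₐ[K] N) +
        1 / 16 * Module.finrank K N * Nat.card (L →ₐ[K] N)) := by
    calc (Nat.card (L →ₐ[K] N) : ℝ) * Module.finrank K N
        = ∑ w ∈ S, (e w : ℝ) * Nat.card (L →ₐ[K] N) := by
          rw [← Finset.sum_mul, ← hsum]
          push_cast
          ring
      _ ≤ ∑ w ∈ S, (e w : ℝ) * ((Nat.card {φ : L →ₐ[K] N // Low u w φ (⌊T⌋₊ * ⌊T⌋₊)} : ℝ) +
          ((Nat.card {φ : L →ₐ[K] N // T ≤ (disc K w (nz fun i => φ (Y i)) : ℝ)} : ℝ) +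
          (Nat.card {φ : L →ₐ[K] N // T ≤ (disc K w (nz fun i => φ (Y' i)) : ℝ)} : ℝ))) := by
          refine Finset.sum_le_sum fun w hw => mul_le_mul_of_nonneg_left ?_ (Nat.cast_nonneg _)
          exact_mod_cast h3 w hw
      _ ≤ _ := by
          simp only [mul_add, Finset.sum_add_distrib]
          linarith
  have h5 : (7 : ℝ) * (Nat.card (L →ₐ[K] N) * Module.finrank K N) ≤
      8 * ∑ w ∈ S, (e w : ℝ) * Nat.card {φ : L →ₐ[K] N // Low u w φ (⌊T⌋₊ * ⌊T⌋₊)} := by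
    linarith
  rw [hsum]
  exact_mod_cast h5

end count

section heights

variable {K : Type} [Field K] [NumberField K] {N : Type} [Field N] [NumberField N] [Algebra K N]
  {L : Type} [Field L] [NumberField L] [Algebra K L] {q : ℕ} {F : Fin 2 → MvPolynomial (Fin 2) K}

theorem ev_hom {K L N : Type} [Field K] [Field L] [Field N] [Algebra K L] [Algebra K N]
    (φ : L →ₐ[K] N) (P P' : Fin 2 → L) (G : MvPolynomial (Fin 2 ⊕ Fin 2) K) :
    GS.ev (fun i => φ (P i)) (fun i => φ (P' i)) G = φ (GS.ev P P' G) := by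
  unfold GS.ev
  have h : (Sum.elim (fun i => φ (P i)) (fun i => φ (P' i)) : Fin 2 ⊕ Fin 2 → N) =
      fun i => φ (Sum.elim P P' i) := by
    funext i
    cases i <;> rfl
  rw [h]
  exact (comp_aeval_apply φ (f := (Sum.elim P P' : Fin 2 ⊕ Fin 2 → L)) G).symm

/-- the heights of the iterates of proportional points -/
theorem height_prl (hF : ∀ i, (F i).IsHomogeneous q) {P Q : Fin 2 → N} (h : Prl P Q) (n : ℕ) :
    Height.logHeight ((gAct F N)^[n] P) = Height.logHeight ((gAct F N)^[n] Q) := by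
  obtain ⟨c, hc, h1⟩ := Bas.prl_iter hF h n
  rw [h1, Height.logHeight_smul_eq_logHeight _ hc]

/-- the canonical height of the pair is at most the sum of the canonical heights -/
theorem height_pair (hSegH : SegHStatement) (hF : ∀ i, (F i).IsHomogeneous q) (hq : 0 < q)
    {Fz : Fin 2 × Fin 2 → MvPolynomial (Fin 2 × Fin 2) K} (hFz : ExtS F Fz) (φ : L →ₐ[K] N)
    {P : Fin 2 → N} (σ : N ≃ₐ[K] N) (k : ℕ) {Y Y' : Fin 2 → L}
    (hY : Prl ((gAct F N)^[k] P) (fun i => φ (Y i)))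
    (hY' : Prl ((gAct F N)^[k] (gal σ P)) (fun i => φ (Y' i))) {h h' : ℝ}
    (hlim : Tendsto (fun n : ℕ => Height.logHeight ((gAct F N)^[n] P) /
      (Module.finrank ℚ N : ℝ) / (q : ℝ) ^ n) atTop (𝓝 h))
    (hlim' : Tendsto (fun n : ℕ => Height.logHeight ((gAct Fz L)^[n] (seg Y Y')) /
      (Module.finrank ℚ L : ℝ) / (q : ℝ) ^ n) atTop (𝓝 h')) : h' ≤ 2 * ((q : ℝ) ^ k * h) := by
  have hq0 : (0 : ℝ) < q := by exact_mod_cast hq
  have h1 := ((tendsto_add_atTop_iff_nat k).2 hlim).const_mul ((q : ℝ) ^ k)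
  refine le_of_tendsto_of_tendsto' hlim' (h1.const_mul 2) fun n => ?_
  have h2 : Height.logHeight ((gAct Fz L)^[n] (seg Y Y')) / (Module.finrank ℚ L : ℝ) =
      Height.logHeight (seg ((gAct F N)^[n] (fun i => φ (Y i)))
        ((gAct F N)^[n] (fun i => φ (Y' i)))) / (Module.finrank ℚ N : ℝ) := by
    rw [← logHeight_hom (φ : L →+* N), E.gAct_seg hFz]
    congr 2
    funext i
    rw [gAct_iter_map F φ n Y, gAct_iter_map F φ n Y']
    exact map_mul φ _ _
  have h3 := hSegH N ((gAct F N)^[n] (fun i => φ (Y i))) ((gAct F N)^[n] (fun i => φ (Y' i)))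
  have h4 : Height.logHeight ((gAct F N)^[n] (fun i => φ (Y i))) =
      Height.logHeight ((gAct F N)^[n + k] P) := by
    rw [← height_prl hF hY, ← Function.iterate_add_apply]
  have h5 : Height.logHeight ((gAct F N)^[n] (fun i => φ (Y' i))) =
      Height.logHeight ((gAct F N)^[n + k] P) := by
    rw [← height_prl hF hY', ← Function.iterate_add_apply, SP.CasebAux.gAct_iter_gal]
    exact logHeight_ringEquiv (σ : N ≃+* N) _
  rw [h4, h5] at h3
  rw [h2]
  have h6 : (0 : ℝ) ≤ (Module.finrank ℚ N : ℝ) := Nat.cast_nonneg _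
  have h7 : 2 * ((q : ℝ) ^ k * (Height.logHeight ((gAct F N)^[n + k] P) /
      (Module.finrank ℚ N : ℝ) / (q : ℝ) ^ (n + k))) =
      (2 * Height.logHeight ((gAct F N)^[n + k] P)) / (Module.finrank ℚ N : ℝ) /
        (q : ℝ) ^ n := by
    rw [pow_add]
    have := pow_pos hq0 n
    have := pow_pos hq0 k
    field_simp
  rw [h7]
  refine div_le_div_of_nonneg_right (div_le_div_of_nonneg_right ?_ h6) (by positivity)
  linarith

end heights

end FinAux

open FinAux in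
/-- The bound in a Galois extension. -/
theorem fin_gal (hLvn : LvnStatement) (hRamj : RamjStatement) (hHomc : HomcStatement)
    (hSharpb : SharpbStatement) (hNum : NumStatement2) (hMor : MorStatement) (hSeg : SegStatement)
    (hSegH : SegHStatement) (hBif : E.BifS)
    (K : Type) [Field K] [NumberField K] (p s : ℕ) (v : FinitePlace K)
    (F : Fin 2 → MvPolynomial (Fin 2) K) (hyp : HypR p s v F) :
    ∃ C : ℝ, 0 < C ∧ ∀ H : ℝ, 0 < H →
    ∃ c : ℝ, 0 < c ∧ ∀ (N : Type) [Field N] [NumberField N] [Algebra K N] [IsGalois K N] (a : N)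
      (σ : N ≃ₐ[K] N), WandP F ![a, 1] →
      (∀ (n e : ℕ) (G : MvPolynomial (Fin 2 ⊕ Fin 2) K), PerForm F e G →
        GS.ev ((gAct F N)^[n] ![a, 1]) ((gAct F N)^[n] ![σ a, 1]) G ≠ 0) →
      (∀ n : ℕ, (dg2 K ((gAct F N)^[n] ![a, 1]) ((gAct F N)^[n] ![σ a, 1]) : ℝ) ≤
        H * (dg K ((gAct F N)^[n] ![a, 1]) : ℝ) ^ 2 *
          Real.exp (-(C * (Real.log (dg K ((gAct F N)^[n] ![a, 1]))) ^ (3 / 4 : ℝ)))) →
      ∃ h : ℝ, Tendsto (fun n : ℕ => Height.logHeight ((gAct F N)^[n] ![a, 1]) /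
        (Module.finrank ℚ N : ℝ) / ((p ^ s : ℕ) : ℝ) ^ n) atTop (𝓝 h) ∧
        c / (Module.finrank K (IntermediateField.adjoin K {a}) : ℝ) ≤ h := by
  have hq2 : 2 ≤ p ^ s := by
    calc 2 ≤ p := hyp.prime.two_le
      _ = p ^ 1 := (pow_one p).symm
      _ ≤ p ^ s := Nat.pow_le_pow_right hyp.prime.pos hyp.pos
  have hq1 : 1 ≤ p ^ s := by omega
  have hmor : Mor (p ^ s) F := hMor K p s v F hyp
  obtain ⟨Fz, hF1, hF2, hF3, hF4, hF5⟩ := hSeg K p s v F hyp
  obtain ⟨B, c₁, hB1, hc₁, hL⟩ := hLvn K p s v F hyp (1 / 16) (by norm_num)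
  obtain ⟨u, hu0, hu1, hu⟩ := exists_unif v
  obtain ⟨A, B₂, hA, hB₂, hS⟩ := hSharpb K p s (Fin 2 × Fin 2) (by simp) hyp.prime hyp.pos v Fz
    hF1 hyp.above hF2 hF3 hF4 u hu0 hu1 hu
  set θ : ℝ := ((Fintype.card (Fin 2 × Fin 2) - 1 : ℕ) : ℝ) /
    (((Fintype.card (Fin 2 × Fin 2) - 1 : ℕ) : ℝ) + 1) with hθ
  have hθ34 : θ = 3 / 4 := by
    have h4 : Fintype.card (Fin 2 × Fin 2) = 4 := by simp
    rw [hθ, h4]
    norm_num
  obtain ⟨C, hC, hNC⟩ := hNum A B₂ B θ hA hB₂ hB1 (by rw [hθ34]; norm_num)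
    (by rw [hθ34]; norm_num)
  refine ⟨C, hC, fun H hH => ?_⟩
  obtain ⟨c₂, hc₂, hN⟩ := hNC H hH
  refine ⟨min c₁ (c₂ / 2), lt_min hc₁ (by positivity), ?_⟩
  intro N _ _ _ _ a σ ha hper hdeg
  obtain ⟨S, e, hSe, hsum⟩ := exists_above v N
  set P : Fin 2 → N := ![a, 1] with hP
  have hP0 : P ≠ 0 := fun h0 => one_ne_zero (congrFun h0 1 : (1 : N) = 0)
  have hP' : (![σ a, 1] : Fin 2 → N) = gal σ P := by
    funext i
    fin_cases i
    · rfl
    · exact (map_one σ).symm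
  rw [hP'] at hper hdeg
  have hP'0 : gal σ P ≠ 0 := gal_ne σ hP0
  obtain ⟨h, hlim, halt⟩ := hL N S e hSe hsum P hP0 ha
  refine ⟨h, hlim, ?_⟩
  have hh0 : 0 ≤ h := ge_of_tendsto' hlim fun n => div_nonneg (div_nonneg
    (Height.logHeight_nonneg _) (Nat.cast_nonneg _)) (by positivity)
  have hD0eq : dgo K (nz P) = Module.finrank K (IntermediateField.adjoin K {a}) := by
    rw [dgo_eq hP0]
    unfold dg
    have h1 : P 0 / P 1 = a := by
      change a / 1 = a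
      rw [div_one]
    rw [h1]
  have hD0pos : (0 : ℝ) < Module.finrank K (IntermediateField.adjoin K {a}) := by
    exact_mod_cast Module.finrank_pos
  rw [div_le_iff₀ hD0pos]
  rcases halt with h1 | ⟨k, hk1, hk2⟩
  · rw [hD0eq] at h1
    exact (min_le_left _ _).trans (by linarith)
  refine (min_le_right _ _).trans ?_
  rw [hD0eq] at hk1
  set D₀ : ℝ := (Module.finrank K (IntermediateField.adjoin K {a}) : ℝ) with hD₀
  -- the points at level `k`
  set y : Fin 2 → N := (gAct F N)^[k] P with hy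
  set y' : Fin 2 → N := (gAct F N)^[k] (gal σ P) with hy'
  have hy0 : y ≠ 0 := Bas.iter_ne hmor hP0 k
  have hy'0 : y' ≠ 0 := Bas.iter_ne hmor hP'0 k
  have hyy : y' = gal σ y := SP.CasebAux.gAct_iter_gal F σ k P
  rw [dgo_eq hy0] at hk1 hk2
  set D : ℕ := dg K y with hD
  have hD1 : 1 ≤ D := Module.finrank_pos
  have hD1r : (1 : ℝ) ≤ D := by exact_mod_cast hD1
  have hlogD : 0 ≤ Real.log D := Real.log_nonneg hD1r
  set T : ℝ := B * (1 + Real.log D) with hT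
  have hT1 : 1 ≤ T := by nlinarith
  -- the field
  set L := IntermediateField.adjoin K {y 0 / y 1, y' 0 / y' 1} with hLdef
  have hLfin : FiniteDimensional K L := inferInstance
  have hLnf : NumberField L := NumberField.of_module_finite K L
  obtain ⟨Y, hY0, hY1, hY2⟩ := exists_pt L hy0 (IntermediateField.subset_adjoin _ _ (by simp))
  obtain ⟨Y', hY'0, hY'1, hY'2⟩ := exists_pt L hy'0 (IntermediateField.subset_adjoin _ _ (by simp))
  set φ₀ : L →ₐ[K] N := L.val with hφ₀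
  have hadj : IntermediateField.adjoin K {Y 0 / Y 1, Y' 0 / Y' 1} = ⊤ :=
    adj_top hLdef _ _ hY2 hY'2
  have hφY : (nz fun i => φ₀ (Y i)) ∈ orb (N ≃ₐ[K] N) (nz y) := by
    have h1 : nz y = nz fun i => φ₀ (Y i) := nz_prl hy0 (HomcAux.emb_ne φ₀ hY0) hY1
    rw [← h1]
    exact self_mem_orb _
  have hφY' : (nz fun i => φ₀ (Y' i)) ∈ orb (N ≃ₐ[K] N) (nz y) := by
    have h1 : nz y' = nz fun i => φ₀ (Y' i) := nz_prl hy'0 (HomcAux.emb_ne φ₀ hY'0) hY'1
    rw [← h1, hyy]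
    have h2 : nz (gal σ y) = σ • nz y := (HomcAux.gal_nz σ hy0).symm
    rw [h2]
    exact smul_mem_orb _ _
  have hbad : ∑ w ∈ S, (e w : ℝ) * (((orb (N ≃ₐ[K] N) (nz y)).filter fun z =>
      T ≤ (disc K w z : ℝ)).card : ℝ) ≤ 1 / 16 * Module.finrank K N * dgo K (nz y) := by
    rw [dgo_eq hy0]
    exact hk2
  have hgood := good_pairs hHomc hRamj v u hu φ₀ hY0 hY'0 hadj hφY hφY' S e hSe hsum T hbad
  have hX1 : 1 ≤ ⌊T⌋₊ := Nat.le_floor (by exact_mod_cast hT1)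
  have hcardL : Nat.card (L →ₐ[K] N) = Module.finrank K L := (hHomc K N L φ₀ Y hY0).2.1
  -- the pair is wandering and on no curve
  have hwY : WandP F Y := (Bas.wandP_map φ₀).1
    (Bas.wandP_prl hyp.hom (Bas.prl_symm hY1) (Bas.wandP_iter ha k))
  have hwY' : WandP F Y' := (Bas.wandP_map φ₀).1
    (Bas.wandP_prl hyp.hom (Bas.prl_symm hY'1) (Bas.wandP_iter (E.wand_gal ha σ) k))
  have hx0 : seg Y Y' ≠ 0 := E.seg_ne hY0 hY'0
  have hxw : ¬ ∃ m n : ℕ, m ≠ n ∧ ∃ c : L, c ≠ 0 ∧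
      (gAct Fz L)^[n] (seg Y Y') = c • (gAct Fz L)^[m] (seg Y Y') := by
    rintro ⟨m, n, hmn, c, hc0, h1⟩
    rw [E.gAct_seg hF5, E.gAct_seg hF5] at h1
    obtain ⟨d, hd, h2⟩ := (E.prl_of_seg (Bas.iter_ne hmor hY0 n) (Bas.iter_ne hmor hY'0 n)
      (Bas.iter_ne hmor hY0 m) (Bas.iter_ne hmor hY'0 m) ⟨c, hc0, h1⟩).1
    exact hwY ⟨m, n, hmn, d, hd, h2⟩
  have hxc : ¬ OnCurve Fz (seg Y Y') := by
    rintro ⟨r, k', c, Q, hk', hQ, hQh, hQL, hQH, hQ0, hQk⟩
    rw [E.gAct_seg hF5] at hQ0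
    obtain ⟨G, hG, hG'⟩ := hBif K (p ^ s) F hq1 hmor Fz hF1 hF5 L _ _ c
      (Bas.iter_ne hmor hY0 r) (Bas.iter_ne hmor hY'0 r) (Bas.wandP_iter hwY r)
      (Bas.wandP_iter hwY' r) ⟨k', Q, hk', hQ, hQh, hQL, hQH, hQ0, hQk⟩
    obtain ⟨d₁, d₂, -, -, -, -, hBi⟩ := hG.hom
    refine hper (r + k) c G hG ?_
    have e1 : (gAct F N)^[r] (fun i => (Y i : N)) = fun i => φ₀ ((gAct F L)^[r] Y i) :=
      gAct_iter_map F φ₀ r Y
    have e2 : (gAct F N)^[r] (fun i => (Y' i : N)) = fun i => φ₀ ((gAct F L)^[r] Y' i) :=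
      gAct_iter_map F φ₀ r Y'
    rw [Function.iterate_add_apply, Function.iterate_add_apply,
      Bas.ev_prl hBi (Bas.prl_iter hyp.hom hY1 r) (Bas.prl_iter hyp.hom hY'1 r), e1, e2,
      ev_hom φ₀ ((gAct F L)^[r] Y) ((gAct F L)^[r] Y') G, hG', map_zero]
  obtain ⟨h', hlim', hle⟩ := hS (⌊T⌋₊ * ⌊T⌋₊) (Nat.mul_pos hX1 hX1) L N S e hcardL hSe hsum.ge
    hgood (seg Y Y') hx0 hxw hxc
  have hh' := height_pair hSegH hyp.hom (by omega) hF5 φ₀ σ k hY1 hY'1 hlim hlim'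
  set M : ℕ := Module.finrank K L with hM
  have hM1 : 1 ≤ M := Module.finrank_pos
  have hMD : (M : ℝ) ≤ H * (D : ℝ) ^ 2 * Real.exp (-(C * (Real.log D) ^ θ)) := by
    rw [hθ34]
    exact hdeg k
  have hTE : ((⌊T⌋₊ * ⌊T⌋₊ : ℕ) : ℝ) ≤ 4 * (B * (1 + Real.log D)) ^ 2 := by
    have h1 : ((⌊T⌋₊ : ℕ) : ℝ) ≤ T := Nat.floor_le (by linarith)
    have h2 : (0 : ℝ) ≤ ((⌊T⌋₊ : ℕ) : ℝ) := Nat.cast_nonneg _
    rw [← hT]
    push_cast
    nlinarith
  have hnum := hN D M (⌊T⌋₊ * ⌊T⌋₊) hD1 hM1 hMD hTE (Nat.mul_pos hX1 hX1)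
  rw [← hT, le_div_iff₀ (by linarith)] at hnum
  have hD0r : (0 : ℝ) ≤ D := by linarith
  have h1 : c₂ * T ≤ D * (2 * (((p ^ s : ℕ) : ℝ) ^ k * h)) :=
    hnum.trans (mul_le_mul_of_nonneg_left (hle.trans hh') hD0r)
  have h2 : D * (2 * (((p ^ s : ℕ) : ℝ) ^ k * h)) ≤ 2 * (T * D₀) * h := by
    have h3 := mul_le_mul_of_nonneg_right hk1 hh0
    linarith
  have h3 : c₂ * T ≤ (2 * D₀ * h) * T := by linarith
  have h4 := le_of_mul_le_mul_right h3 (by linarith)
  linarith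

/-- the pair is on no periodic form, at any level -/
def Off {K : Type} [Field K] [NumberField K] (F : Fin 2 → MvPolynomial (Fin 2) K) {N : Type}
    [Field N] [Algebra K N] (P P' : Fin 2 → N) : Prop :=
  (∀ (n e : ℕ) (G : MvPolynomial (Fin 2 ⊕ Fin 2) K), PerForm F e G →
    GS.ev ((gAct F N)^[n] P) ((gAct F N)^[n] P') G ≠ 0) ∨
  (CritW F ∧ OneOrb F ∧ ∀ n : ℕ, ¬ Prl ((gAct F N)^[n] P) ((gAct F N)^[n] P'))

open FinAux in
/-- one grand orbit of wandering critical points: a pair of conjugates with different iterates is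
on no periodic form -/
theorem off_gal (hLvn : LvnStatement) (hMor : MorStatement) (hCls : ClsStatement)
    (K : Type) [Field K] [NumberField K] (p s : ℕ) (v : FinitePlace K)
    (F : Fin 2 → MvPolynomial (Fin 2) K) (hyp : HypR p s v F) (hcrit : CritW F) (hone : OneOrb F)
    (N : Type) [Field N] [NumberField N] [Algebra K N] [IsGalois K N] {P : Fin 2 → N} (hP0 : P ≠ 0)
    (σ : N ≃ₐ[K] N) (ha : WandP F P)
    (hne : ∀ n : ℕ, ¬ Prl ((gAct F N)^[n] P) ((gAct F N)^[n] (gal σ P))) (n e : ℕ)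
    (G : MvPolynomial (Fin 2 ⊕ Fin 2) K) (hG : PerForm F e G) :
    GS.ev ((gAct F N)^[n] P) ((gAct F N)^[n] (gal σ P)) G ≠ 0 := by
  intro hev
  have hq2 : 2 ≤ p ^ s := by
    calc 2 ≤ p := hyp.prime.two_le
      _ = p ^ 1 := (pow_one p).symm
      _ ≤ p ^ s := Nat.pow_le_pow_right hyp.prime.pos hyp.pos
  have hmor : Mor (p ^ s) F := hMor K p s v F hyp
  obtain ⟨B, c₁, hB1, hc₁, hL⟩ := hLvn K p s v F hyp (1 / 16) (by norm_num)
  obtain ⟨S, w, hSe, hsum⟩ := exists_above v N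
  obtain ⟨h, hlim, -⟩ := hL N S w hSe hsum P hP0 ha
  have hz : ∀ z : Fin 2 → AlgebraicClosure K, (∀ i, aeval z (F i) = 0) → z = 0 := by
    intro z hz
    by_contra h0
    exact hmor.ne (AlgebraicClosure K) z h0 (funext hz)
  have hh0 : 0 ≤ h := ge_of_tendsto' hlim fun n => div_nonneg (div_nonneg
    (Height.logHeight_nonneg _) (Nat.cast_nonneg _)) (by positivity)
  have hhne := hhat_ne_zero hq2 F hyp.hom hz N P hP0 ha h hlim
  have hhpos : 0 < h := lt_of_le_of_ne hh0 (Ne.symm hhne)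
  have hq0 : (0 : ℝ) < ((p ^ s : ℕ) : ℝ) := by
    have : 0 < p ^ s := by omega
    exact_mod_cast this
  have hshift : ∀ m : ℕ, ((p ^ s : ℕ) : ℝ) ^ n * (Height.logHeight ((gAct F N)^[m + n] P) /
      (Module.finrank ℚ N : ℝ) / ((p ^ s : ℕ) : ℝ) ^ (m + n)) =
      Height.logHeight ((gAct F N)^[m + n] P) / (Module.finrank ℚ N : ℝ) /
        ((p ^ s : ℕ) : ℝ) ^ m := by
    intro m
    rw [pow_add]
    have := pow_pos hq0 n
    have := pow_pos hq0 m
    field_simp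
  have h1 := ((tendsto_add_atTop_iff_nat n).2 hlim).const_mul (((p ^ s : ℕ) : ℝ) ^ n)
  have h2 : Tendsto (fun m : ℕ => Height.logHeight ((gAct F N)^[m] ((gAct F N)^[n] P)) /
      (Module.finrank ℚ N : ℝ) / ((p ^ s : ℕ) : ℝ) ^ m) atTop
      (𝓝 (((p ^ s : ℕ) : ℝ) ^ n * h)) := by
    refine h1.congr fun m => ?_
    rw [hshift, Function.iterate_add_apply]
  have h3 : Tendsto (fun m : ℕ => Height.logHeight ((gAct F N)^[m]
      ((gAct F N)^[n] (gal σ P))) / (Module.finrank ℚ N : ℝ) / ((p ^ s : ℕ) : ℝ) ^ m) atTop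
      (𝓝 (((p ^ s : ℕ) : ℝ) ^ n * h)) := by
    refine h2.congr fun m => ?_
    rw [← Function.iterate_add_apply, ← Function.iterate_add_apply, SP.CasebAux.gAct_iter_gal]
    congr 2
    exact (logHeight_ringEquiv (σ : N ≃+* N) _).symm
  exact hne n (hCls K p s v F hyp hcrit hone e G hG N _ _ (Bas.iter_ne hmor hP0 n)
    (Bas.iter_ne hmor (gal_ne σ hP0) n) (Bas.wandP_iter ha n)
    (Bas.wandP_iter (E.wand_gal ha σ) n) hev _ (mul_pos (pow_pos hq0 n) hhpos) h2 h3)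

open FinAux in
/-- **The bound for pairs of conjugates.** -/
theorem fin_all (hLvn : LvnStatement) (hRamj : RamjStatement) (hHomc : HomcStatement)
    (hSharpb : SharpbStatement) (hNum : NumStatement2) (hCls : ClsStatement) (hMor : MorStatement)
    (hSeg : SegStatement) (hSegH : SegHStatement) (hBif : E.BifS)
    (K : Type) [Field K] [NumberField K] (p s : ℕ) (v : FinitePlace K)
    (F : Fin 2 → MvPolynomial (Fin 2) K) (hyp : HypR p s v F) :
    ∃ C : ℝ, 0 < C ∧ ∀ H : ℝ, 0 < H →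
    ∃ c : ℝ, 0 < c ∧ ∀ (N : Type) [Field N] [NumberField N] [Algebra K N] (a b : N),
      WandP F ![a, 1] → Polynomial.aeval b (minpoly K a) = 0 → Off F ![a, 1] ![b, 1] →
      (∀ n : ℕ, (dg2 K ((gAct F N)^[n] ![a, 1]) ((gAct F N)^[n] ![b, 1]) : ℝ) ≤
        H * (dg K ((gAct F N)^[n] ![a, 1]) : ℝ) ^ 2 *
          Real.exp (-(C * (Real.log (dg K ((gAct F N)^[n] ![a, 1]))) ^ (3 / 4 : ℝ)))) →
      ∃ h : ℝ, Tendsto (fun n : ℕ => Height.logHeight ((gAct F N)^[n] ![a, 1]) /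
        (Module.finrank ℚ N : ℝ) / ((p ^ s : ℕ) : ℝ) ^ n) atTop (𝓝 h) ∧
        c / (Module.finrank K (IntermediateField.adjoin K {a}) : ℝ) ≤ h := by
  obtain ⟨C, hC, hmain'⟩ := fin_gal hLvn hRamj hHomc hSharpb hNum hMor hSeg hSegH hBif K p s v F
    hyp
  refine ⟨C, hC, fun H hH => ?_⟩
  obtain ⟨c, hc, hmain⟩ := hmain' H hH
  refine ⟨c, hc, ?_⟩
  intro L _ _ _ a b ha hb hoff hdeg
  have hmor : Mor (p ^ s) F := hMor K p s v F hyp
  -- the Galois closure
  let N := IntermediateField.normalClosure K L (AlgebraicClosure L)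
  have hfdKL : FiniteDimensional K L := Module.Finite.of_restrictScalars_finite ℚ K L
  have hfd : FiniteDimensional K N := normalClosure.is_finiteDimensional K L (AlgebraicClosure L)
  have hNnf : NumberField N := NumberField.of_module_finite K N
  have hnormal : Normal K N := normalClosure.normal K L (AlgebraicClosure L)
  have hgal : IsGalois K N := ⟨⟩
  let φ : L →ₐ[K] N := IsScalarTower.toAlgHom K L N
  have hφ : Function.Injective φ := φ.toRingHom.injective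
  have hpt : ∀ x : L, (![φ x, 1] : Fin 2 → N) = fun i => φ ((![x, 1] : Fin 2 → L) i) := by
    intro x
    funext i
    fin_cases i
    · rfl
    · exact (map_one φ).symm
  have hit : ∀ (x : L) (n : ℕ), (gAct F N)^[n] ![φ x, 1] =
      fun i => φ ((gAct F L)^[n] ![x, 1] i) := by
    intro x n
    rw [hpt, gAct_iter_map]
  have hne1 : ∀ x : L, (![x, 1] : Fin 2 → L) ≠ 0 := fun x h0 =>
    one_ne_zero (congrFun h0 1 : (1 : L) = 0)
  have hw : WandP F ![φ a, 1] := by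
    rw [hpt]
    exact (Bas.wandP_map φ).2 ha
  have hφa0 : (![φ a, 1] : Fin 2 → N) ≠ 0 := fun h0 =>
    one_ne_zero (congrFun h0 1 : (1 : N) = 0)
  obtain ⟨σ, hσ⟩ : ∃ σ : N ≃ₐ[K] N, σ (φ a) = φ b := by
    have h4 : minpoly K (φ a) = minpoly K a := minpoly.algHom_eq φ hφ a
    refine minpoly.exists_algEquiv_of_root' (Algebra.IsAlgebraic.isAlgebraic (φ a)) ?_
    rw [h4, Polynomial.aeval_algHom_apply, hb, map_zero]
  have hgσ : gal σ (![φ a, 1] : Fin 2 → N) = ![φ b, 1] := by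
    funext i
    fin_cases i
    · exact hσ
    · exact map_one σ
  have hper : ∀ (n e : ℕ) (G : MvPolynomial (Fin 2 ⊕ Fin 2) K), PerForm F e G →
      GS.ev ((gAct F N)^[n] ![φ a, 1]) ((gAct F N)^[n] ![σ (φ a), 1]) G ≠ 0 := by
    rcases hoff with h1 | ⟨h1, h2, h3⟩
    · intro n e G hG
      rw [hσ, hit, hit, ev_hom]
      exact (map_ne_zero_iff φ hφ).2 (h1 n e G hG)
    · intro n e G hG
      rw [hσ, ← hgσ]
      refine off_gal hLvn hMor hCls K p s v F hyp h1 h2 N hφa0 σ hw ?_ n e G hG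
      intro n h4
      rw [hgσ, hit, hit] at h4
      refine h3 n ?_
      change Prl _ _
      rw [Bas.prl_iff_det (Bas.iter_ne hmor (hne1 a) n) (Bas.iter_ne hmor (hne1 b) n)]
      obtain ⟨c', hc', h5⟩ := h4
      apply hφ
      have e0 := congrFun h5 0
      have e1 := congrFun h5 1
      simp only [Pi.smul_apply, smul_eq_mul] at e0 e1
      rw [map_mul, map_mul, e0, e1]
      ring
  have hdgφ : ∀ P : Fin 2 → L, dg K (fun i => φ (P i)) = dg K P := by
    intro P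
    unfold dg
    rw [← GAL.H28.finrank_adjoin_hom φ, Set.image_singleton, map_div₀]
  have hdg2φ : ∀ P P' : Fin 2 → L, dg2 K (fun i => φ (P i)) (fun i => φ (P' i)) =
      dg2 K P P' := by
    intro P P'
    unfold dg2
    rw [← GAL.H28.finrank_adjoin_hom φ, Set.image_pair, map_div₀, map_div₀]
  obtain ⟨h, hlim, hle⟩ := hmain N (φ a) σ hw hper (by
    intro n
    rw [hσ, hit, hit, hdgφ, hdg2φ]
    exact hdeg n)
  refine ⟨h, hlim.congr fun n => ?_, ?_⟩
  · rw [hit]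
    have h2 := logHeight_hom (φ : L →+* N) ((gAct F L)^[n] ![a, 1])
    exact congrArg (fun x => x / ((p ^ s : ℕ) : ℝ) ^ n) h2
  · have h1 : Module.finrank K (IntermediateField.adjoin K {φ a}) =
        Module.finrank K (IntermediateField.adjoin K {a}) := by
      rw [← GAL.H28.finrank_adjoin_hom φ {a}, Set.image_singleton]
    rw [h1] at hle
    exact hle

section degree

variable {K : Type} [Field K] {N : Type} [Field N] [Algebra K N]

/-- the coordinates of the iterates are in the field of the point -/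
theorem iter_mem (F : Fin 2 → MvPolynomial (Fin 2) K) (L : IntermediateField K N)
    {P : Fin 2 → N} (hP : ∀ i, P i ∈ L) (n : ℕ) : ∀ i, (gAct F N)^[n] P i ∈ L := by
  have h1 : P = fun i => L.val (⟨P i, hP i⟩ : L) := rfl
  intro i
  rw [h1, gAct_iter_map F L.val n]
  exact Subtype.mem _

/-- the degree of a pair does not increase -/
theorem dg2_iter_le [FiniteDimensional K N] (F : Fin 2 → MvPolynomial (Fin 2) K) (a b : N)
    (n : ℕ) : dg2 K ((gAct F N)^[n] ![a, 1]) ((gAct F N)^[n] ![b, 1]) ≤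
      Module.finrank K (IntermediateField.adjoin K {a, b}) := by
  set L := IntermediateField.adjoin K {a, b} with hL
  have ha : a ∈ L := IntermediateField.subset_adjoin _ _ (by simp)
  have hb : b ∈ L := IntermediateField.subset_adjoin _ _ (by simp)
  have ha' : ∀ i, (![a, 1] : Fin 2 → N) i ∈ L := by
    intro i
    fin_cases i
    · exact ha
    · exact one_mem L
  have hb' : ∀ i, (![b, 1] : Fin 2 → N) i ∈ L := by
    intro i
    fin_cases i
    · exact hb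
    · exact one_mem L
  refine IntermediateField.finrank_le_of_le_right ?_
  rw [IntermediateField.adjoin_le_iff]
  rintro x (rfl | hx)
  · exact div_mem (iter_mem F L ha' n 0) (iter_mem F L ha' n 1)
  · rw [Set.mem_singleton_iff] at hx
    subst hx
    exact div_mem (iter_mem F L hb' n 0) (iter_mem F L hb' n 1)

end degree

/-- the polynomial form of the condition on the degrees -/
theorem num_delta (C δ : ℝ) (hC : 0 < C) (hδ : 0 < δ) : ∃ H : ℝ, 0 < H ∧ ∀ M d : ℕ, 1 ≤ d →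
    (M : ℝ) ^ (1 / 2 + δ) ≤ d →
    (M : ℝ) ≤ H * (d : ℝ) ^ 2 * Real.exp (-(C * (Real.log d) ^ (3 / 4 : ℝ))) := by
  set η : ℝ := 4 * δ / (1 + 2 * δ) with hη
  have hη0 : 0 < η := by positivity
  set T : ℝ := (C / η) ^ (4 : ℝ) with hT
  have hT0 : 0 ≤ T := by positivity
  refine ⟨Real.exp (C * T ^ (3 / 4 : ℝ)), Real.exp_pos _, fun M d hd hM => ?_⟩
  have hd1 : (1 : ℝ) ≤ d := by exact_mod_cast hd
  have hd0 : (0 : ℝ) < d := by linarith
  have ht : 0 ≤ Real.log d := Real.log_nonneg hd1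
  have h1 : C * (Real.log d) ^ (3 / 4 : ℝ) ≤ C * T ^ (3 / 4 : ℝ) + η * Real.log d := by
    rcases le_or_gt (Real.log d) T with h | h
    · have h2 : C * (Real.log d) ^ (3 / 4 : ℝ) ≤ C * T ^ (3 / 4 : ℝ) :=
        mul_le_mul_of_nonneg_left (Real.rpow_le_rpow ht h (by norm_num)) hC.le
      have h3 : 0 ≤ η * Real.log d := by positivity
      linarith
    · have hlog : 0 < Real.log d := lt_of_le_of_lt hT0 h
      have h2 : C / η ≤ (Real.log d) ^ (1 / 4 : ℝ) := by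
        have h3 : T ^ (1 / 4 : ℝ) ≤ (Real.log d) ^ (1 / 4 : ℝ) :=
          Real.rpow_le_rpow hT0 h.le (by norm_num)
        rwa [hT, ← Real.rpow_mul (by positivity), show (4 : ℝ) * (1 / 4) = 1 by norm_num,
          Real.rpow_one] at h3
      have h3 : Real.log d = (Real.log d) ^ (1 / 4 : ℝ) * (Real.log d) ^ (3 / 4 : ℝ) := by
        rw [← Real.rpow_add hlog]
        norm_num
      have h4 : 0 ≤ (Real.log d) ^ (3 / 4 : ℝ) := Real.rpow_nonneg ht _
      have h5 : C * (Real.log d) ^ (3 / 4 : ℝ) ≤ η * Real.log d := by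
        rw [div_le_iff₀ hη0] at h2
        calc C * (Real.log d) ^ (3 / 4 : ℝ)
            ≤ ((Real.log d) ^ (1 / 4 : ℝ) * η) * (Real.log d) ^ (3 / 4 : ℝ) :=
              mul_le_mul_of_nonneg_right h2 h4
          _ = η * ((Real.log d) ^ (1 / 4 : ℝ) * (Real.log d) ^ (3 / 4 : ℝ)) := by ring
          _ = η * Real.log d := by rw [← h3]
      have h6 : 0 ≤ C * T ^ (3 / 4 : ℝ) := by positivity
      linarith
  have h2 : (M : ℝ) ≤ (d : ℝ) ^ 2 * Real.exp (-(η * Real.log d)) := by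
    have hM0 : (0 : ℝ) ≤ M := Nat.cast_nonneg _
    have h3 : ((M : ℝ) ^ (1 / 2 + δ)) ^ (1 / (1 / 2 + δ)) ≤ (d : ℝ) ^ (1 / (1 / 2 + δ)) :=
      Real.rpow_le_rpow (Real.rpow_nonneg hM0 _) hM (by positivity)
    rw [← Real.rpow_mul hM0, mul_one_div_cancel (by positivity), Real.rpow_one] at h3
    refine h3.trans (le_of_eq ?_)
    have h4 : (1 : ℝ) / (1 / 2 + δ) = 2 - η := by
      rw [hη]
      field_simp
      ring
    rw [h4, Real.rpow_def_of_pos hd0, ← Real.exp_log (pow_pos hd0 2), Real.log_pow,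
      ← Real.exp_add]
    congr 1
    push_cast
    ring
  have h3 : Real.exp (-(η * Real.log d)) ≤
      Real.exp (C * T ^ (3 / 4 : ℝ)) * Real.exp (-(C * (Real.log d) ^ (3 / 4 : ℝ))) := by
    rw [← Real.exp_add]
    apply Real.exp_le_exp.2
    linarith
  calc (M : ℝ) ≤ (d : ℝ) ^ 2 * Real.exp (-(η * Real.log d)) := h2
    _ ≤ (d : ℝ) ^ 2 * (Real.exp (C * T ^ (3 / 4 : ℝ)) *
        Real.exp (-(C * (Real.log d) ^ (3 / 4 : ℝ)))) :=
        mul_le_mul_of_nonneg_left h3 (by positivity)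
    _ = _ := by ring

/-- the form with a power -/
theorem fin_delta (hLvn : LvnStatement) (hRamj : RamjStatement) (hHomc : HomcStatement)
    (hSharpb : SharpbStatement) (hNum : NumStatement2) (hCls : ClsStatement) (hMor : MorStatement)
    (hSeg : SegStatement) (hSegH : SegHStatement) (hBif : E.BifS)
    (K : Type) [Field K] [NumberField K] (p s : ℕ) (v : FinitePlace K)
    (F : Fin 2 → MvPolynomial (Fin 2) K) (hyp : HypR p s v F) (δ : ℝ) (hδ : 0 < δ) :
    ∃ c : ℝ, 0 < c ∧ ∀ (N : Type) [Field N] [NumberField N] [Algebra K N] (a b : N),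
      WandP F ![a, 1] → Polynomial.aeval b (minpoly K a) = 0 → Off F ![a, 1] ![b, 1] →
      (∀ n : ℕ, (dg2 K ((gAct F N)^[n] ![a, 1]) ((gAct F N)^[n] ![b, 1]) : ℝ) ^ (1 / 2 + δ) ≤
        dg K ((gAct F N)^[n] ![a, 1])) →
      ∃ h : ℝ, Tendsto (fun n : ℕ => Height.logHeight ((gAct F N)^[n] ![a, 1]) /
        (Module.finrank ℚ N : ℝ) / ((p ^ s : ℕ) : ℝ) ^ n) atTop (𝓝 h) ∧
        c / (Module.finrank K (IntermediateField.adjoin K {a}) : ℝ) ≤ h := by
  obtain ⟨C, hC, h⟩ := fin_all hLvn hRamj hHomc hSharpb hNum hCls hMor hSeg hSegH hBif K p s v F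
    hyp
  obtain ⟨H, hH, hHd⟩ := num_delta C δ hC hδ
  obtain ⟨c, hc, h⟩ := h H hH
  refine ⟨c, hc, fun N _ _ _ a b ha hb hoff hdeg => h N a b ha hb hoff fun n => ?_⟩
  exact hHd _ _ Module.finrank_pos (hdeg n)

/-- **FIN** -/
theorem fin (hLvn : LvnStatement) (hRamj : RamjStatement) (hHomc : HomcStatement)
    (hSharpb : SharpbStatement) (hNum : NumStatement2) (hCls : ClsStatement) (hMor : MorStatement)
    (hSeg : SegStatement) (hSegH : SegHStatement) (hBif : E.BifS) : UStatement := by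
  intro K _ _ p s v F hyp hcrit hone δ hδ
  obtain ⟨c, hc, h⟩ := fin_delta hLvn hRamj hHomc hSharpb hNum hCls hMor hSeg hSegH hBif K p s v
    F hyp δ hδ
  refine ⟨c, hc, fun N _ _ _ a b ha hb hne hdeg => ?_⟩
  refine h N a b ha hb (Or.inr ⟨hcrit, hone, hne⟩) fun n => le_trans ?_ (hdeg n)
  refine Real.rpow_le_rpow (Nat.cast_nonneg _) ?_ (by positivity)
  exact_mod_cast dg2_iter_le F a b n

end Pool.DynLehmer.LP
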