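import Pool.Agent.Lib.MP_2194ec_nt.LP.DefsP
import Pool.Agent.Lib.MP_2194ec_nt.LP.Fin2

set_option autoImplicit false
set_option linter.unusedSectionVars false

/-!
# The end of the proof of the strong form of Theorem V
-/

namespace Pool.DynLehmer.LP
open MvPolynomial NumberField Filter Topology Pool.DynLehmer Pool.DynLehmer.SB Pool.DynLehmer.SP
  Pool.DynLehmer.GS Pool.DynLehmer.GAL
open scoped Classical

namespace VpAux

section ht

variable {K : Type} [Field K] {N : Type} [Field N] [NumberField N] [Algebra K N] {q : ℕ}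
  {F : Fin 2 → MvPolynomial (Fin 2) K}

theorem hasHt_prl (hF : ∀ i, (F i).IsHomogeneous q) {P Q : Fin 2 → N} (h : Prl P Q) {x : ℝ}
    (hP : HasHt q F P x) : HasHt q F Q x := by
  refine hP.congr fun n => ?_
  obtain ⟨c, hc, h1⟩ := Bas.prl_iter hF h n
  rw [h1, Height.logHeight_smul_eq_logHeight _ hc]

theorem hasHt_gal {P : Fin 2 → N} (σ : N ≃ₐ[K] N) {x : ℝ} (hP : HasHt q F P x) :
    HasHt q F (gal σ P) x := by
  refine hP.congr fun n => ?_
  rw [SP.CasebAux.gAct_iter_gal]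
  congr 2
  exact (logHeight_ringEquiv (σ : N ≃+* N) _).symm

theorem hasHt_iter (hq : 0 < q) {P : Fin 2 → N} {x : ℝ} (hP : HasHt q F P x) (k : ℕ) :
    HasHt q F ((gAct F N)^[k] P) ((q : ℝ) ^ k * x) := by
  have hq0 : (0 : ℝ) < q := by exact_mod_cast hq
  have h1 := ((tendsto_add_atTop_iff_nat k).2 hP).const_mul ((q : ℝ) ^ k)
  refine h1.congr fun n => ?_
  rw [← Function.iterate_add_apply, pow_add]
  have := pow_pos hq0 n
  have := pow_pos hq0 k
  field_simp

/-- a conjugate of the coordinate of a point -/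
theorem prl_conj {y : Fin 2 → N} (hy : y 1 ≠ 0) {b : N} (σ : N ≃ₐ[K] N)
    (hσ : σ (y 0 / y 1) = b) : Prl (gal σ y) ![b, 1] := by
  refine ⟨σ (y 1), by simpa using hy, ?_⟩
  funext i
  fin_cases i
  · change σ (y 0) = σ (y 1) * b
    rw [← hσ, map_div₀]
    have h1 : σ (y 1) ≠ 0 := by simpa using hy
    rw [mul_div_cancel₀ _ h1]
  · change σ (y 1) = σ (y 1) * 1
    rw [mul_one]

end ht

end VpAux

open FinAux VpAux in
/-- The bound in a Galois extension. -/
theorem vp_gal (hLvn : LvnStatement) (hRamj : RamjStatement) (hHomc : HomcStatement)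
    (hVsharp : VsharpStatement) (hVcntp : VcntpStatement) (hVnor : VnorStatement)
    (hVnump : VnumpStatement) (hMor : MorStatement) (hSeg : SegStatement)
    (hSegH : SegHStatement) (hBif : E.BifS)
    (K : Type) [Field K] [NumberField K] (p s : ℕ) (v : FinitePlace K)
    (F : Fin 2 → MvPolynomial (Fin 2) K) (hyp : HypR p s v F) (hLat : ¬ Lat F) :
    ∃ κ R : ℕ, (CritW F → κ = 0) ∧ (CritW F → OneOrb F → R = 1) ∧ ∀ δ : ℝ, 0 < δ →
    ∃ c : ℝ, 0 < c ∧ ∀ (N : Type) [Field N] [NumberField N] [Algebra K N] [IsGalois K N] (a : N),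
      WandP F ![a, 1] →
      (∀ (n : ℕ) (y : Fin 2 → N), y = (gAct F N)^[n] ![a, 1] → 1 / δ < (dg K y : ℝ) →
        ((p ^ s : ℕ) : ℝ) ^ n * (dg K y : ℝ) ^ (1 - δ) ≤ dg K ![a, 1] →
        ∃ (t : ℕ) (S : Finset N), (t : ℝ) ≤ (dg K y : ℝ) ^ (1 - δ) ∧
          (∀ b ∈ S, (∃ σ : N ≃ₐ[K] N, σ (y 0 / y 1) = b) ∧
            Module.finrank K (IntermediateField.adjoin K {y 0 / y 1, b}) ≤ t * dg K y) ∧
          ∀ m : ℕ, ((p ^ s : ℕ) : ℝ) ^ m ≤ (dg K y : ℝ) ^ δ →
            R * ((t : ℝ) * (dg K y : ℝ) ^ δ) ^ κ <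
              (S.image fun b => pr ((gAct F N)^[m] ![b, 1])).card) →
      ∃ h : ℝ, HasHt (p ^ s) F ![a, 1] h ∧
        c / (Module.finrank K (IntermediateField.adjoin K {a}) : ℝ) ≤ h := by
  have hq2 : 2 ≤ p ^ s := by
    calc 2 ≤ p := hyp.prime.two_le
      _ = p ^ 1 := (pow_one p).symm
      _ ≤ p ^ s := Nat.pow_le_pow_right hyp.prime.pos hyp.pos
  have hq1 : 1 ≤ p ^ s := by omega
  have hq0 : (0 : ℝ) < ((p ^ s : ℕ) : ℝ) := by
    have : 0 < p ^ s := by omega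
    exact_mod_cast this
  have hmor : Mor (p ^ s) F := hMor K p s v F hyp
  have hz : ∀ z : Fin 2 → AlgebraicClosure K, (∀ i, aeval z (F i) = 0) → z = 0 := by
    intro z hz
    by_contra h0
    exact hmor.ne (AlgebraicClosure K) z h0 (funext hz)
  obtain ⟨κ, R, C, hκ, hR, hR1, hC1, hV⟩ := hVcntp K p s v F hyp hLat
  refine ⟨κ, R, hκ, hR, fun δ hδ => ?_⟩
  obtain ⟨Fz, hF1, hF2, hF3, hF4, hF5⟩ := hSeg K p s v F hyp
  obtain ⟨B, c₁, hB1, hc₁, hL⟩ := hLvn K p s v F hyp (1 / 16) (by norm_num)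
  obtain ⟨u, hu0, hu1, hu⟩ := exists_unif v
  obtain ⟨A, B₂, hA, hB₂, hS⟩ := hVsharp K p s (Fin 2 × Fin 2) (by simp) hyp.prime hyp.pos v Fz
    hF1 hyp.above hF2 hF3 hF4 u hu0 hu1 hu
  set θ : ℝ := ((Fintype.card (Fin 2 × Fin 2) - 1 : ℕ) : ℝ) /
    (((Fintype.card (Fin 2 × Fin 2) - 1 : ℕ) : ℝ) + 1) with hθ
  have hθ0 : 0 ≤ θ := by positivity
  have hθ1 : θ < 1 := by
    rw [hθ, div_lt_one (by positivity)]
    linarith
  obtain ⟨X₁, c₀, _, hN₁⟩ := hVnump (min δ (1 / 2)) A B₂ B θ C (by positivity) hA hB₂ hB1 hθ0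
    hθ1 hC1
  obtain ⟨X₂, c₂, hc₂, hN₂⟩ := hVnump δ A B₂ B θ C hδ hA hB₂ hB1 hθ0 hθ1 hC1
  set X : ℕ := max (max X₁ X₂) (⌈1 / δ⌉₊ + 1) with hX
  obtain ⟨c₃, hc₃, hVn⟩ := hVnor K p s v F hyp X
  have hXX : (1 : ℝ) ≤ X := by
    have h1 : 1 ≤ X := by
      rw [hX]
      exact le_trans (by omega) (le_max_right _ _)
    exact_mod_cast h1
  have hlogX : 0 ≤ Real.log X := Real.log_nonneg hXX
  have hTX : 0 < B * (1 + Real.log X) := by positivity
  refine ⟨min (min c₁ (c₂ / 2)) (c₃ / (B * (1 + Real.log X))), lt_min (lt_min hc₁ (by positivity))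
    (by positivity), ?_⟩
  intro N _ _ _ _ a ha hH
  obtain ⟨S, e, hSe, hsum⟩ := exists_above v N
  set P : Fin 2 → N := ![a, 1] with hP
  have hP0 : P ≠ 0 := fun h0 => one_ne_zero (congrFun h0 1 : (1 : N) = 0)
  obtain ⟨h, hlim, halt⟩ := hL N S e hSe hsum P hP0 ha
  refine ⟨h, hlim, ?_⟩
  have hh0 : 0 ≤ h := ge_of_tendsto' hlim fun n => div_nonneg (div_nonneg
    (Height.logHeight_nonneg _) (Nat.cast_nonneg _)) (by positivity)
  have hhne := hhat_ne_zero hq2 F hyp.hom hz N P hP0 ha h hlim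
  have hhpos : 0 < h := lt_of_le_of_ne hh0 (Ne.symm hhne)
  have hD0' : dg K P = Module.finrank K (IntermediateField.adjoin K {a}) := by
    unfold dg
    have h1 : P 0 / P 1 = a := by
      change a / 1 = a
      rw [div_one]
    rw [h1]
  have hD0eq : dgo K (nz P) = Module.finrank K (IntermediateField.adjoin K {a}) := by
    rw [dgo_eq hP0, hD0']
  have hD0pos : (0 : ℝ) < Module.finrank K (IntermediateField.adjoin K {a}) := by
    exact_mod_cast Module.finrank_pos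
  rw [div_le_iff₀ hD0pos]
  rcases halt with h1 | ⟨k, hk1, hk2⟩
  · rw [hD0eq] at h1
    exact ((min_le_left _ _).trans (min_le_left _ _)).trans (by linarith)
  rw [hD0eq] at hk1
  rw [hD0'] at hH
  set D₀ : ℝ := (Module.finrank K (IntermediateField.adjoin K {a}) : ℝ) with hD₀
  -- the point at level `k`
  set y : Fin 2 → N := (gAct F N)^[k] P with hy
  have hy0 : y ≠ 0 := Bas.iter_ne hmor hP0 k
  have hwy : WandP F y := Bas.wandP_iter ha k
  have hlimy : HasHt (p ^ s) F y (((p ^ s : ℕ) : ℝ) ^ k * h) := hasHt_iter (by omega) hlim k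
  have hhypos : 0 < ((p ^ s : ℕ) : ℝ) ^ k * h := mul_pos (pow_pos hq0 k) hhpos
  rw [dgo_eq hy0] at hk1 hk2
  set D : ℕ := dg K y with hD
  have hD1 : 1 ≤ D := Module.finrank_pos
  have hD1r : (1 : ℝ) ≤ D := by exact_mod_cast hD1
  have hlogD : 0 ≤ Real.log D := Real.log_nonneg hD1r
  set T : ℝ := B * (1 + Real.log D) with hT
  have hT1 : 1 ≤ T := by nlinarith
  have hT0 : 0 < T := by linarith
  by_cases hDX : D ≤ X
  · -- bounded degree
    refine (min_le_right _ _).trans ?_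
    have h1 := hVn N y hy0 hwy hDX _ hlimy
    rw [div_le_iff₀ hTX]
    have h2 : T ≤ B * (1 + Real.log X) := by
      rw [hT]
      have h3 : Real.log D ≤ Real.log X := Real.log_le_log (by linarith) (by exact_mod_cast hDX)
      have h4 : 0 ≤ B := by linarith
      exact mul_le_mul_of_nonneg_left (by linarith) h4
    calc c₃ ≤ ((p ^ s : ℕ) : ℝ) ^ k * h := h1
      _ ≤ ((p ^ s : ℕ) : ℝ) ^ k * h * D := le_mul_of_one_le_right hhypos.le hD1r
      _ = (((p ^ s : ℕ) : ℝ) ^ k * D) * h := by ring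
      _ ≤ (T * D₀) * h := mul_le_mul_of_nonneg_right hk1 hh0
      _ = (h * D₀) * T := by ring
      _ ≤ (h * D₀) * (B * (1 + Real.log X)) :=
        mul_le_mul_of_nonneg_left h2 (mul_nonneg hh0 hD0pos.le)
  refine ((min_le_left _ _).trans (min_le_right _ _)).trans ?_
  push Not at hDX
  have hDX1 : X₁ ≤ D := ((le_max_left _ _).trans (le_max_left _ _)).trans hDX.le
  have hDX2 : X₂ ≤ D := ((le_max_right _ _).trans (le_max_left _ _)).trans hDX.le
  have hDX3 : ⌈1 / δ⌉₊ + 1 ≤ D := (le_max_right _ _).trans hDX.le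
  have hDδ : 1 / δ < (D : ℝ) := by
    have h1 : (1 / δ : ℝ) ≤ (⌈1 / δ⌉₊ : ℝ) := Nat.le_ceil _
    have h2 : ((⌈1 / δ⌉₊ : ℕ) : ℝ) + 1 ≤ D := by exact_mod_cast hDX3
    linarith
  have hD2 : 1 < D := by
    have h1 : 0 < ⌈1 / δ⌉₊ := Nat.ceil_pos.2 (by positivity)
    omega
  have hy1 : y 1 ≠ 0 := by
    intro h0
    have h1 : D = 1 := by
      rw [hD, dg, h0, div_zero, IntermediateField.adjoin_zero, IntermediateField.finrank_bot]
    omega
  -- the level is thin
  have hTδ : T ≤ (D : ℝ) ^ δ := by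
    have h1 := (hN₁ D 1 1 hDX1 le_rfl (by
      push_cast
      exact Real.one_le_rpow hD1r (by
        have := min_le_right δ (1 / 2 : ℝ)
        linarith)) le_rfl (by
      rw [← hT]
      push_cast
      nlinarith)).1
    refine h1.trans (Real.rpow_le_rpow_of_exponent_le hD1r (min_le_left _ _))
  have hthin : ((p ^ s : ℕ) : ℝ) ^ k * (D : ℝ) ^ (1 - δ) ≤ D₀ := by
    have hDpos : (0 : ℝ) < D := by linarith
    have h1 : (D : ℝ) ^ (1 - δ) = D / (D : ℝ) ^ δ := by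
      rw [Real.rpow_sub hDpos, Real.rpow_one]
    have h2 : 0 < (D : ℝ) ^ δ := Real.rpow_pos_of_pos hDpos _
    rw [h1, ← mul_div_assoc, div_le_iff₀ h2]
    calc ((p ^ s : ℕ) : ℝ) ^ k * D ≤ T * D₀ := hk1
      _ ≤ (D : ℝ) ^ δ * D₀ := mul_le_mul_of_nonneg_right hTδ hD0pos.le
      _ = _ := mul_comm _ _
  obtain ⟨t, Sb, ht, hSb, hSm⟩ := hH k y rfl hDδ hthin
  have hSbne : Sb.Nonempty := by
    have h1 := hSm 0 (by
      rw [pow_zero]
      exact Real.one_le_rpow hD1r hδ.le)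
    have h2 : (0 : ℝ) < ((Sb.image fun b => pr ((gAct F N)^[0] ![b, 1])).card : ℝ) :=
      lt_of_le_of_lt (by positivity) h1
    have h3 : 0 < (Sb.image fun b => pr ((gAct F N)^[0] ![b, 1])).card := by exact_mod_cast h2
    exact Finset.image_nonempty.1 (Finset.card_pos.1 h3)
  have ht1 : 1 ≤ t := by
    obtain ⟨b, hb⟩ := hSbne
    have h1 := (hSb b hb).2
    have h2 : 0 < Module.finrank K (IntermediateField.adjoin K {y 0 / y 1, b}) :=
      Module.finrank_pos
    rcases Nat.eq_zero_or_pos t with h0 | h0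
    · rw [h0, zero_mul] at h1
      omega
    · exact h0
  have hX1 : 1 ≤ ⌊T⌋₊ := Nat.le_floor (by exact_mod_cast hT1)
  have hTE : ((⌊T⌋₊ * ⌊T⌋₊ : ℕ) : ℝ) ≤ 4 * (B * (1 + Real.log D)) ^ 2 := by
    have h1 : ((⌊T⌋₊ : ℕ) : ℝ) ≤ T := Nat.floor_le (by linarith)
    have h2 : (0 : ℝ) ≤ ((⌊T⌋₊ : ℕ) : ℝ) := Nat.cast_nonneg _
    rw [← hT]
    push_cast
    nlinarith
  obtain ⟨-, M, U, Q, hU1, hUM, hQ1, htM, hQδ, hEQ, hCUQ, hnum⟩ := hN₂ D t (⌊T⌋₊ * ⌊T⌋₊) hDX2 ht1
    ht (Nat.mul_pos hX1 hX1) hTE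
  -- the conjugate
  obtain ⟨b', hb', hoff⟩ := hV N y hy0 hwy _ hhypos hlimy (Sb.image fun b => ![b, 1]) (by
    intro b' hb'
    obtain ⟨b, hb, rfl⟩ := Finset.mem_image.1 hb'
    obtain ⟨σ, hσ⟩ := (hSb b hb).1
    have h1 := prl_conj hy1 σ hσ
    exact ⟨fun h0 => one_ne_zero (congrFun h0 1 : (1 : N) = 0),
      Bas.wandP_prl hyp.hom (Bas.prl_symm h1) (E.wand_gal hwy σ),
      hasHt_prl hyp.hom h1 (hasHt_gal σ hlimy)⟩) U Q hU1 hQ1 (by
    intro m hm
    have h1 := hSm m (by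
      have h2 : (((p ^ s) ^ m : ℕ) : ℝ) ≤ Q := by exact_mod_cast hm
      push_cast at h2
      have h3 := h2.trans hQδ
      push_cast
      exact h3)
    rw [Finset.image_image]
    have h2 : ((R * (C * U * Q) ^ κ : ℕ) : ℝ) ≤ R * ((t : ℝ) * (D : ℝ) ^ δ) ^ κ := by
      push_cast
      push_cast at hCUQ
      exact mul_le_mul_of_nonneg_left (pow_le_pow_left₀ (by positivity) hCUQ κ)
        (Nat.cast_nonneg _)
    exact_mod_cast h2.trans_lt h1)
  obtain ⟨b, hb, rfl⟩ := Finset.mem_image.1 hb'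
  obtain ⟨⟨σ, hσ⟩, hfr⟩ := hSb b hb
  set y' : Fin 2 → N := ![b, 1] with hy'
  have hy'0 : y' ≠ 0 := fun h0 => one_ne_zero (congrFun h0 1 : (1 : N) = 0)
  have hyy : Prl (gal σ y) y' := prl_conj hy1 σ hσ
  have hwy' : WandP F y' := Bas.wandP_prl hyp.hom (Bas.prl_symm hyy) (E.wand_gal hwy σ)
  -- the field
  set L := IntermediateField.adjoin K {y 0 / y 1, y' 0 / y' 1} with hLdef
  have hLfin : FiniteDimensional K L := inferInstance
  have hLnf : NumberField L := NumberField.of_module_finite K L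
  obtain ⟨Y, hY0, hY1, hY2⟩ := exists_pt L hy0 (IntermediateField.subset_adjoin _ _ (by simp))
  obtain ⟨Y', hY'0, hY'1, hY'2⟩ := exists_pt L hy'0 (IntermediateField.subset_adjoin _ _ (by simp))
  set φ₀ : L →ₐ[K] N := L.val with hφ₀
  have hadj : IntermediateField.adjoin K {Y 0 / Y 1, Y' 0 / Y' 1} = ⊤ :=
    adj_top hLdef _ _ hY2 hY'2
  have hφY : (nz fun i => φ₀ (Y i)) ∈ orb (N ≃ₐ[K] N) (nz y) := by
    have h1 : nz y = nz fun i => φ₀ (Y i) := nz_prl hy0 (HomcAux.emb_ne φ₀ hY0) hY1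
    rw [← h1]
    exact self_mem_orb _
  have hφY' : (nz fun i => φ₀ (Y' i)) ∈ orb (N ≃ₐ[K] N) (nz y) := by
    have h1 : nz (gal σ y) = nz fun i => φ₀ (Y' i) :=
      nz_prl (gal_ne σ hy0) (HomcAux.emb_ne φ₀ hY'0) (Bas.prl_trans hyy hY'1)
    rw [← h1]
    have h2 : nz (gal σ y) = σ • nz y := (HomcAux.gal_nz σ hy0).symm
    rw [h2]
    exact smul_mem_orb _ _
  have hbad : ∑ w ∈ S, (e w : ℝ) * (((orb (N ≃ₐ[K] N) (nz y)).filter fun z =>
      T ≤ (disc K w z : ℝ)).card : ℝ) ≤ 1 / 16 * Module.finrank K N * dgo K (nz y) := by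
    rw [dgo_eq hy0]
    exact hk2
  have hgood := good_pairs hHomc hRamj v u hu φ₀ hY0 hY'0 hadj hφY hφY' S e hSe hsum T hbad
  have hcardL : Nat.card (L →ₐ[K] N) = Module.finrank K L := (hHomc K N L φ₀ Y hY0).2.1
  -- the pair is wandering and on no curve of degree at most `U`
  have hwY : WandP F Y := (Bas.wandP_map φ₀).1 (Bas.wandP_prl hyp.hom (Bas.prl_symm hY1) hwy)
  have hwY' : WandP F Y' := (Bas.wandP_map φ₀).1
    (Bas.wandP_prl hyp.hom (Bas.prl_symm hY'1) hwy')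
  have hx0 : seg Y Y' ≠ 0 := E.seg_ne hY0 hY'0
  have hxw : ¬ ∃ m n : ℕ, m ≠ n ∧ ∃ c : L, c ≠ 0 ∧
      (gAct Fz L)^[n] (seg Y Y') = c • (gAct Fz L)^[m] (seg Y Y') := by
    rintro ⟨m, n, hmn, c, hc0, h1⟩
    rw [E.gAct_seg hF5, E.gAct_seg hF5] at h1
    obtain ⟨d, hd, h2⟩ := (E.prl_of_seg (Bas.iter_ne hmor hY0 n) (Bas.iter_ne hmor hY'0 n)
      (Bas.iter_ne hmor hY0 m) (Bas.iter_ne hmor hY'0 m) ⟨c, hc0, h1⟩).1
    exact hwY ⟨m, n, hmn, d, hd, h2⟩
  have hLM : Module.finrank K L ≤ M * U := by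
    have h1 : y' 0 / y' 1 = b := by
      change b / 1 = b
      rw [div_one]
    have h2 : Module.finrank K L ≤ t * D := by
      rw [hLdef, h1]
      exact hfr
    exact h2.trans htM
  obtain ⟨h', hlim', hle⟩ := hS (⌊T⌋₊ * ⌊T⌋₊) (Nat.mul_pos hX1 hX1) L N S e hcardL hSe hsum.ge
    hgood (seg Y Y') hx0 hxw M U hU1 hUM hLM (by
    intro m hm hon
    rw [E.gAct_seg hF5] at hon
    obtain ⟨G, hG, hG'⟩ := hBif K (p ^ s) F hq1 hmor Fz hF1 hF5 L _ _ U
      (Bas.iter_ne hmor hY0 m) (Bas.iter_ne hmor hY'0 m) (Bas.wandP_iter hwY m)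
      (Bas.wandP_iter hwY' m) hon
    obtain ⟨d₁, d₂, -, -, -, -, hBi⟩ := hG.hom
    have hmQ : (p ^ s) ^ m ≤ Q := by
      have h1 := hm.trans hEQ
      exact_mod_cast h1
    refine hoff m hmQ G hG ?_
    have e1 : (gAct F N)^[m] (fun i => (Y i : N)) = fun i => φ₀ ((gAct F L)^[m] Y i) :=
      gAct_iter_map F φ₀ m Y
    have e2 : (gAct F N)^[m] (fun i => (Y' i : N)) = fun i => φ₀ ((gAct F L)^[m] Y' i) :=
      gAct_iter_map F φ₀ m Y'
    rw [Bas.ev_prl hBi (Bas.prl_iter hyp.hom hY1 m) (Bas.prl_iter hyp.hom hY'1 m), e1, e2,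
      ev_hom φ₀ ((gAct F L)^[m] Y) ((gAct F L)^[m] Y') G, hG', map_zero])
  have hh' := height_pair hSegH hyp.hom (by omega) hF5 φ₀ σ 0 (P := y) hY1
    (Bas.prl_trans hyy hY'1) hlimy hlim'
  rw [pow_zero, one_mul] at hh'
  rw [← hT, le_div_iff₀ hT0] at hnum
  have hD0r : (0 : ℝ) ≤ D := by linarith
  have h1 : c₂ * T ≤ D * (2 * (((p ^ s : ℕ) : ℝ) ^ k * h)) :=
    hnum.trans (mul_le_mul_of_nonneg_left (hle.trans hh') hD0r)
  have h2 : D * (2 * (((p ^ s : ℕ) : ℝ) ^ k * h)) ≤ 2 * (T * D₀) * h := by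
    have h3 := mul_le_mul_of_nonneg_right hk1 hh0
    linarith
  have h3 : c₂ * T ≤ (2 * D₀ * h) * T := by linarith
  have h4 := le_of_mul_le_mul_right h3 hT0
  linarith

namespace VpAux

/-- the image of a point under an embedding -/
theorem pr_hom {K L N : Type} [Field K] [Field L] [Field N] [Algebra K L] [Algebra K N]
    (φ : L →ₐ[K] N) (P : Fin 2 → L) : pr (fun i => φ (P i)) = (pr P).map φ := by
  unfold pr
  by_cases h : P 1 = 0
  · simp [h]
  · rw [if_neg h, if_neg ((map_ne_zero_iff φ φ.toRingHom.injective).2 h)]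
    show some (φ (P 0) / φ (P 1)) = some (φ (P 0 / P 1))
    rw [map_div₀]

end VpAux

open FinAux VpAux in
/-- **VPFIN** -/
theorem vpfin (hLvn : LvnStatement) (hRamj : RamjStatement) (hHomc : HomcStatement)
    (hVsharp : VsharpStatement) (hVcntp : VcntpStatement) (hVnor : VnorStatement)
    (hVnump : VnumpStatement) (hMor : MorStatement) (hSeg : SegStatement)
    (hSegH : SegHStatement) (hBif : E.BifS) : VpStatement := by
  intro K _ _ p s v F hyp hLat
  obtain ⟨κ, R, hκ, hR, hmain⟩ := vp_gal hLvn hRamj hHomc hVsharp hVcntp hVnor hVnump hMor hSeg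
    hSegH hBif K p s v F hyp hLat
  refine ⟨κ, R, hκ, hR, fun δ hδ => ?_⟩
  obtain ⟨c, hc, hmain⟩ := hmain δ hδ
  refine ⟨c, hc, ?_⟩
  intro L _ _ _ a ha hH
  -- the Galois closure
  let N := IntermediateField.normalClosure K L (AlgebraicClosure L)
  have hfdKL : FiniteDimensional K L := Module.Finite.of_restrictScalars_finite ℚ K L
  have hfd : FiniteDimensional K N := normalClosure.is_finiteDimensional K L (AlgebraicClosure L)
  have hNnf : NumberField N := NumberField.of_module_finite K N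
  have hnormal : Normal K N := normalClosure.normal K L (AlgebraicClosure L)
  have hgal : IsGalois K N := ⟨⟩
  let φ : L →ₐ[K] N := IsScalarTower.toAlgHom K L N
  have hφ : Function.Injective φ := φ.toRingHom.injective
  have hpt : ∀ x : L, (![φ x, 1] : Fin 2 → N) = fun i => φ ((![x, 1] : Fin 2 → L) i) := by
    intro x
    funext i
    fin_cases i
    · rfl
    · exact (map_one φ).symm
  have hit : ∀ (x : L) (n : ℕ), (gAct F N)^[n] ![φ x, 1] =
      fun i => φ ((gAct F L)^[n] ![x, 1] i) := by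
    intro x n
    rw [hpt, gAct_iter_map]
  have hw : WandP F ![φ a, 1] := by
    rw [hpt]
    exact (Bas.wandP_map φ).2 ha
  have hdgφ : ∀ P : Fin 2 → L, dg K (fun i => φ (P i)) = dg K P := by
    intro P
    unfold dg
    rw [← GAL.H28.finrank_adjoin_hom φ, Set.image_singleton, map_div₀]
  obtain ⟨h, hlim, hle⟩ := hmain N (φ a) hw (by
    intro n y hy hyδ hthin
    rw [hit] at hy
    subst hy
    rw [hdgφ] at hyδ hthin ⊢
    rw [hpt, hdgφ] at hthin
    obtain ⟨t, S, ht, hS, hSm⟩ := hH n _ rfl hyδ hthin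
    refine ⟨t, S.image φ, ht, ?_, ?_⟩
    · intro b hb
      obtain ⟨b', hb', rfl⟩ := Finset.mem_image.1 hb
      obtain ⟨h2, h3⟩ := hS b' hb'
      set z : L := (gAct F L)^[n] ![a, 1] 0 / (gAct F L)^[n] ![a, 1] 1 with hz
      have hz' : φ ((gAct F L)^[n] ![a, 1] 0) / φ ((gAct F L)^[n] ![a, 1] 1) = φ z := by
        rw [hz, map_div₀]
      rw [hz']
      constructor
      · have h4 : minpoly K (φ z) = minpoly K z := minpoly.algHom_eq φ hφ z
        refine minpoly.exists_algEquiv_of_root' (Algebra.IsAlgebraic.isAlgebraic (φ z)) ?_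
        rw [h4, Polynomial.aeval_algHom_apply, h2, map_zero]
      · rw [← Set.image_pair, GAL.H28.finrank_adjoin_hom]
        exact h3
    · intro m hm
      have h1 : ((S.image φ).image fun b => pr ((gAct F N)^[m] ![b, 1])).card =
          (S.image fun b => pr ((gAct F L)^[m] ![b, 1])).card := by
        rw [Finset.image_image, ← Finset.card_image_of_injective
          (S.image fun b => pr ((gAct F L)^[m] ![b, 1])) (Option.map_injective hφ),
          Finset.image_image]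
        congr 1
        refine Finset.image_congr fun b _ => ?_
        simp only [Function.comp]
        rw [hit, pr_hom]
      have h5 : ∀ {α β : Type} (d1 d2 : DecidableEq β) (T : Finset α) (f : α → β),
          (@Finset.image α β d1 f T).card = (@Finset.image α β d2 f T).card := by
        intro α β d1 d2 T f
        rw [Subsingleton.elim d1 d2]
      refine (hSm m hm).trans_eq (Nat.cast_inj.2 ?_)
      exact (h5 _ _ _ _).trans (h1.symm.trans (h5 _ _ _ _)))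
  refine ⟨h, hlim.congr fun n => ?_, ?_⟩
  · rw [hit]
    have h2 := logHeight_hom (φ : L →+* N) ((gAct F L)^[n] ![a, 1])
    exact congrArg (fun x => x / ((p ^ s : ℕ) : ℝ) ^ n) h2
  · have h1 : Module.finrank K (IntermediateField.adjoin K {φ a}) =
        Module.finrank K (IntermediateField.adjoin K {a}) := by
      rw [← GAL.H28.finrank_adjoin_hom φ {a}, Set.image_singleton]
    rw [h1] at hle
    exact hle

end Pool.DynLehmer.LP
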