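import Pool.Agent.Lib.MP_2194ec_nt.LP.Defs
import Pool.Agent.Lib.MP_2194ec_nt.GAL.R.Root
import Pool.Agent.Lib.MP_2194ec_nt.GAL.R.Bez
import Pool.Agent.Lib.MP_2194ec_nt.GAL.R.Fib
import Pool.Agent.Lib.MP_2194ec_nt.GAL.R.Jac
import Pool.Agent.Lib.MP_2194ec_nt.GAL.R.Lev
import Pool.Agent.Lib.MP_2194ec_nt.GAL.R.Chn
import Pool.Agent.Lib.MP_2194ec_nt.GAL.R.Mor
import Pool.Agent.Lib.MP_2194ec_nt.GAL.R.Bif
import Pool.Agent.Lib.MP_2194ec_nt.GAL.R.Cntw

set_option autoImplicit false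
set_option linter.unusedSectionVars false

/-!
# Row CLS: the periodic forms when the wandering critical points lie in one grand orbit

If any two wandering critical points have a common iterate, then every periodic form divides the
form `F^a(X) ∧ F^b(Y)` for some `a`, `b`.
-/

namespace Pool.DynLehmer.LP
open MvPolynomial NumberField Filter Topology Pool.DynLehmer Pool.DynLehmer.GS
open scoped Classical

namespace Cls

variable {K : Type} [Field K] {q : ℕ} {F : Fin 2 → MvPolynomial (Fin 2) K}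

/-- the form `F^a(X) ∧ F^b(Y)` -/
noncomputable def hF (F : Fin 2 → MvPolynomial (Fin 2) K) (a b : ℕ) :
    MvPolynomial (Fin 2 ⊕ Fin 2) K :=
  rename Sum.inl (itF F a 0) * rename Sum.inr (itF F b 1) -
    rename Sum.inl (itF F a 1) * rename Sum.inr (itF F b 0)

theorem ev_hF {N : Type} [Field N] [Algebra K N] (a b : ℕ) (P P' : Fin 2 → N) :
    GS.ev P P' (hF F a b) = (gAct F N)^[a] P 0 * (gAct F N)^[b] P' 1 -
      (gAct F N)^[a] P 1 * (gAct F N)^[b] P' 0 := by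
  have h1 : ∀ (f : MvPolynomial (Fin 2) K), GS.ev P P' (rename Sum.inl f) = aeval P f := by
    intro f
    rw [GS.ev, aeval_rename]
    rfl
  have h2 : ∀ (f : MvPolynomial (Fin 2) K), GS.ev P P' (rename Sum.inr f) = aeval P' f := by
    intro f
    rw [GS.ev, aeval_rename]
    rfl
  have h3 : ∀ x y : MvPolynomial (Fin 2 ⊕ Fin 2) K,
      GS.ev P P' (x * y) = GS.ev P P' x * GS.ev P P' y :=
    fun x y => map_mul _ x y
  have h4 : ∀ x y : MvPolynomial (Fin 2 ⊕ Fin 2) K,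
      GS.ev P P' (x - y) = GS.ev P P' x - GS.ev P P' y :=
    fun x y => map_sub _ x y
  rw [hF, h4, h3, h3, h1, h1, h2, h2, ← Bas.gAct_itF, ← Bas.gAct_itF]
  rfl

theorem ev_hF_iff (hM : Mor q F) {N : Type} [Field N] [Algebra K N] (a b : ℕ) {P P' : Fin 2 → N}
    (hP : P ≠ 0) (hP' : P' ≠ 0) :
    GS.ev P P' (hF F a b) = 0 ↔ Prl ((gAct F N)^[a] P) ((gAct F N)^[b] P') := by
  rw [ev_hF, sub_eq_zero, Bas.prl_iff_det (Bas.iter_ne hM hP a) (Bas.iter_ne hM hP' b)]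

theorem bihom_hF (hM : Mor q F) (a b : ℕ) : BiHom (q ^ a) (q ^ b) (hF F a b) := by
  have h1 : ∀ (a : ℕ) (i : Fin 2), BiHom (q ^ a) 0
      (rename Sum.inl (itF F a i) : MvPolynomial (Fin 2 ⊕ Fin 2) K) := by
    intro a i
    have h := Bif.bihom_dbl (Bas.itF_hom hM.hom a) (Sum.inl i)
    simpa [dbl, w1, w2] using h
  have h2 : ∀ (b : ℕ) (i : Fin 2), BiHom 0 (q ^ b)
      (rename Sum.inr (itF F b i) : MvPolynomial (Fin 2 ⊕ Fin 2) K) := by
    intro b i
    have h := Bif.bihom_dbl (Bas.itF_hom hM.hom b) (Sum.inr i)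
    simpa [dbl, w1, w2] using h
  have h3 : BiHom (q ^ a) (q ^ b) (rename Sum.inl (itF F a 0) * rename Sum.inr (itF F b 1)) := by
    have h := (h1 a 0).mul (h2 b 1)
    rwa [add_zero, zero_add] at h
  have h4 : BiHom (q ^ a) (q ^ b) (rename Sum.inl (itF F a 1) * rename Sum.inr (itF F b 0)) := by
    have h := (h1 a 1).mul (h2 b 0)
    rwa [add_zero, zero_add] at h
  rw [bihom_iff] at *
  exact ⟨h3.1.sub h4.1, h3.2.sub h4.2⟩

/-- a periodic form with one wandering zero on `F^a(x) = F^b(y)` -/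
theorem dvd_hF (hroot : RootStatement) (hbez : BezStatement) (hM : Mor q F) {e : ℕ}
    {G : MvPolynomial (Fin 2 ⊕ Fin 2) K} (hG : PerForm F e G) {N : Type} [Field N] [Algebra K N]
    {P P' : Fin 2 → N} (hP : P ≠ 0) (hP' : P' ≠ 0) (hw : WandP F P) (h : GS.ev P P' G = 0)
    {a b : ℕ}
    (hab : Prl ((gAct F N)^[a] P) ((gAct F N)^[b] P')) : G ∣ hF F a b := by
  obtain ⟨d₁, d₂, -, -, hd₂, -, hB⟩ := hG.hom
  obtain ⟨k, hk, hk1⟩ := hG.per
  by_contra hdvd
  obtain ⟨R, hR, hRd, hRz⟩ := hbez K d₁ d₂ _ _ G _ hB (bihom_hF hM a b) hG.irr hd₂ hdvd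
  obtain ⟨j, -, hj⟩ := Cntw.exists_ne hroot hM hP hw hk hR hRd 0
  refine hj (hRz N _ ((gAct F N)^[k * j] P') (Bas.iter_ne hM hP' _) (Cntw.ev_orbit hk1 h j) ?_)
  rw [ev_hF_iff hM a b (Bas.iter_ne hM hP _) (Bas.iter_ne hM hP' _),
    ← Function.iterate_add_apply, ← Function.iterate_add_apply, add_comm a, add_comm b,
    Function.iterate_add_apply, Function.iterate_add_apply]
  exact Bas.prl_iter hM.hom hab _

/-- two points with a common iterate -/
def ComIt (F : Fin 2 → MvPolynomial (Fin 2) K) {N : Type} [Field N] [Algebra K N]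
    (U U' : Fin 2 → N) : Prop := ∃ a b : ℕ, Prl ((gAct F N)^[a] U) ((gAct F N)^[b] U')

/-- **CLS.** The zeros of a periodic form satisfy `F^a(P) = F^b(P')`. -/
theorem cls (hroot : RootStatement) (hbez : BezStatement) (hfib : FibStatement)
    (hjac : JacStatement) (hchn : ChnStatement) [CharZero K] (hq : 1 ≤ q) (hM : Mor q F)
    {A : Type} [Field A] [Algebra K A] [IsAlgClosed A] {e : ℕ}
    {G : MvPolynomial (Fin 2 ⊕ Fin 2) K} (hG : PerForm F e G) {U : Fin 2 → A}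
    (hUc : aeval U (Jac F) = 0) (hUw : WandP F U)
    (hcom : ∀ V : Fin 2 → A, V ≠ 0 → aeval V (Jac F) = 0 → WandP F V → ComIt F U V)
    {m : ℕ} {Z : Finset (Option A)} (hZ : 2 * e ^ 2 < Z.card)
    (hZm : ∀ z ∈ Z, ∃ P : Fin 2 → A, P ≠ 0 ∧ pr P = z ∧ Prl ((gAct F A)^[m] P) U) :
    ∃ a b : ℕ, G ∣ hF F a b := by
  obtain ⟨P, P', hP, hP', hev, hPU, hPw, hPw', i, hi⟩ :=
    Cntw.good_pair hroot hbez hfib hjac hchn hq hM hG hUc hUw hZ hZm
  obtain ⟨a, b, hab⟩ := hcom _ (Bas.iter_ne hM hP' i) hi (Bas.wandP_iter hPw' i)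
  refine ⟨a + m, b + i, dvd_hF hroot hbez hM hG hP hP' hPw hev ?_⟩
  rw [Function.iterate_add_apply, Function.iterate_add_apply]
  exact Bas.prl_trans (Bas.prl_iter hM.hom hPU a) hab

/-- the canonical heights of points with a common iterate -/
theorem height_eq {K : Type} [Field K] {q : ℕ} (hq : 2 ≤ q) {F : Fin 2 → MvPolynomial (Fin 2) K}
    (hF : ∀ i, (F i).IsHomogeneous q) {N : Type} [Field N] [NumberField N] [Algebra K N]
    {P P' : Fin 2 → N} {a b : ℕ} (hab : Prl ((gAct F N)^[a] P) ((gAct F N)^[b] P')) {h : ℝ}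
    (h0 : 0 < h)
    (hP : Tendsto (fun n : ℕ => Height.logHeight ((gAct F N)^[n] P) /
      (Module.finrank ℚ N : ℝ) / (q : ℝ) ^ n) atTop (𝓝 h))
    (hP' : Tendsto (fun n : ℕ => Height.logHeight ((gAct F N)^[n] P') /
      (Module.finrank ℚ N : ℝ) / (q : ℝ) ^ n) atTop (𝓝 h)) : a = b := by
  have hq0 : (0 : ℝ) < q := by
    have : 0 < q := by omega
    exact_mod_cast this
  have h1 := ((tendsto_add_atTop_iff_nat a).2 hP).mul_const ((q : ℝ) ^ a)
  have h2 := ((tendsto_add_atTop_iff_nat b).2 hP').mul_const ((q : ℝ) ^ b)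
  have h3 : (fun n : ℕ => Height.logHeight ((gAct F N)^[n + a] P) /
      (Module.finrank ℚ N : ℝ) / (q : ℝ) ^ (n + a) * (q : ℝ) ^ a) =
      fun n : ℕ => Height.logHeight ((gAct F N)^[n + b] P') /
      (Module.finrank ℚ N : ℝ) / (q : ℝ) ^ (n + b) * (q : ℝ) ^ b := by
    funext n
    have h4 := Bas.prl_iter hF hab n
    rw [← Function.iterate_add_apply, ← Function.iterate_add_apply] at h4
    obtain ⟨c, hc, h5⟩ := h4
    rw [h5, Height.logHeight_smul_eq_logHeight _ hc, pow_add, pow_add]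
    have := pow_pos hq0 n
    have := pow_pos hq0 a
    have := pow_pos hq0 b
    field_simp
  rw [h3] at h1
  have h4 := tendsto_nhds_unique h1 h2
  have h5 : (q : ℝ) ^ a = (q : ℝ) ^ b := mul_left_cancel₀ h0.ne' h4
  have h6 : q ^ a = q ^ b := by exact_mod_cast h5
  exact Nat.pow_right_injective hq h6

end Cls

/-- Row CLS. -/
theorem cls : ClsStatement := by
  classical
  intro K _ _ p s v F hF hcrit hone e G hG N _ _ _ P P' hP hP' hw hw' hev h h0 hh hh'
  obtain ⟨U, hU, hUc, hUw⟩ := hcrit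
  have hM : Mor (p ^ s) F := mor K p s v F hF
  have hq : 2 ≤ p ^ s := by
    calc 2 ≤ p := hF.prime.two_le
      _ = p ^ 1 := (pow_one p).symm
      _ ≤ p ^ s := Nat.pow_le_pow_right hF.prime.pos hF.pos
  obtain ⟨CL, hCL⟩ := lev root jac K (p ^ s) F hq hM U hU hUw
  obtain ⟨m, Z, hZc, -, hZ⟩ := hCL (2 * e ^ 2)
  obtain ⟨a, b, hd⟩ := Cls.cls root bez fib jac chn (by omega) hM hG hUc hUw
    (fun V hV hVc hVw => hone U V hU hV hUc hVc hUw hVw) hZc hZ
  have hz : ∀ {H : MvPolynomial (Fin 2 ⊕ Fin 2) K}, G ∣ H → GS.ev P P' H = 0 := by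
    rintro H ⟨W, rfl⟩
    have h1 : GS.ev P P' (G * W) = GS.ev P P' G * GS.ev P P' W := map_mul _ _ _
    rw [h1, hev, zero_mul]
  have h1 : Prl ((gAct F N)^[a] P) ((gAct F N)^[b] P') := (Cls.ev_hF_iff hM a b hP hP').1 (hz hd)
  obtain rfl := Cls.height_eq hq hM.hom h1 h0 (by exact_mod_cast hh) (by exact_mod_cast hh')
  obtain ⟨k, hk, hk1⟩ := hG.per
  have h2 : Prl ((gAct F N)^[k * a] P) ((gAct F N)^[k * a] P') := by
    have h3 := Bas.prl_iter hM.hom h1 (k * a - a)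
    rw [← Function.iterate_add_apply, ← Function.iterate_add_apply,
      Nat.sub_add_cancel (Nat.le_mul_of_pos_left a hk)] at h3
    exact h3
  have h3 := Cls.dvd_hF root bez hM hG (Bas.iter_ne hM hP (k * a)) (Bas.iter_ne hM hP' (k * a))
    (Bas.wandP_iter hw _) (Cntw.ev_orbit hk1 hev a) (a := 0) (b := 0) h2
  exact (Cls.ev_hF_iff hM 0 0 hP hP').1 (hz h3)

end Pool.DynLehmer.LP
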