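import Pool.Agent.Lib.MP_2194ec_nt.LP.DefsP
import Pool.Agent.Lib.MP_2194ec_nt.LP.Cls
import Pool.Agent.Lib.MP_2194ec_nt.GAL.R.Pre

set_option autoImplicit false
set_option linter.unusedSectionVars false

/-!
# Row CLSF: the periodic forms through pairs of wandering points of equal height, when there is a
wandering critical point

Every such form `G` divides one of finitely many forms `G'(F^α(X), F^β(Y))`.
-/

namespace Pool.DynLehmer.LP
open MvPolynomial NumberField Filter Topology Pool.DynLehmer Pool.DynLehmer.GS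
open scoped Classical

namespace Clsf

variable {K : Type} [Field K] {q : ℕ} {F : Fin 2 → MvPolynomial (Fin 2) K}

/-- the map `(F^a, F^b)` -/
noncomputable def db (F : Fin 2 → MvPolynomial (Fin 2) K) (a b : ℕ) :
    Fin 2 ⊕ Fin 2 → MvPolynomial (Fin 2 ⊕ Fin 2) K :=
  Sum.elim (fun i => rename Sum.inl (itF F a i)) (fun i => rename Sum.inr (itF F b i))

/-- the form `G(F^a(X), F^b(Y))` -/
noncomputable def pl (F : Fin 2 → MvPolynomial (Fin 2) K) (a b : ℕ)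
    (G : MvPolynomial (Fin 2 ⊕ Fin 2) K) : MvPolynomial (Fin 2 ⊕ Fin 2) K := bind₁ (db F a b) G

theorem ev_pl {N : Type} [Field N] [Algebra K N] (a b : ℕ) (G : MvPolynomial (Fin 2 ⊕ Fin 2) K)
    (P P' : Fin 2 → N) :
    GS.ev P P' (pl F a b G) = GS.ev ((gAct F N)^[a] P) ((gAct F N)^[b] P') G := by
  unfold GS.ev pl
  rw [aeval_bind₁]
  congr 2
  funext i
  rcases i with i | i
  · show aeval (Sum.elim P P') (rename Sum.inl (itF F a i)) = (gAct F N)^[a] P i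
    rw [aeval_rename, Sum.elim_comp_inl, ← Bas.gAct_itF]
    rfl
  · show aeval (Sum.elim P P') (rename Sum.inr (itF F b i)) = (gAct F N)^[b] P' i
    rw [aeval_rename, Sum.elim_comp_inr, ← Bas.gAct_itF]
    rfl

theorem bihom_db (hM : Mor q F) (a b : ℕ) (i : Fin 2 ⊕ Fin 2) :
    BiHom (q ^ a * w1 i) (q ^ b * w2 i) (db F a b i) := by
  rcases i with i | i
  · have h := Bif.bihom_dbl (Bas.itF_hom hM.hom a) (Sum.inl i)
    have h2 : BiHom (q ^ a * w1 (Sum.inl i)) 0 (db F a b (Sum.inl i)) := by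
      have : q ^ a * w2 (Sum.inl i) = 0 := by simp [w2]
      rw [this] at h
      exact h
    have : q ^ b * w2 (Sum.inl i : Fin 2 ⊕ Fin 2) = 0 := by simp [w2]
    rw [this]
    exact h2
  · have h := Bif.bihom_dbl (Bas.itF_hom hM.hom b) (Sum.inr i)
    have h2 : BiHom 0 (q ^ b * w2 (Sum.inr i)) (db F a b (Sum.inr i)) := by
      have : q ^ b * w1 (Sum.inr i) = 0 := by simp [w1]
      rw [this] at h
      exact h
    have : q ^ a * w1 (Sum.inr i : Fin 2 ⊕ Fin 2) = 0 := by simp [w1]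
    rw [this]
    exact h2

theorem bihom_pl (hM : Mor q F) (a b : ℕ) {d₁ d₂ : ℕ} {G : MvPolynomial (Fin 2 ⊕ Fin 2) K}
    (hG : BiHom d₁ d₂ G) : BiHom (q ^ a * d₁) (q ^ b * d₂) (pl F a b G) := by
  unfold pl
  rw [G.as_sum, map_sum]
  refine BiHom.sum _ fun t ht => ?_
  rw [bind₁_monomial]
  refine BiHom.C_mul ?_ _
  have h1 := Bif.BiHom.prod (a := fun i => t i * (q ^ a * w1 i))
    (b := fun i => t i * (q ^ b * w2 i)) t.support (G := fun i => db F a b i ^ t i)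
    (fun i _ => (bihom_db hM a b i).pow (t i))
  have h2 : ∑ i ∈ t.support, t i * (q ^ a * w1 i) = q ^ a * d₁ := by
    rw [← (hG t ht).1, ← weight_w1, Finsupp.weight_apply, Finsupp.sum, Finset.mul_sum]
    refine Finset.sum_congr rfl fun i _ => ?_
    rw [smul_eq_mul]
    ring
  have h3 : ∑ i ∈ t.support, t i * (q ^ b * w2 i) = q ^ b * d₂ := by
    rw [← (hG t ht).2, ← weight_w2, Finsupp.weight_apply, Finsupp.sum, Finset.mul_sum]
    refine Finset.sum_congr rfl fun i _ => ?_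
    rw [smul_eq_mul]
    ring
  rw [h2, h3] at h1
  exact h1

/-- a periodic form with a zero `(P, P')` such that `F^m(P) = U` and `F^i(P') = z` -/
def Dat (F : Fin 2 → MvPolynomial (Fin 2) K) {A : Type} [Field A] [Algebra K A] (U : Fin 2 → A)
    (z : Option A) (e k m i : ℕ) (G : MvPolynomial (Fin 2 ⊕ Fin 2) K) : Prop :=
  PerForm F e G ∧ 0 < k ∧ G ∣ (bind₁ (dbl F))^[k] G ∧ ∃ P P' : Fin 2 → A, P ≠ 0 ∧ P' ≠ 0 ∧
    GS.ev P P' G = 0 ∧ Prl ((gAct F A)^[m] P) U ∧ Prl ((gAct F A)^[i] P') (Cntw.vec z) ∧ WandP F P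

/-- two periodic forms which belong to the same pair of critical points -/
theorem transfer (hroot : RootStatement) (hbez : BezStatement) (hM : Mor q F) {A : Type}
    [Field A] [Algebra K A] {U : Fin 2 → A} {z : Option A} {e k m i e' k' m' i' : ℕ}
    {G G' : MvPolynomial (Fin 2 ⊕ Fin 2) K} (h : Dat F U z e k m i G)
    (h' : Dat F U z e' k' m' i' G') {α β t₁ t₂ : ℕ} (hα : α + m' + k' * t₁ = m + k' * t₂)
    (hβ : β + i' + k' * t₁ = i + k' * t₂) {N : Type} [Field N] [Algebra K N] {x y : Fin 2 → N}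
    (hev : GS.ev x y G = 0) : GS.ev ((gAct F N)^[α] x) ((gAct F N)^[β] y) G' = 0 := by
  obtain ⟨hG, hk, hdiv, P, P', hP, hP', h1, hPU, hPz, hw⟩ := h
  obtain ⟨hG', hk', hdiv', P₀, P₀', hP₀, hP₀', h1', hPU', hPz', -⟩ := h'
  obtain ⟨d₁, d₂, -, -, hd₂, -, hB⟩ := hG.hom
  obtain ⟨e₁, e₂, -, -, -, -, hB'⟩ := hG'.hom
  suffices hdvd : G ∣ pl F α β G' by
    obtain ⟨W, hW⟩ := hdvd
    rw [← ev_pl, hW]
    simp only [GS.ev, map_mul] at hev ⊢
    rw [hev, zero_mul]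
  by_contra hdvd
  obtain ⟨R, hR, hRd, hRz⟩ := hbez K d₁ d₂ _ _ G _ hB (bihom_pl hM α β hB') hG.irr hd₂ hdvd
  obtain ⟨j, hj₀, hj⟩ := Cntw.exists_ne hroot hM hP hw (Nat.mul_pos hk hk') hR hRd
    (t₁ + m + i)
  have hkk : 1 ≤ k * k' := Nat.mul_pos hk hk'
  have hT : m ≤ k * k' * j := le_trans (by omega) (Nat.le_mul_of_pos_left j hkk)
  have hTi : i ≤ k * k' * j := le_trans (by omega) (Nat.le_mul_of_pos_left j hkk)
  have hl : ∃ l : ℕ, k' * l + k' * t₁ = k * k' * j + k' * t₂ := by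
    have h2 : t₁ ≤ k * j := le_trans (by omega) (Nat.le_mul_of_pos_left j hk)
    refine ⟨k * j + t₂ - t₁, ?_⟩
    rw [← mul_add, Nat.sub_add_cancel (by omega)]
    ring
  obtain ⟨l, hl⟩ := hl
  refine hj (hRz A _ ((gAct F A)^[k * k' * j] P') (Bas.iter_ne hM hP' _) ?_ ?_)
  · rw [mul_assoc]
    exact Cntw.ev_orbit hdiv h1 _
  · rw [ev_pl, ← Function.iterate_add_apply, ← Function.iterate_add_apply]
    refine (Bas.ev_prl hB' ?_ ?_).1 (Cntw.ev_orbit hdiv' h1' l)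
    · have h2 := Bas.prl_iter hM.hom (Bas.prl_trans hPU' (Bas.prl_symm hPU))
        (α + k * k' * j - m)
      rw [← Function.iterate_add_apply, ← Function.iterate_add_apply] at h2
      have h3 : α + k * k' * j - m + m' = k' * l := by omega
      have h4 : α + k * k' * j - m + m = α + k * k' * j := by omega
      rw [h3, h4] at h2
      exact h2
    · have h2 := Bas.prl_iter hM.hom (Bas.prl_trans hPz' (Bas.prl_symm hPz))
        (β + k * k' * j - i)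
      rw [← Function.iterate_add_apply, ← Function.iterate_add_apply] at h2
      have h3 : β + k * k' * j - i + i' = k' * l := by omega
      have h4 : β + k * k' * j - i + i = β + k * k' * j := by omega
      rw [h3, h4] at h2
      exact h2

/-- the canonical height of an iterate -/
theorem hasHt_iter {K : Type} [Field K] {q : ℕ} (hq : 1 ≤ q)
    {F : Fin 2 → MvPolynomial (Fin 2) K} {N : Type} [Field N] [NumberField N] [Algebra K N]
    {P : Fin 2 → N} {h : ℝ} (hP : HasHt q F P h) (a : ℕ) :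
    HasHt q F ((gAct F N)^[a] P) ((q : ℝ) ^ a * h) := by
  have hq0 : (0 : ℝ) < q := by exact_mod_cast hq
  have h1 := ((tendsto_add_atTop_iff_nat a).2 hP).const_mul ((q : ℝ) ^ a)
  refine h1.congr fun n => ?_
  rw [← Function.iterate_add_apply, pow_add]
  have := pow_pos hq0 n
  have := pow_pos hq0 a
  field_simp

/-- the canonical heights of the points of a zero of a periodic form -/
theorem ht_le {K : Type} [Field K] {q : ℕ} (hq : 2 ≤ q)
    {F : Fin 2 → MvPolynomial (Fin 2) K} (hM : Mor q F) {G : MvPolynomial (Fin 2 ⊕ Fin 2) K}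
    {k : ℕ} (hk : 0 < k) (hk1 : G ∣ (bind₁ (dbl F))^[k] G) {N : Type} [Field N] [NumberField N]
    [Algebra K N] {A B : ℝ}
    (hAB : ∀ P P' : Fin 2 → N, P ≠ 0 → P' ≠ 0 → GS.ev P P' G = 0 →
      Height.logHeight P' / (Module.finrank ℚ N : ℝ) ≤
        A * (Height.logHeight P / (Module.finrank ℚ N : ℝ)) + B ∧
      Height.logHeight P / (Module.finrank ℚ N : ℝ) ≤
        A * (Height.logHeight P' / (Module.finrank ℚ N : ℝ)) + B)
    {P P' : Fin 2 → N} (hP : P ≠ 0) (hP' : P' ≠ 0) (hev : GS.ev P P' G = 0) {h h' : ℝ}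
    (hh : HasHt q F P h) (hh' : HasHt q F P' h') : h' ≤ A * h ∧ h ≤ A * h' := by
  have hq0 : (0 : ℝ) < q := by
    have : 0 < q := by omega
    exact_mod_cast this
  have hq1 : (1 : ℝ) < q := by
    have : 1 < q := by omega
    exact_mod_cast this
  have hsub : Tendsto (fun j : ℕ => k * j) atTop atTop :=
    tendsto_id.const_mul_atTop' hk
  have h1 := hh.comp hsub
  have h2 := hh'.comp hsub
  have h3 : Tendsto (fun j : ℕ => B / (q : ℝ) ^ (k * j)) atTop (𝓝 0) :=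
    ((tendsto_const_nhds (x := B)).div_atTop (tendsto_pow_atTop_atTop_of_one_lt hq1)).comp hsub
  constructor
  · have h4 := (h1.const_mul A).add h3
    rw [add_zero] at h4
    refine le_of_tendsto_of_tendsto' h2 h4 fun j => ?_
    have h5 := (hAB _ _ (Bas.iter_ne hM hP (k * j)) (Bas.iter_ne hM hP' (k * j))
      (Cntw.ev_orbit hk1 hev j)).1
    have h6 := pow_pos hq0 (k * j)
    simp only [Function.comp_apply]
    rw [div_le_iff₀ h6]
    calc _ ≤ _ := h5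
      _ = _ := by field_simp
  · have h4 := (h2.const_mul A).add h3
    rw [add_zero] at h4
    refine le_of_tendsto_of_tendsto' h1 h4 fun j => ?_
    have h5 := (hAB _ _ (Bas.iter_ne hM hP (k * j)) (Bas.iter_ne hM hP' (k * j))
      (Cntw.ev_orbit hk1 hev j)).2
    have h6 := pow_pos hq0 (k * j)
    simp only [Function.comp_apply]
    rw [div_le_iff₀ h6]
    calc _ ≤ _ := h5
      _ = _ := by field_simp

/-- the exponents -/
theorem exps {k' m i m' i' : ℕ} (hk' : 0 < k') : ∃ α β t₁ t₂ : ℕ,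
    α + m' + k' * t₁ = m + k' * t₂ ∧ β + i' + k' * t₁ = i + k' * t₂ ∧ min α β < k' := by
  have h1 : m' ≤ k' * (m' + i') := le_trans (by omega) (Nat.le_mul_of_pos_left _ hk')
  have h2 : i' ≤ k' * (m' + i') := le_trans (by omega) (Nat.le_mul_of_pos_left _ hk')
  set T := k' * (m' + i') with hT
  obtain ⟨α₀, hα₀⟩ : ∃ α₀, α₀ = m + T - m' := ⟨_, rfl⟩
  obtain ⟨β₀, hβ₀⟩ : ∃ β₀, β₀ = i + T - i' := ⟨_, rfl⟩
  have h3 := Nat.div_add_mod (min α₀ β₀) k'
  have h4 := Nat.mod_lt (min α₀ β₀) hk'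
  refine ⟨α₀ - k' * (min α₀ β₀ / k'), β₀ - k' * (min α₀ β₀ / k'), min α₀ β₀ / k', m' + i', ?_, ?_,
    ?_⟩
  · rw [← hT]
    have : k' * (min α₀ β₀ / k') ≤ α₀ := by
      have := min_le_left α₀ β₀
      omega
    omega
  · rw [← hT]
    have : k' * (min α₀ β₀ / k') ≤ β₀ := by
      have := min_le_right α₀ β₀
      omega
    omega
  · rcases le_total α₀ β₀ with h5 | h5
    · rw [min_eq_left h5] at h3 h4 ⊢
      refine lt_of_le_of_lt (min_le_left _ _) ?_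
      omega
    · rw [min_eq_right h5] at h3 h4 ⊢
      refine lt_of_le_of_lt (min_le_right _ _) ?_
      omega

/-- the bound for the exponents -/
theorem exps_le {q k' α β C : ℕ} (hq : 2 ≤ q) (hmin : min α β < k') {A h : ℝ} (h0 : 0 < h)
    (hC : A * (q : ℝ) ^ k' ≤ C) (hA : 1 ≤ A)
    (h1 : (q : ℝ) ^ β * h ≤ A * ((q : ℝ) ^ α * h)) (h2 : (q : ℝ) ^ α * h ≤ A * ((q : ℝ) ^ β * h)) :
    α ≤ C ∧ β ≤ C := by
  have hq1 : (1 : ℝ) ≤ q := by
    have : 1 ≤ q := by omega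
    exact_mod_cast this
  have h3 : (q : ℝ) ^ β ≤ A * (q : ℝ) ^ α := by
    have : (q : ℝ) ^ β * h ≤ A * (q : ℝ) ^ α * h := by rw [mul_assoc]; exact h1
    exact le_of_mul_le_mul_right this h0
  have h4 : (q : ℝ) ^ α ≤ A * (q : ℝ) ^ β := by
    have : (q : ℝ) ^ α * h ≤ A * (q : ℝ) ^ β * h := by rw [mul_assoc]; exact h2
    exact le_of_mul_le_mul_right this h0
  have key : ∀ n : ℕ, (q : ℝ) ^ n ≤ C → n ≤ C := by
    intro n hn
    have h5 : q ^ n ≤ C := by exact_mod_cast hn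
    exact (Nat.lt_pow_self (by omega)).le.trans h5
  have hA0 : 0 ≤ A := by linarith
  have hpow : ∀ n : ℕ, n ≤ k' → (q : ℝ) ^ n ≤ (q : ℝ) ^ k' := fun n hn =>
    pow_le_pow_right₀ hq1 hn
  have hpk : (0 : ℝ) ≤ (q : ℝ) ^ k' := by positivity
  rcases min_lt_iff.1 hmin with h5 | h5
  · refine ⟨key _ ?_, key _ ?_⟩
    · calc (q : ℝ) ^ α ≤ 1 * (q : ℝ) ^ k' := by rw [one_mul]; exact hpow _ h5.le
        _ ≤ A * (q : ℝ) ^ k' := mul_le_mul_of_nonneg_right hA hpk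
        _ ≤ C := hC
    · calc (q : ℝ) ^ β ≤ A * (q : ℝ) ^ α := h3
        _ ≤ A * (q : ℝ) ^ k' := mul_le_mul_of_nonneg_left (hpow _ h5.le) hA0
        _ ≤ C := hC
  · refine ⟨key _ ?_, key _ ?_⟩
    · calc (q : ℝ) ^ α ≤ A * (q : ℝ) ^ β := h4
        _ ≤ A * (q : ℝ) ^ k' := mul_le_mul_of_nonneg_left (hpow _ h5.le) hA0
        _ ≤ C := hC
    · calc (q : ℝ) ^ β ≤ 1 * (q : ℝ) ^ k' := by rw [one_mul]; exact hpow _ h5.le
        _ ≤ A * (q : ℝ) ^ k' := mul_le_mul_of_nonneg_right hA hpk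
        _ ≤ C := hC

/-- the points `Y` with `(X, F^n(Y))` on a periodic form -/
theorem fibers (hfib : FibStatement) (hpre : PreStatement) (hq : 1 ≤ q) (hM : Mor q F) {e : ℕ}
    {G : MvPolynomial (Fin 2 ⊕ Fin 2) K} (hG : PerForm F e G) {N : Type} [Field N] [Algebra K N]
    {X : Fin 2 → N} (hX : X ≠ 0) (n : ℕ) :
    ∃ W : Finset (Option N), W.card ≤ e * q ^ n ∧ ∀ Y : Fin 2 → N, Y ≠ 0 →
      GS.ev X ((gAct F N)^[n] Y) G = 0 → pr Y ∈ W := by
  classical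
  obtain ⟨d₁, d₂, hd₁, -, hd₂, hd₂e, hB⟩ := hG.hom
  obtain ⟨⟨Z, hZc, hZ⟩, -⟩ := hfib K d₁ d₂ G hB hG.irr hd₁ hd₂ N X hX
  choose f hf hf' using fun z : Option N => hpre K N q F hq hM (Cntw.vec z) (Cntw.vec_ne z) n
  refine ⟨Z.biUnion f, ?_, fun Y hY hev => ?_⟩
  · exact (Finset.card_biUnion_le_card_mul _ _ _ fun z _ => hf z).trans
      (Nat.mul_le_mul_right _ (hZc.trans hd₂e))
  · exact Finset.mem_biUnion.2 ⟨_, hZ _ (Bas.iter_ne hM hY n) hev,
      hf' _ Y hY (Cntw.prl_vec (Bas.iter_ne hM hY n))⟩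

theorem main (hcmp : HcmpStatement) {K : Type} [Field K] [NumberField K] {q : ℕ} (hq : 2 ≤ q)
    {F : Fin 2 → MvPolynomial (Fin 2) K} (hM : Mor q F) (hcrit : CritW F) :
    ∃ R : ℕ, 1 ≤ R ∧
      ∀ (N : Type) [Field N] [NumberField N] [Algebra K N] (P : Fin 2 → N) (h : ℝ), P ≠ 0 →
      WandP F P → 0 < h → HasHt q F P h → ∀ (μ : ℕ) (T : Finset (Fin 2 → N)),
      (∀ P' ∈ T, P' ≠ 0 ∧ WandP F P' ∧ HasHt q F P' h ∧
        ∃ (m e : ℕ) (G : MvPolynomial (Fin 2 ⊕ Fin 2) K), m ≤ μ ∧ PerForm F e G ∧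
          GS.ev ((gAct F N)^[m] P) ((gAct F N)^[m] P') G = 0) →
      (T.image fun P' => pr ((gAct F N)^[μ] P')).card ≤ R := by
  classical
  obtain ⟨U, hU, hUc, hUw⟩ := hcrit
  obtain ⟨hJ0, hJd, -⟩ := jac K q F (by omega) hM
  obtain ⟨ZJ, -, hZJ⟩ := root K (AlgebraicClosure K) _ (Jac F) hJ0 hJd
  obtain ⟨CL, hCL⟩ := lev root jac K q F hq hM U hU hUw
  -- the chosen forms
  have hdat : ∀ z : Option (AlgebraicClosure K), ∃ (e k m i : ℕ)
      (G : MvPolynomial (Fin 2 ⊕ Fin 2) K) (A B : ℝ),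
      (∃ (e k m i : ℕ) (G : MvPolynomial (Fin 2 ⊕ Fin 2) K), Dat F U z e k m i G) →
      Dat F U z e k m i G ∧ 1 ≤ A ∧
      ∀ (N : Type) [Field N] [NumberField N] [Algebra K N] (P P' : Fin 2 → N), P ≠ 0 → P' ≠ 0 →
      GS.ev P P' G = 0 →
      Height.logHeight P' / (Module.finrank ℚ N : ℝ) ≤
        A * (Height.logHeight P / (Module.finrank ℚ N : ℝ)) + B ∧
      Height.logHeight P / (Module.finrank ℚ N : ℝ) ≤
        A * (Height.logHeight P' / (Module.finrank ℚ N : ℝ)) + B := by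
    intro z
    by_cases hz : ∃ (e k m i : ℕ) (G : MvPolynomial (Fin 2 ⊕ Fin 2) K), Dat F U z e k m i G
    · obtain ⟨e, k, m, i, G, hD⟩ := hz
      obtain ⟨d₁, d₂, hd₁, -, hd₂, -, hB⟩ := hD.1.hom
      obtain ⟨A, B, hA, -, hAB⟩ := hcmp K d₁ d₂ G hB hD.1.irr hd₁ hd₂
      exact ⟨e, k, m, i, G, A, B, fun _ => ⟨hD, hA, hAB⟩⟩
    · exact ⟨0, 0, 0, 0, 0, 0, 0, fun h => absurd h hz⟩
  choose fe fk fm fi fG fA fB hd using hdat
  obtain ⟨C, hC⟩ : ∃ C : ℕ, ∀ z ∈ ZJ, fA z * (q : ℝ) ^ fk z ≤ C := by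
    refine ⟨∑ z ∈ ZJ, ⌈fA z * (q : ℝ) ^ fk z⌉₊, fun z hz => (Nat.le_ceil _).trans ?_⟩
    exact_mod_cast Finset.single_le_sum (f := fun z => ⌈fA z * (q : ℝ) ^ fk z⌉₊)
      (fun _ _ => Nat.zero_le _) hz
  obtain ⟨k₀, hk₀⟩ : ∃ k₀ : ℕ, ∀ z ∈ ZJ, fk z ≤ k₀ :=
    ⟨∑ z ∈ ZJ, fk z, fun z hz => Finset.single_le_sum (fun _ _ => Nat.zero_le _) hz⟩
  obtain ⟨e₀, he₀⟩ : ∃ e₀ : ℕ, ∀ z ∈ ZJ, fe z ≤ e₀ :=
    ⟨∑ z ∈ ZJ, fe z, fun z hz => Finset.single_le_sum (fun _ _ => Nat.zero_le _) hz⟩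
  let I : Finset (Option (AlgebraicClosure K) × ℕ × ℕ × ℕ) :=
    ZJ ×ˢ (Finset.range (C + 1) ×ˢ (Finset.range (C + 1) ×ˢ Finset.range (k₀ + 1)))
  refine ⟨I.card * (e₀ * q ^ (k₀ + C)) + 1, by omega, ?_⟩
  intro N _ _ _ P h hP hw h0 hh μ T hT
  have hW : ∀ j : Option (AlgebraicClosure K) × ℕ × ℕ × ℕ, ∃ W : Finset (Option N),
      j ∈ I → W.card ≤ e₀ * q ^ (k₀ + C) ∧
      ((∃ (e k m i : ℕ) (G : MvPolynomial (Fin 2 ⊕ Fin 2) K), Dat F U j.1 e k m i G) →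
        ∀ Y : Fin 2 → N, Y ≠ 0 →
        GS.ev ((gAct F N)^[j.2.2.2 + j.2.1] ((gAct F N)^[μ] P))
          ((gAct F N)^[j.2.2.2 + j.2.2.1] Y) (fG j.1) = 0 → pr Y ∈ W) := by
    intro j
    by_cases hj : j ∈ I ∧
      ∃ (e k m i : ℕ) (G : MvPolynomial (Fin 2 ⊕ Fin 2) K), Dat F U j.1 e k m i G
    · obtain ⟨hD, -, -⟩ := hd j.1 hj.2
      obtain ⟨W, hWc, hW⟩ := fibers fib (pre root) (by omega) hM hD.1
        (Bas.iter_ne hM (Bas.iter_ne hM hP μ) (j.2.2.2 + j.2.1)) (j.2.2.2 + j.2.2.1)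
      refine ⟨W, fun hjI => ⟨hWc.trans ?_, fun _ => hW⟩⟩
      obtain ⟨h1, h2⟩ := Finset.mem_product.1 hjI
      obtain ⟨-, h3⟩ := Finset.mem_product.1 h2
      obtain ⟨h4, h5⟩ := Finset.mem_product.1 h3
      have h6 := Finset.mem_range.1 h4
      have h7 := Finset.mem_range.1 h5
      exact Nat.mul_le_mul (he₀ _ h1) (Nat.pow_le_pow_right (by omega) (by omega))
    · refine ⟨∅, fun hjI => ⟨by simp, fun hD => absurd ⟨hjI, hD⟩ hj⟩⟩
  choose W hW using hW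
  have hsub : (T.image fun P' => pr ((gAct F N)^[μ] P')) ⊆ I.biUnion W := by
    intro w hw'
    obtain ⟨P', hP'T, rfl⟩ := Finset.mem_image.1 hw'
    obtain ⟨hP', hPw', hh', m, e, G, hmμ, hG, hev⟩ := hT P' hP'T
    obtain ⟨m₁, Z, hZc, -, hZ⟩ := hCL (2 * e ^ 2)
    obtain ⟨P₁, P₁', hP₁, hP₁', hev₁, hPU, hPw₁, hPw₁', i, hi⟩ :=
      Cntw.good_pair root bez fib jac chn (by omega) hM hG hUc hUw hZc hZ
    obtain ⟨k, hk, hk1⟩ := hG.per
    obtain ⟨z, hz⟩ : ∃ z, z = pr ((gAct F (AlgebraicClosure K))^[i] P₁') := ⟨_, rfl⟩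
    have hzJ : z ∈ ZJ := by
      rw [hz]
      exact hZJ _ (Bas.iter_ne hM hP₁' i) hi
    have hD : Dat F U z e k m₁ i G := ⟨hG, hk, hk1, P₁, P₁', hP₁, hP₁', hev₁, hPU, by
      rw [hz]
      exact Cntw.prl_vec (Bas.iter_ne hM hP₁' i), hPw₁⟩
    have hex : ∃ (e k m i : ℕ) (G : MvPolynomial (Fin 2 ⊕ Fin 2) K), Dat F U z e k m i G :=
      ⟨e, k, m₁, i, G, hD⟩
    obtain ⟨hD', hA, hAB⟩ := hd z hex
    have hk' : 0 < fk z := hD'.2.1
    obtain ⟨α, β, t₁, t₂, hα, hβ, hmin⟩ := exps (m := m₁) (i := i) (m' := fm z) (i' := fi z) hk'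
    have hev2 := transfer root bez hM hD hD' hα hβ hev
    have hne : (gAct F N)^[m] P ≠ 0 := Bas.iter_ne hM hP m
    have hne' : (gAct F N)^[m] P' ≠ 0 := Bas.iter_ne hM hP' m
    have hq1 : 1 ≤ q := by omega
    have h1 := hasHt_iter hq1 (hasHt_iter hq1 hh m) α
    have h2 := hasHt_iter hq1 (hasHt_iter hq1 hh' m) β
    obtain ⟨h3, h4⟩ := ht_le hq hM hk' hD'.2.2.1 (hAB N) (Bas.iter_ne hM hne α)
      (Bas.iter_ne hM hne' β) hev2 h1 h2
    have hq0 : (0 : ℝ) < q := by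
      have : 0 < q := by omega
      exact_mod_cast this
    obtain ⟨hαC, hβC⟩ := exps_le hq hmin (mul_pos (pow_pos hq0 m) h0) (hC z hzJ) hA h3 h4
    obtain ⟨j, hj⟩ : ∃ j, j = (μ - m) / fk z + 1 := ⟨_, rfl⟩
    have hj1 := Nat.div_add_mod (μ - m) (fk z)
    have hj2 := Nat.mod_lt (μ - m) hk'
    have hj3 : fk z * j = fk z * ((μ - m) / fk z) + fk z := by rw [hj]; ring
    obtain ⟨r, hr⟩ : ∃ r, r = fk z * j - (μ - m) := ⟨_, rfl⟩
    have hrk : r ≤ fk z := by omega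
    have hrj : fk z * j + m = r + μ := by omega
    have hev3 := Cntw.ev_orbit hD'.2.2.1 hev2 j
    have e1 : (gAct F N)^[fk z * j] ((gAct F N)^[α] ((gAct F N)^[m] P)) =
        (gAct F N)^[r + α] ((gAct F N)^[μ] P) := by
      rw [← Function.iterate_add_apply, ← Function.iterate_add_apply,
        ← Function.iterate_add_apply]
      have : fk z * j + α + m = r + α + μ := by omega
      rw [this]
    have e2 : (gAct F N)^[fk z * j] ((gAct F N)^[β] ((gAct F N)^[m] P')) =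
        (gAct F N)^[r + β] ((gAct F N)^[μ] P') := by
      rw [← Function.iterate_add_apply, ← Function.iterate_add_apply,
        ← Function.iterate_add_apply]
      have : fk z * j + β + m = r + β + μ := by omega
      rw [this]
    rw [e1, e2] at hev3
    have hmem : (z, α, β, r) ∈ I := by
      refine Finset.mem_product.2 ⟨hzJ, Finset.mem_product.2 ⟨Finset.mem_range.2 ?_,
        Finset.mem_product.2 ⟨Finset.mem_range.2 ?_, Finset.mem_range.2 ?_⟩⟩⟩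
      · show α < C + 1
        omega
      · show β < C + 1
        omega
      · show r < k₀ + 1
        have := hk₀ z hzJ
        omega
    exact Finset.mem_biUnion.2 ⟨(z, α, β, r), hmem,
      (hW (z, α, β, r) hmem).2 hex _ (Bas.iter_ne hM hP' μ) hev3⟩
  refine (Finset.card_le_card hsub).trans ?_
  exact (Finset.card_biUnion_le_card_mul _ _ _ fun j hj => (hW j hj).1).trans (by omega)

end Clsf

/-- Row CLSF. -/
theorem clsf (hcmp : HcmpStatement) : ClsfStatement := by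
  classical
  intro K _ _ p s v F hF hcrit
  have hM : Mor (p ^ s) F := mor K p s v F hF
  have hq : 2 ≤ p ^ s := by
    calc 2 ≤ p := hF.prime.two_le
      _ = p ^ 1 := (pow_one p).symm
      _ ≤ p ^ s := Nat.pow_le_pow_right hF.prime.pos hF.pos
  by_cases hone : OneOrb F
  · refine ⟨1, le_rfl, fun _ => rfl, ?_⟩
    intro N _ _ _ P h hP hw h0 hh μ T hT
    refine (Finset.card_le_card (t := {pr ((gAct F N)^[μ] P)}) ?_).trans (by simp)
    intro w hw'
    obtain ⟨P', hP'T, rfl⟩ := Finset.mem_image.1 hw'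
    obtain ⟨hP', hPw', hh', m, e, G, hmμ, hG, hev⟩ := hT P' hP'T
    have hq0 : (0 : ℝ) < ((p ^ s : ℕ) : ℝ) := by
      have : 0 < p ^ s := by omega
      exact_mod_cast this
    have h1 := cls K p s v F hF hcrit hone e G hG N _ _ (Bas.iter_ne hM hP m)
      (Bas.iter_ne hM hP' m) (Bas.wandP_iter hw m) (Bas.wandP_iter hPw' m) hev _
      (mul_pos (pow_pos hq0 m) h0) (Clsf.hasHt_iter (by omega) hh m)
      (Clsf.hasHt_iter (by omega) hh' m)
    have h2 := Bas.prl_iter hM.hom h1 (μ - m)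
    rw [← Function.iterate_add_apply, ← Function.iterate_add_apply,
      Nat.sub_add_cancel hmμ] at h2
    exact Finset.mem_singleton.2 (Bas.pr_of_prl h2).symm
  · obtain ⟨R, hR1, hR⟩ := Clsf.main hcmp hq hM hcrit
    exact ⟨R, hR1, fun h => absurd h hone, hR⟩

end Pool.DynLehmer.LP
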