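import Mathlib
import Pool.Agent.Lib.MP_2194ec_nt.GAL.R.Defs
import Pool.Agent.Lib.MP_2194ec_nt.Assemble

set_option autoImplicit false

/-!
# The dynamical Lehmer bound for points with a conjugate of small relative degree:
statements of the rows
-/

namespace Pool.DynLehmer.LP
open MvPolynomial NumberField Filter Topology Pool.DynLehmer Pool.DynLehmer.SB Pool.DynLehmer.SP
  Pool.DynLehmer.GS
open scoped Classical

/-! ## Definitions -/

/-- two wandering critical points have a common iterate (up to scalars) -/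
def OneOrb {K : Type} [Field K] (F : Fin 2 → MvPolynomial (Fin 2) K) : Prop :=
  ∀ U U' : Fin 2 → AlgebraicClosure K, U ≠ 0 → U' ≠ 0 → aeval U (Jac F) = 0 →
    aeval U' (Jac F) = 0 → WandP F U → WandP F U' →
    ∃ i j : ℕ, Prl ((gAct F (AlgebraicClosure K))^[i] U) ((gAct F (AlgebraicClosure K))^[j] U')

/-- small ramification: the elements of `φ(L)` of absolute value `< 1` at `w` have absolute value
at most `w(u) ^ (1 / E)` -/
def Low {K L N : Type} [Field K] [Field L] [Algebra K L] [Field N] [NumberField N] [Algebra K N]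
    (u : K) (w : FinitePlace N) (φ : L →ₐ[K] N) (E : ℕ) : Prop :=
  ∀ a : L, w (φ a) < 1 → (w (φ a)) ^ E ≤ w (algebraMap K N u)

/-- the number of conjugates of `z` over `K` in its residue disc at `w` -/
noncomputable def disc (K : Type) {N : Type} [Field K] [Field N] [NumberField N] [Algebra K N]
    [FiniteDimensional K N] (w : FinitePlace N) (z : Pt N) : ℕ :=
  ((orb (N ≃ₐ[K] N) z).filter fun z' => dw w z'.val z.val < 1).card

/-- the number of conjugates of `z` over `K` -/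
noncomputable def dgo (K : Type) {N : Type} [Field K] [Field N] [NumberField N] [Algebra K N]
    [FiniteDimensional K N] (z : Pt N) : ℕ := (orb (N ≃ₐ[K] N) z).card

/-! ## Rows -/

/-- Row LEVEL: the combinatorial form of the first step. -/
def LevelStatement : Prop :=
  ∀ (q m : ℕ) (C Λ ρ : ℝ), 2 ≤ q → 0 ≤ C → 0 < Λ → 0 < ρ → ∃ B c : ℝ, 1 ≤ B ∧ 0 < c ∧
    ∀ (P G ι : Type) [Group G] [Fintype G] [MulAction G P] [Fintype ι]
      (S : EData q m C Λ P G ι) (hq : 2 ≤ q),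
      (∀ (Z : Finset P) (z : P), (∀ y ∈ Z, S.f y = z) → Z.card ≤ q) →
      ∀ x : P, (Function.Injective fun n : ℕ => S.f^[n] x) →
      c ≤ ((orb G x).card : ℝ) * S.hhat hq x ∨
      ∃ k : ℕ, (q : ℝ) ^ k * ((orb G (S.f^[k] x)).card : ℝ) ≤
          B * (1 + Real.log ((orb G (S.f^[k] x)).card)) * (orb G x).card ∧
        ∑ w, S.lam w * (((orb G (S.f^[k] x)).filter fun z =>
          B * (1 + Real.log ((orb G (S.f^[k] x)).card)) ≤
            (((orb G (S.f^[k] x)).filter fun z' => z' = z ∨ 0 < S.E w z' z).card : ℝ)).card : ℝ)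
          ≤ ρ * Λ * ((orb G (S.f^[k] x)).card : ℝ)

/-- Row EDT: `exists_EData` with the local distances and the weights exposed. -/
def EdtStatement : Prop :=
  ∀ (K : Type) [Field K] [NumberField K] (N : Type) [Field N] [NumberField N] [Algebra K N]
    [IsGalois K N] (p s : ℕ) (v : FinitePlace K) (Φ : FF (OW v) p s),
    v (Φ.ϖ : K) < 1 → (Φ.ϖ : K) ≠ 0 → (∀ a : K, v a < 1 → v a ≤ v (Φ.ϖ : K)) → p.Prime → 1 ≤ s →
    ∀ m : ℕ, GoodExp Φ m → ∀ (S : Finset (FinitePlace N)) (e : FinitePlace N → ℕ),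
    (∀ w ∈ S, Above v w (e w)) → ∑ w ∈ S, e w = Module.finrank K N →
    ∀ C : ℝ, (∀ z : Fin 2 → N, |Height.logHeight ((Φ.map (toN v N)).act z) -
      ((p ^ s : ℕ) : ℝ) * Height.logHeight z| ≤ C * Module.finrank ℚ N) →
    ∃ D : EData (p ^ s) m C (- Real.log (v (Φ.ϖ : K)) / Module.finrank ℚ K) (Pt N)
      (N ≃ₐ[K] N) {w // w ∈ S}, D.f = fpt (Φ.map (toN v N)) ∧
      (D.h = fun P => Height.logHeight P.val / Module.finrank ℚ N) ∧
      (D.E = fun w P Q => Ew Φ w.1 P Q) ∧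
      D.lam = fun w => - Real.log (w.1 (toN v N Φ.ϖ)) / Module.finrank ℚ N

/-- Row LVN: the first step over number fields. -/
def LvnStatement : Prop :=
  ∀ (K : Type) [Field K] [NumberField K] (p s : ℕ) (v : FinitePlace K)
    (F : Fin 2 → MvPolynomial (Fin 2) K), HypR p s v F → ∀ ρ : ℝ, 0 < ρ →
    ∃ B c : ℝ, 1 ≤ B ∧ 0 < c ∧
    ∀ (N : Type) [Field N] [NumberField N] [Algebra K N] [IsGalois K N]
      (S : Finset (FinitePlace N)) (e : FinitePlace N → ℕ), (∀ w ∈ S, Above v w (e w)) →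
      ∑ w ∈ S, e w = Module.finrank K N → ∀ x : Fin 2 → N, x ≠ 0 → WandP F x →
      ∃ h : ℝ, Tendsto (fun n : ℕ => Height.logHeight ((gAct F N)^[n] x) /
        (Module.finrank ℚ N : ℝ) / ((p ^ s : ℕ) : ℝ) ^ n) atTop (𝓝 h) ∧
        (c ≤ (dgo K (nz x) : ℝ) * h ∨
        ∃ k : ℕ, ((p ^ s : ℕ) : ℝ) ^ k * (dgo K (nz ((gAct F N)^[k] x)) : ℝ) ≤
            B * (1 + Real.log (dgo K (nz ((gAct F N)^[k] x)))) * dgo K (nz x) ∧
          ∑ w ∈ S, (e w : ℝ) * (((orb (N ≃ₐ[K] N) (nz ((gAct F N)^[k] x))).filter fun z =>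
            B * (1 + Real.log (dgo K (nz ((gAct F N)^[k] x)))) ≤ (disc K w z : ℝ)).card : ℝ) ≤
            ρ * Module.finrank K N * dgo K (nz ((gAct F N)^[k] x)))

/-- Row RAMJ: few conjugates in the residue discs, small ramification. -/
def RamjStatement : Prop :=
  ∀ (K : Type) [Field K] [NumberField K] (N : Type) [Field N] [NumberField N] [Algebra K N]
    [IsGalois K N] (v : FinitePlace K) (w : FinitePlace N) (e : ℕ), Above v w e →
    ∀ u : K, (∀ a : K, v a < 1 → v a ≤ v u) →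
    ∀ (L : Type) [Field L] [NumberField L] [Algebra K L] (y y' : Fin 2 → L), y ≠ 0 → y' ≠ 0 →
    IntermediateField.adjoin K {y 0 / y 1, y' 0 / y' 1} = ⊤ →
    ∀ (φ : L →ₐ[K] N) (X X' E : ℕ), disc K w (nz fun i => φ (y i)) ≤ X →
      disc K w (nz fun i => φ (y' i)) ≤ X' → X * X' ≤ E → Low u w φ E

/-- Row HOMC: the embeddings of `L` are equidistributed over the conjugates of a point. -/
def HomcStatement : Prop :=
  ∀ (K : Type) [Field K] [NumberField K] (N : Type) [Field N] [NumberField N] [Algebra K N]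
    [IsGalois K N] (L : Type) [Field L] [NumberField L] [Algebra K L] (φ₀ : L →ₐ[K] N)
    (y : Fin 2 → L), y ≠ 0 →
    (∀ φ : L →ₐ[K] N, (nz fun i => φ (y i)) ∈ orb (N ≃ₐ[K] N) (nz fun i => φ₀ (y i))) ∧
    Nat.card (L →ₐ[K] N) = Module.finrank K L ∧
    ∀ bad : Pt N → Prop, Nat.card {φ : L →ₐ[K] N // bad (nz fun i => φ (y i))} *
        dgo K (nz fun i => φ₀ (y i)) = Nat.card (L →ₐ[K] N) *
        ((orb (N ≃ₐ[K] N) (nz fun i => φ₀ (y i))).filter bad).card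

/-- Row LOCB: the local bound for the determinant when only the rows outside `Bad` are close to
the centres. -/
def LocbStatement : Prop :=
  ∀ (K : Type) [Field K] [NumberField K] (N : Type) [Field N] [NumberField N] [Algebra K N]
    (p s : ℕ) (ι : Type) [Fintype ι] [DecidableEq ι] [Nonempty ι]
    (v : FinitePlace K) (w : FinitePlace N) (e : ℕ) (Φ : GF (OW v) p s ι),
    Above v w e → v (Φ.ϖ : K) < 1 →
    ∀ F : ι → MvPolynomial ι K, (∀ i, map (OW v).subtype (Φ.F i) = F i) →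
    ∀ (n J b : ℕ) (μ : Fin n → ℕ → ι →₀ ℕ), (∀ a j, (μ a j).degree = b) →
    ∀ (z : Fin n → ι → N), (∀ i, z i ≠ 0) → ∀ (Bad : Finset (Fin n)) (κ : Type) [Finite κ]
    (cc : κ → ι → N) (t : ℝ), 0 ≤ t → t ≤ 1 →
    ∀ W r : ℕ, W ≤ dl b (p ^ s) J →
    (∀ i, i ∉ Bad → ∃ k, Close w t (z i) (cc k)) →
    (W + 1) ^ (Fintype.card ι - 1) *
      Module.finrank N (HV cc (dl b (p ^ s) J - W)) ≤ r →
    w (Matrix.of fun i a => aeval (z i) (gQ F J (μ a))).det ≤
      t ^ ((W + 1) * (n - (r + Bad.card))) *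
        ∏ i, ∏ j ∈ Finset.range (J + 1), (⨆ l, w ((gAct F N)^[j] (z i) l)) ^ b

/-- Row COREB: `SH.core_wide` when the ramification is small for a proportion `7 / 8` of the
pairs (place, embedding). -/
def CorebStatement : Prop :=
  ∀ (K : Type) [Field K] [NumberField K] (p s : ℕ) (ι : Type) [Fintype ι] [DecidableEq ι]
    [Nonempty ι], 2 ≤ Fintype.card ι → p.Prime → 1 ≤ s → ∀ (v : FinitePlace K)
    (Φ : GF (OW v) p s ι), v (Φ.ϖ : K) < 1 → (Φ.ϖ : K) ≠ 0 →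
    ∀ F : ι → MvPolynomial ι K, (∀ i, (F i).IsHomogeneous (p ^ s)) →
    (∀ z : ι → AlgebraicClosure K, (∀ i, aeval z (F i) = 0) → z = 0) →
    (∀ i, map (OW v).subtype (Φ.F i) = F i) → ∀ f' : ℕ, 1 ≤ f' →
    ∃ k : ℕ, 1 ≤ k ∧ ∀ a : ℝ, 1 ≤ a → ∃ A B : ℝ, 0 < A ∧ 0 < B ∧
      ∀ (L N : Type) [Field L] [NumberField L] [Algebra K L]
      [Field N] [NumberField N] [Algebra K N] [IsGalois K N]
      (S : Finset (FinitePlace N)) (e : FinitePlace N → ℕ) (τ : FinitePlace N → (N ≃ₐ[K] N))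
      (E : ℕ), 1 ≤ E → Nat.card (L →ₐ[K] N) = Module.finrank K L →
      (∀ w ∈ S, Above v w (e w)) → (Module.finrank K N ≤ ∑ w ∈ S, e w) →
      (∀ w ∈ S, ∀ a : N, w a ≤ 1 → w (τ w a - a ^ (p ^ f')) < 1) →
      (∀ w ∈ S, ∀ a : N, w (τ w a) = w a) →
      7 * (Nat.card (L →ₐ[K] N) * ∑ w ∈ S, e w) ≤
        8 * ∑ w ∈ S, e w * Nat.card {φ : L →ₐ[K] N // Low (Φ.ϖ : K) w φ E} →
      ∀ x : ι → L, x ≠ 0 →
      (¬ ∃ m n : ℕ, m ≠ n ∧ ∃ c : L, c ≠ 0 ∧ (gAct F L)^[n] x = c • (gAct F L)^[m] x) →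
      ∃ h : ℝ, Tendsto (fun n : ℕ => Height.logHeight ((gAct F L)^[n] x) /
        (Module.finrank ℚ L : ℝ) / ((p ^ s : ℕ) : ℝ) ^ n) atTop (𝓝 h) ∧ 0 < h ∧
        ∀ D : ℝ, 1 ≤ D → ∃ r0 Lv : ℕ, 1 ≤ Lv ∧
        ((p ^ s : ℕ) : ℝ) ^ ((k + 1) * Lv) ≤ Real.exp (B * (1 + (Real.log D) ^
          (((Fintype.card ι - 1 : ℕ) : ℝ) / (((Fintype.card ι - 1 : ℕ) : ℝ) + 1)))) ∧
        ((p ^ s : ℕ) : ℝ) ^ r0 ≤ ((p ^ s : ℕ) : ℝ) * E * ((p ^ s : ℕ) : ℝ) ^ Lv ∧
        (∀ l l' : ℕ, l ≠ l' → ∀ φ φ' : L →ₐ[K] N, ¬ ∃ c : N,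
          (fun t => φ ((gAct F L)^[r0 + k * l] x t)) =
            c • fun t => φ' ((gAct F L)^[r0 + k * l'] x t)) ∧
        ∀ t : ℕ, 1 ≤ t → (t : ℝ) ≤ a ^ (Lv + 1) * D ^ 2 →
          (∀ l' l : ℕ, l' < l → l < Lv → ∃ f : MvPolynomial ι K, f.IsHomogeneous t ∧
            aeval ((gAct F L)^[r0 + k * l'] x) f = 0 ∧
            aeval ((gAct F L)^[r0 + k * l] x) f ≠ 0) →
          A / ((E : ℝ) * t) * Real.exp (-(B * (1 + (Real.log D) ^
          (((Fintype.card ι - 1 : ℕ) : ℝ) / (((Fintype.card ι - 1 : ℕ) : ℝ) + 1))))) ≤ h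

/-- Row SHARPB: the sharp exponent when the ramification is small for a proportion `7 / 8` of the
pairs (place, embedding). -/
def SharpbStatement : Prop :=
  ∀ (K : Type) [Field K] [NumberField K] (p s : ℕ) (ι : Type) [Fintype ι] [DecidableEq ι]
    [Nonempty ι], 2 ≤ Fintype.card ι → p.Prime → 1 ≤ s → ∀ (v : FinitePlace K)
    (P : ι → MvPolynomial ι K), (∀ i, (P i).IsHomogeneous (p ^ s)) → v (p : K) < 1 →
    (∀ i t, v (coeff t (P i)) ≤ 1) →
    (∀ i t, (∀ j, t ≠ Finsupp.single j (p ^ s)) → v (coeff t (P i)) < 1) →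
    v (Matrix.det (Matrix.of fun i j => coeff (Finsupp.single j (p ^ s)) (P i))) = 1 →
    ∀ u : K, u ≠ 0 → v u < 1 → (∀ a : K, v a < 1 → v a ≤ v u) →
    ∃ A B : ℝ, 0 < A ∧ 0 < B ∧ ∀ (E : ℕ), 1 ≤ E →
      ∀ (L N : Type) [Field L] [NumberField L] [Algebra K L]
      [Field N] [NumberField N] [Algebra K N] [IsGalois K N]
      (S : Finset (FinitePlace N)) (e : FinitePlace N → ℕ),
      Nat.card (L →ₐ[K] N) = Module.finrank K L →
      (∀ w ∈ S, Above v w (e w)) → (Module.finrank K N ≤ ∑ w ∈ S, e w) →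
      7 * (Nat.card (L →ₐ[K] N) * ∑ w ∈ S, e w) ≤
        8 * ∑ w ∈ S, e w * Nat.card {φ : L →ₐ[K] N // Low u w φ E} →
      ∀ x : ι → L, x ≠ 0 →
      (¬ ∃ m n : ℕ, m ≠ n ∧ ∃ c : L, c ≠ 0 ∧ (gAct P L)^[n] x = c • (gAct P L)^[m] x) →
      ¬ OnCurve P x →
      ∃ h : ℝ, Tendsto (fun n : ℕ => Height.logHeight ((gAct P L)^[n] x) /
        (Module.finrank ℚ L : ℝ) / ((p ^ s : ℕ) : ℝ) ^ n) atTop (𝓝 h) ∧
          A / ((E : ℝ) * Real.sqrt (Module.finrank K L)) *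
            Real.exp (-(B * (1 + (Real.log (Module.finrank K L)) ^
            (((Fintype.card ι - 1 : ℕ) : ℝ) / (((Fintype.card ι - 1 : ℕ) : ℝ) + 1))))) ≤ h

/-- Row CLS: a pair of wandering points on a periodic form whose heights are equal consists of
two equal points, if there is one grand orbit of wandering critical points. -/
def ClsStatement : Prop :=
  ∀ (K : Type) [Field K] [NumberField K] (p s : ℕ) (v : FinitePlace K)
    (F : Fin 2 → MvPolynomial (Fin 2) K), HypR p s v F → CritW F → OneOrb F →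
    ∀ (e : ℕ) (G : MvPolynomial (Fin 2 ⊕ Fin 2) K), PerForm F e G →
    ∀ (N : Type) [Field N] [NumberField N] [Algebra K N] (P P' : Fin 2 → N), P ≠ 0 → P' ≠ 0 →
      WandP F P → WandP F P' → GS.ev P P' G = 0 → ∀ h : ℝ, 0 < h →
      Tendsto (fun n : ℕ => Height.logHeight ((gAct F N)^[n] P) /
        (Module.finrank ℚ N : ℝ) / ((p ^ s : ℕ) : ℝ) ^ n) atTop (𝓝 h) →
      Tendsto (fun n : ℕ => Height.logHeight ((gAct F N)^[n] P') /
        (Module.finrank ℚ N : ℝ) / ((p ^ s : ℕ) : ℝ) ^ n) atTop (𝓝 h) → Prl P P'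

/-- Row NUM: the numerical end of the proof. Here `d` is the degree of the point, `M` the degree
of the pair, `Y` the size of the discs, `θ = 3 / 4`. -/
def NumStatement : Prop :=
  ∀ (δ A B B' θ : ℝ), 0 < δ → 0 < A → 0 < B → 1 ≤ B' → 0 ≤ θ → θ < 1 → ∃ c : ℝ, 0 < c ∧
    ∀ (d M E : ℕ), 1 ≤ d → d ≤ M → (M : ℝ) ^ (1 / 2 + δ) ≤ d →
      (E : ℝ) ≤ 4 * (B' * (1 + Real.log d)) ^ 2 → 1 ≤ E →
      c ≤ d * (A / ((E : ℝ) * Real.sqrt M) * Real.exp (-(B * (1 + (Real.log M) ^ θ)))) /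
        (B' * (1 + Real.log d))

/-- The theorem. -/
def UStatement : Prop :=
  ∀ (K : Type) [Field K] [NumberField K] (p s : ℕ) (v : FinitePlace K)
    (F : Fin 2 → MvPolynomial (Fin 2) K), HypR p s v F → CritW F → OneOrb F →
    ∀ δ : ℝ, 0 < δ →
    ∃ c : ℝ, 0 < c ∧ ∀ (N : Type) [Field N] [NumberField N] [Algebra K N] (a b : N),
      WandP F ![a, 1] → Polynomial.aeval b (minpoly K a) = 0 →
      (∀ n : ℕ, ¬ Prl ((gAct F N)^[n] ![a, 1]) ((gAct F N)^[n] ![b, 1])) →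
      (∀ n : ℕ, (Module.finrank K (IntermediateField.adjoin K {a, b}) : ℝ) ^ (1 / 2 + δ) ≤
        dg K ((gAct F N)^[n] ![a, 1])) →
      ∃ h : ℝ, Tendsto (fun n : ℕ => Height.logHeight ((gAct F N)^[n] ![a, 1]) /
        (Module.finrank ℚ N : ℝ) / ((p ^ s : ℕ) : ℝ) ^ n) atTop (𝓝 h) ∧
        c / (Module.finrank K (IntermediateField.adjoin K {a}) : ℝ) ≤ h

end Pool.DynLehmer.LP
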