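import Mathlib
import Pool.Agent.Lib.MP_2194ec_nt.LP.Defs
import Pool.Agent.Lib.MP_2194ec_nt.SB.Local
import Pool.Agent.Lib.MP_2194ec_nt.SB.Hasse
import Pool.Agent.Lib.MP_2194ec_nt.SB.Euler
import Pool.Agent.Lib.MP_2194ec_nt.SB.Satur
import Pool.Agent.Lib.MP_2194ec_nt.SB.Cardw

set_option autoImplicit false

/-!
# Module LOCAL with a set of bad rows
-/

namespace Pool.DynLehmer.LP
open MvPolynomial NumberField Pool.DynLehmer Pool.DynLehmer.SB
open scoped Classical

/-- module LOCAL with bad rows -/
theorem local_bad (hH : HasseStatement) (hE : EulerStatement) (hS : SaturStatement)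
    (hC : CardWStatement) : LocbStatement := by
  intro K _ _ N _ _ _ p s ι _ _ _ v w e Φ h hϖ F hΦF n J b μ hμ z hz Bad κ _ cc t ht0 ht1 W r hWT
    hcl hr
  -- integral primitive rows; the good ones are close to a centre
  have hrow : ∀ i, ∃ (a : N) (u : ι → OW w), a ≠ 0 ∧ (z i = a • fun l => (u l : N)) ∧
      Prim w u ∧ (i ∉ Bad → ∃ (k : κ) (b : N) (u' : ι → OW w), b ≠ 0 ∧
        (cc k = b • fun l => (u' l : N)) ∧ ∀ l, w ((u l : N) - u' l) ≤ t) := by
    intro i
    by_cases hi : i ∈ Bad
    · obtain ⟨a, u, ha, hzu, hu⟩ := gexists_prim (w := w) (hz i)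
      exact ⟨a, u, ha, hzu, hu, fun h => absurd hi h⟩
    · obtain ⟨k, a, b, u, u', ha, hb, hzu, hcu, hu, -, hd⟩ := hcl i hi
      exact ⟨a, u, ha, hzu, hu, fun _ => ⟨k, b, u', hb, hcu, hd⟩⟩
  choose a u ha hzu hprim hk using hrow
  set T := dl b (p ^ s) J with hT
  set Ψ := Φ.map (toOW h) with hΨ
  have hΨF : ∀ i, map (OW w).subtype (Ψ.F i) = map (algebraMap K N) (F i) := by
    intro i
    rw [hΨ, GF.map_F, ← hΦF i, MvPolynomial.map_map, subtype_comp_toOW, toN,
      MvPolynomial.map_map]
  -- functionals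
  set H := HV cc (T - W) with hHdef
  obtain ⟨g, hg⟩ := exists_detect (N := N) H
  let A : Type := {α // α ∈ (Finset.univ : Finset ι).finsuppAntidiag W} ×
    Fin (Module.finrank N H)
  have hC' : ∀ D : DecidableEq ι,
      (@Finset.finsuppAntidiag ι ℕ D _ _ _ (Finset.univ : Finset ι) W).card ≤
        (W + 1) ^ (Fintype.card ι - 1) := by
    intro D
    rw [Subsingleton.elim D (fun a b => Classical.propDecidable (a = b))]
    exact hC ι W
  have hcard : Fintype.card A ≤ Fintype.card (Fin r) := by
    rw [Fintype.card_prod, Fintype.card_coe, Fintype.card_fin, Fintype.card_fin]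
    exact (Nat.mul_le_mul_right _ (hC' _)).trans hr
  obtain ⟨em⟩ := Function.Embedding.nonempty_of_card_le hcard
  let gr : (κ → N) →ₗ[OW w] (Fin (Module.finrank N H) → N) := g.restrictScalars (OW w)
  let fn : A → (MvPolynomial ι (OW w) →ₗ[OW w] N) := fun x =>
    (LinearMap.proj x.2).comp (gr.comp (vals w hH cc x.1.1))
  let R : Fin n → (MvPolynomial ι (OW w) →ₗ[OW w] OW w) := fun i => (aeval (u i)).toLinearMap
  let ℓ : Fin (r + Bad.card) → (MvPolynomial ι (OW w) →ₗ[OW w] N) :=
    Fin.append (Function.extend em fn 0)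
      (fun j => (Algebra.linearMap (OW w) N).comp (R ((Bad.equivFin.symm j : Bad) : Fin n)))
  have hsat := hS N w (t ^ (W + 1)) (pow_nonneg ht0 _) (pow_le_one₀ ht0 ht1)
    (MvPolynomial ι (OW w)) (homogeneousSubmodule ι (OW w) T) (r + Bad.card) ℓ
    (Fin n) R ?_ n id
    (fun a => gQ Ψ.F J (μ a)) ?_
  · -- end of the proof
    have hdet1 : w (((Matrix.of fun i a => eval (u i) (gQ Ψ.F J (μ a))).det : OW w) : N) ≤
        t ^ ((W + 1) * (n - (r + Bad.card))) := by
      rw [pow_mul]
      refine le_trans (le_of_eq ?_) hsat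
      congr 3
    have hentry : ∀ i c, aeval (z i) (gQ F J (μ c)) =
        a i ^ T * ((eval (u i) (gQ Ψ.F J (μ c)) : OW w) : N) := by
      intro i c
      have h1 : ((eval (u i) (gQ Ψ.F J (μ c)) : OW w) : N) =
          eval (fun l => (u i l : N)) (map (OW w).subtype (gQ Ψ.F J (μ c))) := by
        rw [eval_map]
        exact eval₂_comp (OW w).subtype (u i) (gQ Ψ.F J (μ c))
      have h2 : map (OW w).subtype (gQ Ψ.F J (μ c)) = map (algebraMap K N) (gQ F J (μ c)) := by
        rw [map_gQ, map_gQ]
        congr 1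
        funext i
        exact hΨF i
      have hFh : ∀ i, (map (algebraMap K N) (F i)).IsHomogeneous (p ^ s) := fun i => by
        rw [← hΨF i]; exact (Ψ.F_hom i).map _
      have h3 : (map (algebraMap K N) (gQ F J (μ c))).IsHomogeneous T := by
        rw [map_gQ]
        exact gQ_hom _ hFh J (μ c) (hμ c)
      rw [h1, h2, ← eval_smul_hom h3, ← hzu i, eval_map]
      rfl
    have hdet2 : (Matrix.of fun i c => aeval (z i) (gQ F J (μ c))).det =
        (∏ i, a i ^ T) *
          (((Matrix.of fun i c => eval (u i) (gQ Ψ.F J (μ c))).det : OW w) : N) := by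
      have h1 : (((Matrix.of fun i c => eval (u i) (gQ Ψ.F J (μ c))).det : OW w) : N) =
          (Matrix.of fun i c => ((eval (u i) (gQ Ψ.F J (μ c)) : OW w) : N)).det := by
        have := (OW w).subtype.map_det (Matrix.of fun i c => eval (u i) (gQ Ψ.F J (μ c)))
        exact this
      rw [h1, ← Matrix.det_mul_column]
      congr 1
      ext i c
      simp only [Matrix.of_apply]
      exact hentry i c
    rw [hdet2, map_mul, map_prod, mul_comm]
    refine mul_le_mul hdet1 ?_ (Finset.prod_nonneg fun i _ => apply_nonneg w _)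
      (pow_nonneg ht0 _)
    refine Finset.prod_le_prod (fun i _ => apply_nonneg w _) fun i _ => ?_
    rw [map_pow, hT, dl_eq, ← Finset.prod_pow_eq_pow_sum]
    refine Finset.prod_le_prod (fun j _ => pow_nonneg (apply_nonneg w _) _) fun j _ => ?_
    rw [pow_mul]
    refine pow_le_pow_left₀ (pow_nonneg (apply_nonneg w _) _) ?_ b
    -- the norm of the iterates
    have hact : (Φ.map (toN v N)).act = gAct F N := gact_eq_aeval Φ F hΦF N
    obtain ⟨l, hl⟩ := prim_act_iter Φ h hϖ j (u i) (hprim i)
    have h4 : (gAct F N)^[j] (z i) = (a i ^ ((p ^ s) ^ j)) •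
        fun l => (((Φ.map (toOW h)).act^[j] (u i) l : OW w) : N) := by
      rw [← hact, hzu i, GF.act_iter_smul, ← gcoe_act_iter Φ h]
    have h5 : w ((gAct F N)^[j] (z i) l) = w (a i) ^ ((p ^ s) ^ j) := by
      rw [h4]
      simp only [Pi.smul_apply, smul_eq_mul, map_mul, map_pow]
      rw [hl, mul_one]
    rw [← h5]
    exact Finite.le_ciSup (fun l => w ((gAct F N)^[j] (z i) l)) l
  · -- small on the common kernel
    intro x hx hℓ i
    by_cases hi : i ∈ Bad
    · have h1 := hℓ (Fin.natAdd r (Bad.equivFin ⟨i, hi⟩))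
      simp only [ℓ, Fin.append_right, Equiv.symm_apply_apply] at h1
      have h2 : ((R i x : OW w) : N) = 0 := h1
      rw [h2, map_zero]
      exact pow_nonneg ht0 _
    obtain ⟨k, b', u', hb, hcu, hd⟩ := hk i hi
    have hxh : x.IsHomogeneous T := (mem_homogeneousSubmodule _ _).1 hx
    set xN := map (OW w).subtype x with hxN
    have hxNh : xN.IsHomogeneous T := hxh.map _
    have hfn : ∀ y : A, fn y x = 0 := by
      intro y
      have h1 := hℓ (Fin.castAdd Bad.card (em y))
      have h2 : ℓ (Fin.castAdd Bad.card (em y)) = fn y := by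
        simp only [ℓ, Fin.append_left]
        exact em.injective.extend_apply fn 0 y
      rwa [h2] at h1
    have hvan : ∀ α : ι →₀ ℕ, α.degree = W → ∀ k, eval (cc k) (hsd α xN) = 0 := by
      intro α hα
      have hmem : α ∈ (Finset.univ : Finset ι).finsuppAntidiag W := by
        rw [Finset.mem_finsuppAntidiag]
        refine ⟨?_, Finset.subset_univ _⟩
        rw [← hα, Finsupp.degree_eq_sum]
      have h1 : (fun k => eval (cc k) (hsd α xN)) ∈ H := by
        have h2 := hH.2.2.2.1 N ι α xN T hxNh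
        rw [hα] at h2
        exact mem_HV h2
      have h2 : g (fun k => eval (cc k) (hsd α xN)) = 0 := by
        funext j
        exact hfn (⟨α, hmem⟩, j)
      intro k
      exact congrFun (hg _ h1 h2) k
    have hvan2 : ∀ α : ι →₀ ℕ, α.degree ≤ W → eval u' (hsd α x) = 0 := by
      intro α hα
      have h1 := hE N ι xN T W hxNh hWT (cc k) (fun α hα => hvan α hα k) α hα
      have h2 := hH.2.2.2.1 N ι α xN T hxNh
      rw [hcu, eval_smul_hom h2] at h1
      have h3 : eval (fun j => (u' j : N)) (hsd α xN) = 0 :=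
        (mul_eq_zero.1 h1).resolve_left (pow_ne_zero _ hb)
      rw [hxN, hH.2.2.2.2.2, eval_map] at h3
      have h4 : ((eval u' (hsd α x) : OW w) : N) = 0 := by
        rw [← h3]
        exact eval₂_comp (OW w).subtype u' (hsd α x)
      exact Subtype.ext h4
    have hval : R i x = eval (u i) x := by
      change aeval (u i) x = _
      rw [aeval_eq_eval]
    rw [hval, hH.1 (OW w) ι x (u i) u', AddSubmonoidClass.coe_finsetSum]
    refine finitePlace_sum_le w _ _ _ (pow_nonneg ht0 _) fun α _ => ?_
    rcases le_or_gt α.degree W with h1 | h1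
    · rw [hvan2 α h1, zero_mul]
      simpa using pow_nonneg ht0 _
    · rw [Subring.coe_mul, map_mul, SubmonoidClass.coe_finsetProd, map_prod]
      have h2 : ∏ j, w (((u i j - u' j) ^ α j : OW w) : N) ≤ t ^ (W + 1) := by
        calc ∏ j, w (((u i j - u' j) ^ α j : OW w) : N) ≤ ∏ j, t ^ α j := by
              refine Finset.prod_le_prod (fun j _ => apply_nonneg w _) fun j _ => ?_
              rw [Subring.coe_pow, map_pow]
              refine pow_le_pow_left₀ (apply_nonneg w _) ?_ _
              exact hd j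
          _ = t ^ α.degree := by rw [Finset.prod_pow_eq_pow_sum, Finsupp.degree_eq_sum]
          _ ≤ t ^ (W + 1) := pow_le_pow_of_le_one ht0 ht1 h1
      calc w ((eval u' (hsd α x) : OW w) : N) * ∏ j, w (((u i j - u' j) ^ α j : OW w) : N)
          ≤ 1 * t ^ (W + 1) := mul_le_mul (eval u' (hsd α x) : OW w).2 h2
            (Finset.prod_nonneg fun j _ => apply_nonneg w _) zero_le_one
        _ = t ^ (W + 1) := one_mul _
  · intro c
    exact (mem_homogeneousSubmodule _ _).2 (gQ_hom _ Ψ.F_hom J (μ c) (hμ c))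

/-- Row LOCB -/
theorem locb : LocbStatement := local_bad hasse (euler hasse) satur cardW

end Pool.DynLehmer.LP
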