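import Mathlib
import Pool.Agent.Lib.MP_2194ec_nt.LP.Defs
import Pool.Agent.Lib.MP_2194ec_nt.LP.Locb
import Pool.Agent.Lib.MP_2194ec_nt.SepE0
import Pool.Agent.Lib.MP_2194ec_nt.SH.Corex
import Pool.Agent.Lib.MP_2194ec_nt.SB.Energy3
import Pool.Agent.Lib.MP_2194ec_nt.SB.Doub
import Pool.Agent.Lib.MP_2194ec_nt.SB.Mono
import Pool.Agent.Lib.MP_2194ec_nt.SB.Indep
import Pool.Agent.Lib.MP_2194ec_nt.SB.Ded
import Pool.Agent.Lib.MP_2194ec_nt.SB.Rows
import Pool.Agent.Lib.MP_2194ec_nt.SB.Rank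
import Pool.Agent.Lib.MP_2194ec_nt.SB.Endg

set_option autoImplicit false

/-!
# The core with a proportion of good pairs (place, embedding)
-/

namespace Pool.DynLehmer.LP
open MvPolynomial NumberField Pool.DynLehmer Pool.DynLehmer.SB Pool.DynLehmer.SH Filter Topology
open scoped Classical

section gal

/-- the automorphisms of a normal extension act transitively on the embeddings -/
theorem exists_gal {K L N : Type} [Field K] [Field L] [Field N] [Algebra K L] [Algebra K N]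
    [Normal K N] (φ ψ : L →ₐ[K] N) : ∃ g : N ≃ₐ[K] N, (g : N →ₐ[K] N).comp φ = ψ := by
  let χ : φ.fieldRange ≃ₐ[K] ψ.fieldRange := φ.equivFieldRange.symm.trans ψ.equivFieldRange
  refine ⟨χ.liftNormal N, ?_⟩
  ext a
  have h1 := χ.liftNormal_commutes N (φ.equivFieldRange a)
  have h2 : χ (φ.equivFieldRange a) = ψ.equivFieldRange a := by
    simp [χ]
  rw [h2] at h1
  exact h1

theorem gal_count {K L N : Type} [Field K] [Field L] [Field N] [Algebra K L] [Algebra K N]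
    [FiniteDimensional K L] [FiniteDimensional K N] [Normal K N] (good : (L →ₐ[K] N) → Prop)
    (φ0 : L →ₐ[K] N) :
    Fintype.card (L →ₐ[K] N) *
        (Finset.univ.filter fun g : N ≃ₐ[K] N => good ((g : N →ₐ[K] N).comp φ0)).card =
      Fintype.card (N ≃ₐ[K] N) * (Finset.univ.filter good).card := by
  have h1 : ∀ φ : L →ₐ[K] N,
      (Finset.univ.filter fun g : N ≃ₐ[K] N => good ((g : N →ₐ[K] N).comp φ)).card =
        (Finset.univ.filter fun g : N ≃ₐ[K] N => good ((g : N →ₐ[K] N).comp φ0)).card := by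
    intro φ
    obtain ⟨h, rfl⟩ := exists_gal φ0 φ
    refine Finset.card_bij (fun g _ => g * h) ?_ ?_ ?_
    · intro g hg
      rw [Finset.mem_filter] at hg ⊢
      exact ⟨Finset.mem_univ _, hg.2⟩
    · intro g _ g' _ hgg
      exact mul_right_cancel hgg
    · intro g hg
      refine ⟨g * h⁻¹, ?_, by simp⟩
      rw [Finset.mem_filter] at hg ⊢
      refine ⟨Finset.mem_univ _, ?_⟩
      have h2 : (((g * h⁻¹ : N ≃ₐ[K] N)) : N →ₐ[K] N).comp ((h : N →ₐ[K] N).comp φ0) =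
          (g : N →ₐ[K] N).comp φ0 := by
        ext a
        change g (h⁻¹ (h (φ0 a))) = g (φ0 a)
        congr 1
        exact h.symm_apply_apply _
      rw [h2]
      exact hg.2
  have h2 : ∀ g : N ≃ₐ[K] N,
      (Finset.univ.filter fun φ : L →ₐ[K] N => good ((g : N →ₐ[K] N).comp φ)).card =
        (Finset.univ.filter good).card := by
    intro g
    refine Finset.card_bij (fun φ _ => (g : N →ₐ[K] N).comp φ) ?_ ?_ ?_
    · intro φ hφ
      rw [Finset.mem_filter] at hφ ⊢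
      exact ⟨Finset.mem_univ _, hφ.2⟩
    · intro φ _ φ' _ hgg
      ext a
      have := DFunLike.congr_fun hgg a
      exact g.injective this
    · intro φ hφ
      refine ⟨((g⁻¹ : N ≃ₐ[K] N) : N →ₐ[K] N).comp φ, ?_, ?_⟩
      · rw [Finset.mem_filter] at hφ ⊢
        refine ⟨Finset.mem_univ _, ?_⟩
        have h3 : (g : N →ₐ[K] N).comp (((g⁻¹ : N ≃ₐ[K] N) : N →ₐ[K] N).comp φ) = φ := by
          ext a
          exact g.apply_symm_apply _
        rw [h3]
        exact hφ.2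
      · ext a
        exact g.apply_symm_apply _
  have h3 : ∑ φ : L →ₐ[K] N, ∑ g : N ≃ₐ[K] N,
      (if good ((g : N →ₐ[K] N).comp φ) then 1 else 0) =
      ∑ g : N ≃ₐ[K] N, ∑ φ : L →ₐ[K] N,
      (if good ((g : N →ₐ[K] N).comp φ) then 1 else 0) := Finset.sum_comm
  simp only [← Finset.card_filter] at h3
  rw [Finset.sum_congr rfl fun φ _ => h1 φ, Finset.sum_congr rfl fun g _ => h2 g,
    Finset.sum_const, Finset.sum_const, Finset.card_univ, Finset.card_univ, smul_eq_mul,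
    smul_eq_mul] at h3
  exact h3

/-- a conjugate of the rows which is good at a proportion of the places -/
theorem exists_shift {K L N : Type} [Field K] [Field L] [Field N] [Algebra K L] [Algebra K N]
    [FiniteDimensional K L] [FiniteDimensional K N] [Normal K N] {κ : Type} (S : Finset κ)
    (c : κ → ℕ) (good : κ → (L →ₐ[K] N) → Prop) (n : ℕ) (φ : Fin n → (L →ₐ[K] N)) (D : ℕ)
    (hD : Nat.card (L →ₐ[K] N) = D) (hD1 : 1 ≤ D)
    (h : 7 * ((∑ w ∈ S, c w) * D) ≤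
      8 * ∑ w ∈ S, c w * Nat.card {φ : L →ₐ[K] N // good w φ}) :
    ∃ g : N ≃ₐ[K] N, 7 * (n * ∑ w ∈ S, c w) ≤ 8 * ∑ w ∈ S, c w *
      (Finset.univ.filter fun i => good w ((g : N →ₐ[K] N).comp (φ i))).card := by
  by_contra hcon
  push Not at hcon
  have hlt : ∑ g : N ≃ₐ[K] N, 8 * ∑ w ∈ S, c w *
      (Finset.univ.filter fun i => good w ((g : N →ₐ[K] N).comp (φ i))).card <
      ∑ _g : N ≃ₐ[K] N, 7 * (n * ∑ w ∈ S, c w) :=
    Finset.sum_lt_sum_of_nonempty ⟨1, Finset.mem_univ _⟩ fun g _ => hcon g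
  have hcard : ∀ w, Nat.card {φ : L →ₐ[K] N // good w φ} = (Finset.univ.filter (good w)).card := by
    intro w
    rw [Nat.card_eq_fintype_card, Fintype.card_subtype]
  have hD' : Fintype.card (L →ₐ[K] N) = D := by rw [← hD, Nat.card_eq_fintype_card]
  have e1 : ∀ w, D * ∑ g : N ≃ₐ[K] N,
      (Finset.univ.filter fun i => good w ((g : N →ₐ[K] N).comp (φ i))).card =
      n * (Fintype.card (N ≃ₐ[K] N) * Nat.card {φ : L →ₐ[K] N // good w φ}) := by
    intro w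
    have e2 : ∑ g : N ≃ₐ[K] N,
        (Finset.univ.filter fun i => good w ((g : N →ₐ[K] N).comp (φ i))).card =
        ∑ i, (Finset.univ.filter fun g : N ≃ₐ[K] N =>
          good w ((g : N →ₐ[K] N).comp (φ i))).card := by
      simp only [Finset.card_filter]
      exact Finset.sum_comm
    rw [e2, Finset.mul_sum]
    rw [Finset.sum_congr rfl (fun i _ => by
      rw [← hD', gal_count (good w) (φ i), ← hcard] :
      ∀ i ∈ (Finset.univ : Finset (Fin n)), D * (Finset.univ.filter fun g : N ≃ₐ[K] N =>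
          good w ((g : N →ₐ[K] N).comp (φ i))).card =
        Fintype.card (N ≃ₐ[K] N) * Nat.card {φ : L →ₐ[K] N // good w φ})]
    rw [Finset.sum_const, Finset.card_univ, Fintype.card_fin, smul_eq_mul]
  have e3 : D * ∑ g : N ≃ₐ[K] N, 8 * ∑ w ∈ S, c w *
      (Finset.univ.filter fun i => good w ((g : N →ₐ[K] N).comp (φ i))).card =
      n * Fintype.card (N ≃ₐ[K] N) *
        (8 * ∑ w ∈ S, c w * Nat.card {φ : L →ₐ[K] N // good w φ}) := by
    rw [← Finset.mul_sum, Finset.sum_comm]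
    have e4 : ∀ w, ∑ g : N ≃ₐ[K] N, c w *
        (Finset.univ.filter fun i => good w ((g : N →ₐ[K] N).comp (φ i))).card =
        c w * ∑ g : N ≃ₐ[K] N,
        (Finset.univ.filter fun i => good w ((g : N →ₐ[K] N).comp (φ i))).card := fun w => by
      rw [Finset.mul_sum]
    rw [Finset.sum_congr rfl fun w _ => e4 w]
    calc D * (8 * ∑ w ∈ S, c w * ∑ g : N ≃ₐ[K] N,
          (Finset.univ.filter fun i => good w ((g : N →ₐ[K] N).comp (φ i))).card)
        = 8 * ∑ w ∈ S, c w * (D * ∑ g : N ≃ₐ[K] N,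
          (Finset.univ.filter fun i => good w ((g : N →ₐ[K] N).comp (φ i))).card) := by
          rw [mul_left_comm, Finset.mul_sum]
          congr 1
          exact Finset.sum_congr rfl fun w _ => by ring
      _ = _ := by
          rw [Finset.sum_congr rfl fun w _ => by rw [e1 w], Finset.mul_sum, Finset.mul_sum,
            Finset.mul_sum]
          exact Finset.sum_congr rfl fun w _ => by ring
  have h4 := Nat.mul_lt_mul_of_pos_left hlt (show 0 < D by omega)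
  rw [e3, Finset.sum_const, Finset.card_univ, smul_eq_mul] at h4
  have h5 := Nat.mul_le_mul_left (n * Fintype.card (N ≃ₐ[K] N)) h
  have h6 : n * Fintype.card (N ≃ₐ[K] N) * (7 * ((∑ w ∈ S, c w) * D)) =
      D * (Fintype.card (N ≃ₐ[K] N) * (7 * (n * ∑ w ∈ S, c w))) := by ring
  rw [h6] at h5
  exact absurd h4 (not_lt.2 h5)

theorem det_shift {K N ι : Type} [Field K] [Field N] [Algebra K N] {n : ℕ} (g : N ≃ₐ[K] N)
    (z : Fin n → ι → N) (Q : Fin n → MvPolynomial ι K) :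
    (Matrix.of fun i a => aeval (fun t => g (z i t)) (Q a)).det =
      g (Matrix.of fun i a => aeval (z i) (Q a)).det := by
  rw [AlgEquiv.map_det]
  congr 1
  ext i a
  simp only [Matrix.of_apply, AlgEquiv.mapMatrix_apply, Matrix.map_apply]
  exact (MvPolynomial.comp_aeval_apply (f := z i) (g : N →ₐ[K] N) (Q a)).symm

end gal

section close

variable {K : Type} [Field K] [NumberField K] {p s : ℕ} {ι : Type} [Fintype ι] [DecidableEq ι]

/-- all levels are close to one level, for one embedding -/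
theorem close_core1 [Nonempty ι] (hp : p.Prime) (hs : 1 ≤ s) {v : FinitePlace K}
    (Φ : GF (OW v) p s ι) (hϖ : v (Φ.ϖ : K) < 1) (hϖ0 : (Φ.ϖ : K) ≠ 0)
    (F : ι → MvPolynomial ι K) (hF : ∀ i, (F i).IsHomogeneous (p ^ s))
    (hz : ∀ z : ι → AlgebraicClosure K, (∀ i, aeval z (F i) = 0) → z = 0)
    (hΦF : ∀ i, map (OW v).subtype (Φ.F i) = F i) {m0 f' : ℕ}
    (hm0 : ∀ k, m0 ∣ k → GGoodExp Φ k)
    {L N : Type} [Field L] [NumberField L] [Algebra K L] [Field N] [NumberField N] [Algebra K N]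
    {w : FinitePlace N} {e : ℕ} (hw : Above v w e) (τ : N ≃ₐ[K] N) {E : ℕ} (hE1 : 1 ≤ E)
    (hfrob : ∀ a : N, w a ≤ 1 → w (τ a - a ^ (p ^ f')) < 1)
    {j0 : ℕ} (hj01 : E ≤ (p ^ s) ^ j0) (x : ι → L) (hx : x ≠ 0) (i0 l l0 : ℕ)
    (φ : L →ₐ[K] N) (hram : ∀ a : L, w (φ a) < 1 → (w (φ a)) ^ E ≤ w (toN v N Φ.ϖ)) :
    ∃ φ' : L →ₐ[K] N, Close w (w (toN v N Φ.ϖ) ^ (i0 + 1))
      (fun t => φ ((gAct F L)^[j0 + i0 + m0 * f' * l] x t))
      (fun t => φ' ((gAct F L)^[j0 + i0 + m0 * f' * l0] x t)) := by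
  have hinv : ∀ a, w (τ a) = w a := frob_inv w τ hfrob
  have hinvk : ∀ (k : ℕ) (a : N), w ((τ ^ k) a) = w a := by
    intro k
    induction k with
    | zero => intro a; simp
    | succ k ih =>
      intro a
      rw [pow_succ', AlgEquiv.mul_apply, hinv, ih]
  have hinvk' : ∀ (k : ℕ) (a : N), w (((τ ^ k)⁻¹) a) = w a := by
    intro k a
    rw [← hinvk k (((τ ^ k)⁻¹) a)]
    congr 1
    exact (τ ^ k).apply_symm_apply a
  have hfr : ∀ y : N, w y ≤ 1 → w ((τ ^ (s * m0)) y - y ^ ((p ^ s) ^ (m0 * f'))) < 1 := by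
    intro y hy
    have h1 := frob_pow τ w (p ^ f') hfrob (s * m0) y hy
    have h2 : (p ^ f') ^ (s * m0) = (p ^ s) ^ (m0 * f') := by
      rw [← pow_mul, ← pow_mul]; congr 1; ring
    rw [h2] at h1
    exact h1
  have hlc : ∀ (l : ℕ) (φ : L →ₐ[K] N),
      (∀ a : L, w (φ a) < 1 → (w (φ a)) ^ E ≤ w (toN v N Φ.ϖ)) →
      Close w (w (toN v N Φ.ϖ) ^ (i0 + 1))
      (fun t => φ ((gAct F L)^[j0 + i0 + m0 * f' * l] x t))
      ((gAct F N)^[j0 + i0] (fun t => ((τ ^ (s * m0 * l) : N ≃ₐ[K] N)) (φ (x t)))) := by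
    intro l φ hram
    have h1 := level_close Φ hw hϖ hϖ0 hp hs F hF hz hΦF (k := m0 * f')
      (fun l => hm0 (m0 * f' * l) ⟨f' * l, by ring⟩) (τ ^ (s * m0)) hfr hE1 hj01 x hx
      l i0 φ (((τ ^ (s * m0 * l) : N ≃ₐ[K] N) : N →ₐ[K] N).comp φ)
      (fun a => hram a)
      (fun a => by
        change w ((τ ^ (s * m0 * l)) (φ a)) < 1 → (w ((τ ^ (s * m0 * l)) (φ a))) ^ E ≤ _
        rw [hinvk]
        exact hram a) (fun y => by
        rw [← pow_mul]
        rfl)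
    rw [gAct_iter_map F φ _ x] at h1
    exact h1
  refine ⟨((((τ ^ (s * m0 * l0))⁻¹ * τ ^ (s * m0 * l) : N ≃ₐ[K] N)) : N →ₐ[K] N).comp φ, ?_⟩
  have h3 := hlc l φ hram
  have h4 := hlc l0 (((((τ ^ (s * m0 * l0))⁻¹ * τ ^ (s * m0 * l) : N ≃ₐ[K] N)) :
    N →ₐ[K] N).comp φ) (fun a => by
      change w ((τ ^ (s * m0 * l0))⁻¹ ((τ ^ (s * m0 * l)) (φ a))) < 1 →
        (w ((τ ^ (s * m0 * l0))⁻¹ ((τ ^ (s * m0 * l)) (φ a)))) ^ E ≤ _
      rw [hinvk', hinvk]
      exact hram a)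
  have h5 : (fun t => ((τ ^ (s * m0 * l0) : N ≃ₐ[K] N))
      ((((((τ ^ (s * m0 * l0))⁻¹ * τ ^ (s * m0 * l) : N ≃ₐ[K] N)) :
        N →ₐ[K] N).comp φ) (x t))) = fun t => ((τ ^ (s * m0 * l) : N ≃ₐ[K] N)) (φ (x t)) := by
    funext t
    change (τ ^ (s * m0 * l0) * ((τ ^ (s * m0 * l0))⁻¹ * τ ^ (s * m0 * l)) : N ≃ₐ[K] N)
      (φ (x t)) = _
    rw [mul_inv_cancel_left]
  rw [h5] at h4
  exact h3.trans' h4.symm'

end close

section core

variable {K : Type} [Field K] [NumberField K] {p s : ℕ} {ι : Type} [Fintype ι] [DecidableEq ι]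

theorem core_bad (hDo : DoubStatement) (hMo : MonoStatement) (hIn : IndepStatement)
    (hRo : RowsStatement) (hRk : RankStatement) (hLo : LocbStatement) (hE3 : Energy3Statement)
    (hEn : EndgStatement) [Nonempty ι] (hι : 2 ≤ Fintype.card ι) (hp : p.Prime) (hs : 1 ≤ s) (v : FinitePlace K)
    (Φ : GF (OW v) p s ι) (hϖ : v (Φ.ϖ : K) < 1) (hϖ0 : (Φ.ϖ : K) ≠ 0)
    (F : ι → MvPolynomial ι K) (hF : ∀ i, (F i).IsHomogeneous (p ^ s))
    (hz : ∀ z : ι → AlgebraicClosure K, (∀ i, aeval z (F i) = 0) → z = 0)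
    (hΦF : ∀ i, map (OW v).subtype (Φ.F i) = F i) (f' : ℕ) (hf' : 1 ≤ f') :
    ∃ k : ℕ, 1 ≤ k ∧ ∀ a : ℝ, 1 ≤ a → ∃ A B : ℝ, 0 < A ∧ 0 < B ∧
      ∀ (L N : Type) [Field L] [NumberField L] [Algebra K L]
      [Field N] [NumberField N] [Algebra K N] [IsGalois K N]
      (S : Finset (FinitePlace N)) (e : FinitePlace N → ℕ) (τ : FinitePlace N → (N ≃ₐ[K] N))
      (E : ℕ), 1 ≤ E → Nat.card (L →ₐ[K] N) = Module.finrank K L →
      (∀ w ∈ S, Above v w (e w)) → (Module.finrank K N ≤ ∑ w ∈ S, e w) →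
      (∀ w ∈ S, ∀ a : N, w a ≤ 1 → w (τ w a - a ^ (p ^ f')) < 1) →
      (7 * ((∑ w ∈ S, e w) * Module.finrank K L) ≤ 8 * ∑ w ∈ S, e w *
        Nat.card {φ : L →ₐ[K] N // ∀ a : L, w (φ a) < 1 →
          (w (φ a)) ^ E ≤ w (toN v N Φ.ϖ)}) →
      ∀ x : ι → L, x ≠ 0 →
      (¬ ∃ m n : ℕ, m ≠ n ∧ ∃ c : L, c ≠ 0 ∧ (gAct F L)^[n] x = c • (gAct F L)^[m] x) →
      ∃ h : ℝ, Tendsto (fun n : ℕ => Height.logHeight ((gAct F L)^[n] x) /
        (Module.finrank ℚ L : ℝ) / ((p ^ s : ℕ) : ℝ) ^ n) atTop (𝓝 h) ∧ 0 < h ∧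
        ∀ D : ℝ, 1 ≤ D → ∃ r0 Lv : ℕ, 1 ≤ Lv ∧
        ((p ^ s : ℕ) : ℝ) ^ ((k + 1) * Lv) ≤ Real.exp (B * (1 + (Real.log D) ^
          (((Fintype.card ι - 1 : ℕ) : ℝ) / (((Fintype.card ι - 1 : ℕ) : ℝ) + 1)))) ∧
        ((p ^ s : ℕ) : ℝ) ^ r0 ≤ ((p ^ s : ℕ) : ℝ) * E * ((p ^ s : ℕ) : ℝ) ^ Lv ∧
        (∀ l l' : ℕ, l ≠ l' → ∀ φ φ' : L →ₐ[K] N, ¬ ∃ c : N,
          (fun t => φ ((gAct F L)^[r0 + k * l] x t)) =
            c • fun t => φ' ((gAct F L)^[r0 + k * l'] x t)) ∧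
        ∀ t : ℕ, 1 ≤ t → (t : ℝ) ≤ a ^ (Lv + 1) * D ^ 2 →
          (∀ l' l : ℕ, l' < l → l < Lv → ∃ f : MvPolynomial ι K, f.IsHomogeneous t ∧
            aeval ((gAct F L)^[r0 + k * l'] x) f = 0 ∧
            aeval ((gAct F L)^[r0 + k * l] x) f ≠ 0) →
          A / ((E : ℝ) * t) * Real.exp (-(B * (1 + (Real.log D) ^
          (((Fintype.card ι - 1 : ℕ) : ℝ) / (((Fintype.card ι - 1 : ℕ) : ℝ) + 1))))) ≤ h := by
  have hq2 : 2 ≤ p ^ s := hp.two_le.trans (Nat.le_self_pow (by omega) p)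
  have hq2r : (2 : ℝ) ≤ ((p ^ s : ℕ) : ℝ) := by exact_mod_cast hq2
  obtain ⟨m0, hm01, hm0⟩ := exists_ggoodExp Φ hϖ hp
  obtain ⟨C, hC0, hC⟩ := height_morphism F (p ^ s) hF hz
  obtain ⟨b, hb1, hb⟩ := span_adapted F (p ^ s) hF hz
  set Λ : ℝ := - Real.log (v (Φ.ϖ : K)) with hΛ
  have hΛ0 : 0 < Λ := neg_pos.2 (Real.log_neg (FinitePlace.pos_iff.2 hϖ0) hϖ)
  have hKpos : (0 : ℝ) < Module.finrank ℚ K := by exact_mod_cast Module.finrank_pos
  set q : ℝ := ((p ^ s : ℕ) : ℝ) with hq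
  have hq0 : 0 < q := by linarith
  set N' := Fintype.card ι - 1 with hN'
  set lam : ℝ := 3 / 4 * (Λ / Module.finrank ℚ K) with hlam
  have hlam0 : 0 < lam := by positivity
  have hbpos : (0 : ℝ) < b := by exact_mod_cast hb1
  have hb1r : (1 : ℝ) ≤ b := by exact_mod_cast hb1
  set νr : ℝ := (Fintype.card ι : ℝ) with hνr
  have hνr0 : 0 ≤ νr := Nat.cast_nonneg _
  have hlog4bq : 0 ≤ Real.log (4 * b * q) := Real.log_nonneg (by nlinarith)
  have hlog8q : 0 ≤ Real.log (8 * q) := Real.log_nonneg (by linarith)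
  set C0 : ℝ := (2 * b * C + νr + νr * Real.log (4 * b * q) + 2 * b * C) *
    (1 + Real.log (8 * q)) with hC0'
  have hC00 : 0 ≤ C0 := by positivity
  set C1 : ℝ := 2 * C0 with hC1
  have hC10 : 0 ≤ C1 := by positivity
  have hm0pos : (0 : ℝ) < m0 := by exact_mod_cast hm01
  have hlogq : 0 < Real.log q := Real.log_pos (by linarith)
  set k := m0 * f' with hk
  have hkpos : 1 ≤ k := Nat.mul_pos hm01 hf'
  set c0 : ℕ := 2 * 3 ^ (Fintype.card ι) with hc0
  have hc01 : 1 ≤ c0 := Nat.mul_pos two_pos (pow_pos (by norm_num) _)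
  refine ⟨k, hkpos, fun a ha => ?_⟩
  have hloga : 0 ≤ Real.log a := Real.log_nonneg ha
  obtain ⟨C', hC'0, hC'⟩ := hEn (lam / 4) C1 (Real.log a) N' c0 (by positivity)
    hC10 hloga hc01
  set B2 : ℝ := ((k : ℝ) + 1) * Real.log q * C' with hB2
  have hB20 : 0 < B2 := by positivity
  refine ⟨lam / (16 * b * q ^ 2), B2, by positivity, hB20, ?_⟩
  intro L N _ _ _ _ _ _ _ S e τ E hE1 hcardLN hS hcard hfrob hram x hx hwand
  have hNpos : (0 : ℝ) < Module.finrank ℚ N := by exact_mod_cast Module.finrank_pos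
  have htower : (Module.finrank ℚ K : ℝ) * Module.finrank K N = Module.finrank ℚ N := by
    exact_mod_cast Module.finrank_mul_finrank ℚ K N
  have hfdKL : FiniteDimensional K L := Module.Finite.of_restrictScalars_finite ℚ K L
  have hact : (Φ.map (toN v N)).act = gAct F N := gact_eq_aeval Φ F hΦF N
  -- heights on `N`
  set H : (ι → N) → ℝ := fun z => Height.logHeight z / (Module.finrank ℚ N : ℝ) with hH
  have hHact : ∀ z, |H (gAct F N z) - q * H z| ≤ C := by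
    intro z
    simp only [hH]
    have h5 : Height.logHeight (gAct F N z) / (Module.finrank ℚ N : ℝ) -
        q * (Height.logHeight z / Module.finrank ℚ N) =
        (Height.logHeight (gAct F N z) - q * Height.logHeight z) / Module.finrank ℚ N := by
      field_simp
    rw [h5, abs_div, abs_of_pos hNpos, div_le_iff₀ hNpos]
    exact hC N z
  obtain ⟨hh, hlim, -, hdiff, hmul, -⟩ := commuting_heights H (gAct F N) (gAct F N)
    (fun _ => rfl) hq2r hq2r hHact hHact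
  have hmuln : ∀ (n : ℕ) z, hh ((gAct F N)^[n] z) = q ^ n * hh z := by
    intro n z
    induction n with
    | zero => simp
    | succ n ih => rw [Function.iterate_succ_apply', hmul, ih, pow_succ]; ring
  have hhsmul : ∀ (c : N) z, c ≠ 0 → hh (c • z) = hh z := by
    intro c z hc
    refine tendsto_nhds_unique (hlim (c • z)) ((hlim z).congr fun n => ?_)
    rw [gAct_iter_smul F hF]
    simp only [hH]
    rw [Height.logHeight_smul_eq_logHeight _ (pow_ne_zero _ hc)]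
  -- the canonical height of `x`
  have hDpos' : 0 < Module.finrank K L := Module.finrank_pos
  have hneLN : Nonempty (L →ₐ[K] N) := by
    rw [← Nat.card_pos_iff.trans (and_iff_left_of_imp fun _ => inferInstance), hcardLN]
    exact hDpos'
  obtain ⟨φ0⟩ := hneLN
  have hφiter : ∀ (φ : L →ₐ[K] N) (n : ℕ), H ((gAct F N)^[n] (fun t => φ (x t))) =
      Height.logHeight ((gAct F L)^[n] x) / (Module.finrank ℚ L : ℝ) := by
    intro φ n
    simp only [hH]
    rw [gAct_iter_map F φ n x]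
    exact logHeight_hom (φ : L →+* N) _
  set hx' := hh (fun t => φ0 (x t)) with hhx'
  have hlimx : Tendsto (fun n : ℕ => Height.logHeight ((gAct F L)^[n] x) /
        (Module.finrank ℚ L : ℝ) / ((p ^ s : ℕ) : ℝ) ^ n) atTop (𝓝 hx') := by
    refine (hlim (fun t => φ0 (x t))).congr fun n => ?_
    rw [hφiter]
  have hhφ : ∀ φ : L →ₐ[K] N, hh (fun t => φ (x t)) = hx' := by
    intro φ
    refine tendsto_nhds_unique (hlim _) (hlimx.congr fun n => ?_)
    rw [hφiter]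
  have hx'ne : hx' ≠ 0 := hhat_ne_zero hq2 F hF hz L x hx hwand hx' hlimx
  have hx'nn : 0 ≤ hx' :=
    ge_of_tendsto' hlimx fun n => div_nonneg (div_nonneg (Height.logHeight_nonneg _)
      (Nat.cast_nonneg _)) (pow_nonneg hq0.le _)
  have hx'pos : 0 < hx' := lt_of_le_of_ne hx'nn (Ne.symm hx'ne)
  have hφx : ∀ φ : L →ₐ[K] N, (fun t => φ (x t)) ≠ 0 := by
    intro φ h0
    apply hx
    funext t
    have := congrFun h0 t
    simpa using this
  refine ⟨hx', hlimx, hx'pos, ?_⟩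
  -- parameters
  intro D hD1
  obtain ⟨U, hU1, hU2, hU3⟩ := hC' D hD1
  set Lv : ℕ := c0 * U ^ N' with hLv
  have hLv1 : 1 ≤ Lv := Nat.mul_pos hc01 (pow_pos (by omega) _)
  obtain ⟨j0, hj01, hj02⟩ := exists_pow_between hq2 hE1
  obtain ⟨i0, hi0⟩ : ∃ i0, Lv = i0 + 1 := ⟨Lv - 1, by omega⟩
  set c := s * m0 with hc
  have hcpos : 1 ≤ c := Nat.mul_pos (by omega) hm01
  set θ : ℝ := (N' : ℝ) / ((N' : ℝ) + 1) with hθ
  have hθ0 : 0 ≤ θ := by positivity
  have hθ1 : θ ≤ 1 := by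
    rw [hθ, div_le_one (by positivity)]; linarith
  have hlogDnn : 0 ≤ Real.log D := Real.log_nonneg hD1
  have hexp : q ^ ((k + 1) * Lv) ≤ Real.exp (B2 * (1 + (Real.log D) ^ θ)) :=
    corex_exp hq2r hB2 hC'0.le hlogDnn hθ0 hθ1 hU3
  have hqj0 : q ^ j0 ≤ q * E := by rw [hq]; exact_mod_cast hj02
  have hEpos : (0 : ℝ) < E := by exact_mod_cast hE1
  -- the levels
  set y : ℕ → (ι → L) := fun l => (gAct F L)^[j0 + i0 + k * l] x with hy
  have hyne : ∀ l, y l ≠ 0 := fun l => gAct_iter_ne F hF hz _ _ hx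
  set Z : ℕ × (L →ₐ[K] N) → (ι → N) := fun a => fun t => a.2 (y a.1 t) with hZ
  have hZeq : ∀ a, Z a = (gAct F N)^[j0 + i0 + k * a.1] (fun t => a.2 (x t)) := by
    intro a
    rw [gAct_iter_map F a.2 _ x]
  have hZne : ∀ a, Z a ≠ 0 := fun a => by
    rw [hZeq]; exact gAct_iter_ne F hF hz _ _ (hφx _)
  have hhZ : ∀ a, hh (Z a) = q ^ (j0 + i0 + k * a.1) * hx' := by
    intro a
    rw [hZeq, hmuln, hhφ]
  have hlev : ∀ a a', (∃ c : N, Z a = c • Z a') → a.1 = a'.1 := by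
    rintro a a' ⟨c, h⟩
    have hc : c ≠ 0 := by
      rintro rfl
      rw [zero_smul] at h
      exact hZne a h
    have h1 := congrArg hh h
    rw [hhsmul _ _ hc, hhZ, hhZ] at h1
    have h2 := mul_right_cancel₀ hx'ne h1
    have h3 := pow_right_injective₀ hq0 (by linarith) h2
    have h4 : k * a.1 = k * a'.1 := by omega
    exact Nat.eq_of_mul_eq_mul_left (by omega) h4
  refine ⟨j0 + i0, Lv, hLv1, hexp, ?_, ?_, ?_⟩
  · rw [pow_add]
    have h1 : q ^ i0 ≤ q ^ Lv := pow_le_pow_right₀ (by linarith) (by omega)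
    exact mul_le_mul hqj0 h1 (pow_nonneg hq0.le _) (by positivity)
  · intro l l' hll φ φ' h1
    exact hll (hlev (l, φ) (l', φ') h1)
  intro t ht1 ht2 hsep
  -- closeness
  set π : FinitePlace N → ℝ := fun w => w (toN v N Φ.ϖ) with hπ
  have hπ0 : ∀ w, 0 < π w := by
    intro w
    rw [hπ, FinitePlace.pos_iff]
    change algebraMap K N (Φ.ϖ : K) ≠ 0
    simpa using hϖ0
  have hπ1 : ∀ w ∈ S, π w < 1 := fun w hw => gw_unif Φ (hS w hw) hϖ
  have hfin : Finite (L →ₐ[K] N) := inferInstance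
  have hkey : ∀ w ∈ S, ∀ (l l0 : ℕ) (φ : L →ₐ[K] N),
      (∀ a : L, w (φ a) < 1 → (w (φ a)) ^ E ≤ w (toN v N Φ.ϖ)) → ∃ φ' : L →ₐ[K] N,
      Close w (π w ^ Lv) (Z (l, φ)) (Z (l0, φ')) := by
    intro w hw l l0 φ hgood
    obtain ⟨φ', h1⟩ := close_core1 hp hs Φ hϖ hϖ0 F hF hz hΦF hm0 (hS w hw) (τ w) hE1
      (hfrob w hw) hj01 x hx i0 l l0 φ hgood
    rw [← hi0] at h1
    exact ⟨φ', h1⟩
  -- the degree of the forms
  set M' : ℕ := 2 * Lv * t with hM'
  have hM'1 : 1 ≤ M' := Nat.mul_pos (Nat.mul_pos two_pos hLv1) ht1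
  obtain ⟨J, hJ1, hJ2⟩ := exists_pow_between hq2 hM'1
  set T := dl b (p ^ s) J with hT
  have hTJ : (p ^ s) ^ J ≤ T := by
    rw [hT, dl_eq]
    calc (p ^ s) ^ J ≤ (p ^ s) ^ J * b := Nat.le_mul_of_pos_right _ hb1
      _ ≤ _ := Finset.single_le_sum (f := fun j => (p ^ s) ^ j * b) (fun _ _ => Nat.zero_le _)
          (Finset.mem_range.2 (Nat.lt_succ_self J))
  have hTM : M' ≤ T := hJ1.trans hTJ
  have hTr : (T : ℝ) = ∑ j ∈ Finset.range (J + 1), q ^ j * b := by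
    rw [hT, dl_eq, hq]
    push_cast
    rfl
  have hqJ : q ^ J ≤ q * M' := by rw [hq]; exact_mod_cast hJ2
  have hTle : (T : ℝ) ≤ 2 * b * q * M' := by
    rw [hTr, ← Finset.sum_mul]
    have := sum_geom_le hq2r J
    calc (∑ j ∈ Finset.range (J + 1), q ^ j) * b ≤ (2 * (q * M')) * b := by
          apply mul_le_mul_of_nonneg_right _ hbpos.le
          linarith
      _ = _ := by ring
  -- the Hilbert functions
  set yy : Fin Lv → (ι → L) := fun l => y l with hyy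
  set n := HW K (joint yy) T with hn
  obtain ⟨hn1, l0, hnr0⟩ := count_core hDo hMo hIn K L ι (R := U ^ N') hLv1 hLv hTM yy
    (fun l => hyne l) (fun l' l hll => hsep l' l hll l.2)
  obtain ⟨W, hW⟩ : ∃ W, U = W + 1 := ⟨U - 1, by omega⟩
  set r := U ^ N' * HW K (yy l0) T with hr
  have hnr : 2 * r ≤ n := hnr0
  have hnle : n ≤ (T + 1) ^ (Fintype.card ι) := HW_le_pow K _ T
  -- rows and forms
  obtain ⟨row0, μ, hμ, hdet⟩ := hRo K L N hcardLN ι F b (p ^ s) J hF (hb J) Lv yy n hn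
  have hfdKN : FiniteDimensional K N := Module.Finite.of_restrictScalars_finite ℚ K N
  obtain ⟨gs, hgs⟩ := exists_shift S e (fun w (φ : L →ₐ[K] N) => ∀ a : L, w (φ a) < 1 →
    (w (φ a)) ^ E ≤ w (toN v N Φ.ϖ)) n (fun i => (row0 i).2) (Module.finrank K L) hcardLN hDpos'
    hram
  set row : Fin n → Fin Lv × (L →ₐ[K] N) := fun i =>
    ((row0 i).1, (gs : N →ₐ[K] N).comp (row0 i).2) with hrow
  set z : Fin n → (ι → N) := fun i => Z ((row i).1, (row i).2) with hzdef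
  have hzdef' : ∀ i, (fun t => (row i).2 (yy (row i).1 t)) = z i := fun i => rfl
  have hz0 : ∀ i, z i ≠ 0 := fun i => hZne _
  have hdet' : (Matrix.of fun i a => aeval (z i) (gQ F J (μ a))).det ≠ 0 := by
    have h1 := det_shift gs (fun i => fun t => (row0 i).2 (yy (row0 i).1 t))
      (fun a => gQ F J (μ a))
    have h2 : (Matrix.of fun i a => aeval (z i) (gQ F J (μ a))).det =
        gs (Matrix.of fun i a =>
          aeval (fun t => (row0 i).2 (yy (row0 i).1 t)) (gQ F J (μ a))).det := h1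
    rw [h2]
    intro h3
    exact hdet ((map_eq_zero_iff gs gs.injective).1 h3)
  set Bad : FinitePlace N → Finset (Fin n) := fun w => Finset.univ.filter fun i =>
    ¬ ∀ a : L, w ((row i).2 a) < 1 → (w ((row i).2 a)) ^ E ≤ w (toN v N Φ.ϖ) with hBad
  set g : FinitePlace N → ℕ := fun w => U * (n - (r + (Bad w).card)) with hg
  have hloc : ∀ w ∈ S, w (Matrix.of fun i a => aeval (z i) (gQ F J (μ a))).det ≤
      ((π w ^ Lv) ^ (g w)) ^ 1 *
        ∏ i, ∏ j ∈ Finset.range (J + 1), (⨆ l, w ((gAct F N)^[j] (z i) l)) ^ b := by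
    intro w hw
    rw [pow_one, hg, hW]
    refine hLo K N p s ι v w (e w) Φ (hS w hw) hϖ F hΦF n J b μ hμ z hz0 (Bad w) (L →ₐ[K] N)
      (fun φ => Z ((l0 : ℕ), φ)) (π w ^ Lv) (pow_nonneg (hπ0 w).le _)
      (pow_le_one₀ (hπ0 w).le (hπ1 w hw).le) W r ?_ ?_ ?_
    · have h1 : U ≤ T := by
        calc U = U ^ 1 := (pow_one U).symm
          _ ≤ U ^ N' := Nat.pow_le_pow_right (by omega) (by omega)
          _ ≤ Lv := Nat.le_mul_of_pos_left _ hc01
          _ ≤ M' := by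
            rw [hM', mul_comm 2 Lv, mul_assoc]
            exact Nat.le_mul_of_pos_right _ (Nat.mul_pos two_pos ht1)
          _ ≤ T := hTM
      omega
    · intro i hi
      have hgood : ∀ a : L, w ((row i).2 a) < 1 → (w ((row i).2 a)) ^ E ≤ w (toN v N Φ.ϖ) := by
        by_contra hcon
        exact hi (Finset.mem_filter.2 ⟨Finset.mem_univ _, hcon⟩)
      obtain ⟨φ', h1⟩ := hkey w hw (row i).1 l0 (row i).2 hgood
      exact ⟨φ', h1⟩
    · refine le_trans ?_ (le_of_eq hr.symm)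
      rw [← hW]
      apply Nat.mul_le_mul_left
      refine (hRk K L N ι (y l0) (L →ₐ[K] N) (fun φ => φ) _).trans ?_
      exact hMo K L ι (y l0) (hyne l0) _ _ (Nat.sub_le _ _)
  have hen := hE3 K N ι (p ^ s) F hF hz n J b μ hμ z hz0 hdet' S (fun w => (π w ^ Lv) ^ (g w)) 1
    (fun w _ => pow_pos (pow_pos (hπ0 w) _) _) hloc
  -- left side
  set Hm : ℝ := q ^ (j0 + (k + 1) * Lv) * hx' with hHm
  have hHmz : ∀ a, hh (z a) ≤ Hm := by
    intro a
    simp only [hzdef]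
    rw [hhZ, hHm]
    have hl : ((row a).1 : ℕ) < Lv := (row a).1.2
    apply mul_le_mul_of_nonneg_right _ hx'nn
    apply pow_le_pow_right₀ (by linarith)
    have h1 : k * ((row a).1 : ℕ) ≤ k * Lv := Nat.mul_le_mul_left k hl.le
    have h2 : j0 + (k + 1) * Lv = j0 + Lv + k * Lv := by ring
    rw [h2]
    exact Nat.add_le_add (Nat.add_le_add_left (by omega) j0) h1
  have hHm0 : 0 < Hm := by positivity
  have hLvpos : (0 : ℝ) < Lv := by exact_mod_cast hLv1
  have hSe : ((∑ w ∈ S, e w : ℕ) : ℝ) = ∑ w ∈ S, (e w : ℝ) := by push_cast; rfl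
  have hgr : 3 / 8 * ((U : ℝ) * n) * ∑ w ∈ S, (e w : ℝ) ≤ ∑ w ∈ S, (e w : ℝ) * (g w : ℝ) := by
    have h1 : ∀ w, ((Finset.univ.filter fun i => ∀ a : L, w ((row i).2 a) < 1 →
        (w ((row i).2 a)) ^ E ≤ w (toN v N Φ.ϖ)).card : ℝ) + ((Bad w).card : ℝ) = n := by
      intro w
      have h2 := Finset.card_filter_add_card_filter_not (s := (Finset.univ : Finset (Fin n)))
        (fun i => ∀ a : L, w ((row i).2 a) < 1 → (w ((row i).2 a)) ^ E ≤ w (toN v N Φ.ϖ))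
      rw [Finset.card_univ, Fintype.card_fin] at h2
      exact_mod_cast h2
    have h3 : ∀ w, (U : ℝ) * ((Finset.univ.filter fun i => ∀ a : L, w ((row i).2 a) < 1 →
        (w ((row i).2 a)) ^ E ≤ w (toN v N Φ.ϖ)).card - r) ≤ g w := by
      intro w
      rw [hg]
      push_cast
      apply mul_le_mul_of_nonneg_left _ (Nat.cast_nonneg _)
      have h4 : (n : ℝ) ≤ ((n - (r + (Bad w).card) : ℕ) : ℝ) + (r + (Bad w).card) := by
        have : n ≤ (n - (r + (Bad w).card)) + (r + (Bad w).card) := by omega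
        exact_mod_cast this
      linarith [h1 w]
    have h5 : (7 : ℝ) * (n * ∑ w ∈ S, (e w : ℝ)) ≤ 8 * ∑ w ∈ S, (e w : ℝ) *
        ((Finset.univ.filter fun i => ∀ a : L, w ((row i).2 a) < 1 →
        (w ((row i).2 a)) ^ E ≤ w (toN v N Φ.ϖ)).card : ℝ) := by
      exact_mod_cast hgs
    have h6 : (2 : ℝ) * r ≤ n := by exact_mod_cast hnr
    have h7 : 0 ≤ ∑ w ∈ S, (e w : ℝ) := Finset.sum_nonneg fun _ _ => Nat.cast_nonneg _
    have hU0 : (0 : ℝ) ≤ U := Nat.cast_nonneg _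
    calc 3 / 8 * ((U : ℝ) * n) * ∑ w ∈ S, (e w : ℝ)
        ≤ (U : ℝ) * (∑ w ∈ S, (e w : ℝ) *
          ((Finset.univ.filter fun i => ∀ a : L, w ((row i).2 a) < 1 →
          (w ((row i).2 a)) ^ E ≤ w (toN v N Φ.ϖ)).card : ℝ) - r * ∑ w ∈ S, (e w : ℝ)) := by
          have h8 : (r : ℝ) * ∑ w ∈ S, (e w : ℝ) ≤ n / 2 * ∑ w ∈ S, (e w : ℝ) :=
            mul_le_mul_of_nonneg_right (by linarith) h7
          have h9 : 3 / 8 * (n * ∑ w ∈ S, (e w : ℝ)) ≤ ∑ w ∈ S, (e w : ℝ) *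
            ((Finset.univ.filter fun i => ∀ a : L, w ((row i).2 a) < 1 →
            (w ((row i).2 a)) ^ E ≤ w (toN v N Φ.ϖ)).card : ℝ) - r * ∑ w ∈ S, (e w : ℝ) := by
            linarith
          calc 3 / 8 * ((U : ℝ) * n) * ∑ w ∈ S, (e w : ℝ)
              = U * (3 / 8 * (n * ∑ w ∈ S, (e w : ℝ))) := by ring
            _ ≤ _ := mul_le_mul_of_nonneg_left h9 hU0
      _ = ∑ w ∈ S, (e w : ℝ) * ((U : ℝ) *
          ((Finset.univ.filter fun i => ∀ a : L, w ((row i).2 a) < 1 →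
          (w ((row i).2 a)) ^ E ≤ w (toN v N Φ.ϖ)).card - r)) := by
          rw [Finset.mul_sum, ← Finset.sum_sub_distrib, Finset.mul_sum]
          exact Finset.sum_congr rfl fun w _ => by ring
      _ ≤ _ := Finset.sum_le_sum fun w _ =>
          mul_le_mul_of_nonneg_left (h3 w) (Nat.cast_nonneg _)
  have hleft : (U : ℝ) * n / 2 * (Lv * (lam * Module.finrank ℚ N)) ≤
      ∑ w ∈ S, ((1 : ℕ) : ℝ) * (- Real.log ((π w ^ Lv) ^ (g w))) := by
    have h1 : ∑ w ∈ S, ((1 : ℕ) : ℝ) * (- Real.log ((π w ^ Lv) ^ (g w))) =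
        Lv * (Λ * ∑ w ∈ S, (e w : ℝ) * (g w : ℝ)) := by
      rw [Finset.mul_sum, Finset.mul_sum]
      refine Finset.sum_congr rfl fun w hw => ?_
      have h2 : Real.log (π w) = - (e w * Λ) := by
        change Real.log (w (algebraMap K N (Φ.ϖ : K))) = _
        rw [(hS w hw).2, Real.log_pow, hΛ]
        ring
      rw [Real.log_pow, Real.log_pow, h2]
      push_cast
      ring
    rw [h1]
    have h2 : (Module.finrank K N : ℝ) ≤ ∑ w ∈ S, (e w : ℝ) := by exact_mod_cast hcard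
    have h4 : lam * Module.finrank ℚ N = 3 / 4 * (Λ * Module.finrank K N) := by
      rw [← htower, hlam]
      field_simp
    have hnn : (0 : ℝ) ≤ n := Nat.cast_nonneg _
    have hU0 : (0 : ℝ) ≤ U := Nat.cast_nonneg _
    rw [h4]
    calc (U : ℝ) * n / 2 * (Lv * (3 / 4 * (Λ * Module.finrank K N)))
        = Lv * (Λ * (3 / 8 * ((U : ℝ) * n) * Module.finrank K N)) := by ring
      _ ≤ Lv * (Λ * (3 / 8 * ((U : ℝ) * n) * ∑ w ∈ S, (e w : ℝ))) := by gcongr
      _ ≤ Lv * (Λ * ∑ w ∈ S, (e w : ℝ) * (g w : ℝ)) := by gcongr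
  -- right side
  have hn1r : (1 : ℝ) ≤ n := by exact_mod_cast hn1
  have hnpos : (0 : ℝ) < n := by linarith
  have hlogn : 0 ≤ Real.log n := Real.log_nonneg hn1r
  have hM'1r : (1 : ℝ) ≤ M' := by exact_mod_cast hM'1
  have hJlog : (J : ℝ) + 1 ≤ 2 + 2 * Real.log M' := relmain_jlog J q M' hq2r hM'1r hqJ
  have hright := heights_core F hh (C := C) (Hm := Hm) (b := (b : ℝ)) hq0.le hbpos.le hC0
    (fun z => by rw [abs_sub_comm]; exact hdiff z) hmuln hTr hJlog z hHmz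
  have hmain := (hleft.trans hen).trans hright
  have hmain2 : lam / 2 * (U * Lv) ≤ T * Hm + b * C * (2 + 2 * Real.log M') + Real.log n := by
    have h1 : (n * (Module.finrank ℚ N : ℝ)) * (lam / 2 * (U * Lv)) ≤
        (n * (Module.finrank ℚ N : ℝ)) *
          (T * Hm + b * C * (2 + 2 * Real.log M') + Real.log n) := by
      calc (n * (Module.finrank ℚ N : ℝ)) * (lam / 2 * (U * Lv)) =
          (U : ℝ) * n / 2 * (Lv * (lam * Module.finrank ℚ N)) := by ring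
        _ ≤ _ := hmain
        _ = _ := by ring
    exact le_of_mul_le_mul_left h1 (mul_pos hnpos hNpos)
  have hDposr : (0 : ℝ) < D := by linarith
  have ht1r : (1 : ℝ) ≤ t := by exact_mod_cast ht1
  have htpos : (0 : ℝ) < t := by linarith
  have hLv1r : (1 : ℝ) ≤ Lv := by exact_mod_cast hLv1
  have hU1r : (1 : ℝ) ≤ U := by exact_mod_cast hU1
  have hT1r : (1 : ℝ) ≤ T := by
    have : 1 ≤ T := hM'1.trans hTM
    exact_mod_cast this
  have hlogt : Real.log t ≤ Real.log (4 * q) + Real.log (D ^ 2) + Real.log a * (Lv + 1) :=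
    corex_logt hq2r ha hD1 htpos ht2
  have hlogn3 : Real.log n ≤ νr * Real.log ((T : ℝ) + 1) := by
    have h1 : (n : ℝ) ≤ ((T : ℝ) + 1) ^ (Fintype.card ι) := by exact_mod_cast hnle
    exact corex_logn hnpos h1
  have hM'eq : (M' : ℝ) = 2 * Lv * t := by rw [hM']; push_cast; ring
  have hkq : 0 ≤ Real.log a * ((Lv : ℝ) + 1) := by positivity
  have hD2 : (1 : ℝ) ≤ D ^ 2 := one_le_pow₀ hD1
  have hEn2 : C0 * (1 + Real.log a * ((Lv : ℝ) + 1) + Real.log (Lv * D ^ 2)) ≤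
      lam / 4 * (U * Lv) := corex_en hC00 hC1 hloga hDposr hLv1r hU2
  have hmain3 : lam ≤ 16 * b * q * t * Hm :=
    num_core (D := D ^ 2) (κ := Real.log a * ((Lv : ℝ) + 1)) hb1r hC0 hq2r hνr0 hD2 hLv1r ht1r
      hM'1r hn1r hU1r hHm0.le hlam0.le hkq hM'eq hlogt hTle hT1r hlogn3 hmain2 hEn2
  exact corex_fin hbpos hq0 hEpos htpos hx'nn hHm hqj0 hexp hmain3

end core

/-- Row COREB -/
theorem coreb : CorebStatement := by
  intro K _ _ p s ι _ _ _ hι hp hs v Φ hϖ hϖ0 F hF hz hΦF f' hf'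
  obtain ⟨k, hk, hcore⟩ := core_bad doub mono (indep mono) (rows ded) rank locb energy3 endg
    hι hp hs v Φ hϖ hϖ0 F hF hz hΦF f' hf'
  refine ⟨k, hk, fun a ha => ?_⟩
  obtain ⟨A, B, hA, hB, H⟩ := hcore a ha
  refine ⟨A, B, hA, hB, ?_⟩
  intro L N _ _ _ _ _ _ _ S e τ E hE hcard hS hsum hfrob _ hlow x hx hwand
  refine H L N S e τ E hE hcard hS hsum hfrob ?_ x hx hwand
  rw [← hcard, mul_comm (∑ w ∈ S, e w)]
  exact hlow

end Pool.DynLehmer.LP
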