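import Pool.Agent.Lib.MP_2194ec_nt.LP.DefsV

set_option autoImplicit false

/-!
# The dynamical Lehmer bound for points with enough conjugates of small relative degree, for all
maps which are not Lattès maps, strong form: statements of the rows
-/

namespace Pool.DynLehmer.LP
open MvPolynomial NumberField Filter Topology Pool.DynLehmer Pool.DynLehmer.SB Pool.DynLehmer.SP
  Pool.DynLehmer.GS Pool.DynLehmer.GAL
open scoped Classical

/-- the canonical height of the point `P` of the projective line over `N` is `h` -/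
def HasHt {K : Type} [Field K] (q : ℕ) (F : Fin 2 → MvPolynomial (Fin 2) K) {N : Type} [Field N]
    [NumberField N] [Algebra K N] (P : Fin 2 → N) (h : ℝ) : Prop :=
  Tendsto (fun n : ℕ => Height.logHeight ((gAct F N)^[n] P) /
    (Module.finrank ℚ N : ℝ) / (q : ℝ) ^ n) atTop (𝓝 h)

/-- Row HCMP: heights on a correspondence. -/
def HcmpStatement : Prop :=
  ∀ (K : Type) [Field K] [NumberField K] (d₁ d₂ : ℕ) (G : MvPolynomial (Fin 2 ⊕ Fin 2) K),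
    BiHom d₁ d₂ G → Irreducible G → 1 ≤ d₁ → 1 ≤ d₂ → ∃ A B : ℝ, 1 ≤ A ∧ 0 ≤ B ∧
    ∀ (N : Type) [Field N] [NumberField N] [Algebra K N] (P P' : Fin 2 → N), P ≠ 0 → P' ≠ 0 →
      GS.ev P P' G = 0 →
      Height.logHeight P' / (Module.finrank ℚ N : ℝ) ≤
        A * (Height.logHeight P / (Module.finrank ℚ N : ℝ)) + B ∧
      Height.logHeight P / (Module.finrank ℚ N : ℝ) ≤
        A * (Height.logHeight P' / (Module.finrank ℚ N : ℝ)) + B

/-- Row CLSF: if `F` has a wandering critical point, the points of the same height as `P` which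
are related to `P` by a periodic form at some time have at most `R` different images at some later
time. -/
def ClsfStatement : Prop :=
  ∀ (K : Type) [Field K] [NumberField K] (p s : ℕ) (v : FinitePlace K)
    (F : Fin 2 → MvPolynomial (Fin 2) K), HypR p s v F → CritW F →
    ∃ R : ℕ, 1 ≤ R ∧ (OneOrb F → R = 1) ∧
      ∀ (N : Type) [Field N] [NumberField N] [Algebra K N] (P : Fin 2 → N) (h : ℝ), P ≠ 0 →
      WandP F P → 0 < h → HasHt (p ^ s) F P h → ∀ (μ : ℕ) (T : Finset (Fin 2 → N)),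
      (∀ P' ∈ T, P' ≠ 0 ∧ WandP F P' ∧ HasHt (p ^ s) F P' h ∧
        ∃ (m e : ℕ) (G : MvPolynomial (Fin 2 ⊕ Fin 2) K), m ≤ μ ∧ PerForm F e G ∧
          GS.ev ((gAct F N)^[m] P) ((gAct F N)^[m] P') G = 0) →
      (T.image fun P' => pr ((gAct F N)^[μ] P')).card ≤ R

/-- Row VCNTP: among enough points of the same height there is one which is not related by a
periodic form. -/
def VcntpStatement : Prop :=
  ∀ (K : Type) [Field K] [NumberField K] (p s : ℕ) (v : FinitePlace K)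
    (F : Fin 2 → MvPolynomial (Fin 2) K), HypR p s v F → ¬ Lat F →
    ∃ κ R C : ℕ, (CritW F → κ = 0) ∧ (CritW F → OneOrb F → R = 1) ∧ 1 ≤ R ∧ 1 ≤ C ∧
    ∀ (N : Type) [Field N] [NumberField N] [Algebra K N] (y : Fin 2 → N), y ≠ 0 → WandP F y →
    ∀ h : ℝ, 0 < h → HasHt (p ^ s) F y h →
    ∀ S : Finset (Fin 2 → N), (∀ b ∈ S, b ≠ 0 ∧ WandP F b ∧ HasHt (p ^ s) F b h) →
    ∀ U Q : ℕ, 1 ≤ U → 1 ≤ Q →
    (∀ m : ℕ, (p ^ s) ^ m ≤ Q →
      R * (C * U * Q) ^ κ < (S.image fun b => pr ((gAct F N)^[m] b)).card) →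
    ∃ b ∈ S, ∀ m : ℕ, (p ^ s) ^ m ≤ Q → ∀ G, PerForm F U G →
      GS.ev ((gAct F N)^[m] y) ((gAct F N)^[m] b) G ≠ 0

/-- Row VNUMP: as `VnumStatement`, with `Q ≤ d ^ δ`. -/
def VnumpStatement : Prop :=
  ∀ (δ A B B' θ : ℝ) (C : ℕ), 0 < δ → 0 < A → 0 < B → 1 ≤ B' → 0 ≤ θ → θ < 1 → 1 ≤ C →
    ∃ (X : ℕ) (c : ℝ), 0 < c ∧ ∀ (d t E : ℕ), X ≤ d → 1 ≤ t → (t : ℝ) ≤ (d : ℝ) ^ (1 - δ) →
      1 ≤ E → (E : ℝ) ≤ 4 * (B' * (1 + Real.log d)) ^ 2 →
      B' * (1 + Real.log d) ≤ (d : ℝ) ^ δ ∧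
      ∃ M U Q : ℕ, 1 ≤ U ∧ U ≤ M ∧ 1 ≤ Q ∧ t * d ≤ M * U ∧ (Q : ℝ) ≤ (d : ℝ) ^ δ ∧
        (E : ℝ) * Real.exp (B * (1 + (Real.log M) ^ θ)) ≤ Q ∧
        ((C * U * Q : ℕ) : ℝ) ≤ t * (d : ℝ) ^ δ ∧
        c ≤ d * (A / ((E : ℝ) * M) * Real.exp (-(B * (1 + (Real.log M) ^ θ)))) /
          (B' * (1 + Real.log d))

/-- THEOREM V, strong form. -/
def VpStatement : Prop :=
  ∀ (K : Type) [Field K] [NumberField K] (p s : ℕ) (v : FinitePlace K)
    (F : Fin 2 → MvPolynomial (Fin 2) K), HypR p s v F → ¬ Lat F →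
    ∃ κ R : ℕ, (CritW F → κ = 0) ∧ (CritW F → OneOrb F → R = 1) ∧ ∀ δ : ℝ, 0 < δ →
    ∃ c : ℝ, 0 < c ∧ ∀ (N : Type) [Field N] [NumberField N] [Algebra K N] (a : N),
      WandP F ![a, 1] →
      (∀ (n : ℕ) (y : Fin 2 → N), y = (gAct F N)^[n] ![a, 1] → 1 / δ < (dg K y : ℝ) →
        ((p ^ s : ℕ) : ℝ) ^ n * (dg K y : ℝ) ^ (1 - δ) ≤ dg K ![a, 1] →
        ∃ (t : ℕ) (S : Finset N), (t : ℝ) ≤ (dg K y : ℝ) ^ (1 - δ) ∧
          (∀ b ∈ S, Polynomial.aeval b (minpoly K (y 0 / y 1)) = 0 ∧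
            Module.finrank K (IntermediateField.adjoin K {y 0 / y 1, b}) ≤ t * dg K y) ∧
          ∀ m : ℕ, ((p ^ s : ℕ) : ℝ) ^ m ≤ (dg K y : ℝ) ^ δ →
            R * ((t : ℝ) * (dg K y : ℝ) ^ δ) ^ κ <
              (S.image fun b => pr ((gAct F N)^[m] ![b, 1])).card) →
      ∃ h : ℝ, HasHt (p ^ s) F ![a, 1] h ∧
        c / (Module.finrank K (IntermediateField.adjoin K {a}) : ℝ) ≤ h

end Pool.DynLehmer.LP
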