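import Pool.Agent.Lib.MP_2194ec_nt.LP.Defs
import Pool.Agent.Lib.MP_2194ec_nt.GAL.R.SDefs
import Pool.Agent.Lib.MP_2194ec_nt.GAL.Defs

set_option autoImplicit false

/-!
# The dynamical Lehmer bound for points with enough conjugates of small relative degree, for all
maps which are not Lattès maps: statements of the rows
-/

namespace Pool.DynLehmer.LP
open MvPolynomial NumberField Filter Topology Pool.DynLehmer Pool.DynLehmer.SB Pool.DynLehmer.SP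
  Pool.DynLehmer.GS Pool.DynLehmer.GAL
open scoped Classical

/-- Row VPAIR: two levels are separated by forms of small degree, or the point lies on a periodic
curve of degree at most `u`. (As `SH.PairStatement`, `D ≤ M u`, `u ≤ M`.) -/
def VpairStatement : Prop :=
  ∀ (K : Type) [Field K] [NumberField K] (ι : Type) [Fintype ι] [DecidableEq ι] [Nonempty ι]
    (q : ℕ) (F : ι → MvPolynomial ι K), 1 ≤ q → (∀ i, (F i).IsHomogeneous q) →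
    (∀ z : ι → AlgebraicClosure K, (∀ i, aeval z (F i) = 0) → z = 0) →
    ∃ C : ℕ, 1 ≤ C ∧ ∀ (N : Type) [Field N] [Algebra K N] [FiniteDimensional K N]
      [IsGalois K N] (R : ι → N), R ≠ 0 → ∀ M U : ℕ, 1 ≤ U → U ≤ M →
      idx (⊤ : Subgroup (N ≃ₐ[K] N)) R ≤ M * U → ¬ OnPer F R U →
      ∀ j : ℕ, 1 ≤ j →
      (∀ σ : N ≃ₐ[K] N, ¬ ∃ c : N, c ≠ 0 ∧ (gAct F N)^[j] R = c • gal σ R) →
      ∀ δ : ℕ, (C : ℝ) ^ j * M * (1 + Real.log M) ≤ δ →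
      ∃ f : MvPolynomial ι K, f.IsHomogeneous (δ + 1) ∧ aeval R f = 0 ∧
        aeval ((gAct F N)^[j] R) f ≠ 0

/-- Row VSHARP: as `SharpbStatement`, with a bound `U` for the degree of the periodic curves. -/
def VsharpStatement : Prop :=
  ∀ (K : Type) [Field K] [NumberField K] (p s : ℕ) (ι : Type) [Fintype ι] [DecidableEq ι]
    [Nonempty ι], 2 ≤ Fintype.card ι → p.Prime → 1 ≤ s → ∀ (v : FinitePlace K)
    (P : ι → MvPolynomial ι K), (∀ i, (P i).IsHomogeneous (p ^ s)) → v (p : K) < 1 →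
    (∀ i t, v (coeff t (P i)) ≤ 1) →
    (∀ i t, (∀ j, t ≠ Finsupp.single j (p ^ s)) → v (coeff t (P i)) < 1) →
    v (Matrix.det (Matrix.of fun i j => coeff (Finsupp.single j (p ^ s)) (P i))) = 1 →
    ∀ u : K, u ≠ 0 → v u < 1 → (∀ a : K, v a < 1 → v a ≤ v u) →
    ∃ A B : ℝ, 0 < A ∧ 0 < B ∧ ∀ (E : ℕ), 1 ≤ E →
      ∀ (L N : Type) [Field L] [NumberField L] [Algebra K L]
      [Field N] [NumberField N] [Algebra K N] [IsGalois K N]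
      (S : Finset (FinitePlace N)) (e : FinitePlace N → ℕ),
      Nat.card (L →ₐ[K] N) = Module.finrank K L →
      (∀ w ∈ S, Above v w (e w)) → (Module.finrank K N ≤ ∑ w ∈ S, e w) →
      7 * (Nat.card (L →ₐ[K] N) * ∑ w ∈ S, e w) ≤
        8 * ∑ w ∈ S, e w * Nat.card {φ : L →ₐ[K] N // Low u w φ E} →
      ∀ x : ι → L, x ≠ 0 →
      (¬ ∃ m n : ℕ, m ≠ n ∧ ∃ c : L, c ≠ 0 ∧ (gAct P L)^[n] x = c • (gAct P L)^[m] x) →
      ∀ M U : ℕ, 1 ≤ U → U ≤ M → Module.finrank K L ≤ M * U →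
      (∀ m : ℕ, ((p ^ s : ℕ) : ℝ) ^ m ≤ E * Real.exp (B * (1 + (Real.log M) ^
        (((Fintype.card ι - 1 : ℕ) : ℝ) / (((Fintype.card ι - 1 : ℕ) : ℝ) + 1)))) →
        ¬ OnPer P ((gAct P L)^[m] x) U) →
      ∃ h : ℝ, Tendsto (fun n : ℕ => Height.logHeight ((gAct P L)^[n] x) /
        (Module.finrank ℚ L : ℝ) / ((p ^ s : ℕ) : ℝ) ^ n) atTop (𝓝 h) ∧
          A / ((E : ℝ) * M) * Real.exp (-(B * (1 + (Real.log M) ^
            (((Fintype.card ι - 1 : ℕ) : ℝ) / (((Fintype.card ι - 1 : ℕ) : ℝ) + 1))))) ≤ h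

/-- Row VCNT: among enough conjugates there is one which is not related by a periodic form. -/
def VcntStatement : Prop :=
  ∀ (K : Type) [Field K] [NumberField K] (p s : ℕ) (v : FinitePlace K)
    (F : Fin 2 → MvPolynomial (Fin 2) K), HypR p s v F → ¬ Lat F →
    ∃ κ C : ℕ, (CritW F → OneOrb F → κ = 0) ∧ 1 ≤ C ∧
    ∀ (N : Type) [Field N] [NumberField N] [Algebra K N] (y : Fin 2 → N), y ≠ 0 → WandP F y →
    ∀ h : ℝ, 0 < h → Tendsto (fun n : ℕ => Height.logHeight ((gAct F N)^[n] y) /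
        (Module.finrank ℚ N : ℝ) / ((p ^ s : ℕ) : ℝ) ^ n) atTop (𝓝 h) →
    ∀ S : Finset N, S.Nonempty →
    (∀ b ∈ S, WandP F ![b, 1] ∧
      Tendsto (fun n : ℕ => Height.logHeight ((gAct F N)^[n] ![b, 1]) /
        (Module.finrank ℚ N : ℝ) / ((p ^ s : ℕ) : ℝ) ^ n) atTop (𝓝 h) ∧
      ∀ m : ℕ, ¬ Prl ((gAct F N)^[m] ![b, 1]) ((gAct F N)^[m] y)) →
    ∀ U Q : ℕ, 1 ≤ U → 1 ≤ Q → (C * U * Q) ^ κ ≤ S.card →
    ∃ b ∈ S, ∀ m : ℕ, (p ^ s) ^ m ≤ Q → ∀ G, PerForm F U G →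
      GS.ev ((gAct F N)^[m] y) ((gAct F N)^[m] ![b, 1]) G ≠ 0

/-- Row VNOR: wandering points of bounded degree. -/
def VnorStatement : Prop :=
  ∀ (K : Type) [Field K] [NumberField K] (p s : ℕ) (v : FinitePlace K)
    (F : Fin 2 → MvPolynomial (Fin 2) K), HypR p s v F → ∀ X : ℕ, ∃ c : ℝ, 0 < c ∧
    ∀ (N : Type) [Field N] [NumberField N] [Algebra K N] (y : Fin 2 → N), y ≠ 0 → WandP F y →
      dg K y ≤ X → ∀ h : ℝ, Tendsto (fun n : ℕ => Height.logHeight ((gAct F N)^[n] y) /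
        (Module.finrank ℚ N : ℝ) / ((p ^ s : ℕ) : ℝ) ^ n) atTop (𝓝 h) → c ≤ h

/-- Row VNUM: the numerical end. Here `d` is the degree of the point. -/
def VnumStatement : Prop :=
  ∀ (δ A B B' θ : ℝ) (C : ℕ), 0 < δ → 0 < A → 0 < B → 1 ≤ B' → 0 ≤ θ → θ < 1 → 1 ≤ C →
    ∃ (X : ℕ) (c : ℝ), 0 < c ∧ ∀ (d t E : ℕ), X ≤ d → 1 ≤ t → (t : ℝ) ≤ (d : ℝ) ^ (1 - δ) →
      1 ≤ E → (E : ℝ) ≤ 4 * (B' * (1 + Real.log d)) ^ 2 →
      ∃ M U Q : ℕ, 1 ≤ U ∧ U ≤ M ∧ 1 ≤ Q ∧ t * d ≤ M * U ∧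
        (E : ℝ) * Real.exp (B * (1 + (Real.log M) ^ θ)) ≤ Q ∧
        ((C * U * Q : ℕ) : ℝ) ≤ t * (d : ℝ) ^ δ ∧
        c ≤ d * (A / ((E : ℝ) * M) * Real.exp (-(B * (1 + (Real.log M) ^ θ)))) /
          (B' * (1 + Real.log d))

/-- THEOREM V (row VFIN: from the rows above and LVN, RAMJ, HOMC). -/
def VStatement : Prop :=
  ∀ (K : Type) [Field K] [NumberField K] (p s : ℕ) (v : FinitePlace K)
    (F : Fin 2 → MvPolynomial (Fin 2) K), HypR p s v F → ¬ Lat F →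
    ∃ κ : ℕ, (CritW F → OneOrb F → κ = 0) ∧ ∀ δ : ℝ, 0 < δ →
    ∃ c : ℝ, 0 < c ∧ ∀ (N : Type) [Field N] [NumberField N] [Algebra K N] (a : N),
      WandP F ![a, 1] →
      (∀ (n : ℕ) (y : Fin 2 → N), y = (gAct F N)^[n] ![a, 1] → (dg K y : ℝ) ≤ 1 / δ ∨
        ∃ (t : ℕ) (S : Finset N), S.Nonempty ∧ (t : ℝ) ≤ (dg K y : ℝ) ^ (1 - δ) ∧
          ((t : ℝ) * (dg K y : ℝ) ^ δ) ^ κ ≤ S.card ∧
          ∀ b ∈ S, Polynomial.aeval b (minpoly K (y 0 / y 1)) = 0 ∧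
            Module.finrank K (IntermediateField.adjoin K {y 0 / y 1, b}) ≤ t * dg K y ∧
            ∀ m : ℕ, ¬ Prl ((gAct F N)^[m] ![b, 1]) ((gAct F N)^[m] y)) →
      ∃ h : ℝ, Tendsto (fun n : ℕ => Height.logHeight ((gAct F N)^[n] ![a, 1]) /
        (Module.finrank ℚ N : ℝ) / ((p ^ s : ℕ) : ℝ) ^ n) atTop (𝓝 h) ∧
        c / (Module.finrank K (IntermediateField.adjoin K {a}) : ℝ) ≤ h

end Pool.DynLehmer.LP
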