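import Pool.Agent.Lib.MP_2194ec_nt.LP.Homc
import Pool.Agent.Lib.MP_2194ec_nt.GAL.R.Bas
import Pool.Agent.Lib.MP_2194ec_nt.GAL.R.E

set_option autoImplicit false
set_option linter.unusedSectionVars false

/-!
# The end of the proof: auxiliary results on points
-/

namespace Pool.DynLehmer.LP
open MvPolynomial NumberField Filter Topology Pool.DynLehmer Pool.DynLehmer.SB Pool.DynLehmer.SP
  Pool.DynLehmer.GS
open scoped Classical

/-- the degree of a pair of points of the projective line over `K` -/
noncomputable def dg2 (K : Type) [Field K] {N : Type} [Field N] [Algebra K N]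
    (P P' : Fin 2 → N) : ℕ :=
  Module.finrank K (IntermediateField.adjoin K {P 0 / P 1, P' 0 / P' 1})

namespace FinAux

section points

variable {K : Type} [Field K] {N : Type} [Field N] [Algebra K N]

theorem pr_nz {y : Fin 2 → N} (hy : y ≠ 0) : pr (nz y).val = pr y := by
  obtain ⟨c, hc, h⟩ := nz_spec hy
  exact (Bas.pr_of_prl ⟨c, hc, h⟩).symm

theorem pt_inj {P Q : Pt N} (h : pr P.val = pr Q.val) : P = Q := by
  obtain ⟨c, hc, h1⟩ := Bas.prl_of_pr P.ne_zero Q.ne_zero h
  have h2 := nz_smul hc Q.val Q.ne_zero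
  rw [← h1, nz_val, nz_val] at h2
  exact h2

theorem dgo_eq_cj [NumberField N] [FiniteDimensional K N] {y : Fin 2 → N} (hy : y ≠ 0) :
    dgo K (nz y) = (E.cj K y).card := by
  unfold dgo orb E.cj
  have h1 : Function.Injective fun Q : Pt N => pr Q.val := fun P Q h => pt_inj h
  rw [← Finset.card_image_of_injective _ h1, Finset.image_image]
  congr 1
  ext z
  simp only [Finset.mem_image, Finset.mem_univ, true_and, Function.comp]
  have h2 : ∀ g : N ≃ₐ[K] N, pr (g • nz y).val = pr (gal g y) := by
    intro g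
    have h3 : (g • nz y).val = gal g (nz y).val := rfl
    rw [h3, E.pr_gal, E.pr_gal, pr_nz hy]
  simp only [h2]

theorem dgo_eq [NumberField N] [FiniteDimensional K N] [IsGalois K N] {y : Fin 2 → N} (hy : y ≠ 0) :
    dgo K (nz y) = dg K y := by
  rw [dgo_eq_cj hy]
  unfold dg
  by_cases h1 : y 1 = 0
  · have h2 : E.cj K y = {none} := by
      ext z
      simp only [E.cj, Finset.mem_image, Finset.mem_univ, true_and, Finset.mem_singleton]
      have h3 : ∀ g : N ≃ₐ[K] N, pr (gal g y) = none := by
        intro g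
        unfold pr gal
        rw [if_pos (by rw [h1, map_zero])]
      constructor
      · rintro ⟨g, hg⟩
        rw [← hg, h3]
      · rintro rfl
        exact ⟨1, h3 1⟩
    rw [h2, Finset.card_singleton, h1, div_zero, IntermediateField.adjoin_zero,
      IntermediateField.finrank_bot]
  · have h2 : E.cj K y = E.cj K ![y 0 / y 1, 1] := by
      unfold E.cj
      congr 1
      funext g
      rw [E.pr_gal, E.pr_gal]
      congr 1
      unfold pr
      rw [if_neg h1, if_neg (show (![y 0 / y 1, 1] : Fin 2 → N) 1 ≠ 0 from one_ne_zero)]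
      change some (y 0 / y 1) = some (y 0 / y 1 / 1)
      rw [div_one]
    rw [h2, E.cj_affine, GAL.H28.card_conj_eq]

/-- a point with coordinates in an intermediate field -/
theorem exists_pt (L : IntermediateField K N) {y : Fin 2 → N} (hy : y ≠ 0)
    (hL : y 0 / y 1 ∈ L) : ∃ Y : Fin 2 → L, Y ≠ 0 ∧ Prl y (fun i => (Y i : N)) ∧
      ((Y 0 / Y 1 : L) : N) = y 0 / y 1 := by
  by_cases h1 : y 1 = 0
  · refine ⟨![1, 0], ?_, ⟨y 0, ?_, ?_⟩, ?_⟩
    · intro h
      exact one_ne_zero (congrFun h 0 : (1 : L) = 0)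
    · exact E.ne_of_one hy h1
    · funext i
      fin_cases i
      · simp
      · simp [h1]
    · change (((1 : L) / (0 : L) : L) : N) = _
      rw [div_zero, h1, div_zero]
      rfl
  · refine ⟨![⟨y 0 / y 1, hL⟩, 1], ?_, ⟨y 1, h1, ?_⟩, ?_⟩
    · intro h
      exact one_ne_zero (congrFun h 1 : (1 : L) = 0)
    · funext i
      fin_cases i
      · simp [mul_div_cancel₀ _ h1]
      · simp
    · change (((⟨y 0 / y 1, hL⟩ : L) / (1 : L) : L) : N) = _
      rw [div_one]

theorem adj_top {x x' : N} {L : IntermediateField K N}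
    (hL : L = IntermediateField.adjoin K {x, x'}) (z z' : L) (hz : (z : N) = x)
    (hz' : (z' : N) = x') : IntermediateField.adjoin K {z, z'} = ⊤ := by
  apply IntermediateField.lift_injective L
  rw [IntermediateField.lift_top, IntermediateField.lift_adjoin, Set.image_pair]
  change IntermediateField.adjoin K {(z : N), (z' : N)} = L
  rw [hz, hz', ← hL]

theorem nz_prl {y z : Fin 2 → N} (hy : y ≠ 0) (hz : z ≠ 0) (h : Prl y z) : nz y = nz z :=
  (nz_eq_iff hy hz).2 h

end points

end FinAux

end Pool.DynLehmer.LP
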