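import Pool.Agent.Lib.MP_2194ec_nt.LP.DefsP
import Pool.Agent.Lib.MP_2194ec_nt.LP.FinA
import Pool.Agent.Lib.MP_2194ec_nt.SepE0

set_option autoImplicit false

/-!
# The dynamical Lehmer bound for points with enough conjugates of small relative degree: the form
which contains the points which generate Galois extensions. Statements of the rows
-/

namespace Pool.DynLehmer.LP
open MvPolynomial NumberField Filter Topology Pool.DynLehmer Pool.DynLehmer.SB Pool.DynLehmer.SP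
  Pool.DynLehmer.GS Pool.DynLehmer.GAL
open scoped Classical

/-- the number of conjugates of `z` under the inertia group at `w` -/
noncomputable def ie (K : Type) {N : Type} [Field K] [Field N] [NumberField N] [Algebra K N]
    (w : FinitePlace N) (z : Pt N) : ℕ :=
  (MulAction.stabilizer (N ≃ₐ[K] N) z).relIndex (inert K w)

/-- Row LEVELW: as `LevelStatement`, the local distances in a disc being bounded by means of a
function `ie`; also `ie` is almost always large. -/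
def LevelwStatement : Prop :=
  ∀ (q m : ℕ) (C Λ ρ : ℝ), 2 ≤ q → 0 ≤ C → 0 < Λ → 0 < ρ → ∃ B c : ℝ, 1 ≤ B ∧ 0 < c ∧
    ∀ (P G ι : Type) [Group G] [Fintype G] [MulAction G P] [Fintype ι]
      (S : EData q m C Λ P G ι) (hq : 2 ≤ q) (ie : ι → P → ℕ),
      (∀ w z, 1 ≤ ie w z) →
      (∀ w x y, y ∈ orb G x → y ≠ x → 0 < S.E w y x →
        1 ≤ (max (ie w y) (ie w x) : ℕ) * S.E w y x) →
      (∀ (Z : Finset P) (z : P), (∀ y ∈ Z, S.f y = z) → Z.card ≤ q) →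
      ∀ x : P, (Function.Injective fun n : ℕ => S.f^[n] x) →
      c ≤ ((orb G x).card : ℝ) * S.hhat hq x ∨
      ∃ k : ℕ, (q : ℝ) ^ k * ((orb G (S.f^[k] x)).card : ℝ) ≤
          B * (1 + Real.log ((orb G (S.f^[k] x)).card)) * (orb G x).card ∧
        ∑ w, S.lam w * (((orb G (S.f^[k] x)).filter fun z =>
          B * (1 + Real.log ((orb G (S.f^[k] x)).card)) ≤
            (((orb G (S.f^[k] x)).filter fun z' => z' = z ∨ 0 < S.E w z' z).card : ℝ)).card : ℝ)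
          ≤ ρ * Λ * ((orb G (S.f^[k] x)).card : ℝ) ∧
        ∑ w, S.lam w * (((orb G x).filter fun z =>
          B * (1 + Real.log ((orb G (S.f^[k] x)).card)) ^ 2 * (ie w z : ℝ) < (q : ℝ) ^ k).card : ℝ)
          ≤ ρ * Λ * ((orb G x).card : ℝ)

/-- Row IEW: two conjugates in the same residue disc are close, in terms of the sizes of their
inertia orbits. -/
def IewStatement : Prop :=
  ∀ (K : Type) [Field K] [NumberField K] (N : Type) [Field N] [NumberField N] [Algebra K N]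
    [IsGalois K N] (v : FinitePlace K) (w : FinitePlace N) (e : ℕ), Above v w e →
    ∀ u : K, (∀ a : K, v a < 1 → v a ≤ v u) → ∀ x y : Pt N, dw w y.val x.val < 1 →
      (dw w y.val x.val) ^ (max (ie K w y) (ie K w x)) ≤ w (algebraMap K N u)

/-- Row LVNW: as `LvnStatement`; also the inertia orbits are almost always large. -/
def LvnwStatement : Prop :=
  ∀ (K : Type) [Field K] [NumberField K] (p s : ℕ) (v : FinitePlace K)
    (F : Fin 2 → MvPolynomial (Fin 2) K), HypR p s v F → ∀ ρ : ℝ, 0 < ρ →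
    ∃ B c : ℝ, 1 ≤ B ∧ 0 < c ∧
    ∀ (N : Type) [Field N] [NumberField N] [Algebra K N] [IsGalois K N]
      (S : Finset (FinitePlace N)) (e : FinitePlace N → ℕ), (∀ w ∈ S, Above v w (e w)) →
      ∑ w ∈ S, e w = Module.finrank K N → ∀ x : Fin 2 → N, x ≠ 0 → WandP F x →
      ∃ h : ℝ, Tendsto (fun n : ℕ => Height.logHeight ((gAct F N)^[n] x) /
        (Module.finrank ℚ N : ℝ) / ((p ^ s : ℕ) : ℝ) ^ n) atTop (𝓝 h) ∧
        (c ≤ (dgo K (nz x) : ℝ) * h ∨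
        ∃ k : ℕ, ((p ^ s : ℕ) : ℝ) ^ k * (dgo K (nz ((gAct F N)^[k] x)) : ℝ) ≤
            B * (1 + Real.log (dgo K (nz ((gAct F N)^[k] x)))) * dgo K (nz x) ∧
          ∑ w ∈ S, (e w : ℝ) * (((orb (N ≃ₐ[K] N) (nz ((gAct F N)^[k] x))).filter fun z =>
            B * (1 + Real.log (dgo K (nz ((gAct F N)^[k] x)))) ≤ (disc K w z : ℝ)).card : ℝ) ≤
            ρ * Module.finrank K N * dgo K (nz ((gAct F N)^[k] x)) ∧
          ∑ w ∈ S, (e w : ℝ) * (((orb (N ≃ₐ[K] N) (nz x)).filter fun z =>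
            B * (1 + Real.log (dgo K (nz ((gAct F N)^[k] x)))) ^ 2 * (ie K w z : ℝ) <
              ((p ^ s : ℕ) : ℝ) ^ k).card : ℝ) ≤
            ρ * Module.finrank K N * dgo K (nz x))

/-- Row PTH: if the discs are small at level `k` and the inertia orbits large at level `0`, then
every pair of conjugates of `x` is thin at level `k`. -/
def PthStatement : Prop :=
  ∀ (K : Type) [Field K] [NumberField K] (N : Type) [Field N] [NumberField N] [Algebra K N]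
    [IsGalois K N] (q : ℕ) (F : Fin 2 → MvPolynomial (Fin 2) K), 1 ≤ q → Mor q F →
    ∀ (S : Finset (FinitePlace N)) (e : FinitePlace N → ℕ), ∑ w ∈ S, e w = Module.finrank K N →
    ∀ x : Fin 2 → N, x ≠ 0 → ∀ (k : ℕ) (T T₂ : ℝ), 0 ≤ T → 0 ≤ T₂ →
      ∑ w ∈ S, (e w : ℝ) * (((orb (N ≃ₐ[K] N) (nz ((gAct F N)^[k] x))).filter fun z =>
        T ≤ (disc K w z : ℝ)).card : ℝ) ≤
        1 / 16 * Module.finrank K N * dgo K (nz ((gAct F N)^[k] x)) →
      ∑ w ∈ S, (e w : ℝ) * (((orb (N ≃ₐ[K] N) (nz x)).filter fun z =>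
        T₂ * (ie K w z : ℝ) < (q : ℝ) ^ k).card : ℝ) ≤ 1 / 16 * Module.finrank K N * dgo K (nz x) →
      ∀ σ : N ≃ₐ[K] N,
        (q : ℝ) ^ k * dg2 K ((gAct F N)^[k] x) ((gAct F N)^[k] (gal σ x)) ≤
          T₂ * T ^ 2 * dg2 K x (gal σ x)

/-- Row VNUMW: the numerical end. Here `d` is the degree of the point, `M₀` that of the pair. -/
def VnumwStatement : Prop :=
  ∀ (δ A B B' θ : ℝ) (C : ℕ), 0 < δ → 0 < A → 0 < B → 1 ≤ B' → 0 ≤ θ → θ < 1 → 1 ≤ C →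
    ∃ (X : ℕ) (c : ℝ), 0 < c ∧ ∀ (d E : ℕ), X ≤ d → 1 ≤ E →
      (E : ℝ) ≤ 4 * (B' * (1 + Real.log d)) ^ 2 →
      B' * (1 + Real.log d) ≤ (d : ℝ) ^ δ ∧
      B' * (1 + Real.log d) ^ 2 * (B' * (1 + Real.log d)) ^ 2 ≤ (d : ℝ) ^ δ ∧
      ∃ Q : ℕ, 1 ≤ Q ∧ ((C * Q : ℕ) : ℝ) ≤ (d : ℝ) ^ δ ∧
      ∀ (M₀ u : ℕ) (r : ℝ), d ≤ M₀ → M₀ ≤ d ^ 2 → 1 ≤ u → 0 ≤ r →
        (M₀ : ℝ) ^ (1 + δ) ≤ r * min (u : ℝ) ((M₀ : ℝ) ^ (1 / 2 : ℝ)) →
        ∃ M U : ℕ, 1 ≤ U ∧ U ≤ u ∧ U ≤ M ∧ M₀ ≤ M * U ∧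
          (E : ℝ) * Real.exp (B * (1 + (Real.log M) ^ θ)) ≤ Q ∧
          c ≤ r * (A / ((E : ℝ) * M) * Real.exp (-(B * (1 + (Real.log M) ^ θ))))

/-- THEOREM W. -/
def WStatement : Prop :=
  ∀ (K : Type) [Field K] [NumberField K] (p s : ℕ) (v : FinitePlace K)
    (F : Fin 2 → MvPolynomial (Fin 2) K), HypR p s v F → ¬ Lat F →
    ∃ κ R : ℕ, (CritW F → κ = 0) ∧ (CritW F → OneOrb F → R = 1) ∧ ∀ δ : ℝ, 0 < δ →
    ∃ c : ℝ, 0 < c ∧ ∀ (N : Type) [Field N] [NumberField N] [Algebra K N] (a : N),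
      WandP F ![a, 1] →
      (∀ n : ℕ, 1 / δ < (dg K ((gAct F N)^[n] ![a, 1]) : ℝ) →
        ((p ^ s : ℕ) : ℝ) ^ n * (dg K ((gAct F N)^[n] ![a, 1]) : ℝ) ^ (1 - δ) ≤ dg K ![a, 1] →
        ∃ (u : ℕ) (S : Finset N),
          (∀ b ∈ S, Polynomial.aeval b (minpoly K a) = 0 ∧
            (((p ^ s : ℕ) : ℝ) ^ n *
                (dg2 K ((gAct F N)^[n] ![a, 1]) ((gAct F N)^[n] ![b, 1]) : ℝ) ^ (1 - δ) ≤
                dg2 K ![a, 1] ![b, 1] →
              ((p ^ s : ℕ) : ℝ) ^ n *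
                (dg2 K ((gAct F N)^[n] ![a, 1]) ((gAct F N)^[n] ![b, 1]) : ℝ) ^ (1 + δ) ≤
                dg K ![a, 1] * min (u : ℝ)
                  ((dg2 K ((gAct F N)^[n] ![a, 1]) ((gAct F N)^[n] ![b, 1]) : ℝ) ^
                    (1 / 2 : ℝ)))) ∧
          ∀ m : ℕ, ((p ^ s : ℕ) : ℝ) ^ m ≤ (dg K ((gAct F N)^[n] ![a, 1]) : ℝ) ^ δ →
            R * ((u : ℝ) * (dg K ((gAct F N)^[n] ![a, 1]) : ℝ) ^ δ) ^ κ <
              (S.image fun b => pr ((gAct F N)^[n + m] ![b, 1])).card) →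
      ∃ h : ℝ, HasHt (p ^ s) F ![a, 1] h ∧ c / (dg K ![a, 1] : ℝ) ≤ h

end Pool.DynLehmer.LP
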