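import Pool.Agent.Lib.MP_2194ec_nt.LP.Defs

set_option autoImplicit false

/-!
# The data of the energy argument, with the local distances and the weights exposed (row EDT)
-/

namespace Pool.DynLehmer.LP
open MvPolynomial NumberField Filter Topology Pool.DynLehmer
open scoped Classical

theorem edt : EdtStatement := by
  intro K _ _ N _ _ _ _ p s v Φ hϖ hϖ0 hunif hp hs m hm S e hS hsum C hC
  have hNpos : (0 : ℝ) < Module.finrank ℚ N := by exact_mod_cast Module.finrank_pos
  have hKpos : (0 : ℝ) < Module.finrank ℚ K := by exact_mod_cast Module.finrank_pos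
  have hKNpos : (0 : ℝ) < Module.finrank K N := by exact_mod_cast Module.finrank_pos
  have htower : (Module.finrank ℚ K : ℝ) * Module.finrank K N = Module.finrank ℚ N := by
    exact_mod_cast Module.finrank_mul_finrank ℚ K N
  have hne : S.Nonempty := by
    rw [Finset.nonempty_iff_ne_empty]
    rintro rfl
    rw [Finset.sum_empty] at hsum
    exact (Module.finrank_pos (R := K) (M := N)).ne hsum
  obtain ⟨w0, hw0⟩ := hne
  have hΨ0 := hΨ (hS w0 hw0) hϖ hp
  have hsumE : ∀ (Z : Finset (Pt N)) (w : FinitePlace N), - Real.log (w (toN v N Φ.ϖ)) ≠ 0 →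
      (- Real.log (w (toN v N Φ.ϖ)) / Module.finrank ℚ N) * ∑ z ∈ Z, ∑ z' ∈ Z, Ew Φ w z z' =
      (∑ z ∈ Z, ∑ z' ∈ Z, - Real.log (dw w z.val z'.val)) / Module.finrank ℚ N := by
    intro Z w hw
    have h1 : ∑ z ∈ Z, ∑ z' ∈ Z, Ew Φ w z z' =
        (∑ z ∈ Z, ∑ z' ∈ Z, - Real.log (dw w z.val z'.val)) / - Real.log (w (toN v N Φ.ϖ)) := by
      rw [Finset.sum_div]
      refine Finset.sum_congr rfl fun z _ => ?_
      rw [Finset.sum_div]
      rfl
    rw [h1]
    generalize - Real.log (w (toN v N Φ.ϖ)) = l at hw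
    field_simp
  refine ⟨{
    f := fpt (Φ.map (toN v N))
    comm := ?_
    lam := fun w => - Real.log (w.1 (toN v N Φ.ϖ)) / Module.finrank ℚ N
    lam_nonneg := fun w => div_nonneg (lw_pos (hS w.1 w.2) hϖ hϖ0).le hNpos.le
    sum_lam := ?_
    E := fun w P Q => Ew Φ w.1 P Q
    E_self := fun w P => Ew_self w.1 P
    E_nonneg := fun w P Q => Ew_nonneg (hS w.1 w.2) hϖ hϖ0 P Q
    E_f := fun w P Q h => Ew_f (hS w.1 w.2) hϖ hϖ0 hp P Q h
    E_near := fun w P Q h => Ew_near (hS w.1 w.2) hϖ hϖ0 hp P Q h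
    frob := fun w x k hk h => Ew_frob (hS w.1 w.2) hϖ hϖ0 hunif hp (hm.mult hk) x h
    disc := fun w x y hy hyx h => Ew_disc (hS w.1 w.2) hϖ hϖ0 hunif hp hs x y hy hyx h
    h := fun P => Height.logHeight P.val / Module.finrank ℚ N
    h_nonneg := fun P => div_nonneg (Height.logHeight_nonneg _) hNpos.le
    h_smul := ?_
    h_f := ?_
    liou := ?_
    energy := ?_ }, rfl, rfl, rfl, rfl⟩
  · -- comm
    intro σ P
    have h1 : (fun i => σ.toRingEquiv.toRingHom ((Φ.map (toN v N)).act P.val i)) =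
        (Φ.map (toN v N)).act (σ • P).val := by
      have h2 : ((Φ.map (toN v N)).map σ.toRingEquiv.toRingHom).act = (Φ.map (toN v N)).act := by
        rw [FF.map_map_act']
        congr 2
        ext a
        exact σ.commutes _
      ext i
      rw [(Φ.map (toN v N)).map_act σ.toRingEquiv.toRingHom P.val i, h2]
      rfl
    obtain ⟨c, hc, h3⟩ := nz_spec (hΨ0 P.val P.ne_zero)
    have h4 : (Φ.map (toN v N)).act (σ • P).val = σ c • (σ • fpt (Φ.map (toN v N)) P).val := by
      rw [← h1]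
      ext i
      conv_lhs => rw [h3]
      change σ (c * (nz ((Φ.map (toN v N)).act P.val)).val i) = _
      rw [map_mul]
      rfl
    have h5 : fpt (Φ.map (toN v N)) (σ • P) = nz ((Φ.map (toN v N)).act (σ • P).val) := rfl
    rw [h5, h4, nz_smul (by simpa using hc) _ (Pt.ne_zero _), nz_val]
  · -- sum_lam
    rw [← Finset.sum_div, Finset.sum_coe_sort S (fun w => - Real.log (w (toN v N Φ.ϖ)))]
    rw [Finset.sum_congr rfl fun w hw => lw_eq (Φ := Φ) (hS w hw), ← Finset.sum_mul,
      ← Nat.cast_sum, hsum, ← htower]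
    field_simp
  · -- h_smul
    intro σ P
    congr 1
    exact logHeight_ringEquiv σ.toRingEquiv P.val
  · -- h_f
    intro P
    obtain ⟨c, hc, h3⟩ := nz_spec (hΨ0 P.val P.ne_zero)
    have h4 : Height.logHeight (fpt (Φ.map (toN v N)) P).val =
        Height.logHeight ((Φ.map (toN v N)).act P.val) := by
      conv_rhs => rw [h3]
      rw [Height.logHeight_smul_eq_logHeight _ hc]
      rfl
    rw [h4]
    have h5 : Height.logHeight ((Φ.map (toN v N)).act P.val) / (Module.finrank ℚ N : ℝ) -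
        ((p ^ s : ℕ) : ℝ) * (Height.logHeight P.val / Module.finrank ℚ N) =
        (Height.logHeight ((Φ.map (toN v N)).act P.val) -
          ((p ^ s : ℕ) : ℝ) * Height.logHeight P.val) / Module.finrank ℚ N := by
      field_simp
    rw [h5, abs_div, abs_of_pos hNpos, div_le_iff₀ hNpos]
    exact hC P.val
  · -- liou
    intro P Q hPQ
    have hb : br P.val Q.val ≠ 0 := fun h0 => hPQ (Pt.br_eq_zero.1 h0)
    have h1 := liou_two S P.val Q.val P.ne_zero Q.ne_zero hb
    have h2 : ∑ w : {w // w ∈ S}, - Real.log (w.1 (toN v N Φ.ϖ)) / (Module.finrank ℚ N : ℝ) *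
        Ew Φ w.1 P Q = (∑ w ∈ S, - Real.log (dw w P.val Q.val)) / Module.finrank ℚ N := by
      rw [Finset.sum_coe_sort S (fun w => - Real.log (w (toN v N Φ.ϖ)) /
        (Module.finrank ℚ N : ℝ) * Ew Φ w P Q), Finset.sum_div]
      refine Finset.sum_congr rfl fun w hw => ?_
      have hL := (lw_pos (hS w hw) hϖ hϖ0).ne'
      unfold Ew
      generalize - Real.log (w (toN v N Φ.ϖ)) = l at hL
      field_simp
    rw [h2, div_le_iff₀ hNpos]
    have h3 : (Height.logHeight P.val / (Module.finrank ℚ N : ℝ) +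
        Height.logHeight Q.val / Module.finrank ℚ N + Real.log 2) * Module.finrank ℚ N =
        Height.logHeight P.val + Height.logHeight Q.val + Module.finrank ℚ N * Real.log 2 := by
      field_simp
    rw [h3]
    exact h1
  · -- energy
    intro J Z hZ
    set eZ : Fin ((p ^ s) ^ J) ≃ Z := (Z.equivFinOfCardEq hZ).symm with heZ
    set z : Fin ((p ^ s) ^ J) → Fin 2 → N := fun a => (eZ a : Pt N).val with hz
    have h1 := energy_fin Φ hϖ hp S e hS ⟨w0, hw0⟩ J z (fun a => (eZ a : Pt N).ne_zero)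
      (fun a b hab h0 => hab (eZ.injective (Subtype.ext (Pt.br_eq_zero.1 h0))))
    have h2 : ∑ w : {w // w ∈ S}, - Real.log (w.1 (toN v N Φ.ϖ)) / (Module.finrank ℚ N : ℝ) *
        ∑ P ∈ Z, ∑ Q ∈ Z, Ew Φ w.1 P Q =
        2 * (∑ w ∈ S, ∑ a, ∑ b ∈ Finset.Ioi a, - Real.log (dw w (z a) (z b))) /
          Module.finrank ℚ N := by
      rw [Finset.sum_coe_sort S (fun w => - Real.log (w (toN v N Φ.ϖ)) /
        (Module.finrank ℚ N : ℝ) * ∑ P ∈ Z, ∑ Q ∈ Z, Ew Φ w P Q), Finset.mul_sum,
        Finset.sum_div]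
      refine Finset.sum_congr rfl fun w hw => ?_
      rw [hsumE Z w (lw_pos (hS w hw) hϖ hϖ0).ne']
      congr 1
      rw [← sum_pairs_symm (fun a b => - Real.log (dw w (z a) (z b)))
        (fun a b => by rw [dw_symm]) (fun a => by rw [dw_self]; simp)]
      rw [← Finset.sum_coe_sort Z]
      rw [← eZ.sum_comp]
      refine Finset.sum_congr rfl fun a _ => ?_
      rw [← Finset.sum_coe_sort Z]
      rw [← eZ.sum_comp]
    rw [h2, div_le_iff₀ hNpos]
    have h3 : ∑ P ∈ Z, ∑ i ∈ Finset.range J, (((p ^ s : ℕ) : ℝ) - 1) *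
        (Height.logHeight ((fpt (Φ.map (toN v N)))^[i] P).val / (Module.finrank ℚ N : ℝ)) =
        (∑ a, ∑ i ∈ Finset.range J, (((p ^ s : ℕ) : ℝ) - 1) *
          Height.logHeight ((Φ.map (toN v N)).act^[i] (z a))) / Module.finrank ℚ N := by
      rw [← Finset.sum_coe_sort Z, ← eZ.sum_comp, Finset.sum_div]
      refine Finset.sum_congr rfl fun a _ => ?_
      rw [Finset.sum_div]
      refine Finset.sum_congr rfl fun i _ => ?_
      rw [mul_div_assoc]
      congr 2
      rw [fpt_iter _ hΨ0]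
      obtain ⟨c, hc, h3⟩ := nz_spec (act_iter_ne _ hΨ0 i (eZ a : Pt N).val (eZ a : Pt N).ne_zero)
      conv_rhs => rw [hz]
      simp only
      conv_rhs => rw [h3]
      rw [Height.logHeight_smul_eq_logHeight _ hc]
    rw [h3]
    have h4 : ∀ a b : ℝ, 2 * (a / (Module.finrank ℚ N : ℝ) + b) * Module.finrank ℚ N =
        2 * (a + Module.finrank ℚ N * b) := by
      intro a b
      field_simp
    rw [h4]
    linarith

end Pool.DynLehmer.LP
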