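import Pool.Agent.Lib.MP_2194ec_nt.LP.DefsP
import Pool.Agent.Lib.MP_2194ec_nt.GAL.R.Expl
import Pool.Agent.Lib.MP_2194ec_nt.GAL.R.Ldg
import Pool.Agent.Lib.MP_2194ec_nt.GAL.R.Ldm

set_option autoImplicit false

/-!
# Theorem V, strong form, with everything written out
-/

namespace Pool.DynLehmer.LP
open MvPolynomial NumberField Filter Topology Pool.DynLehmer Pool.DynLehmer.SB Pool.DynLehmer.SP
  Pool.DynLehmer.GS Pool.DynLehmer.GAL
open scoped Classical

/-- critical points are the points of local degree at least `2` -/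
theorem crit_iff {K : Type} [Field K] [NumberField K] {q : ℕ} {F : Fin 2 → MvPolynomial (Fin 2) K}
    (hq : 1 ≤ q) (hF : Mor q F) {U : Fin 2 → AlgebraicClosure K} (hU : U ≠ 0) :
    2 ≤ ld F U ↔ aeval U (Jac F) = 0 := by
  have : CharZero (AlgebraicClosure K) :=
    charZero_of_injective_algebraMap (algebraMap K (AlgebraicClosure K)).injective
  obtain ⟨V, hV⟩ := Ldm.exists_ind hU
  obtain ⟨W, hW⟩ := Ldm.exists_ind (hF.ne (AlgebraicClosure K) U hU)
  obtain ⟨h1, -, h2, -⟩ := LDG.ldg K (AlgebraicClosure K) q F hq hF U V W hV hW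
  constructor
  · intro h
    by_contra h3
    have h4 := h2.2 h3
    omega
  · intro h
    have h3 : ld F U ≠ 1 := fun h4 => (h2.1 h4) h
    omega

theorem vp_explicit (hMor : MorStatement) (hV : VpStatement) :
    ∀ (K : Type) [Field K] [NumberField K] (p s : ℕ) (v : NumberField.FinitePlace K)
      (F : Fin 2 → MvPolynomial (Fin 2) K),
      p.Prime → 1 ≤ s → v (p : K) < 1 → (∀ i, (F i).IsHomogeneous (p ^ s)) →
      (∀ i t, v (coeff t (F i)) ≤ 1) →
      (∀ i t, (∀ j, t ≠ Finsupp.single j (p ^ s)) → v (coeff t (F i)) < 1) →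
      v (Matrix.det (Matrix.of fun i j => coeff (Finsupp.single j (p ^ s)) (F i))) = 1 →
      (¬ ∃ ν : Projectivization (AlgebraicClosure K) (Fin 2 → AlgebraicClosure K) → ℕ,
        (∀ z, 1 ≤ ν z) ∧ {z | ν z ≠ 1}.Finite ∧
        ∀ (x : Fin 2 → AlgebraicClosure K) (hx : x ≠ 0)
          (hFx : gAct F (AlgebraicClosure K) x ≠ 0),
          ν (Projectivization.mk (AlgebraicClosure K) (gAct F (AlgebraicClosure K) x) hFx) =
            ld F x * ν (Projectivization.mk (AlgebraicClosure K) x hx)) →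
      ∃ κ R : ℕ,
        ((∃ x : Fin 2 → AlgebraicClosure K, x ≠ 0 ∧ 2 ≤ ld F x ∧
            ∀ m n : ℕ, Prl ((gAct F (AlgebraicClosure K))^[m] x)
              ((gAct F (AlgebraicClosure K))^[n] x) → m = n) → κ = 0 ∧
          ((∀ x y : Fin 2 → AlgebraicClosure K, x ≠ 0 → y ≠ 0 → 2 ≤ ld F x → 2 ≤ ld F y →
            (∀ m n : ℕ, Prl ((gAct F (AlgebraicClosure K))^[m] x)
              ((gAct F (AlgebraicClosure K))^[n] x) → m = n) →
            (∀ m n : ℕ, Prl ((gAct F (AlgebraicClosure K))^[m] y)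
              ((gAct F (AlgebraicClosure K))^[n] y) → m = n) →
            ∃ m n : ℕ, Prl ((gAct F (AlgebraicClosure K))^[m] x)
              ((gAct F (AlgebraicClosure K))^[n] y)) → R = 1)) ∧
        ∀ δ : ℝ, 0 < δ → ∃ c : ℝ, 0 < c ∧
        ∀ (L : Type) [Field L] [NumberField L] [Algebra K L] (a : L),
          (∀ m n : ℕ, Prl ((gAct F L)^[m] ![a, 1]) ((gAct F L)^[n] ![a, 1]) → m = n) →
          (∀ (n : ℕ) (y : Fin 2 → L), y = (gAct F L)^[n] ![a, 1] → 1 / δ < (dg K y : ℝ) →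
            ((p ^ s : ℕ) : ℝ) ^ n * (dg K y : ℝ) ^ (1 - δ) ≤ dg K ![a, 1] →
            ∃ (t : ℕ) (S : Finset L), (t : ℝ) ≤ (dg K y : ℝ) ^ (1 - δ) ∧
              (∀ b ∈ S, Polynomial.aeval b (minpoly K (y 0 / y 1)) = 0 ∧
                Module.finrank K (IntermediateField.adjoin K {y 0 / y 1, b}) ≤ t * dg K y) ∧
              ∀ m : ℕ, ((p ^ s : ℕ) : ℝ) ^ m ≤ (dg K y : ℝ) ^ δ →
                R * ((t : ℝ) * (dg K y : ℝ) ^ δ) ^ κ <
                  ((fun b => pr ((gAct F L)^[m] ![b, 1])) '' (S : Set L)).ncard) →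
          ∃ h : ℝ,
            Filter.Tendsto (fun n : ℕ =>
              ((1 : ℝ) / (Module.finrank ℚ L : ℝ)) *
                ((∑ w : NumberField.InfinitePlace L, (NumberField.InfinitePlace.mult w : ℝ) *
                    Real.log (⨆ j, w ((gAct F L)^[n] ![a, 1] j))) +
                 ∑ᶠ u : NumberField.FinitePlace L,
                    Real.log (⨆ j, u ((gAct F L)^[n] ![a, 1] j)))
                / ((p ^ s : ℕ) : ℝ) ^ n) Filter.atTop (nhds h) ∧
            c / (dg K ![a, 1] : ℝ) ≤ h := by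
  intro K _ _ p s v F hp hs hv hF1 hF2 hF3 hF4 hL
  have hyp : HypR p s v F := ⟨hp, hs, hv, hF1, hF2, hF3, hF4⟩
  have hM := hMor K p s v F hyp
  have hq : 1 ≤ p ^ s := Nat.one_le_pow _ _ hp.pos
  have hw1 : ∀ x : Fin 2 → AlgebraicClosure K, WandP F x → ∀ m n : ℕ,
      Prl ((gAct F (AlgebraicClosure K))^[m] x) ((gAct F (AlgebraicClosure K))^[n] x) →
        m = n := by
    intro x hx m n h
    by_contra hmn
    obtain ⟨c, hc, h⟩ := h
    exact hx ⟨n, m, fun h => hmn h.symm, c, hc, h⟩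
  have hw2 : ∀ x : Fin 2 → AlgebraicClosure K, (∀ m n : ℕ,
      Prl ((gAct F (AlgebraicClosure K))^[m] x) ((gAct F (AlgebraicClosure K))^[n] x) →
        m = n) → WandP F x := by
    rintro x hx ⟨m, n, hmn, c, hc, h⟩
    exact hmn (hx n m ⟨c, hc, h⟩).symm
  obtain ⟨κ, R, hκ, hR, H⟩ := hV K p s v F hyp (fun h => hL (lat_expl F h))
  refine ⟨κ, R, ?_, ?_⟩
  · rintro ⟨x, hx, hx2, hx3⟩
    have hcrit : CritW F := ⟨x, hx, (crit_iff hq hM hx).1 hx2, hw2 x hx3⟩
    refine ⟨hκ hcrit, fun hone => hR hcrit ?_⟩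
    intro U U' hU hU' hJ hJ' hW hW'
    exact hone U U' hU hU' ((crit_iff hq hM hU).2 hJ) ((crit_iff hq hM hU').2 hJ')
      (hw1 U hW) (hw1 U' hW')
  · intro δ hδ
    obtain ⟨c, hc, H⟩ := H δ hδ
    refine ⟨c, hc, ?_⟩
    intro L _ _ _ a ha hyp2
    obtain ⟨h, hlim, hle⟩ := H L a (by
      rintro ⟨m, n, hmn, u, hu, h⟩
      exact hmn (ha n m ⟨u, hu, h⟩).symm) (by
      intro n y hy h1 h2
      obtain ⟨t, S, ht, hS, hm⟩ := hyp2 n y hy h1 h2
      refine ⟨t, S, ht, hS, fun m hm1 => ?_⟩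
      have h3 := hm m hm1
      have h4 : ((fun b => pr ((gAct F L)^[m] ![b, 1])) '' (S : Set L)).ncard =
          (S.image fun b => pr ((gAct F L)^[m] ![b, 1])).card := by
        rw [← Finset.coe_image, Set.ncard_coe_finset]
      rw [h4] at h3
      exact h3)
    have hdg : dg K (![a, 1] : Fin 2 → L) =
        Module.finrank K (IntermediateField.adjoin K {a}) := by
      unfold dg
      have h5 : (![a, 1] : Fin 2 → L) 0 / (![a, 1] : Fin 2 → L) 1 = a := by simp
      rw [h5]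
    rw [hdg]
    refine ⟨h, Tendsto.congr (fun n => ?_) hlim, hle⟩
    have hne : (gAct F L)^[n] ![a, 1] ≠ 0 := E.gAct_iter_ne' hM n (by
      intro h0
      exact one_ne_zero (congrFun h0 1 : (1 : L) = 0))
    rw [logHeight_eq_sum hne, one_div, inv_mul_eq_div]

end Pool.DynLehmer.LP
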