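import Pool.Agent.Lib.MP_2194ec_nt.LP.DefsP
import Pool.Agent.Lib.MP_2194ec_nt.GAL.R.Fib
import Pool.Agent.Lib.MP_2194ec_nt.GAL.R.Bas
import Pool.Agent.Lib.MP_2194ec_nt.Morphism

set_option autoImplicit false

/-!
# Row HCMP: heights on a correspondence
-/

namespace Pool.DynLehmer.LP

namespace Hcmp

section loc

open Height Height.AdmissibleAbsValues

variable {N : Type*} [Field N]

/-- Comparison of heights by local inequalities. -/
theorem le_of_loc [AdmissibleAbsValues N] {ι ι' : Type*} [Finite ι] [Finite ι'] {x : ι → N}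
    {y : ι' → N} (hx : x ≠ 0) (hy : y ≠ 0) {c : ℝ} (hc : 0 ≤ c)
    (ha : ∀ v : AbsoluteValue N ℝ, ⨆ i, v (x i) ≤ c * ⨆ i, v (y i))
    (hn : ∀ v : AbsoluteValue N ℝ, IsNonarchimedean v → ⨆ i, v (x i) ≤ ⨆ i, v (y i)) :
    mulHeight x ≤ c ^ totalWeight N * mulHeight y := by
  rw [mulHeight_eq hx, mulHeight_eq hy, ← mul_assoc]
  refine mul_le_mul ?_ ?_ (finprod_nonneg fun v => Real.iSup_nonneg_of_nonnegHomClass v.val _)
    (mul_nonneg (pow_nonneg hc _)
      (Multiset.prod_map_nonneg fun v _ => Real.iSup_nonneg_of_nonnegHomClass v _))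
  · rw [← Multiset.prod_replicate, totalWeight, ← Multiset.map_const', ← Multiset.prod_map_mul]
    exact Multiset.prod_map_le_prod_map₀ _ _
      (fun v _ => Real.iSup_nonneg_of_nonnegHomClass v _) fun v _ => ha v
  · exact finprod_le_finprod (by fun_prop) (fun v => Real.iSup_nonneg_of_nonnegHomClass v.val _)
      (by fun_prop) fun v => hn v.val (isNonarchimedean _ v.prop)

/-- The local size of a root. -/
theorem root_loc (v : AbsoluteValue N ℝ) {d k : ℕ} (hkd : k ≤ d) (g : ℕ → N) (x : N)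
    (hgk : g k ≠ 0) (hx : g k * x ^ k + ∑ j ∈ Finset.range k, g j * x ^ j = 0) {c : ℝ}
    (hc : 1 ≤ c)
    (hsum : ∀ (a : ℕ → N) (B : ℝ), 0 ≤ B → (∀ j, j < k → v (a j) ≤ B) →
      v (∑ j ∈ Finset.range k, a j) ≤ c * B) {M : ℝ} (hM : ∀ j, j ≤ d → v (g j) ≤ M) :
    v (g k * x) ≤ c * M := by
  have hM0 : 0 ≤ M := (v.nonneg _).trans (hM k hkd)
  have hM1 : M ≤ c * M := le_mul_of_one_le_left hM0 hc
  rw [map_mul]
  by_cases h1 : v x ≤ 1
  · calc v (g k) * v x ≤ v (g k) * 1 := mul_le_mul_of_nonneg_left h1 (v.nonneg _)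
      _ = v (g k) := mul_one _
      _ ≤ M := hM k hkd
      _ ≤ c * M := hM1
  · push Not at h1
    have hk : k ≠ 0 := by
      rintro rfl
      rw [Finset.range_zero, Finset.sum_empty, add_zero, pow_zero, mul_one] at hx
      exact hgk hx
    obtain ⟨l, rfl⟩ := Nat.exists_eq_succ_of_ne_zero hk
    have h0 : 0 < v x := by linarith
    have h2 : g (l + 1) * x ^ (l + 1) = - ∑ j ∈ Finset.range (l + 1), g j * x ^ j :=
      eq_neg_of_add_eq_zero_left hx
    have h3 : v (g (l + 1)) * v x ^ (l + 1) ≤ c * (M * v x ^ l) := by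
      rw [← map_pow, ← map_mul, h2, v.map_neg]
      refine hsum _ _ (by positivity) fun j hj => ?_
      rw [map_mul, map_pow]
      refine mul_le_mul (hM j (by omega)) ?_ (by positivity) hM0
      exact pow_le_pow_right₀ h1.le (by omega)
    have h4 : v (g (l + 1)) * v x * v x ^ l ≤ c * M * v x ^ l := by
      calc v (g (l + 1)) * v x * v x ^ l = v (g (l + 1)) * v x ^ (l + 1) := by ring
        _ ≤ c * (M * v x ^ l) := h3
        _ = c * M * v x ^ l := by ring
    exact le_of_mul_le_mul_right h4 (by positivity)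

theorem sum_arch (v : AbsoluteValue N ℝ) {k d : ℕ} (hkd : k ≤ d) (a : ℕ → N) (B : ℝ)
    (hB : 0 ≤ B) (h : ∀ j, j < k → v (a j) ≤ B) :
    v (∑ j ∈ Finset.range k, a j) ≤ ((d : ℝ) + 1) * B := by
  calc v (∑ j ∈ Finset.range k, a j) ≤ ∑ j ∈ Finset.range k, v (a j) := v.sum_le _ _
    _ ≤ ∑ _j ∈ Finset.range k, B := Finset.sum_le_sum fun j hj => h j (Finset.mem_range.1 hj)
    _ = k * B := by rw [Finset.sum_const, Finset.card_range, nsmul_eq_mul]
    _ ≤ ((d : ℝ) + 1) * B := by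
        refine mul_le_mul_of_nonneg_right ?_ hB
        have : (k : ℝ) ≤ d := by exact_mod_cast hkd
        linarith

theorem sum_nonarch {v : AbsoluteValue N ℝ} (hv : IsNonarchimedean v) {k : ℕ} (a : ℕ → N)
    (B : ℝ) (hB : 0 ≤ B) (h : ∀ j, j < k → v (a j) ≤ B) :
    v (∑ j ∈ Finset.range k, a j) ≤ 1 * B := by
  rw [one_mul]
  induction k with
  | zero => simpa using hB
  | succ k ih =>
    rw [Finset.sum_range_succ]
    exact (hv _ _).trans (max_le (ih fun j hj => h j (by omega)) (h k (by omega)))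

/-- The height of a root. -/
theorem root_height [AdmissibleAbsValues N] (d : ℕ) (g : ℕ → N)
    (hg : (fun j : Fin (d + 1) => g j) ≠ 0) (y : Fin 2 → N)
    (h0 : ∑ j ∈ Finset.range (d + 1), g j * (y 0 ^ j * y 1 ^ (d - j)) = 0) :
    logHeight y ≤ totalWeight N * Real.log (d + 1) + logHeight fun j : Fin (d + 1) => g j := by
  have hd1 : (1 : ℝ) ≤ (d : ℝ) + 1 := by
    have : (0 : ℝ) ≤ d := Nat.cast_nonneg d
    linarith
  have hy2 : y = ![y 0, y 1] := by
    funext i
    fin_cases i <;> rfl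
  by_cases h1 : y 1 = 0
  · have h2 : logHeight y = 0 := by
      rw [hy2, ← logHeight₁_div_eq_logHeight, h1, div_zero, logHeight₁_zero]
    rw [h2]
    have h3 := Real.log_nonneg hd1
    have h4 := logHeight_nonneg fun j : Fin (d + 1) => g j
    positivity
  · set x : N := y 0 / y 1 with hx
    have hsum0 : ∑ j ∈ Finset.range (d + 1), g j * x ^ j = 0 := by
      have h2 : (∑ j ∈ Finset.range (d + 1), g j * x ^ j) * y 1 ^ d = 0 := by
        rw [← h0, Finset.sum_mul]
        refine Finset.sum_congr rfl fun j hj => ?_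
        have hj' : j ≤ d := Nat.lt_succ_iff.1 (Finset.mem_range.1 hj)
        have h3 : y 1 ^ d = y 1 ^ j * y 1 ^ (d - j) := by
          rw [← pow_add, Nat.add_sub_cancel' hj']
        rw [hx, h3, div_pow]
        field_simp
      exact (mul_eq_zero.1 h2).resolve_right (pow_ne_zero _ h1)
    -- the largest index with a nonzero coefficient
    classical
    obtain ⟨j₀, hj₀⟩ := Function.ne_iff.1 hg
    have hex : ∃ k, k ≤ d ∧ g k ≠ 0 := ⟨j₀, Nat.lt_succ_iff.1 j₀.2, hj₀⟩
    obtain ⟨k, ⟨hkd, hgk⟩, hmax⟩ : ∃ k, (k ≤ d ∧ g k ≠ 0) ∧ ∀ j, j ≤ d → k < j → g j = 0 := by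
      refine ⟨Nat.findGreatest (fun k => k ≤ d ∧ g k ≠ 0) d, ?_, ?_⟩
      · obtain ⟨k, hk⟩ := hex
        exact Nat.findGreatest_spec (P := fun k => k ≤ d ∧ g k ≠ 0) hk.1 hk
      · intro j hj hlt
        by_contra hne
        exact Nat.findGreatest_is_greatest hlt hj ⟨hj, hne⟩
    have hroot : g k * x ^ k + ∑ j ∈ Finset.range k, g j * x ^ j = 0 := by
      rw [add_comm, ← Finset.sum_range_succ (fun j => g j * x ^ j) k, ← hsum0]
      refine Finset.sum_subset (fun j hj => ?_) fun j hj hj' => ?_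
      · rw [Finset.mem_range] at hj ⊢
        omega
      · rw [Finset.mem_range] at hj hj'
        rw [hmax j (by omega) (by omega), zero_mul]
    have hT0 : (![g k * x, g k] : Fin 2 → N) ≠ 0 := fun h => hgk (congrFun h 1)
    have hle : mulHeight (![g k * x, g k] : Fin 2 → N) ≤
        ((d : ℝ) + 1) ^ totalWeight N * mulHeight fun j : Fin (d + 1) => g j := by
      have hM : ∀ v : AbsoluteValue N ℝ, ∀ j, j ≤ d → v (g j) ≤ ⨆ i : Fin (d + 1), v (g i) :=
        fun v j hj => Finite.le_ciSup_of_le (⟨j, by omega⟩ : Fin (d + 1)) le_rfl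
      refine le_of_loc hT0 hg (by linarith) (fun v => ?_) fun v hv => ?_
      · refine ciSup_le fun i => ?_
        have hM0 : 0 ≤ ⨆ i : Fin (d + 1), v (g i) := (v.nonneg _).trans (hM v k hkd)
        fin_cases i
        · exact root_loc v hkd g x hgk hroot hd1 (sum_arch v hkd) (hM v)
        · exact (hM v k hkd).trans (le_mul_of_one_le_left hM0 hd1)
      · refine ciSup_le fun i => ?_
        fin_cases i
        · have h2 := root_loc v hkd g x hgk hroot le_rfl (sum_nonarch hv) (hM v)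
          rwa [one_mul] at h2
        · exact hM v k hkd
    have hT1 : (![g k * x, g k] : Fin 2 → N) = (g k * (y 1)⁻¹) • y := by
      funext i
      fin_cases i
      · show g k * x = g k * (y 1)⁻¹ * y 0
        rw [hx]
        ring
      · show g k = g k * (y 1)⁻¹ * y 1
        field_simp
    rw [hT1, mulHeight_smul_eq_mulHeight _ (mul_ne_zero hgk (inv_ne_zero h1))] at hle
    have h5 := Real.log_le_log (mulHeight_pos y) hle
    rw [Real.log_mul (by positivity) (mulHeight_ne_zero _), Real.log_pow] at h5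
    exact h5

end loc

open MvPolynomial NumberField Pool.DynLehmer Pool.DynLehmer.GS Pool.DynLehmer.GS.FibA

/-- One half of the comparison. -/
theorem half (K : Type) [Field K] [NumberField K] (d₁ d₂ : ℕ)
    (G : MvPolynomial (Fin 2 ⊕ Fin 2) K) (hG : BiHom d₁ d₂ G) (hirr : Irreducible G)
    (h1 : 1 ≤ d₁) (h2 : 1 ≤ d₂) : ∃ B : ℝ, 0 ≤ B ∧
    ∀ (N : Type) [Field N] [NumberField N] [Algebra K N] (P P' : Fin 2 → N), P ≠ 0 → P' ≠ 0 →
      GS.ev P P' G = 0 →
      Height.logHeight P' / (Module.finrank ℚ N : ℝ) ≤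
        d₁ * (Height.logHeight P / (Module.finrank ℚ N : ℝ)) + B := by
  obtain ⟨C, hC, hup⟩ := height_upper
    (fun j : Fin (d₂ + 1) => (gj d₁ d₂ G j).homogenize d₁) d₁
    fun j => Polynomial.isHomogeneous_homogenize _
  have hlog : 0 ≤ Real.log ((d₂ : ℝ) + 1) := by
    refine Real.log_nonneg ?_
    have : (0 : ℝ) ≤ d₂ := Nat.cast_nonneg _
    linarith
  refine ⟨C + Real.log ((d₂ : ℝ) + 1), by linarith, ?_⟩
  intro N _ _ _ P P' hP hP' hev
  have hn : (0 : ℝ) < Module.finrank ℚ N := by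
    exact_mod_cast (Module.finrank_pos : 0 < Module.finrank ℚ N)
  have hne : (fun j : Fin (d₂ + 1) => aeval P ((gj d₁ d₂ G j).homogenize d₁)) ≠ 0 := by
    intro h
    refine hP_ne hG hirr h1 h2 P hP ?_
    rw [FibA.hP]
    refine Finset.sum_eq_zero fun j hj => ?_
    have h3 : aeval P ((gj d₁ d₂ G j).homogenize d₁) = 0 :=
      congrFun h ⟨j, Finset.mem_range.1 hj⟩
    rw [h3, Polynomial.monomial_zero_right]
  rw [ev_decomp hG] at hev
  have h3 := root_height d₂ (fun j => aeval P ((gj d₁ d₂ G j).homogenize d₁)) hne P' hev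
  rw [totalWeight_eq_finrank] at h3
  have h4 := hup N P
  have h5 : Height.logHeight P' ≤ d₁ * Height.logHeight P +
      (C + Real.log ((d₂ : ℝ) + 1)) * Module.finrank ℚ N := by
    refine h3.trans ?_
    refine (add_le_add_right h4 _).trans (le_of_eq ?_)
    ring
  rw [div_le_iff₀ hn]
  calc Height.logHeight P' ≤ d₁ * Height.logHeight P +
        (C + Real.log ((d₂ : ℝ) + 1)) * Module.finrank ℚ N := h5
    _ = _ := by
        field_simp

end Hcmp

open MvPolynomial NumberField Pool.DynLehmer Pool.DynLehmer.GS in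
/-- Row HCMP. -/
theorem hcmp : HcmpStatement := by
  intro K _ _ d₁ d₂ G hG hirr h1 h2
  obtain ⟨B₁, hB₁, hb₁⟩ := Hcmp.half K d₁ d₂ G hG hirr h1 h2
  obtain ⟨B₂, hB₂, hb₂⟩ := Hcmp.half K d₂ d₁ (rename Sum.swap G) (Bas.biHom_swap hG)
    (Bas.irreducible_swap hirr) h2 h1
  have hd₁ : (1 : ℝ) ≤ d₁ := by exact_mod_cast h1
  have hd₂ : (1 : ℝ) ≤ d₂ := by exact_mod_cast h2
  refine ⟨(d₁ : ℝ) + d₂, B₁ + B₂, by linarith, by linarith, ?_⟩
  intro N _ _ _ P P' hP hP' hev
  have hn : (0 : ℝ) ≤ Module.finrank ℚ N := Nat.cast_nonneg _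
  have p1 : 0 ≤ Height.logHeight P / (Module.finrank ℚ N : ℝ) :=
    div_nonneg (Height.logHeight_nonneg _) hn
  have p2 : 0 ≤ Height.logHeight P' / (Module.finrank ℚ N : ℝ) :=
    div_nonneg (Height.logHeight_nonneg _) hn
  constructor
  · have h3 := hb₁ N P P' hP hP' hev
    nlinarith
  · have h3 := hb₂ N P' P hP' hP (by rw [Bas.ev_swap]; exact hev)
    nlinarith

end Pool.DynLehmer.LP
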