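import Mathlib
import Pool.Agent.Lib.MP_2194ec_nt.LP.Defs

set_option autoImplicit false

/-!
# The embeddings of a field are equidistributed over the conjugates of a point
-/

namespace Pool.DynLehmer.LP
open MvPolynomial NumberField Pool.DynLehmer
open scoped Classical

namespace HomcAux

section count

variable {G Ω P : Type} [Group G] [Fintype G] [MulAction G P] [MulAction G Ω] [Fintype Ω]

/-- equivariant maps from a transitive set to an orbit -/
theorem count_fib (f : Ω → P) (hf : ∀ (g : G) (ψ : Ω), f (g • ψ) = g • f ψ) (ψ0 : Ω)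
    (htr : ∀ ψ : Ω, ∃ g : G, ψ = g • ψ0) (bad : P → Prop) :
    (orb G (f ψ0)).card * (Finset.univ.filter fun ψ => bad (f ψ)).card =
      Fintype.card Ω * ((orb G (f ψ0)).filter bad).card := by
  set O := orb G (f ψ0) with hO
  set c := (Finset.univ.filter fun ψ => f ψ = f ψ0).card with hc
  have hmem : ∀ ψ, f ψ ∈ O := by
    intro ψ
    obtain ⟨g, rfl⟩ := htr ψ
    rw [hf]
    exact smul_mem_orb g _
  have hfib : ∀ Q ∈ O, (Finset.univ.filter fun ψ => f ψ = Q).card = c := by
    intro Q hQ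
    obtain ⟨g, rfl⟩ := mem_orb.1 hQ
    symm
    rw [hc]
    refine Finset.card_bij (fun ψ _ => g • ψ) ?_ ?_ ?_
    · intro ψ hψ
      rw [Finset.mem_filter] at hψ ⊢
      exact ⟨Finset.mem_univ _, by rw [hf, hψ.2]⟩
    · intro ψ _ ψ' _ h
      exact smul_left_cancel g h
    · intro ψ hψ
      rw [Finset.mem_filter] at hψ
      refine ⟨g⁻¹ • ψ, ?_, smul_inv_smul g ψ⟩
      rw [Finset.mem_filter]
      exact ⟨Finset.mem_univ _, by rw [hf, hψ.2, inv_smul_smul]⟩
  have h1 : (Finset.univ.filter fun ψ => bad (f ψ)).card = (O.filter bad).card * c := by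
    rw [Finset.card_eq_sum_card_fiberwise (f := f) (t := O.filter bad)]
    · rw [Finset.sum_congr rfl fun Q hQ => ?_, Finset.sum_const, smul_eq_mul]
      rw [← hfib Q (Finset.mem_filter.1 hQ).1]
      congr 1
      ext ψ
      simp only [Finset.mem_filter, Finset.mem_univ, true_and]
      constructor
      · exact fun h => h.2
      · rintro rfl
        exact ⟨(Finset.mem_filter.1 hQ).2, rfl⟩
    · intro ψ hψ
      rw [Finset.mem_coe, Finset.mem_filter] at hψ ⊢
      exact ⟨hmem ψ, hψ.2⟩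
  have h2 : Fintype.card Ω = O.card * c := by
    rw [← Finset.card_univ, Finset.card_eq_sum_card_fiberwise (f := f) (t := O)]
    · rw [Finset.sum_congr rfl fun Q hQ => hfib Q hQ, Finset.sum_const, smul_eq_mul]
    · intro ψ _
      exact hmem ψ
  rw [h1, h2]
  ring

end count

section pairs

variable {K N L : Type} [Field K] [Field N] [Algebra K N] [Field L] [Algebra K L]

/-- any two embeddings are conjugate -/
theorem exists_conj [IsGalois K N] (φ ψ : L →ₐ[K] N) : ∃ g : N ≃ₐ[K] N, ∀ a, ψ a = g (φ a) := by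
  let _ : Algebra L N := φ.toRingHom.toAlgebra
  have hst : IsScalarTower K L N := IsScalarTower.of_algebraMap_eq fun x => (φ.commutes x).symm
  have hn : Normal K N := inferInstance
  set χ : N →ₐ[K] N := ψ.liftNormal N with hχ
  have hb : Function.Bijective χ := Algebra.IsAlgebraic.algHom_bijective χ
  refine ⟨AlgEquiv.ofBijective χ hb, fun a => ?_⟩
  exact (ψ.liftNormal_commutes N a).symm

/-- the conjugate of a normalized point -/
theorem gal_nz (g : N ≃ₐ[K] N) {z : Fin 2 → N} (hz : z ≠ 0) :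
    g • nz z = nz fun i => g (z i) := by
  obtain ⟨c, hc, h1⟩ := nz_spec hz
  have h2 : (fun i => g (z i)) = g c • (g • nz z).val := by
    funext i
    have h3 := congrFun h1 i
    simp only [Pi.smul_apply, smul_eq_mul] at h3 ⊢
    rw [h3, map_mul]
    rfl
  rw [h2, nz_smul (by simpa using hc) _ (Pt.ne_zero _), nz_val]

/-- a nonzero vector has a nonzero image -/
theorem emb_ne (ψ : L →ₐ[K] N) {y : Fin 2 → L} (hy : y ≠ 0) : (fun i => ψ (y i)) ≠ 0 := by
  intro h0
  apply hy
  funext i
  have := congrFun h0 i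
  simpa using this

end pairs

end HomcAux

open HomcAux in
/-- **HOMC** -/
theorem homc : HomcStatement := by
  intro K _ _ N _ _ _ _ L _ _ _ φ₀ y hy
  have hfd : FiniteDimensional K N := Module.Finite.of_restrictScalars_finite ℚ K N
  have hfdL : FiniteDimensional K L := Module.Finite.of_restrictScalars_finite ℚ K L
  let _ : MulAction (N ≃ₐ[K] N) (L →ₐ[K] N) :=
    { smul := fun g ψ => (g : N →ₐ[K] N).comp ψ
      one_smul := fun ψ => by ext a; rfl
      mul_smul := fun g h ψ => by ext a; rfl }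
  have hsm : ∀ (g : N ≃ₐ[K] N) (ψ : L →ₐ[K] N) (a : L), (g • ψ) a = g (ψ a) :=
    fun _ _ _ => rfl
  have hcomm : ∀ (g : N ≃ₐ[K] N) (ψ : L →ₐ[K] N),
      (nz fun i => (g • ψ) (y i)) = g • nz fun i => ψ (y i) := by
    intro g ψ
    rw [gal_nz g (emb_ne ψ hy)]
    rfl
  have htr : ∀ ψ : L →ₐ[K] N, ∃ g : N ≃ₐ[K] N, ψ = g • φ₀ := by
    intro ψ
    obtain ⟨g, hg⟩ := exists_conj (K := K) φ₀ ψ
    exact ⟨g, by ext a; rw [hsm, hg]⟩
  refine ⟨?_, ?_, ?_⟩
  · intro φ
    obtain ⟨g, rfl⟩ := htr φ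
    rw [hcomm]
    exact smul_mem_orb g _
  · rw [Nat.card_eq_fintype_card]
    refine AlgHom.card_of_splits K L N fun x => ?_
    rw [(minpoly.algHom_eq φ₀ φ₀.toRingHom.injective x).symm]
    exact Normal.splits inferInstance _
  · intro bad
    have h1 := count_fib (G := N ≃ₐ[K] N) (fun ψ : L →ₐ[K] N => nz fun i => ψ (y i)) hcomm φ₀ htr
      bad
    have h2 : Nat.card {φ : L →ₐ[K] N // bad (nz fun i => φ (y i))} =
        (Finset.univ.filter fun ψ : L →ₐ[K] N => bad (nz fun i => ψ (y i))).card := by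
      rw [Nat.card_eq_fintype_card, Fintype.card_subtype]
    rw [h2, Nat.card_eq_fintype_card, mul_comm, ← h1]
    rfl

end Pool.DynLehmer.LP
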