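import Mathlib
import Pool.Agent.Lib.MP_2194ec_nt.SepE0
import Pool.Agent.Lib.MP_2194ec_nt.LP.Homc

set_option autoImplicit false

/-!
# Inertia orbits of a pair of points and ramification
-/

namespace Pool.DynLehmer.LP
open MvPolynomial NumberField Pool.DynLehmer
open scoped Classical

namespace RamjAux

variable {K : Type} [Field K] {N : Type} [Field N] [NumberField N] [Algebra K N]

/-- an element of the inertia group moves a point inside its residue disc -/
theorem dw_inert {w : FinitePlace N} {g : N ≃ₐ[K] N} (hg : g ∈ inert K w) {z : Fin 2 → N}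
    (hz : z ≠ 0) : dw w (fun i => g (z i)) z < 1 := by
  obtain ⟨c, zh, hc, -, hzz, i, hi⟩ := exists_prim w hz
  obtain ⟨hg1, hg2⟩ := hg
  set zh' : Fin 2 → OW w := fun j => ⟨g (zh j : N), by
    rw [mem_OW, hg1]; exact (zh j).2⟩ with hzh'
  have hi' : zh' i = 1 := by
    ext
    change g (zh i : N) = _
    rw [hi]
    simp
  have h1 : (fun i => g (z i)) = g c • fun j => (zh' j : N) := by
    funext j
    have h2 := congrFun hzz j
    simp only [Pi.smul_apply, smul_eq_mul] at h2 ⊢
    rw [h2, map_mul]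
  have hgc : g c ≠ 0 := by simpa using hc
  rw [h1]
  conv_lhs => rw [hzz]
  rw [dw_smul w hgc hc, dw_prim hi' hi]
  have h3 : ∀ j, w ((zh' j : N) - (zh j : N)) < 1 := fun j => hg2 _ (zh j).2
  have h4 : ((br zh' zh : OW w) : N) = ((zh' 0 : N) - (zh 0 : N)) * (zh 1 : N) +
      (-(((zh' 1 : N) - (zh 1 : N)) * (zh 0 : N))) := by
    simp only [br]
    push_cast
    ring
  rw [h4]
  refine (FinitePlace.add_le w _ _).trans_lt (max_lt ?_ ?_)
  · rw [map_mul]
    exact mul_lt_one_of_nonneg_of_lt_one_left (apply_nonneg w _) (h3 0) (zh 1).2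
  · rw [map_neg_eq_map, map_mul]
    exact mul_lt_one_of_nonneg_of_lt_one_left (apply_nonneg w _) (h3 1) (zh 0).2

/-- the orbit of a point under the inertia group -/
theorem relIndex_le [FiniteDimensional K N] (w : FinitePlace N) (P : Pt N) :
    (MulAction.stabilizer (N ≃ₐ[K] N) P).relIndex (inert K w) ≤ disc K w P := by
  have h1 : (MulAction.stabilizer (N ≃ₐ[K] N) P).subgroupOf (inert K w) =
      MulAction.stabilizer (inert K w) P := by
    ext g
    rw [Subgroup.mem_subgroupOf, MulAction.mem_stabilizer_iff, MulAction.mem_stabilizer_iff]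
    rfl
  rw [Subgroup.relIndex, h1, MulAction.index_stabilizer]
  unfold disc
  rw [← Set.ncard_coe_finset]
  refine Set.ncard_le_ncard ?_ (Finset.finite_toSet _)
  rintro _ ⟨g, rfl⟩
  rw [Finset.mem_coe, Finset.mem_filter]
  exact ⟨smul_mem_orb (g : N ≃ₐ[K] N) P, dw_inert g.2 P.ne_zero⟩

end RamjAux

open RamjAux HomcAux in
/-- **RAMJ** -/
theorem ramj : RamjStatement := by
  intro K _ _ N _ _ _ _ v w e h u hunif L _ _ _ y y' hy hy' hadj φ X X' E hX hX' hE a ha
  have hfd : FiniteDimensional K N := Module.Finite.of_restrictScalars_finite ℚ K N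
  have hid : ∀ (u : FinitePlace K) (e₁ : ℕ), Above v u e₁ →
      ¬ (v.maximalIdeal.asIdeal.map (algebraMap (𝓞 K) (𝓞 K)) ≤
        u.maximalIdeal.asIdeal ^ (1 + 1)) := by
    intro u e₁ hu hle
    have h1 : u.maximalIdeal.asIdeal = v.maximalIdeal.asIdeal := by
      rw [← above_under hu]
      rfl
    rw [h1, Algebra.algebraMap_self, Ideal.map_id] at hle
    have hpr := v.maximalIdeal.isPrime
    have h2 := Ideal.pow_succ_lt_pow v.maximalIdeal.ne_bot 1
    rw [pow_one] at h2
    exact absurd (hle.trans_lt h2) (lt_irrefl _)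
  have hJ2 := (inert_data (M := K) h hunif (fun u e₁ _ hu _ => hid u e₁ hu)).1
  set P : Pt N := nz fun i => φ (y i) with hP
  set P' : Pt N := nz fun i => φ (y' i) with hP'
  set H := MulAction.stabilizer (N ≃ₐ[K] N) P ⊓ MulAction.stabilizer (N ≃ₐ[K] N) P' with hH
  have hJ2' : ∀ a, (∀ g ∈ inert K w, g a = a) → w a < 1 →
      (w a) ^ 1 ≤ w (algebraMap K N u) := fun a ha hwa => hJ2 a (fun g hg => ha g hg.2) hwa
  -- the ratio of the coordinates is fixed
  have hratio : ∀ (z : Fin 2 → L), z ≠ 0 → ∀ g : N ≃ₐ[K] N,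
      g • (nz fun i => φ (z i)) = (nz fun i => φ (z i)) → g (φ (z 0 / z 1)) = φ (z 0 / z 1) := by
    intro z hz g hg
    rw [gal_nz g (emb_ne φ hz)] at hg
    have hgne : (fun i => g (φ (z i))) ≠ 0 := by
      intro h0
      apply emb_ne φ hz
      funext i
      have := congrFun h0 i
      simpa using this
    obtain ⟨c, hc, h1⟩ := (nz_eq_iff hgne (emb_ne φ hz)).1 hg
    have h2 := congrFun h1 0
    have h3 := congrFun h1 1
    simp only [Pi.smul_apply, smul_eq_mul] at h2 h3
    rw [map_div₀, map_div₀, h2, h3, mul_div_mul_left _ _ hc]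
  -- the stabilizer of the pair fixes the field
  have hgen : ∀ g : N ≃ₐ[K] N, g • P = P → g • P' = P' → g (φ a) = φ a := by
    intro g hg hg'
    have h1 : (a : L) ∈ IntermediateField.adjoin K ({y 0 / y 1, y' 0 / y' 1} : Set L) := by
      rw [hadj]; trivial
    have h2 : IntermediateField.adjoin K ({y 0 / y 1, y' 0 / y' 1} : Set L) ≤
        (AlgHom.equalizer ((g : N →ₐ[K] N).comp φ) φ).toIntermediateField (by
          intro x hx
          rw [AlgHom.mem_equalizer] at hx ⊢
          rw [map_inv₀, map_inv₀, hx]) := by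
      rw [IntermediateField.adjoin_le_iff]
      rintro x (rfl | hx)
      · exact hratio y hy g hg
      · rw [Set.mem_singleton_iff] at hx
        subst hx
        exact hratio y' hy' g hg'
    exact h2 h1
  have h1 := orbit_bound (J := inert K w) (fun g hg => hg.1) hJ2' H (a := φ a) (by
    rintro g ⟨_, hg⟩
    exact hgen g hg.1 hg.2) ha
  rw [mul_one] at h1
  refine le_trans (pow_le_pow_of_le_one (apply_nonneg w _) ha.le ?_) h1
  refine le_trans Subgroup.relIndex_inf_le (le_trans (Nat.mul_le_mul ?_ ?_) hE)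
  · exact (relIndex_le w P).trans hX
  · exact (relIndex_le w P').trans hX'

end Pool.DynLehmer.LP
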