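import Pool.Agent.Lib.MP_2194ec_nt.LP.DefsW
import Pool.Agent.Lib.MP_2194ec_nt.LP.Ramj

set_option autoImplicit false

/-!
# Row IEW: two points in one residue disc are close, in terms of their inertia orbits
-/

namespace Pool.DynLehmer.LP
open MvPolynomial NumberField Pool.DynLehmer
open scoped Classical

namespace IewAux

variable {N : Type} [Field N] [NumberField N]

/-- the point with affine coordinate `a`, in one of the two charts -/
def pv (i : Fin 2) (a : N) : Fin 2 → N := fun k => if k = i then 1 else a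

theorem pv_ne (i : Fin 2) (a : N) : pv i a ≠ 0 := by
  intro h
  have := congrFun h i
  simp [pv] at this

theorem nrm_pv (w : FinitePlace N) (i : Fin 2) {a : N} (ha : w a ≤ 1) : nrm w (pv i a) = 1 := by
  apply le_antisymm
  · rw [nrm_eq]
    refine max_le ?_ ?_ <;>
    · unfold pv
      split_ifs
      · rw [map_one]
      · exact ha
  · have := le_nrm w (pv i a) i
    simpa [pv] using this

theorem w_br_pv (w : FinitePlace N) (i : Fin 2) (a : N) (z : Fin 2 → N) :
    w (br z (pv i a)) = w (z i * a - z (1 - i)) := by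
  fin_cases i
  · simp [br, pv]
  · simp only [br, pv]
    rw [← map_neg_eq_map]
    simp

/-- the distance to a point in the chart -/
theorem dw_pv (w : FinitePlace N) {z : Fin 2 → N} (hz : z ≠ 0) {i : Fin 2} {a : N} (ha : w a ≤ 1)
    (h : dw w z (pv i a) < 1) :
    z i ≠ 0 ∧ dw w z (pv i a) = w (z (1 - i) / z i - a) := by
  have hpos := nrm_pos w hz
  have h1 : dw w z (pv i a) = w (z i * a - z (1 - i)) / nrm w z := by
    unfold dw
    rw [nrm_pv w i ha, mul_one, w_br_pv]
  have h2 : w (z i * a) ≤ w (z i) := by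
    rw [map_mul]
    exact mul_le_of_le_one_right (apply_nonneg w _) ha
  have hnrm : nrm w z = max (w (z i)) (w (z (1 - i))) := by
    rw [nrm_eq]
    fin_cases i
    · rfl
    · exact max_comm _ _
  have h3 : w (z (1 - i)) ≤ w (z i) := by
    by_contra hcon
    push Not at hcon
    have h4 : nrm w z = w (z (1 - i)) := by rw [hnrm, max_eq_right hcon.le]
    have h5 : w (z (1 - i)) ≤ w (z i * a - z (1 - i)) := by
      have h6 : z (1 - i) = z i * a + -(z i * a - z (1 - i)) := by ring
      have h7 : w (z (1 - i)) ≤ max (w (z i * a)) (w (-(z i * a - z (1 - i)))) := by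
        conv_lhs => rw [h6]
        exact FinitePlace.add_le w _ _
      rw [map_neg_eq_map] at h7
      rcases le_max_iff.1 h7 with h8 | h8
      · exact absurd (h8.trans h2) (not_le.2 hcon)
      · exact h8
    rw [h1, div_lt_one hpos, h4] at h
    exact absurd h (not_lt.2 h5)
  have h4 : nrm w z = w (z i) := by rw [hnrm, max_eq_left h3]
  have h5 : z i ≠ 0 := by
    rw [← FinitePlace.pos_iff (w := w), ← h4]
    exact hpos
  refine ⟨h5, ?_⟩
  rw [h1, h4, ← map_div₀, ← map_neg_eq_map]
  congr 1
  field_simp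
  ring

end IewAux

open RamjAux IewAux in
/-- **IEW** -/
theorem iew : IewStatement := by
  intro K _ _ N _ _ _ _ v w e h u hunif x y hxy
  have hfd : FiniteDimensional K N := Module.Finite.of_restrictScalars_finite ℚ K N
  have hid : ∀ (u : FinitePlace K) (e₁ : ℕ), Above v u e₁ →
      ¬ (v.maximalIdeal.asIdeal.map (algebraMap (𝓞 K) (𝓞 K)) ≤
        u.maximalIdeal.asIdeal ^ (1 + 1)) := by
    intro u e₁ hu hle
    have h1 : u.maximalIdeal.asIdeal = v.maximalIdeal.asIdeal := by
      rw [← above_under hu]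
      rfl
    rw [h1, Algebra.algebraMap_self, Ideal.map_id] at hle
    have hpr := v.maximalIdeal.isPrime
    have h2 := Ideal.pow_succ_lt_pow v.maximalIdeal.ne_bot 1
    rw [pow_one] at h2
    exact absurd (hle.trans_lt h2) (lt_irrefl _)
  obtain ⟨hJ2, hJ3⟩ := inert_data (M := K) h hunif (fun u e₁ _ hu _ => hid u e₁ hu)
  have hJ2' : ∀ a, (∀ g ∈ inert K w, g a = a) → w a < 1 →
      (w a) ^ 1 ≤ w (algebraMap K N u) := fun a ha hwa => hJ2 a (fun g hg => ha g hg.2) hwa
  -- the distance to a centre which is fixed by inertia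
  have key : ∀ (i : Fin 2) (a : N), (∀ g ∈ inert K w, g a = a) → w a ≤ 1 → ∀ P : Pt N,
      dw w P.val (pv i a) < 1 → (dw w P.val (pv i a)) ^ (ie K w P) ≤ w (algebraMap K N u) := by
    intro i a hfix ha P hP
    obtain ⟨-, h1⟩ := dw_pv w P.ne_zero ha hP
    rw [h1] at hP ⊢
    have h2 := orbit_bound (J := inert K w) (fun g hg => hg.1) hJ2'
      (MulAction.stabilizer (N ≃ₐ[K] N) P) (a := P.val (1 - i) / P.val i - a) (by
        rintro g ⟨hg1, hg2⟩
        have h3 : ∀ k, g (P.val k) = P.val k := fun k =>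
          congrFun (congrArg Pt.val (MulAction.mem_stabilizer_iff.1 hg2)) k
        rw [map_sub, map_div₀, h3, h3, hfix g hg1]) hP
    rwa [mul_one] at h2
  -- a centre
  obtain ⟨c, zh, hc, -, hzz, i, hi⟩ := exists_prim w x.ne_zero
  obtain ⟨a, ha1, ha2, ha3⟩ := hJ3 (zh (1 - i) : N) (zh (1 - i)).2
  have hfix : ∀ g ∈ inert K w, g a = a := by
    intro g hg
    refine ha1 g ⟨?_, hg⟩
    exact fun b => g.commutes b
  have hx : dw w x.val (pv i a) < 1 := by
    have h1 : (fun j => (zh j : N)) = pv i (zh (1 - i) : N) := by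
      funext k
      unfold pv
      split_ifs with hk
      · rw [hk, hi]
        rfl
      · have : k = 1 - i := by omega
        rw [this]
    rw [hzz, h1]
    have h2 := dw_smul w hc one_ne_zero (z := pv i (zh (1 - i) : N)) (z' := pv i a)
    rw [one_smul] at h2
    rw [h2]
    unfold dw
    rw [nrm_pv w i (zh (1 - i)).2, nrm_pv w i ha2, w_br_pv, mul_one, div_one, ← map_neg_eq_map]
    have h3 : -(pv i (zh (1 - i) : N) i * a - pv i (zh (1 - i) : N) (1 - i)) =
        (zh (1 - i) : N) - a := by
      have h4 : (1 : Fin 2) - i ≠ i := by omega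
      simp [pv, h4]
    rw [h3]
    exact ha3
  have hy : dw w y.val (pv i a) < 1 :=
    (dw_ultra w y.ne_zero x.ne_zero (pv_ne i a)).trans_lt (max_lt hxy hx)
  have hkx := key i a hfix ha2 x hx
  have hky := key i a hfix ha2 y hy
  have hultra : dw w y.val x.val ≤ max (dw w y.val (pv i a)) (dw w x.val (pv i a)) := by
    have := dw_ultra w y.ne_zero (pv_ne i a) x.ne_zero
    rwa [dw_symm w (pv i a) x.val] at this
  rcases le_max_iff.1 hultra with h1 | h1
  · calc (dw w y.val x.val) ^ (max (ie K w y) (ie K w x))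
        ≤ (dw w y.val (pv i a)) ^ (max (ie K w y) (ie K w x)) :=
          pow_le_pow_left₀ (dw_nonneg w _ _) h1 _
      _ ≤ (dw w y.val (pv i a)) ^ (ie K w y) :=
          pow_le_pow_of_le_one (dw_nonneg w _ _) hy.le (le_max_left _ _)
      _ ≤ _ := hky
  · calc (dw w y.val x.val) ^ (max (ie K w y) (ie K w x))
        ≤ (dw w x.val (pv i a)) ^ (max (ie K w y) (ie K w x)) :=
          pow_le_pow_left₀ (dw_nonneg w _ _) h1 _
      _ ≤ (dw w x.val (pv i a)) ^ (ie K w x) :=
          pow_le_pow_of_le_one (dw_nonneg w _ _) hx.le (le_max_right _ _)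
      _ ≤ _ := hkx

end Pool.DynLehmer.LP
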