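import Mathlib
import Pool.Agent.Lib.MP_2194ec_nt.LP.Defs

set_option autoImplicit false

/-!
# Row LEVEL: a level at which most residue discs contain few conjugates
-/

namespace Pool.DynLehmer.LP
open Filter Topology Finset Pool.DynLehmer
open scoped Classical

section

variable {q m : ℕ} {C Λ : ℝ} {P G ι : Type} [Group G] [Fintype G] [MulAction G P] [Fintype ι]
variable (S : EData q m C Λ P G ι)

/-- the number of conjugates in the residue disc -/
noncomputable def nn (w : ι) (O : Finset P) (y : P) : ℕ :=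
  (O.filter fun y' => y' = y ∨ 0 < S.E w y' y).card

theorem rr_le_nn {x y : P} (k : ℕ) (w : ι) (hy : y ∈ orb G x) :
    S.rr x k * nn S w (orb G (S.f^[k] x)) (S.f^[k] y) ≤ nn S w (orb G x) y := by
  unfold nn
  set I := (orb G (S.f^[k] x)).filter fun z' => z' = S.f^[k] y ∨ 0 < S.E w z' (S.f^[k] y) with hI
  have h1 : ((orb G x).filter fun y' => S.f^[k] y' ∈ I).card = S.rr x k * I.card := by
    have h2 := S.sum_fib x k (fun z => if z ∈ I then (1 : ℝ) else 0)
    rw [← S.orb_iter] at h2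
    have h3 : ∑ y' ∈ orb G x, (if S.f^[k] y' ∈ I then (1 : ℝ) else 0) =
        (((orb G x).filter fun y' => S.f^[k] y' ∈ I).card : ℝ) := by
      rw [Finset.sum_boole]
    have h4 : ∑ z ∈ orb G (S.f^[k] x), (if z ∈ I then (1 : ℝ) else 0) = (I.card : ℝ) := by
      rw [Finset.sum_boole]
      congr 2
      ext z
      rw [Finset.mem_filter, hI, Finset.mem_filter]
      tauto
    rw [h3, h4] at h2
    exact_mod_cast h2
  rw [← h1]
  refine Finset.card_le_card fun y' hy' => ?_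
  rw [Finset.mem_filter] at hy' ⊢
  refine ⟨hy'.1, ?_⟩
  have h5 := (Finset.mem_filter.1 hy'.2).2
  exact S.near_iter w k _ _ h5

theorem local_low (hq : 2 ≤ q) {x : P} (k : ℕ) (w : ι) {y : P} (hy : y ∈ orb G x) :
    min ((q : ℝ) ^ k) (nn S w (orb G x) y) - S.rr x k ≤
      ∑ y'' ∈ orb G x, S.E w (S.f^[k] y'') (S.f^[k] y) := by
  have hq2 : (2 : ℝ) ≤ q := by exact_mod_cast hq
  have horb : orb G y = orb G x := orb_eq_of_mem hy
  set near := (orb G x).filter fun y'' => y'' = y ∨ 0 < S.E w y'' y with hnear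
  set cls := (orb G x).filter fun y'' => S.f^[k] y'' = S.f^[k] y with hcls
  have hclscard : cls.card = S.rr x k := S.rr_eq k hy
  have hnn : nn S w (orb G x) y = near.card := rfl
  rw [hnn]
  set M := near.card with hM
  have hMpos : 0 < M := Finset.card_pos.2 ⟨y, Finset.mem_filter.2 ⟨hy, Or.inl rfl⟩⟩
  have hM0 : (0 : ℝ) < M := by exact_mod_cast hMpos
  have hsub : cls ⊆ near := by
    intro y'' h
    rw [Finset.mem_filter] at h ⊢
    exact ⟨h.1, S.near_iter w k _ _ (Or.inl h.2)⟩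
  have hdisc : ∀ y'' ∈ near, y'' ≠ y → 1 ≤ (M : ℝ) * S.E w y'' y := by
    intro y'' h1 h2
    rw [Finset.mem_filter] at h1
    have h3 : 0 < S.E w y'' y := h1.2.resolve_left h2
    have := S.disc w y y'' (by rw [horb]; exact h1.1) h2 h3
    rw [horb] at this
    exact this
  have h3 : ∀ y'' ∈ near \ cls, min ((q : ℝ) ^ k * (1 / M)) 1 ≤ S.E w (S.f^[k] y'') (S.f^[k] y) := by
    intro y'' h
    rw [Finset.mem_sdiff] at h
    have h4 : S.f^[k] y'' ≠ S.f^[k] y := by
      intro h5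
      exact h.2 (Finset.mem_filter.2 ⟨(Finset.mem_filter.1 h.1).1, h5⟩)
    have h5 : y'' ≠ y := fun h => h4 (by rw [h])
    refine S.grow_min hq w k _ _ _ ?_ h4
    rw [div_le_iff₀ hM0, mul_comm]
    exact hdisc y'' h.1 h5
  have h4 : ((M : ℝ) - S.rr x k) * min ((q : ℝ) ^ k * (1 / M)) 1 ≤
      ∑ y'' ∈ orb G x, S.E w (S.f^[k] y'') (S.f^[k] y) := by
    calc ((M : ℝ) - S.rr x k) * min ((q : ℝ) ^ k * (1 / M)) 1
        = ∑ y'' ∈ near \ cls, min ((q : ℝ) ^ k * (1 / M)) 1 := by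
          rw [Finset.sum_const, Finset.card_sdiff_of_subset hsub, nsmul_eq_mul, hclscard]
          rw [Nat.cast_sub (by rw [← hclscard]; exact Finset.card_le_card hsub)]
      _ ≤ ∑ y'' ∈ near \ cls, S.E w (S.f^[k] y'') (S.f^[k] y) := Finset.sum_le_sum h3
      _ ≤ _ := Finset.sum_le_sum_of_subset_of_nonneg
          (fun a ha => (Finset.mem_filter.1 (Finset.mem_sdiff.1 ha).1).1)
          fun _ _ _ => S.E_nonneg _ _ _
  refine le_trans ?_ h4
  have hr0 : (0 : ℝ) ≤ S.rr x k := Nat.cast_nonneg _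
  have hqk : (0 : ℝ) < (q : ℝ) ^ k := by positivity
  rcases le_total ((q : ℝ) ^ k * (1 / M)) 1 with h5 | h5
  · rw [min_eq_left h5]
    have h6 : ((M : ℝ) - S.rr x k) * ((q : ℝ) ^ k * (1 / M)) =
        (q : ℝ) ^ k - S.rr x k * ((q : ℝ) ^ k * (1 / M)) := by field_simp
    rw [h6]
    have h7 : min ((q : ℝ) ^ k) (M : ℝ) ≤ (q : ℝ) ^ k := min_le_left _ _
    nlinarith
  · rw [min_eq_right h5]
    have h7 : min ((q : ℝ) ^ k) (M : ℝ) ≤ M := min_le_right _ _
    linarith

theorem sum_low (hq : 2 ≤ q) {x : P} (k : ℕ) :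
    ∑ w, S.lam w * ∑ y ∈ orb G x, (min ((q : ℝ) ^ k) (nn S w (orb G x) y) - S.rr x k) ≤
      (S.rr x k : ℝ) ^ 2 * ∑ w, S.lam w * ∑ z ∈ (orb G x).image (S.f^[k]),
        ∑ z' ∈ (orb G x).image (S.f^[k]), S.E w z z' := by
  set O := orb G x with hO
  have hloc : ∀ w, ∑ y ∈ O, (min ((q : ℝ) ^ k) (nn S w O y) - S.rr x k) ≤
      (S.rr x k : ℝ) ^ 2 * ∑ z ∈ O.image (S.f^[k]), ∑ z' ∈ O.image (S.f^[k]), S.E w z z' := by
    intro w
    calc ∑ y ∈ O, (min ((q : ℝ) ^ k) (nn S w O y) - S.rr x k)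
        ≤ ∑ y ∈ O, ∑ y'' ∈ O, S.E w (S.f^[k] y'') (S.f^[k] y) :=
          Finset.sum_le_sum fun y hy => local_low S hq k w hy
      _ = ∑ y'' ∈ O, ∑ y ∈ O, S.E w (S.f^[k] y'') (S.f^[k] y) := Finset.sum_comm
      _ = ∑ y'' ∈ O, (S.rr x k : ℝ) * ∑ z' ∈ O.image (S.f^[k]), S.E w (S.f^[k] y'') z' := by
          refine Finset.sum_congr rfl fun y'' _ => ?_
          exact S.sum_fib x k (fun z => S.E w (S.f^[k] y'') z)
      _ = _ := by
          rw [← Finset.mul_sum]
          rw [S.sum_fib x k (fun z => ∑ z' ∈ O.image (S.f^[k]), S.E w z z')]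
          ring
  calc ∑ w, S.lam w * ∑ y ∈ O, (min ((q : ℝ) ^ k) (nn S w O y) - S.rr x k)
      ≤ ∑ w, S.lam w * ((S.rr x k : ℝ) ^ 2 * ∑ z ∈ O.image (S.f^[k]),
          ∑ z' ∈ O.image (S.f^[k]), S.E w z z') :=
        Finset.sum_le_sum fun w _ => mul_le_mul_of_nonneg_left (hloc w) (S.lam_nonneg w)
    _ = _ := by
        rw [Finset.mul_sum]
        exact Finset.sum_congr rfl fun w _ => by ring

/-- the main inequality -/
theorem high (hq : 2 ≤ q) (hΛ : 0 < Λ) {x : P} (hx : Function.Injective fun n : ℕ => S.f^[n] x)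
    {k : ℕ} (hk : q ≤ k + 1) {ρ T B0 : ℝ} (hB0 : 0 < B0)
    (hT : (q : ℝ) ^ k ≤ T * S.rr x k)
    (hk0 : B0 * (1 + Real.log (S.DD x k)) * S.rr x k ≤ (q : ℝ) ^ k)
    (hhigh : ρ * Λ * (S.DD x k : ℝ) ≤ ∑ w, S.lam w * (((orb G (S.f^[k] x)).filter fun z =>
      T ≤ (nn S w (orb G (S.f^[k] x)) z : ℝ)).card : ℝ)) :
    ρ * Λ - (Λ + (2 + 4 * ((q : ℝ) - 1) * C) * q * (1 + Real.log q)) / B0 ≤
      2 * (q : ℝ) ^ 2 * (((orb G x).card : ℝ) * S.hhat hq x) := by
  have hq2 : (2 : ℝ) ≤ q := by exact_mod_cast hq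
  have hq0 : (0 : ℝ) < q := by linarith
  have hlogq : 0 ≤ Real.log q := Real.log_nonneg (by linarith)
  have hC := S.C_nonneg x
  set D0 : ℝ := ((orb G x).card : ℝ) with hD0
  set rr : ℝ := (S.rr x k : ℝ) with hrr
  set DD : ℝ := (S.DD x k : ℝ) with hDD
  have hrr1 : 1 ≤ rr := by rw [hrr]; exact_mod_cast S.rr_pos x k
  have hDD1 : 1 ≤ DD := by rw [hDD]; exact_mod_cast S.DD_pos x k
  have hD0e : D0 = rr * DD := S.card_eq x k
  have hD0pos : 0 < D0 := by rw [hD0e]; positivity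
  have hlogD : 0 ≤ Real.log DD := Real.log_nonneg hDD1
  set Q : ℝ := (q : ℝ) ^ k with hQ
  have hQ0 : 0 < Q := by positivity
  have hhat0 := S.hhat_nonneg hq x
  -- the lower bound
  have h1 : ∀ w, rr * (Q * (((orb G (S.f^[k] x)).filter fun z =>
      T ≤ (nn S w (orb G (S.f^[k] x)) z : ℝ)).card : ℝ)) - D0 * rr ≤
      ∑ y ∈ orb G x, (min Q (nn S w (orb G x) y) - rr) := by
    intro w
    have h2 := S.sum_fib x k (fun z => if T ≤ (nn S w (orb G (S.f^[k] x)) z : ℝ) then Q else 0)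
    rw [← S.orb_iter] at h2
    have h3 : ∑ z ∈ orb G (S.f^[k] x), (if T ≤ (nn S w (orb G (S.f^[k] x)) z : ℝ) then Q else 0) =
        Q * (((orb G (S.f^[k] x)).filter fun z =>
          T ≤ (nn S w (orb G (S.f^[k] x)) z : ℝ)).card : ℝ) := by
      rw [← Finset.sum_filter, Finset.sum_const, nsmul_eq_mul, mul_comm]
    rw [h3] at h2
    rw [← h2, Finset.sum_sub_distrib, Finset.sum_const, nsmul_eq_mul, ← hD0]
    refine sub_le_sub_right (Finset.sum_le_sum fun y hy => ?_) _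
    split_ifs with h4
    · refine le_min le_rfl ?_
      have h5 := rr_le_nn S k w hy
      have h6 : rr * (nn S w (orb G (S.f^[k] x)) (S.f^[k] y) : ℝ) ≤ nn S w (orb G x) y := by
        rw [hrr]; exact_mod_cast h5
      have h7 : T * rr ≤ rr * (nn S w (orb G (S.f^[k] x)) (S.f^[k] y) : ℝ) := by nlinarith
      linarith
    · exact le_min hQ0.le (Nat.cast_nonneg _)
  have h2 : rr * (Q * (ρ * Λ * DD)) - Λ * (D0 * rr) ≤
      ∑ w, S.lam w * ∑ y ∈ orb G x, (min Q (nn S w (orb G x) y) - rr) := by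
    calc rr * (Q * (ρ * Λ * DD)) - Λ * (D0 * rr)
        ≤ rr * (Q * ∑ w, S.lam w * (((orb G (S.f^[k] x)).filter fun z =>
          T ≤ (nn S w (orb G (S.f^[k] x)) z : ℝ)).card : ℝ)) - Λ * (D0 * rr) := by gcongr
      _ = ∑ w, S.lam w * (rr * (Q * (((orb G (S.f^[k] x)).filter fun z =>
          T ≤ (nn S w (orb G (S.f^[k] x)) z : ℝ)).card : ℝ)) - D0 * rr) := by
          simp_rw [mul_sub]
          rw [Finset.sum_sub_distrib, ← Finset.sum_mul, S.sum_lam, Finset.mul_sum, Finset.mul_sum]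
          congr 1
          exact Finset.sum_congr rfl fun w _ => by ring
      _ ≤ _ := Finset.sum_le_sum fun w _ => mul_le_mul_of_nonneg_left (h1 w) (S.lam_nonneg w)
  have h3 := h2.trans ((sum_low S hq (x := x) k).trans
    (mul_le_mul_of_nonneg_left (S.drop_upper hq hx k hk) (by positivity)))
  set C1 : ℝ := 2 + 4 * ((q : ℝ) - 1) * C with hC1
  have hC10 : 0 ≤ C1 := by
    have : 0 ≤ ((q : ℝ) - 1) * C := mul_nonneg (by linarith) hC
    rw [hC1]; linarith
  have h4 : rr ^ 2 * (2 * (((q : ℝ) * DD) ^ 2 * (Q * S.hhat hq x)) +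
      C1 * (((q : ℝ) * DD) * Real.log ((q : ℝ) * DD))) =
      2 * (q : ℝ) ^ 2 * D0 ^ 2 * Q * S.hhat hq x +
      C1 * q * D0 * rr * Real.log ((q : ℝ) * DD) := by
    rw [hD0e]; ring
  have h5 : Real.log ((q : ℝ) * DD) ≤ (1 + Real.log q) * (1 + Real.log DD) := by
    rw [Real.log_mul hq0.ne' (by positivity)]
    nlinarith [mul_nonneg hlogq hlogD]
  have h6 : rr * (1 + Real.log DD) ≤ Q / B0 := by
    rw [le_div_iff₀ hB0]
    linarith
  have h7 : C1 * q * D0 * rr * Real.log ((q : ℝ) * DD) ≤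
      D0 * Q * (C1 * q * (1 + Real.log q) / B0) := by
    calc C1 * q * D0 * rr * Real.log ((q : ℝ) * DD)
        ≤ C1 * q * D0 * rr * ((1 + Real.log q) * (1 + Real.log DD)) := by
          apply mul_le_mul_of_nonneg_left h5 (by positivity)
      _ = C1 * q * D0 * (1 + Real.log q) * (rr * (1 + Real.log DD)) := by ring
      _ ≤ C1 * q * D0 * (1 + Real.log q) * (Q / B0) := by
          apply mul_le_mul_of_nonneg_left h6 (by positivity)
      _ = _ := by ring
  have h8 : Λ * (D0 * rr) ≤ D0 * Q * (Λ / B0) := by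
    have h9 : rr ≤ Q / B0 := le_trans (by nlinarith) h6
    calc Λ * (D0 * rr) ≤ Λ * (D0 * (Q / B0)) := by gcongr
      _ = _ := by ring
  have h10 : D0 * Q * (ρ * Λ - (Λ + C1 * q * (1 + Real.log q)) / B0) ≤
      D0 * Q * (2 * (q : ℝ) ^ 2 * (D0 * S.hhat hq x)) := by
    have h11 : rr * (Q * (ρ * Λ * DD)) = D0 * Q * (ρ * Λ) := by rw [hD0e]; ring
    calc D0 * Q * (ρ * Λ - (Λ + C1 * q * (1 + Real.log q)) / B0)
        = rr * (Q * (ρ * Λ * DD)) - D0 * Q * (Λ / B0) -
          D0 * Q * (C1 * q * (1 + Real.log q) / B0) := by rw [h11]; ring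
      _ ≤ 2 * (q : ℝ) ^ 2 * D0 ^ 2 * Q * S.hhat hq x := by linarith
      _ = _ := by ring
  exact le_of_mul_le_mul_left h10 (by positivity)

theorem rr_mono (x : P) {a b : ℕ} (hab : a ≤ b) : S.rr x a ≤ S.rr x b := by
  obtain ⟨c, rfl⟩ := Nat.exists_eq_add_of_le hab
  unfold EData.rr
  refine Finset.card_le_card fun y hy => ?_
  rw [Finset.mem_filter] at hy ⊢
  refine ⟨hy.1, ?_⟩
  rw [add_comm, Function.iterate_add_apply, Function.iterate_add_apply, hy.2]

theorem DD_fib (hfib : ∀ (Z : Finset P) (z : P), (∀ y ∈ Z, S.f y = z) → Z.card ≤ q) (x : P)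
    (k : ℕ) : S.DD x k ≤ q * S.DD x (k + 1) := by
  unfold EData.DD
  have h1 : (orb G x).image (S.f^[k + 1]) = ((orb G x).image (S.f^[k])).image S.f := by
    rw [Finset.image_image, Function.iterate_succ']
  rw [h1]
  refine Finset.card_le_mul_card_image _ q fun b _ => ?_
  exact hfib _ b fun y hy => (Finset.mem_filter.1 hy).2

end

theorem level : LevelStatement := by
  intro q m C Λ ρ hq hC hΛ hρ
  have hq2 : (2 : ℝ) ≤ q := by exact_mod_cast hq
  have hq0 : (0 : ℝ) < q := by linarith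
  have hlogq : 0 ≤ Real.log q := Real.log_nonneg (by linarith)
  set C1 : ℝ := 2 + 4 * ((q : ℝ) - 1) * C with hC1
  have hC10 : 0 ≤ C1 := by
    have : 0 ≤ ((q : ℝ) - 1) * C := mul_nonneg (by linarith) hC
    rw [hC1]; linarith
  set X : ℝ := Λ + C1 * q * (1 + Real.log q) with hX
  have hX0 : 0 < X := by
    have : 0 ≤ C1 * q * (1 + Real.log q) := by positivity
    rw [hX]; linarith
  set B0 : ℝ := 2 * X / (ρ * Λ) with hB0
  have hB00 : 0 < B0 := by positivity
  set B : ℝ := (q : ℝ) ^ q + q * B0 * (1 + Real.log q) with hB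
  have hqq : (1 : ℝ) ≤ (q : ℝ) ^ q := one_le_pow₀ (by linarith)
  have hB1 : 1 ≤ B := by
    have : 0 ≤ q * B0 * (1 + Real.log q) := by positivity
    rw [hB]; linarith
  refine ⟨B, ρ * Λ / (4 * (q : ℝ) ^ 2), hB1, by positivity, ?_⟩
  intro P G ι _ _ _ _ S hq' hfib x hx
  -- the level
  have hex : ∃ k : ℕ, q ≤ k + 1 ∧ B0 * (1 + Real.log (S.DD x k)) * S.rr x k ≤ (q : ℝ) ^ k := by
    obtain ⟨k, hk⟩ := pow_unbounded_of_one_lt
      (B0 * (1 + Real.log ((orb G x).card : ℝ)) * ((orb G x).card : ℝ))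
      (show (1 : ℝ) < q by linarith)
    refine ⟨max k q, by omega, ?_⟩
    have h1 : (q : ℝ) ^ k ≤ (q : ℝ) ^ (max k q) :=
      pow_le_pow_right₀ (by linarith) (le_max_left _ _)
    have h2 := S.card_eq' x (max k q)
    have h3 : S.rr x (max k q) ≤ (orb G x).card := by
      rw [h2]; exact Nat.le_mul_of_pos_right _ (S.DD_pos x _)
    have h4 : S.DD x (max k q) ≤ (orb G x).card := by
      rw [h2]; exact Nat.le_mul_of_pos_left _ (S.rr_pos x _)
    have h5 : (1 : ℝ) ≤ S.DD x (max k q) := by exact_mod_cast S.DD_pos x _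
    have h6 : Real.log (S.DD x (max k q)) ≤ Real.log ((orb G x).card : ℝ) :=
      Real.log_le_log (by linarith) (by exact_mod_cast h4)
    have h7 : 0 ≤ Real.log (S.DD x (max k q)) := Real.log_nonneg h5
    refine le_trans ?_ (hk.le.trans h1)
    have h8 : (S.rr x (max k q) : ℝ) ≤ (orb G x).card := by exact_mod_cast h3
    gcongr
  obtain ⟨hk1, hk2⟩ := Nat.find_spec hex
  set k := Nat.find hex with hkdef
  have hmin : ∀ {j}, j < k → ¬ _ := fun {j} hj => Nat.find_min hex hj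
  have hDDe : (orb G (S.f^[k] x)).card = S.DD x k := by rw [S.orb_iter]; rfl
  have hDD1 : (1 : ℝ) ≤ S.DD x k := by exact_mod_cast S.DD_pos x k
  have hrr1 : (1 : ℝ) ≤ S.rr x k := by exact_mod_cast S.rr_pos x k
  have hlogD : 0 ≤ Real.log (S.DD x k) := Real.log_nonneg hDD1
  have hup : (q : ℝ) ^ k ≤ B * (1 + Real.log (S.DD x k)) * S.rr x k := by
    have hle1 : 1 ≤ (1 + Real.log (S.DD x k)) * S.rr x k :=
      one_le_mul_of_one_le_of_one_le (by linarith) hrr1
    rcases Nat.lt_or_ge k q with h | h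
    · have h1 : (q : ℝ) ^ k ≤ (q : ℝ) ^ q := pow_le_pow_right₀ (by linarith) h.le
      have h2 : (q : ℝ) ^ q ≤ B := by
        have : 0 ≤ q * B0 * (1 + Real.log q) := by positivity
        rw [hB]; linarith
      have h3 : B * 1 ≤ B * ((1 + Real.log (S.DD x k)) * S.rr x k) :=
        mul_le_mul_of_nonneg_left hle1 (by linarith)
      calc (q : ℝ) ^ k ≤ B * 1 := by linarith
        _ ≤ _ := h3
        _ = _ := by ring
    · obtain ⟨j, hj⟩ : ∃ j, k = j + 1 := ⟨k - 1, by omega⟩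
      have h1 := hmin (show j < k by omega)
      push Not at h1
      have h2 := h1 (by omega)
      have h3 := DD_fib S hfib x j
      rw [← hj] at h3
      have h4 : (S.DD x j : ℝ) ≤ q * S.DD x k := by exact_mod_cast h3
      have h5 : (1 : ℝ) ≤ S.DD x j := by exact_mod_cast S.DD_pos x j
      have h6 : Real.log (S.DD x j) ≤ Real.log q + Real.log (S.DD x k) := by
        rw [← Real.log_mul hq0.ne' (by linarith)]
        exact Real.log_le_log (by linarith) h4
      have h7 : (S.rr x j : ℝ) ≤ S.rr x k := by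
        exact_mod_cast rr_mono S x (show j ≤ k by omega)
      have h8 : 1 + Real.log (S.DD x j) ≤ (1 + Real.log q) * (1 + Real.log (S.DD x k)) := by
        nlinarith [mul_nonneg hlogq hlogD]
      have h9 : 0 ≤ Real.log (S.DD x j) := Real.log_nonneg h5
      have h10 : B0 * (1 + Real.log (S.DD x j)) * S.rr x j ≤
          B0 * ((1 + Real.log q) * (1 + Real.log (S.DD x k))) * S.rr x k := by gcongr
      calc (q : ℝ) ^ k = q * (q : ℝ) ^ j := by rw [hj, pow_succ]; ring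
        _ ≤ q * (B0 * ((1 + Real.log q) * (1 + Real.log (S.DD x k))) * S.rr x k) := by
            apply mul_le_mul_of_nonneg_left _ hq0.le
            linarith
        _ = (q * B0 * (1 + Real.log q)) * ((1 + Real.log (S.DD x k)) * S.rr x k) := by ring
        _ ≤ B * ((1 + Real.log (S.DD x k)) * S.rr x k) := by
            apply mul_le_mul_of_nonneg_right _ (by positivity)
            rw [hB]; linarith
        _ = _ := by ring
  by_cases hlow : ∑ w, S.lam w * (((orb G (S.f^[k] x)).filter fun z =>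
      B * (1 + Real.log ((orb G (S.f^[k] x)).card)) ≤
        (((orb G (S.f^[k] x)).filter fun z' => z' = z ∨ 0 < S.E w z' z).card : ℝ)).card : ℝ)
      ≤ ρ * Λ * ((orb G (S.f^[k] x)).card : ℝ)
  · right
    refine ⟨k, ?_, hlow⟩
    rw [hDDe]
    have h1 := S.card_eq x k
    rw [h1]
    have h2 := mul_le_mul_of_nonneg_right hup (by linarith : (0 : ℝ) ≤ S.DD x k)
    calc (q : ℝ) ^ k * (S.DD x k : ℝ) ≤ _ := h2
      _ = _ := by ring
  · left
    push Not at hlow
    have h1 := high S hq' hΛ hx hk1 (ρ := ρ) (T := B * (1 + Real.log (S.DD x k))) hB00 hup hk2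
      (by rw [hDDe] at hlow; exact hlow.le)
    have h2 : X / B0 = ρ * Λ / 2 := by
      rw [hB0]; field_simp
    rw [← hX, h2] at h1
    rw [div_le_iff₀ (by positivity)]
    linarith

end Pool.DynLehmer.LP
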