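import Pool.Agent.Lib.MP_2194ec_nt.LP.DefsW
import Pool.Agent.Lib.MP_2194ec_nt.LP.Level

set_option autoImplicit false

/-!
# Row LEVELW: at the level of row LEVEL, `ie` is almost always large
-/

namespace Pool.DynLehmer.LP
open Filter Topology Finset Pool.DynLehmer
open scoped Classical

section

variable {q m : ℕ} {C Λ : ℝ} {P G ι : Type} [Group G] [Fintype G] [MulAction G P] [Fintype ι]
variable (S : EData q m C Λ P G ι)

/-- the fibres of the iterates -/
theorem fib_iter (hfib : ∀ (Z : Finset P) (z : P), (∀ y ∈ Z, S.f y = z) → Z.card ≤ q) (j : ℕ) :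
    ∀ (Z : Finset P) (z : P), (∀ y ∈ Z, S.f^[j] y = z) → Z.card ≤ q ^ j := by
  induction j with
  | zero =>
    intro Z z h
    rw [pow_zero]
    refine Finset.card_le_one.2 fun a ha b hb => ?_
    have h1 := h a ha
    have h2 := h b hb
    simp only [Function.iterate_zero, id] at h1 h2
    rw [h1, h2]
  | succ j ih =>
    intro Z z h
    have h1 : (Z.image S.f).card ≤ q ^ j := by
      refine ih (Z.image S.f) z fun y hy => ?_
      obtain ⟨y', hy', rfl⟩ := Finset.mem_image.1 hy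
      have := h y' hy'
      rwa [Function.iterate_succ_apply] at this
    have h2 : Z.card ≤ q * (Z.image S.f).card :=
      Finset.card_le_mul_card_image _ q fun b _ => hfib _ b fun y hy => (Finset.mem_filter.1 hy).2
    calc Z.card ≤ q * (Z.image S.f).card := h2
      _ ≤ q * q ^ j := Nat.mul_le_mul_left q h1
      _ = q ^ (j + 1) := by rw [pow_succ, mul_comm]

theorem rr_le_pow (hfib : ∀ (Z : Finset P) (z : P), (∀ y ∈ Z, S.f y = z) → Z.card ≤ q) (x : P)
    (j : ℕ) : S.rr x j ≤ q ^ j := by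
  unfold EData.rr
  exact fib_iter S hfib j _ (S.f^[j] x) fun y hy => (Finset.mem_filter.1 hy).2

theorem DD_fib_iter (hfib : ∀ (Z : Finset P) (z : P), (∀ y ∈ Z, S.f y = z) → Z.card ≤ q) (x : P)
    (j d : ℕ) : S.DD x j ≤ q ^ d * S.DD x (j + d) := by
  induction d with
  | zero => simp
  | succ d ih =>
    calc S.DD x j ≤ q ^ d * S.DD x (j + d) := ih
      _ ≤ q ^ d * (q * S.DD x (j + d + 1)) := Nat.mul_le_mul_left _ (DD_fib S hfib x (j + d))
      _ = q ^ (d + 1) * S.DD x (j + (d + 1)) := by rw [pow_succ, mul_assoc, add_assoc]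

/-- pairs of points with small `ie` in the fibres of `f^k` have energy at the level `j` -/
theorem ie_low (hq : 2 ≤ q) (ie : ι → P → ℕ)
    (hieE : ∀ w x y, y ∈ orb G x → y ≠ x → 0 < S.E w y x →
      1 ≤ (max (ie w y) (ie w x) : ℕ) * S.E w y x)
    {x : P} (k j : ℕ) (w : ι) {A : Finset P} (hA : A ⊆ orb G x)
    (hAi : ∀ y ∈ A, (ie w y : ℝ) ≤ (q : ℝ) ^ j) :
    (A.card : ℝ) ^ 2 / S.DD x k - A.card * S.rr x j ≤
      ∑ y ∈ orb G x, ∑ y'' ∈ orb G x, S.E w (S.f^[j] y'') (S.f^[j] y) := by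
  have hq0 : (0 : ℝ) < q := by positivity
  have hqj : (0 : ℝ) < (q : ℝ) ^ j := by positivity
  set g : P → ℕ := fun z => (A.filter fun y => S.f^[k] y = z).card with hg
  -- one point
  have hone : ∀ y ∈ A, ((g (S.f^[k] y) : ℕ) : ℝ) - S.rr x j ≤
      ∑ y'' ∈ orb G x, S.E w (S.f^[j] y'') (S.f^[j] y) := by
    intro y hy
    have hyo := hA hy
    have horb : orb G y = orb G x := orb_eq_of_mem hyo
    set near := A.filter fun y'' => S.f^[k] y'' = S.f^[k] y with hnear
    set cls := (orb G x).filter fun y'' => S.f^[j] y'' = S.f^[j] y with hcls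
    have hclscard : cls.card = S.rr x j := S.rr_eq j hyo
    have h3 : ∀ y'' ∈ near \ cls, 1 ≤ S.E w (S.f^[j] y'') (S.f^[j] y) := by
      intro y'' h
      rw [Finset.mem_sdiff] at h
      obtain ⟨h1, h2⟩ := h
      obtain ⟨h1a, h1b⟩ := Finset.mem_filter.1 h1
      have h4 : S.f^[j] y'' ≠ S.f^[j] y := by
        intro h5
        exact h2 (Finset.mem_filter.2 ⟨hA h1a, h5⟩)
      have h5 : y'' ≠ y := fun h => h4 (by rw [h])
      have h6 : 0 < S.E w y'' y := (S.near_iter w k _ _ (Or.inl h1b)).resolve_left h5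
      have h7 := hieE w y y'' (by rw [horb]; exact hA h1a) h5 h6
      have h8 : ((max (ie w y'') (ie w y) : ℕ) : ℝ) ≤ (q : ℝ) ^ j := by
        rw [Nat.cast_max]
        exact max_le (hAi y'' h1a) (hAi y hy)
      have h9 : 1 / (q : ℝ) ^ j ≤ S.E w y'' y := by
        rw [div_le_iff₀ hqj, mul_comm]
        exact h7.trans (mul_le_mul_of_nonneg_right h8 h6.le)
      have h10 := S.grow_min hq w j _ _ _ h9 h4
      rwa [mul_one_div_cancel hqj.ne', min_self] at h10
    have h4 : ((near \ cls).card : ℝ) ≤ ∑ y'' ∈ orb G x, S.E w (S.f^[j] y'') (S.f^[j] y) := by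
      calc ((near \ cls).card : ℝ) = ∑ y'' ∈ near \ cls, (1 : ℝ) := by
            rw [Finset.sum_const, nsmul_eq_mul, mul_one]
        _ ≤ ∑ y'' ∈ near \ cls, S.E w (S.f^[j] y'') (S.f^[j] y) := Finset.sum_le_sum h3
        _ ≤ _ := Finset.sum_le_sum_of_subset_of_nonneg
            (fun a ha => hA (Finset.mem_filter.1 (Finset.mem_sdiff.1 ha).1).1)
            fun _ _ _ => S.E_nonneg _ _ _
    have h5 : near.card ≤ (near \ cls).card + cls.card := Finset.card_le_card_sdiff_add_card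
    rw [hclscard] at h5
    have h6 : (near.card : ℝ) ≤ (near \ cls).card + S.rr x j := by exact_mod_cast h5
    have h7 : g (S.f^[k] y) = near.card := rfl
    rw [h7]
    linarith
  -- Cauchy - Schwarz over the fibres
  have hcs : (A.card : ℝ) ^ 2 / S.DD x k ≤ ∑ y ∈ A, ((g (S.f^[k] y) : ℕ) : ℝ) := by
    have hDD : (0 : ℝ) < S.DD x k := by exact_mod_cast S.DD_pos x k
    rw [div_le_iff₀ hDD]
    have h1 : ∑ y ∈ A, ((g (S.f^[k] y) : ℕ) : ℝ) =
        ∑ z ∈ A.image (S.f^[k]), ((g z : ℕ) : ℝ) ^ 2 := by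
      rw [Finset.sum_comp (fun z => ((g z : ℕ) : ℝ)) (S.f^[k])]
      refine Finset.sum_congr rfl fun z _ => ?_
      rw [nsmul_eq_mul, sq]
    have h2 : (A.card : ℝ) = ∑ z ∈ A.image (S.f^[k]), ((g z : ℕ) : ℝ) := by
      have := Finset.card_eq_sum_card_image (S.f^[k]) A
      rw [this]
      push_cast
      rfl
    have h3 := sq_sum_le_card_mul_sum_sq (s := A.image (S.f^[k])) (f := fun z => ((g z : ℕ) : ℝ))
    have h4 : ((A.image (S.f^[k])).card : ℝ) ≤ S.DD x k := by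
      have : (A.image (S.f^[k])).card ≤ S.DD x k :=
        Finset.card_le_card (Finset.image_subset_image hA)
      exact_mod_cast this
    rw [h1, h2, mul_comm]
    exact h3.trans (mul_le_mul_of_nonneg_right h4 (Finset.sum_nonneg fun _ _ => by positivity))
  calc (A.card : ℝ) ^ 2 / S.DD x k - A.card * S.rr x j
      ≤ ∑ y ∈ A, ((g (S.f^[k] y) : ℕ) : ℝ) - A.card * S.rr x j := sub_le_sub_right hcs _
    _ = ∑ y ∈ A, (((g (S.f^[k] y) : ℕ) : ℝ) - S.rr x j) := by
        rw [Finset.sum_sub_distrib, Finset.sum_const, nsmul_eq_mul]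
    _ ≤ ∑ y ∈ A, ∑ y'' ∈ orb G x, S.E w (S.f^[j] y'') (S.f^[j] y) := Finset.sum_le_sum hone
    _ ≤ _ := Finset.sum_le_sum_of_subset_of_nonneg hA
        fun _ _ _ => Finset.sum_nonneg fun _ _ => S.E_nonneg _ _ _

/-- the main inequality -/
theorem ie_high (hq : 2 ≤ q) (hΛ : 0 < Λ)
    (hfib : ∀ (Z : Finset P) (z : P), (∀ y ∈ Z, S.f y = z) → Z.card ≤ q)
    (ie : ι → P → ℕ)
    (hieE : ∀ w x y, y ∈ orb G x → y ≠ x → 0 < S.E w y x →
      1 ≤ (max (ie w y) (ie w x) : ℕ) * S.E w y x)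
    {x : P} (hx : Function.Injective fun n : ℕ => S.f^[n] x) {k j : ℕ} (hj : q ≤ j + 1)
    {ρ : ℝ} (hρ : 0 < ρ) (A : ι → Finset P) (hA : ∀ w, A w ⊆ orb G x)
    (hAi : ∀ w, ∀ y ∈ A w, (ie w y : ℝ) ≤ (q : ℝ) ^ j)
    (hbig : ρ * Λ * (orb G x).card ≤ ∑ w, S.lam w * ((A w).card : ℝ)) :
    ρ ^ 2 * Λ * (S.rr x k / (q : ℝ) ^ j) - (Λ + (2 + 4 * ((q : ℝ) - 1) * C) * q *
      Real.log ((q : ℝ) * S.DD x j)) ≤ 2 * (q : ℝ) ^ 2 * (((orb G x).card : ℝ) * S.hhat hq x) := by
  have hq2 : (2 : ℝ) ≤ q := by exact_mod_cast hq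
  have hq0 : (0 : ℝ) < q := by linarith
  have hC := S.C_nonneg x
  set D0 : ℝ := ((orb G x).card : ℝ) with hD0
  set rj : ℝ := (S.rr x j : ℝ) with hrj
  set Dj : ℝ := (S.DD x j : ℝ) with hDj
  set rk : ℝ := (S.rr x k : ℝ) with hrk
  set Dk : ℝ := (S.DD x k : ℝ) with hDk
  have hrj1 : 1 ≤ rj := by rw [hrj]; exact_mod_cast S.rr_pos x j
  have hDj1 : 1 ≤ Dj := by rw [hDj]; exact_mod_cast S.DD_pos x j
  have hDk1 : 1 ≤ Dk := by rw [hDk]; exact_mod_cast S.DD_pos x k
  have hrk1 : 1 ≤ rk := by rw [hrk]; exact_mod_cast S.rr_pos x k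
  have hD0j : D0 = rj * Dj := S.card_eq x j
  have hD0k : D0 = rk * Dk := S.card_eq x k
  have hD0pos : 0 < D0 := by rw [hD0j]; positivity
  set Q : ℝ := (q : ℝ) ^ j with hQ
  have hQ0 : 0 < Q := by positivity
  have hrjQ : rj ≤ Q := by
    rw [hrj, hQ]
    exact_mod_cast rr_le_pow S hfib x j
  set C1 : ℝ := 2 + 4 * ((q : ℝ) - 1) * C with hC1
  have hC10 : 0 ≤ C1 := by
    have : 0 ≤ ((q : ℝ) - 1) * C := mul_nonneg (by linarith) hC
    rw [hC1]; linarith
  have hhat0 := S.hhat_nonneg hq x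
  have hlog : 0 ≤ Real.log ((q : ℝ) * Dj) := Real.log_nonneg (by nlinarith)
  -- the energy at the level `j`
  have hen : ∀ w, ∑ y ∈ orb G x, ∑ y'' ∈ orb G x, S.E w (S.f^[j] y'') (S.f^[j] y) =
      rj ^ 2 * ∑ z ∈ (orb G x).image (S.f^[j]), ∑ z' ∈ (orb G x).image (S.f^[j]), S.E w z z' := by
    intro w
    calc ∑ y ∈ orb G x, ∑ y'' ∈ orb G x, S.E w (S.f^[j] y'') (S.f^[j] y)
        = ∑ y'' ∈ orb G x, ∑ y ∈ orb G x, S.E w (S.f^[j] y'') (S.f^[j] y) := Finset.sum_comm
      _ = ∑ y'' ∈ orb G x, (S.rr x j : ℝ) *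
            ∑ z' ∈ (orb G x).image (S.f^[j]), S.E w (S.f^[j] y'') z' := by
          refine Finset.sum_congr rfl fun y'' _ => ?_
          exact S.sum_fib x j (fun z => S.E w (S.f^[j] y'') z)
      _ = _ := by
          rw [← Finset.mul_sum]
          rw [S.sum_fib x j (fun z => ∑ z' ∈ (orb G x).image (S.f^[j]), S.E w z z')]
          rw [hrj]
          ring
  -- the lower bound
  have hlo : ρ ^ 2 * Λ * D0 ^ 2 / Dk - Λ * D0 * rj ≤ ∑ w, S.lam w *
      ∑ y ∈ orb G x, ∑ y'' ∈ orb G x, S.E w (S.f^[j] y'') (S.f^[j] y) := by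
    have h1 : ∀ w, (2 * (ρ * D0) * ((A w).card : ℝ) - (ρ * D0) ^ 2) / Dk - D0 * rj ≤
        ∑ y ∈ orb G x, ∑ y'' ∈ orb G x, S.E w (S.f^[j] y'') (S.f^[j] y) := by
      intro w
      refine le_trans ?_ (ie_low S hq ie hieE k j w (hA w) (hAi w))
      have h2 : ((A w).card : ℝ) ≤ D0 := by
        rw [hD0]
        exact_mod_cast Finset.card_le_card (hA w)
      have h3 : ((A w).card : ℝ) * rj ≤ D0 * rj := by gcongr
      have h4 : (2 * (ρ * D0) * ((A w).card : ℝ) - (ρ * D0) ^ 2) / Dk ≤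
          ((A w).card : ℝ) ^ 2 / Dk := by
        apply div_le_div_of_nonneg_right _ (by linarith)
        nlinarith [sq_nonneg (((A w).card : ℝ) - ρ * D0)]
      linarith
    calc ρ ^ 2 * Λ * D0 ^ 2 / Dk - Λ * D0 * rj
        = (2 * (ρ * D0) * (ρ * Λ * D0) - (ρ * D0) ^ 2 * Λ) / Dk - Λ * (D0 * rj) := by ring
      _ ≤ (2 * (ρ * D0) * (∑ w, S.lam w * ((A w).card : ℝ)) - (ρ * D0) ^ 2 * Λ) / Dk -
          Λ * (D0 * rj) := by gcongr
      _ = ∑ w, S.lam w * ((2 * (ρ * D0) * ((A w).card : ℝ) - (ρ * D0) ^ 2) / Dk - D0 * rj) := by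
          simp_rw [mul_sub, mul_div_assoc', mul_sub, sub_div]
          rw [Finset.sum_sub_distrib, Finset.sum_sub_distrib]
          have e1 : ∑ w, S.lam w * (D0 * rj) = Λ * (D0 * rj) := by
            rw [← Finset.sum_mul, S.sum_lam]
          have e2 : ∑ w, S.lam w * (ρ * D0) ^ 2 / Dk = (ρ * D0) ^ 2 * Λ / Dk := by
            rw [← Finset.sum_div, ← Finset.sum_mul, S.sum_lam, mul_comm]
          have e3 : ∑ w, S.lam w * (2 * (ρ * D0) * ((A w).card : ℝ)) / Dk =
              2 * (ρ * D0) * (∑ w, S.lam w * ((A w).card : ℝ)) / Dk := by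
            rw [← Finset.sum_div]
            congr 1
            rw [Finset.mul_sum]
            exact Finset.sum_congr rfl fun w _ => by ring
          rw [e1, e2, e3]
      _ ≤ _ := Finset.sum_le_sum fun w _ => mul_le_mul_of_nonneg_left (h1 w) (S.lam_nonneg w)
  -- the upper bound
  have hup : ∑ w, S.lam w *
      ∑ y ∈ orb G x, ∑ y'' ∈ orb G x, S.E w (S.f^[j] y'') (S.f^[j] y) ≤
      rj ^ 2 * (2 * (((q : ℝ) * Dj) ^ 2 * (Q * S.hhat hq x)) +
        C1 * (((q : ℝ) * Dj) * Real.log ((q : ℝ) * Dj))) := by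
    calc ∑ w, S.lam w * ∑ y ∈ orb G x, ∑ y'' ∈ orb G x, S.E w (S.f^[j] y'') (S.f^[j] y)
        = rj ^ 2 * ∑ w, S.lam w * ∑ z ∈ (orb G x).image (S.f^[j]),
            ∑ z' ∈ (orb G x).image (S.f^[j]), S.E w z z' := by
          rw [Finset.mul_sum]
          refine Finset.sum_congr rfl fun w _ => ?_
          rw [hen w]
          ring
      _ ≤ _ := mul_le_mul_of_nonneg_left (S.drop_upper hq hx j hj) (by positivity)
  have h4 : rj ^ 2 * (2 * (((q : ℝ) * Dj) ^ 2 * (Q * S.hhat hq x)) +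
      C1 * (((q : ℝ) * Dj) * Real.log ((q : ℝ) * Dj))) =
      2 * (q : ℝ) ^ 2 * D0 ^ 2 * Q * S.hhat hq x +
      C1 * q * D0 * rj * Real.log ((q : ℝ) * Dj) := by
    rw [hD0j]; ring
  have h5 : C1 * q * D0 * rj * Real.log ((q : ℝ) * Dj) ≤
      C1 * q * D0 * Q * Real.log ((q : ℝ) * Dj) := by gcongr
  have h6 : Λ * D0 * rj ≤ Λ * D0 * Q := by gcongr
  have h7 : ρ ^ 2 * Λ * D0 ^ 2 / Dk = D0 * Q * (ρ ^ 2 * Λ * (rk / Q)) := by
    have h8 : D0 / Dk = rk := by
      rw [hD0k]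
      field_simp
    calc ρ ^ 2 * Λ * D0 ^ 2 / Dk = ρ ^ 2 * Λ * D0 * (D0 / Dk) := by ring
      _ = ρ ^ 2 * Λ * D0 * rk := by rw [h8]
      _ = _ := by field_simp
  have h10 : D0 * Q * (ρ ^ 2 * Λ * (rk / Q) - (Λ + C1 * q * Real.log ((q : ℝ) * Dj))) ≤
      D0 * Q * (2 * (q : ℝ) ^ 2 * (D0 * S.hhat hq x)) := by
    have h11 := hlo.trans hup
    rw [h4, h7] at h11
    calc D0 * Q * (ρ ^ 2 * Λ * (rk / Q) - (Λ + C1 * q * Real.log ((q : ℝ) * Dj)))
        = D0 * Q * (ρ ^ 2 * Λ * (rk / Q)) - Λ * D0 * Q -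
          C1 * q * D0 * Q * Real.log ((q : ℝ) * Dj) := by ring
      _ ≤ 2 * (q : ℝ) ^ 2 * D0 ^ 2 * Q * S.hhat hq x := by linarith
      _ = _ := by ring
  exact le_of_mul_le_mul_left h10 (by positivity)

end

/-- a bound for the numerical constants -/
theorem exists_big {α γ δ M : ℝ} (hα : 0 < α) (hδ : 0 ≤ δ) :
    ∃ B : ℝ, M ≤ B ∧ 1 ≤ B ∧ γ + δ * Real.log B ≤ α * B := by
  have h1 := (Real.isLittleO_log_id_atTop.def (show 0 < α / (2 * (δ + 1)) by positivity))
  have h2 := ((h1.and (eventually_ge_atTop M)).and (eventually_ge_atTop (1 : ℝ))).and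
    (eventually_ge_atTop (2 * γ / α))
  obtain ⟨B, ⟨⟨hB1, hB2⟩, hB3⟩, hB4⟩ := h2.exists
  refine ⟨B, hB2, hB3, ?_⟩
  simp only [Real.norm_eq_abs, id] at hB1
  have h3 : Real.log B ≤ α / (2 * (δ + 1)) * B := by
    have h4 : |B| = B := abs_of_nonneg (by linarith)
    rw [h4] at hB1
    exact (le_abs_self _).trans hB1
  have h5 : δ * Real.log B ≤ α / 2 * B := by
    calc δ * Real.log B ≤ δ * (α / (2 * (δ + 1)) * B) := mul_le_mul_of_nonneg_left h3 hδ
      _ = (δ / (δ + 1)) * (α / 2 * B) := by field_simp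
      _ ≤ 1 * (α / 2 * B) := by
          apply mul_le_mul_of_nonneg_right _ (by positivity)
          rw [div_le_one (by linarith)]
          linarith
      _ = _ := one_mul _
  have h6 : γ ≤ α / 2 * B := by
    rw [div_le_iff₀ hα] at hB4
    linarith
  linarith

theorem levelw : LevelwStatement := by
  intro q m C Λ ρ hq hC hΛ hρ
  obtain ⟨B₁, c₁, hB₁, hc₁, hlev⟩ := level q m C Λ ρ hq hC hΛ hρ
  have hq2 : (2 : ℝ) ≤ q := by exact_mod_cast hq
  have hq0 : (0 : ℝ) < q := by linarith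
  have hlogq : 0 ≤ Real.log q := Real.log_nonneg (by linarith)
  set C1 : ℝ := 2 + 4 * ((q : ℝ) - 1) * C with hC1
  have hC10 : 0 ≤ C1 := by
    have : 0 ≤ ((q : ℝ) - 1) * C := mul_nonneg (by linarith) hC
    rw [hC1]; linarith
  have hqq : (1 : ℝ) ≤ (q : ℝ) ^ q := one_le_pow₀ (by linarith)
  set α : ℝ := ρ ^ 2 * Λ / (B₁ * (q : ℝ) ^ q) with hα
  have hα0 : 0 < α := by positivity
  obtain ⟨B, hBM, hB1, hBn⟩ := exists_big (α := α) (γ := Λ + C1 * q * (Real.log q + 3) + 1)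
    (δ := C1 * q) (M := max B₁ ((q : ℝ) ^ q)) hα0 (by positivity)
  have hBB₁ : B₁ ≤ B := (le_max_left _ _).trans hBM
  have hBqq : (q : ℝ) ^ q ≤ B := (le_max_right _ _).trans hBM
  refine ⟨B, min c₁ (1 / (2 * (q : ℝ) ^ 2)), hB1, lt_min hc₁ (by positivity), ?_⟩
  intro P G ι _ _ _ _ S hq' ie hie1 hieE hfib x hx
  rcases hlev P G ι S hq' hfib x hx with h | ⟨k, h1, h2⟩
  · exact Or.inl ((min_le_left _ _).trans h)
  have hDDe : (orb G (S.f^[k] x)).card = S.DD x k := by rw [S.orb_iter]; rfl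
  rw [hDDe] at h1 h2
  have hDD1 : (1 : ℝ) ≤ S.DD x k := by exact_mod_cast S.DD_pos x k
  have hrr1 : (1 : ℝ) ≤ S.rr x k := by exact_mod_cast S.rr_pos x k
  have hlogD : 0 ≤ Real.log (S.DD x k) := Real.log_nonneg hDD1
  have hcard := S.card_eq x k
  have hD0 : (0 : ℝ) < (orb G x).card := by rw [hcard]; positivity
  set L : ℝ := 1 + Real.log (S.DD x k) with hL
  have hL1 : 1 ≤ L := by rw [hL]; linarith
  have hL2 : 1 ≤ L ^ 2 := one_le_pow₀ hL1
  have hBL : B ≤ B * L ^ 2 := le_mul_of_one_le_right (by linarith) hL2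
  have hBL0 : 0 < B * L ^ 2 := by linarith
  by_cases h3 : ∑ w, S.lam w * (((orb G x).filter fun z =>
      B * L ^ 2 * (ie w z : ℝ) < (q : ℝ) ^ k).card : ℝ) ≤ ρ * Λ * ((orb G x).card : ℝ)
  · right
    refine ⟨k, ?_, ?_, ?_⟩
    · rw [hDDe]
      refine h1.trans ?_
      have : B₁ * L ≤ B * L := mul_le_mul_of_nonneg_right hBB₁ (by linarith)
      exact mul_le_mul_of_nonneg_right this hD0.le
    · rw [hDDe]
      refine le_trans (Finset.sum_le_sum fun w _ => mul_le_mul_of_nonneg_left ?_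
        (S.lam_nonneg w)) h2
      have h4 : ((orb G (S.f^[k] x)).filter fun z => B * L ≤
          (((orb G (S.f^[k] x)).filter fun z' => z' = z ∨ 0 < S.E w z' z).card : ℝ)) ⊆
          ((orb G (S.f^[k] x)).filter fun z => B₁ * L ≤
          (((orb G (S.f^[k] x)).filter fun z' => z' = z ∨ 0 < S.E w z' z).card : ℝ)) := by
        intro z hz
        rw [Finset.mem_filter] at hz ⊢
        exact ⟨hz.1, (mul_le_mul_of_nonneg_right hBB₁ (by linarith)).trans hz.2⟩
      exact_mod_cast Finset.card_le_card h4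
    · rw [hDDe]
      exact h3
  · left
    push Not at h3
    have hqk0 : (0 : ℝ) < (q : ℝ) ^ k := by positivity
    have hqk : B * L ^ 2 < (q : ℝ) ^ k := by
      by_contra hcon
      push Not at hcon
      have h4 : ∑ w, S.lam w * (((orb G x).filter fun z =>
          B * L ^ 2 * (ie w z : ℝ) < (q : ℝ) ^ k).card : ℝ) = 0 := by
        refine Finset.sum_eq_zero fun w _ => ?_
        have h5 : ((orb G x).filter fun z => B * L ^ 2 * (ie w z : ℝ) < (q : ℝ) ^ k) = ∅ := by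
          refine Finset.filter_eq_empty_iff.2 fun z _ => ?_
          have h6 : (1 : ℝ) ≤ ie w z := by exact_mod_cast hie1 w z
          have h7 : B * L ^ 2 ≤ B * L ^ 2 * (ie w z : ℝ) := le_mul_of_one_le_right hBL0.le h6
          linarith
        rw [h5, Finset.card_empty, Nat.cast_zero, mul_zero]
      rw [h4] at h3
      have : 0 < ρ * Λ * ((orb G x).card : ℝ) := by positivity
      linarith
    have hk1 : q ≤ k + 1 := by
      by_contra hcon
      have h4 : (q : ℝ) ^ k ≤ (q : ℝ) ^ q := pow_le_pow_right₀ (by linarith) (by omega)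
      linarith
    have hex : ∃ j : ℕ, (q : ℝ) ^ k ≤ (q : ℝ) ^ j * (B * L ^ 2) ∧ q ≤ j + 1 :=
      ⟨k, le_mul_of_one_le_right hqk0.le (by linarith), hk1⟩
    obtain ⟨hj1, hj2⟩ := Nat.find_spec hex
    have hjk : Nat.find hex ≤ k :=
      Nat.find_min' hex ⟨le_mul_of_one_le_right hqk0.le (by linarith), hk1⟩
    have hmin : ∀ {i}, i < Nat.find hex → ¬ _ := fun {i} hi => Nat.find_min hex hi
    set j := Nat.find hex with hj
    have hj3 : (q : ℝ) ^ j * (B * L ^ 2) ≤ (q : ℝ) ^ q * (q : ℝ) ^ k := by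
      obtain ⟨i, hi⟩ : ∃ i, j = i + 1 := ⟨j - 1, by omega⟩
      have h4 := hmin (show i < j by omega)
      rcases Nat.lt_or_ge j q with h | h
      · have h5 : (q : ℝ) ^ j ≤ (q : ℝ) ^ q := pow_le_pow_right₀ (by linarith) h.le
        exact mul_le_mul h5 hqk.le hBL0.le (by positivity)
      · have h5 : (q : ℝ) ^ i * (B * L ^ 2) < (q : ℝ) ^ k := by
          by_contra hcon
          push Not at hcon
          exact h4 ⟨hcon, by omega⟩
        have h6 : (q : ℝ) ≤ (q : ℝ) ^ q := le_self_pow₀ (by linarith) (by omega)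
        calc (q : ℝ) ^ j * (B * L ^ 2) = q * ((q : ℝ) ^ i * (B * L ^ 2)) := by
              rw [hi, pow_succ]; ring
          _ ≤ q * (q : ℝ) ^ k := mul_le_mul_of_nonneg_left h5.le hq0.le
          _ ≤ _ := mul_le_mul_of_nonneg_right h6 hqk0.le
    have hqj0 : (0 : ℝ) < (q : ℝ) ^ j := by positivity
    have hmain := ie_high S hq' hΛ hfib ie hieE hx (k := k) (j := j) hj2 hρ
      (fun w => (orb G x).filter fun z => B * L ^ 2 * (ie w z : ℝ) < (q : ℝ) ^ k)
      (fun w => Finset.filter_subset _ _)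
      (fun w y hy => by
        have h4 := (Finset.mem_filter.1 hy).2
        have h5 : B * L ^ 2 * (ie w y : ℝ) < B * L ^ 2 * (q : ℝ) ^ j := by
          calc B * L ^ 2 * (ie w y : ℝ) < (q : ℝ) ^ k := h4
            _ ≤ (q : ℝ) ^ j * (B * L ^ 2) := hj1
            _ = _ := by ring
        exact (lt_of_mul_lt_mul_left h5 hBL0.le).le)
      h3.le
    -- the lower bound for `rr`
    have h5 : (q : ℝ) ^ k ≤ B₁ * L * S.rr x k := by
      rw [hcard] at h1
      have h6 : (q : ℝ) ^ k * (S.DD x k : ℝ) ≤ B₁ * L * S.rr x k * (S.DD x k : ℝ) := by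
        calc (q : ℝ) ^ k * (S.DD x k : ℝ) ≤ B₁ * L * (S.rr x k * S.DD x k) := h1
          _ = _ := by ring
      exact le_of_mul_le_mul_right h6 (by linarith)
    have h6 : α * B * L ≤ ρ ^ 2 * Λ * (S.rr x k / (q : ℝ) ^ j) := by
      have h7 : B * L / (B₁ * (q : ℝ) ^ q) ≤ S.rr x k / (q : ℝ) ^ j := by
        rw [div_le_div_iff₀ (by positivity) hqj0]
        have h8 : L * (B * L * (q : ℝ) ^ j) ≤ L * (S.rr x k * (B₁ * (q : ℝ) ^ q)) := by
          calc L * (B * L * (q : ℝ) ^ j) = (q : ℝ) ^ j * (B * L ^ 2) := by ring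
            _ ≤ (q : ℝ) ^ q * (q : ℝ) ^ k := hj3
            _ ≤ (q : ℝ) ^ q * (B₁ * L * S.rr x k) := mul_le_mul_of_nonneg_left h5 (by positivity)
            _ = _ := by ring
        exact le_of_mul_le_mul_left h8 (by linarith)
      calc α * B * L = ρ ^ 2 * Λ * (B * L / (B₁ * (q : ℝ) ^ q)) := by rw [hα]; ring
        _ ≤ _ := mul_le_mul_of_nonneg_left h7 (by positivity)
    -- the upper bound for the logarithm
    have h7 : Real.log ((q : ℝ) * S.DD x j) ≤ (Real.log q + 3 + Real.log B) * L := by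
      have hDDj1 : (1 : ℝ) ≤ S.DD x j := by exact_mod_cast S.DD_pos x j
      obtain ⟨d, hd⟩ := Nat.exists_eq_add_of_le hjk
      have h8 := DD_fib_iter S hfib x j d
      rw [← hd] at h8
      have h9 : (S.DD x j : ℝ) ≤ (q : ℝ) ^ d * S.DD x k := by exact_mod_cast h8
      have h10 : (q : ℝ) ^ d ≤ B * L ^ 2 := by
        have h11 : (q : ℝ) ^ j * (q : ℝ) ^ d ≤ (q : ℝ) ^ j * (B * L ^ 2) := by
          rw [← pow_add, ← hd]; exact hj1
        exact le_of_mul_le_mul_left h11 hqj0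
      have h12 : (S.DD x j : ℝ) ≤ B * L ^ 2 * S.DD x k :=
        h9.trans (mul_le_mul_of_nonneg_right h10 (by linarith))
      have h13 : Real.log (S.DD x j) ≤ Real.log B + 2 * Real.log L + Real.log (S.DD x k) := by
        calc Real.log (S.DD x j) ≤ Real.log (B * L ^ 2 * S.DD x k) :=
              Real.log_le_log (by linarith) h12
          _ = _ := by
              rw [Real.log_mul (by positivity) (by positivity),
                Real.log_mul (by positivity) (by positivity), Real.log_pow]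
              push_cast
              ring
      have h14 : Real.log L ≤ L - 1 := Real.log_le_sub_one_of_pos (by linarith)
      have h15 : Real.log (S.DD x k) = L - 1 := by rw [hL]; ring
      have h16 : 0 ≤ Real.log B := Real.log_nonneg hB1
      have h17 : Real.log q ≤ Real.log q * L := le_mul_of_one_le_right hlogq hL1
      have h18 : Real.log B ≤ Real.log B * L := le_mul_of_one_le_right h16 hL1
      rw [Real.log_mul hq0.ne' (by positivity)]
      calc Real.log q + Real.log (S.DD x j)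
          ≤ Real.log q * L + (Real.log B * L + 2 * (L - 1) + (L - 1)) := by linarith
        _ ≤ _ := by linarith
    have h8 : Λ + C1 * q * Real.log ((q : ℝ) * S.DD x j) ≤
        (Λ + C1 * q * (Real.log q + 3 + Real.log B)) * L := by
      have h9 : Λ ≤ Λ * L := le_mul_of_one_le_right hΛ.le hL1
      have h10 : C1 * q * Real.log ((q : ℝ) * S.DD x j) ≤
          C1 * q * ((Real.log q + 3 + Real.log B) * L) :=
        mul_le_mul_of_nonneg_left h7 (by positivity)
      calc Λ + C1 * q * Real.log ((q : ℝ) * S.DD x j)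
          ≤ Λ * L + C1 * q * ((Real.log q + 3 + Real.log B) * L) := add_le_add h9 h10
        _ = _ := by ring
    have h9 : 1 * L ≤ (α * B - (Λ + C1 * q * (Real.log q + 3 + Real.log B))) * L := by
      apply mul_le_mul_of_nonneg_right _ (by linarith)
      linarith
    have h10 : 1 ≤ 2 * (q : ℝ) ^ 2 * (((orb G x).card : ℝ) * S.hhat hq' x) := by
      linarith
    refine (min_le_right _ _).trans ?_
    rw [div_le_iff₀ (by positivity)]
    linarith

end Pool.DynLehmer.LP
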