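import Pool.Agent.Lib.MP_2194ec_nt.LP.Defs
import Pool.Agent.Lib.MP_2194ec_nt.LP.Edt
import Pool.Agent.Lib.MP_2194ec_nt.Main
import Pool.Agent.Lib.MP_2194ec_nt.GAL.R.Pre
import Pool.Agent.Lib.MP_2194ec_nt.GAL.R.Root
import Pool.Agent.Lib.MP_2194ec_nt.GAL.R.Mor

set_option autoImplicit false

/-!
# The first step over number fields (row LVN)
-/

namespace Pool.DynLehmer.LP
open MvPolynomial NumberField Filter Topology Pool.DynLehmer
open scoped Classical

theorem pr_inj {N : Type} [Field N] {P Q : Pt N} (h : GS.pr P.val = GS.pr Q.val) : P = Q := by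
  unfold GS.pr at h
  apply Pt.ext'
  rcases P.prop with h1 | ⟨h1, h2⟩ <;> rcases Q.prop with h3 | ⟨h3, h4⟩
  · rw [if_neg (by rw [h1]; exact one_ne_zero), if_neg (by rw [h3]; exact one_ne_zero), h1, h3,
      div_one, div_one, Option.some_inj] at h
    ext i
    fin_cases i
    · exact h
    · change P.val 1 = Q.val 1
      rw [h1, h3]
  · rw [if_neg (by rw [h1]; exact one_ne_zero), if_pos h3] at h
    simp at h
  · rw [if_pos h1, if_neg (by rw [h3]; exact one_ne_zero)] at h
    simp at h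
  · ext i
    fin_cases i
    · change P.val 0 = Q.val 0
      rw [h2, h4]
    · change P.val 1 = Q.val 1
      rw [h1, h3]

theorem fib_le {K N : Type} [Field K] [Field N] [Algebra K N] {q : ℕ} (hq : 1 ≤ q)
    {F : Fin 2 → MvPolynomial (Fin 2) K} (hF : GS.Mor q F) (f : Pt N → Pt N)
    (hf : ∀ P : Pt N, f P = nz (gAct F N P.val)) (Z : Finset (Pt N)) (z : Pt N)
    (h : ∀ y ∈ Z, f y = z) : Z.card ≤ q := by
  obtain ⟨Z', hZ', h'⟩ := GS.PRE.one_step GS.root K N q F hq hF z.val z.ne_zero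
  refine le_trans ?_ hZ'
  refine Finset.card_le_card_of_injOn (fun P => GS.pr P.val) ?_ ?_
  · intro y hy
    have h1 := h y hy
    rw [hf] at h1
    obtain ⟨c, hc, h2⟩ := nz_spec (hF.ne N y.val y.ne_zero)
    rw [h1] at h2
    exact h' y.val y.ne_zero ⟨c, hc, h2⟩
  · intro P _ Q _ hPQ
    exact pr_inj hPQ

theorem orb_eq {P G : Type} [Group G] [Fintype G] [MulAction G P] {x y : P} (h : y ∈ orb G x) :
    orb G y = orb G x := by
  obtain ⟨g, rfl⟩ := mem_orb.1 h
  ext z
  rw [mem_orb, mem_orb]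
  constructor
  · rintro ⟨k, rfl⟩
    exact ⟨k * g, mul_smul _ _ _⟩
  · rintro ⟨k, rfl⟩
    exact ⟨k * g⁻¹, by rw [mul_smul, inv_smul_smul]⟩

/-- Row LVN. -/
theorem lvn (hLevel : LevelStatement) : LvnStatement := by
  intro K _ _ p s v F hF ρ hρ
  have hp := hF.prime
  have hs := hF.pos
  have hq2 : 2 ≤ p ^ s := hp.two_le.trans (Nat.le_self_pow (by omega) p)
  have hM := GS.mor K p s v F hF
  obtain ⟨Φ, hΦF, hϖ0, hϖ, hunif⟩ := exists_FF v hp F hF.hom hF.above hF.int
    (fun i t h0 h1 => hF.red i t (by intro j; fin_cases j; exacts [h0, h1])) (by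
      have h := hF.det
      rw [Matrix.det_fin_two] at h
      exact h)
  obtain ⟨m, hm1, hm⟩ := exists_goodExp Φ hϖ hp
  obtain ⟨C, hC0, hC⟩ := height_morphism F (p ^ s) hF.hom (no_common_zero hp Φ hϖ F hΦF)
  have hKpos : (0 : ℝ) < Module.finrank ℚ K := by exact_mod_cast Module.finrank_pos
  have hl0 : 0 < - Real.log (v (Φ.ϖ : K)) :=
    neg_pos.2 (Real.log_neg (FinitePlace.pos_iff.2 hϖ0) hϖ)
  obtain ⟨B, c, hB, hc, hmain⟩ := hLevel (p ^ s) m C
    (- Real.log (v (Φ.ϖ : K)) / Module.finrank ℚ K) ρ hq2 hC0 (div_pos hl0 hKpos) hρ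
  refine ⟨B, c, hB, hc, ?_⟩
  intro N _ _ _ _ S e hS hsum x hx hwand
  have hact : (Φ.map (toN v N)).act = gAct F N := act_eq_aeval Φ F hΦF N
  have hCN : ∀ z : Fin 2 → N, |Height.logHeight ((Φ.map (toN v N)).act z) -
      ((p ^ s : ℕ) : ℝ) * Height.logHeight z| ≤ C * Module.finrank ℚ N := by
    intro z
    rw [hact]
    exact hC N z
  obtain ⟨D, hDf, hDh, hDE, hDl⟩ := edt K N p s v Φ hϖ hϖ0 hunif hp hs m hm S e hS hsum C hCN
  have hiterne : ∀ n : ℕ, (gAct F N)^[n] x ≠ 0 := by
    intro n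
    induction n with
    | zero => exact hx
    | succ n ih =>
      rw [Function.iterate_succ_apply']
      exact hM.ne N _ ih
  have hΨ0 : ∀ z : Fin 2 → N, z ≠ 0 → (Φ.map (toN v N)).act z ≠ 0 := by
    intro z hz
    rw [hact]
    exact hM.ne N z hz
  have hpt : ∀ n : ℕ, D.f^[n] (nz x) = nz ((gAct F N)^[n] x) := by
    intro n
    rw [hDf, ← hact]
    exact fpt_iter_nz _ hΨ0 n x hx
  have hinj : Function.Injective fun n : ℕ => D.f^[n] (nz x) := by
    intro a b hab
    simp only [hpt] at hab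
    by_contra hne
    obtain ⟨c₁, hc₁, h₁⟩ := nz_spec (hiterne a)
    obtain ⟨c₂, hc₂, h₂⟩ := nz_spec (hiterne b)
    apply hwand
    refine ⟨b, a, fun h => hne h.symm, c₁ * c₂⁻¹, mul_ne_zero hc₁ (inv_ne_zero hc₂), ?_⟩
    conv_lhs => rw [h₁, hab]
    conv_rhs => rw [h₂]
    rw [smul_smul, mul_assoc, inv_mul_cancel₀ hc₂, mul_one]
  have hfib : ∀ (Z : Finset (Pt N)) (z : Pt N), (∀ y ∈ Z, D.f y = z) → Z.card ≤ p ^ s := by
    intro Z z h
    refine fib_le (by omega) hM D.f (fun P => ?_) Z z h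
    rw [hDf, fpt, hact]
  have hmain' := hmain (Pt N) (N ≃ₐ[K] N) {w // w ∈ S} D hq2 hfib (nz x) hinj
  have hNpos : (0 : ℝ) < Module.finrank ℚ N := by exact_mod_cast Module.finrank_pos
  have hKNpos : (0 : ℝ) < Module.finrank K N := by exact_mod_cast Module.finrank_pos
  have htower : (Module.finrank ℚ K : ℝ) * Module.finrank K N = Module.finrank ℚ N := by
    exact_mod_cast Module.finrank_mul_finrank ℚ K N
  refine ⟨D.hhat hq2 (nz x), ?_, ?_⟩
  · have h1 := D.tendsto_hhat hq2 (nz x)
    refine h1.congr fun n => ?_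
    rw [hpt, hDh]
    simp only
    rw [logHeight_nz (hiterne n)]
  · rcases hmain' with h1 | ⟨k, h1, h2⟩
    · exact Or.inl h1
    · refine Or.inr ⟨k, ?_, ?_⟩
      · rw [hpt] at h1
        exact h1
      · rw [hpt] at h2
        set y : Pt N := nz ((gAct F N)^[k] x) with hy
        have hdisc : ∀ (w : {w // w ∈ S}) (z : Pt N), z ∈ orb (N ≃ₐ[K] N) y →
            ((orb (N ≃ₐ[K] N) y).filter fun z' => z' = z ∨ 0 < D.E w z' z).card =
              disc K w.1 z := by
          intro w z hz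
          unfold disc
          rw [orb_eq hz]
          congr 1
          refine Finset.filter_congr fun z' _ => ?_
          rw [hDE]
          by_cases hzz : z' = z
          · subst hzz
            simp [dw_self]
          · simp only [hzz, false_or]
            exact Ew_pos_iff (hS w.1 w.2) hϖ hϖ0 hzz
        have hsumeq : ∑ w, D.lam w * (((orb (N ≃ₐ[K] N) y).filter fun z =>
            B * (1 + Real.log ((orb (N ≃ₐ[K] N) y).card)) ≤
              (((orb (N ≃ₐ[K] N) y).filter fun z' =>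
                z' = z ∨ 0 < D.E w z' z).card : ℝ)).card : ℝ) =
            - Real.log (v (Φ.ϖ : K)) / Module.finrank ℚ N *
              ∑ w ∈ S, (e w : ℝ) * (((orb (N ≃ₐ[K] N) y).filter fun z =>
                B * (1 + Real.log (dgo K y)) ≤ (disc K w z : ℝ)).card : ℝ) := by
          rw [Finset.mul_sum, ← Finset.sum_coe_sort S (fun w =>
            - Real.log (v (Φ.ϖ : K)) / (Module.finrank ℚ N : ℝ) *
              ((e w : ℝ) * (((orb (N ≃ₐ[K] N) y).filter fun z =>
                B * (1 + Real.log (dgo K y)) ≤ (disc K w z : ℝ)).card : ℝ)))]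
          refine Finset.sum_congr rfl fun w _ => ?_
          have hf : ((orb (N ≃ₐ[K] N) y).filter fun z =>
            B * (1 + Real.log ((orb (N ≃ₐ[K] N) y).card)) ≤
              (((orb (N ≃ₐ[K] N) y).filter fun z' =>
                z' = z ∨ 0 < D.E w z' z).card : ℝ)) =
              ((orb (N ≃ₐ[K] N) y).filter fun z =>
                B * (1 + Real.log (dgo K y)) ≤ (disc K w.1 z : ℝ)) := by
            refine Finset.filter_congr fun z hz => ?_
            rw [hdisc w z hz]
            rfl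
          rw [hf, hDl]
          simp only
          rw [lw_eq (hS w.1 w.2)]
          ring
        rw [hsumeq] at h2
        have h3 : - Real.log (v (Φ.ϖ : K)) / (Module.finrank ℚ N : ℝ) *
              ∑ w ∈ S, (e w : ℝ) * (((orb (N ≃ₐ[K] N) y).filter fun z =>
                B * (1 + Real.log (dgo K y)) ≤ (disc K w z : ℝ)).card : ℝ) ≤
            - Real.log (v (Φ.ϖ : K)) / (Module.finrank ℚ N : ℝ) *
              (ρ * Module.finrank K N * dgo K y) := by
          refine h2.trans (le_of_eq ?_)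
          rw [← htower]
          unfold dgo
          field_simp
        exact le_of_mul_le_mul_left h3 (div_pos hl0 hNpos)

end Pool.DynLehmer.LP
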