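import Pool.Agent.Lib.MP_2194ec_nt.LP.Defs

set_option autoImplicit false

/-!
# The numerical end of the proof (row NUM)
-/

namespace Pool.DynLehmer.LP
open Real

theorem num_aux (δ B θ : ℝ) (hδ : 0 < δ) (hB : 0 < B) (hθ0 : 0 ≤ θ) (hθ1 : θ < 1) :
    ∃ C : ℝ, 0 ≤ C ∧ ∀ y : ℝ, 0 ≤ y → B * y ^ θ ≤ δ / 2 * y + C := by
  obtain ⟨η, hη⟩ : ∃ η : ℝ, η = δ / (2 * B) := ⟨_, rfl⟩
  have hη0 : 0 < η := by rw [hη]; positivity
  have hθ' : 0 < 1 - θ := by linarith
  refine ⟨B * ((1 - θ) * η ^ (-θ / (1 - θ))), by positivity, fun y hy => ?_⟩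
  have h := Real.geom_mean_le_arith_mean2_weighted hθ0 hθ'.le
    (show 0 ≤ η * y by positivity) (show 0 ≤ η ^ (-θ / (1 - θ)) by positivity) (by ring)
  have h1 : (η * y) ^ θ * (η ^ (-θ / (1 - θ))) ^ (1 - θ) = y ^ θ := by
    rw [Real.mul_rpow hη0.le hy, ← Real.rpow_mul hη0.le, div_mul_cancel₀ _ hθ'.ne',
      mul_right_comm, ← Real.rpow_add hη0]
    simp
  rw [h1] at h
  have h2 : θ * (η * y) ≤ η * y := mul_le_of_le_one_left (by positivity) hθ1.le
  have h3 : B * (η * y) = δ / 2 * y := by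
    rw [hη]
    field_simp
  calc B * y ^ θ ≤ B * (η * y + (1 - θ) * η ^ (-θ / (1 - θ))) := by
        apply mul_le_mul_of_nonneg_left _ hB.le
        linarith
    _ = _ := by rw [mul_add, h3]

theorem num : NumStatement := by
  intro δ A B B' θ hδ hA hB hB' hθ0 hθ1
  obtain ⟨C, hC0, hC⟩ := num_aux δ B θ hδ hB hθ0 hθ1
  obtain ⟨K, hK⟩ : ∃ K : ℝ, K = max 1 (6 / δ) := ⟨_, rfl⟩
  have hK1 : 1 ≤ K := by rw [hK]; exact le_max_left _ _
  have hK2 : 6 / δ ≤ K := by rw [hK]; exact le_max_right _ _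
  have hKpos : 0 < K := by linarith
  have hB'0 : 0 < B' := by linarith
  have hKl : ∀ l : ℝ, 0 ≤ l → 1 + l ≤ K * Real.exp (δ / 6 * l) := by
    intro l hl
    have h1 : δ / 6 * l + 1 ≤ Real.exp (δ / 6 * l) := Real.add_one_le_exp _
    have h2 : l ≤ K * (δ / 6 * l) := by
      have h3 : 1 ≤ K * (δ / 6) := by
        rw [div_le_iff₀ hδ] at hK2
        linarith
      nlinarith
    nlinarith
  refine ⟨A / (4 * B' ^ 3 * K ^ 3) * Real.exp (-(B + C)), by positivity, ?_⟩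
  intro d M E hd hdM hM hE hE1
  have hdR : (1 : ℝ) ≤ d := by exact_mod_cast hd
  have hdM' : (d : ℝ) ≤ M := by exact_mod_cast hdM
  have hMpos : (0 : ℝ) < M := by linarith
  have hER : (1 : ℝ) ≤ E := by exact_mod_cast hE1
  obtain ⟨l, hl⟩ : ∃ l : ℝ, l = Real.log M := ⟨_, rfl⟩
  obtain ⟨X, hX⟩ : ∃ X : ℝ, X = 1 + Real.log d := ⟨_, rfl⟩
  have hlogd : 0 ≤ Real.log d := Real.log_nonneg hdR
  have hlogM : Real.log d ≤ l := by rw [hl]; exact Real.log_le_log (by linarith) hdM'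
  have hl0 : 0 ≤ l := hlogd.trans hlogM
  have hX1 : 1 ≤ X := by rw [hX]; linarith
  have hXpos : 0 < X := by linarith
  have hXl : X ≤ K * Real.exp (δ / 6 * l) := by
    rw [hX]
    exact (by linarith : 1 + Real.log d ≤ 1 + l).trans (hKl l hl0)
  have hX3 : X ^ 3 ≤ K ^ 3 * Real.exp (δ / 2 * l) := by
    calc X ^ 3 ≤ (K * Real.exp (δ / 6 * l)) ^ 3 := by gcongr
      _ = K ^ 3 * Real.exp (δ / 2 * l) := by
        rw [mul_pow, ← Real.exp_nat_mul]
        congr 2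
        push_cast
        ring
  have hsq : Real.sqrt M = Real.exp (l / 2) := by
    rw [Real.sqrt_eq_rpow, Real.rpow_def_of_pos hMpos, ← hl]
    congr 1
    ring
  have hdexp : Real.exp ((1 / 2 + δ) * l) ≤ d := by
    rw [Real.rpow_def_of_pos hMpos, ← hl] at hM
    rwa [mul_comm]
  rw [← hX] at hE ⊢
  rw [← hl, hsq, le_div_iff₀ (by positivity)]
  have he : Real.exp (-(B + (δ / 2 * l + C))) ≤ Real.exp (-(B * (1 + l ^ θ))) := by
    apply Real.exp_le_exp.2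
    have := hC l hl0
    linarith
  have hE0 : (0 : ℝ) < E := by linarith
  have key : Real.exp ((1 / 2 + δ) * l) * (A / (4 * (B' * X) ^ 2 * Real.exp (l / 2)) *
      Real.exp (-(B + (δ / 2 * l + C)))) ≤
      d * (A / (E * Real.exp (l / 2)) * Real.exp (-(B * (1 + l ^ θ)))) := by
    gcongr
  refine le_trans ?_ key
  have h5 : Real.exp ((1 / 2 + δ) * l) * (A / (4 * (B' * X) ^ 2 * Real.exp (l / 2)) *
      Real.exp (-(B + (δ / 2 * l + C)))) =
      A / (4 * (B' * X) ^ 2) * (Real.exp (δ / 2 * l) * Real.exp (-(B + C))) := by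
    have h6 : Real.exp ((1 / 2 + δ) * l) =
        Real.exp (δ / 2 * l) * Real.exp (δ / 2 * l) * Real.exp (l / 2) := by
      rw [← Real.exp_add, ← Real.exp_add]
      congr 1
      ring
    have h7 : Real.exp (-(B + (δ / 2 * l + C))) = Real.exp (-(B + C)) / Real.exp (δ / 2 * l) := by
      rw [← Real.exp_sub]
      congr 1
      ring
    rw [h6, h7]
    field_simp
  rw [h5]
  have h8 : A / (4 * B' ^ 3 * K ^ 3) * Real.exp (-(B + C)) * (B' * X) =
      (A / (4 * (B' * X) ^ 2) * Real.exp (-(B + C))) * (X ^ 3 / K ^ 3) := by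
    field_simp
  rw [h8]
  have h9 : X ^ 3 / K ^ 3 ≤ Real.exp (δ / 2 * l) := by
    rw [div_le_iff₀ (by positivity)]
    linarith
  calc A / (4 * (B' * X) ^ 2) * Real.exp (-(B + C)) * (X ^ 3 / K ^ 3)
      ≤ A / (4 * (B' * X) ^ 2) * Real.exp (-(B + C)) * Real.exp (δ / 2 * l) := by gcongr
    _ = _ := by ring

end Pool.DynLehmer.LP
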