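import Pool.Agent.Lib.MP_2194ec_nt.LP.DefsW
import Pool.Agent.Lib.MP_2194ec_nt.LP.Ramj

set_option autoImplicit false

/-!
# Row PTH: if the discs are small at a level and the inertia orbits are large, pairs are thin
-/

namespace Pool.DynLehmer.LP
open MvPolynomial NumberField Filter Topology Pool.DynLehmer Pool.DynLehmer.SB Pool.DynLehmer.SP
  Pool.DynLehmer.GS Pool.DynLehmer.GAL
open scoped Classical

namespace PthAux

section orb

variable {G P : Type} [Group G] [Fintype G] [MulAction G P]

theorem card_fib (x : P) (g₀ : G) :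
    (Finset.univ.filter fun g : G => g • x = g₀ • x).card =
      (Finset.univ.filter fun g : G => g • x = x).card := by
  rw [← Finset.card_image_of_injective (Finset.univ.filter fun g : G => g • x = x)
    (mul_right_injective g₀)]
  congr 1
  ext g
  simp only [Finset.mem_filter, Finset.mem_univ, true_and, Finset.mem_image]
  constructor
  · intro h
    refine ⟨g₀⁻¹ * g, ?_, ?_⟩
    · rw [mul_smul, h, inv_smul_smul]
    · exact mul_inv_cancel_left g₀ g
  · rintro ⟨k, hk, rfl⟩
    change (g₀ * k) • x = g₀ • x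
    rw [mul_smul, hk]

theorem card_sub (x : P) (p : P → Prop) :
    (Finset.univ.filter fun g : G => p (g • x)).card =
      ((orb G x).filter p).card * (Finset.univ.filter fun g : G => g • x = x).card := by
  rw [Finset.card_eq_sum_card_fiberwise (f := fun g : G => g • x) (t := (orb G x).filter p)
    (by
      intro g hg
      rw [Finset.mem_coe, Finset.mem_filter] at hg ⊢
      exact ⟨smul_mem_orb g x, hg.2⟩)]
  rw [Finset.sum_const_nat (m := (Finset.univ.filter fun g : G => g • x = x).card)]
  intro z hz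
  rw [Finset.mem_filter] at hz
  obtain ⟨g₀, rfl⟩ := mem_orb.1 hz.1
  rw [← card_fib x g₀]
  congr 1
  ext g
  simp only [Finset.mem_filter, Finset.mem_univ, true_and]
  constructor
  · exact fun h => h.2
  · intro h
    exact ⟨by rw [h]; exact hz.2, h⟩

/-- counting in an orbit by means of the group -/
theorem card_orb_filter (x : P) (p : P → Prop) :
    (Finset.univ.filter fun g : G => p (g • x)).card * (orb G x).card =
      Fintype.card G * ((orb G x).filter p).card := by
  have h1 := card_sub (G := G) x p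
  have h2 := card_sub (G := G) x fun _ => True
  simp only [Finset.filter_true, Finset.card_univ] at h2
  rw [h1, h2]
  ring

/-- a bound for a weighted sum over an orbit, in terms of the group -/
theorem sum_le {ι : Type} (S : Finset ι) (e : ι → ℕ) (x : P) (p : ι → P → Prop) {c : ℝ}
    (h : ∑ w ∈ S, (e w : ℝ) * (((orb G x).filter (p w)).card : ℝ) ≤ c * ((orb G x).card : ℝ)) :
    ∑ w ∈ S, (e w : ℝ) * ((Finset.univ.filter fun g : G => p w (g • x)).card : ℝ) ≤
      c * (Fintype.card G : ℝ) := by
  have hpos : (0 : ℝ) < (orb G x).card := by exact_mod_cast card_orb_pos x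
  have h1 : (∑ w ∈ S, (e w : ℝ) * ((Finset.univ.filter fun g : G => p w (g • x)).card : ℝ)) *
      ((orb G x).card : ℝ) =
      (Fintype.card G : ℝ) * ∑ w ∈ S, (e w : ℝ) * (((orb G x).filter (p w)).card : ℝ) := by
    rw [Finset.sum_mul, Finset.mul_sum]
    refine Finset.sum_congr rfl fun w _ => ?_
    have h2 := card_orb_filter (G := G) x (p w)
    have h3 : ((Finset.univ.filter fun g : G => p w (g • x)).card : ℝ) * ((orb G x).card : ℝ) =
        (Fintype.card G : ℝ) * (((orb G x).filter (p w)).card : ℝ) := by exact_mod_cast h2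
    rw [mul_assoc, h3]
    ring
  refine le_of_mul_le_mul_right ?_ hpos
  rw [h1]
  calc (Fintype.card G : ℝ) * ∑ w ∈ S, (e w : ℝ) * (((orb G x).filter (p w)).card : ℝ)
      ≤ (Fintype.card G : ℝ) * (c * ((orb G x).card : ℝ)) :=
        mul_le_mul_of_nonneg_left h (Nat.cast_nonneg _)
    _ = _ := by ring

end orb

variable {K : Type} [Field K] {N : Type} [Field N] [NumberField N] [Algebra K N]

omit [NumberField N] in
theorem stab_nz (y : Fin 2 → N) (g : N ≃ₐ[K] N) :
    g • nz y = nz y ↔ g (y 0 / y 1) = y 0 / y 1 := by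
  unfold nz
  split_ifs with h
  · rw [h, div_zero, map_zero]
    refine iff_of_true ?_ rfl
    apply Pt.ext'
    funext i
    change g ((![1, 0] : Fin 2 → N) i) = _
    fin_cases i
    · exact map_one g
    · exact map_zero g
  · constructor
    · intro h1
      exact congrFun (congrArg Pt.val h1) 0
    · intro h1
      apply Pt.ext'
      funext i
      change g ((![y 0 / y 1, 1] : Fin 2 → N) i) = _
      fin_cases i
      · exact h1
      · exact map_one g

omit [NumberField N] in
/-- the degree of a pair is the index of its stabilizer -/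
theorem dg2_eq [IsGalois K N] (y z : Fin 2 → N) :
    dg2 K y z = (MulAction.stabilizer (N ≃ₐ[K] N) (nz y, nz z)).index := by
  unfold dg2
  rw [IntermediateField.finrank_eq_fixingSubgroup_index]
  congr 1
  ext g
  rw [IntermediateField.mem_fixingSubgroup_iff, MulAction.mem_stabilizer_iff]
  have h1 := IntermediateField.forall_mem_adjoin_smul_eq_self_iff (F := K)
    (S := ({y 0 / y 1, z 0 / z 1} : Set N)) g
  refine Iff.trans h1 ?_
  rw [Prod.smul_mk, Prod.mk.injEq, stab_nz, stab_nz]
  constructor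
  · intro h
    exact ⟨h _ (Set.mem_insert _ _), h _ (Set.mem_insert_of_mem _ rfl)⟩
  · rintro ⟨h2, h3⟩ x hx
    rcases hx with rfl | hx
    · exact h2
    · rw [Set.mem_singleton_iff] at hx
      subst hx
      exact h3

end PthAux

open RamjAux PthAux in
/-- **PTH** -/
theorem pth : PthStatement := by
  intro K _ _ N _ _ _ _ q F hq hF S e hsum x hx k T T₂ hT hT₂ hA hB σ
  have hfd : FiniteDimensional K N := Module.Finite.of_restrictScalars_finite ℚ K N
  have hiterne : ∀ (z : Fin 2 → N), z ≠ 0 → (gAct F N)^[k] z ≠ 0 := by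
    intro z hz
    exact Bas.iter_ne hF hz k
  set y : Pt N := nz ((gAct F N)^[k] x) with hy
  set X : Pt N := nz x with hX
  have hGpos : (0 : ℝ) < Fintype.card (N ≃ₐ[K] N) := by exact_mod_cast Fintype.card_pos
  have hKN : (0 : ℝ) < Module.finrank K N := by exact_mod_cast Module.finrank_pos
  -- the sums over the group
  have h1 := sum_le (G := N ≃ₐ[K] N) S e y (fun w z => T ≤ (disc K w z : ℝ))
    (c := 1 / 16 * Module.finrank K N) hA
  have h2 := sum_le (G := N ≃ₐ[K] N) S e X (fun w z => T₂ * (ie K w z : ℝ) < (q : ℝ) ^ k)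
    (c := 1 / 16 * Module.finrank K N) hB
  have h3 : ∑ w ∈ S, (e w : ℝ) *
      ((Finset.univ.filter fun g : N ≃ₐ[K] N => T ≤ (disc K w (g • σ • y) : ℝ)).card : ℝ) ≤
      1 / 16 * Module.finrank K N * (Fintype.card (N ≃ₐ[K] N) : ℝ) := by
    refine le_trans (le_of_eq ?_) h1
    refine Finset.sum_congr rfl fun w _ => ?_
    congr 2
    refine Finset.card_bij (fun g _ => g * σ) ?_ ?_ ?_
    · intro g hg
      rw [Finset.mem_filter] at hg ⊢
      refine ⟨Finset.mem_univ _, ?_⟩
      rw [mul_smul]
      exact hg.2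
    · intro a _ b _ hab
      exact mul_right_cancel hab
    · intro b hb
      rw [Finset.mem_filter] at hb
      refine ⟨b * σ⁻¹, ?_, inv_mul_cancel_right b σ⟩
      rw [Finset.mem_filter]
      refine ⟨Finset.mem_univ _, ?_⟩
      rw [mul_smul, inv_smul_smul]
      exact hb.2
  -- a good place and a good conjugate
  obtain ⟨w, hw, g, hg1, hg2, hg3⟩ : ∃ w ∈ S, ∃ g : N ≃ₐ[K] N, (disc K w (g • y) : ℝ) < T ∧
      (disc K w (g • σ • y) : ℝ) < T ∧ (q : ℝ) ^ k ≤ T₂ * (ie K w (g • X) : ℝ) := by
    by_contra hcon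
    push Not at hcon
    have h4 : ∀ w ∈ S, (Fintype.card (N ≃ₐ[K] N) : ℝ) ≤
        ((Finset.univ.filter fun g : N ≃ₐ[K] N => T ≤ (disc K w (g • y) : ℝ)).card : ℝ) +
        ((Finset.univ.filter fun g : N ≃ₐ[K] N => T ≤ (disc K w (g • σ • y) : ℝ)).card : ℝ) +
        ((Finset.univ.filter fun g : N ≃ₐ[K] N => T₂ * (ie K w (g • X) : ℝ) < (q : ℝ) ^ k).card : ℝ) := by
      intro w hw
      have h5 : (Finset.univ : Finset (N ≃ₐ[K] N)) ⊆
          ((Finset.univ.filter fun g : N ≃ₐ[K] N => T ≤ (disc K w (g • y) : ℝ)) ∪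
          (Finset.univ.filter fun g : N ≃ₐ[K] N => T ≤ (disc K w (g • σ • y) : ℝ))) ∪
          (Finset.univ.filter fun g : N ≃ₐ[K] N => T₂ * (ie K w (g • X) : ℝ) < (q : ℝ) ^ k) := by
        intro g _
        rw [Finset.mem_union, Finset.mem_union, Finset.mem_filter, Finset.mem_filter,
          Finset.mem_filter]
        by_cases ha : (disc K w (g • y) : ℝ) < T
        · by_cases hb : (disc K w (g • σ • y) : ℝ) < T
          · exact Or.inr ⟨Finset.mem_univ _, hcon w hw g ha hb⟩
          · exact Or.inl (Or.inr ⟨Finset.mem_univ _, not_lt.1 hb⟩)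
        · exact Or.inl (Or.inl ⟨Finset.mem_univ _, not_lt.1 ha⟩)
      have h6 := Finset.card_le_card h5
      have h7 := h6.trans ((Finset.card_union_le _ _).trans
        (Nat.add_le_add_right (Finset.card_union_le _ _) _))
      rw [Finset.card_univ] at h7
      exact_mod_cast h7
    have h8 : (Module.finrank K N : ℝ) * Fintype.card (N ≃ₐ[K] N) ≤
        3 / 16 * (Module.finrank K N * (Fintype.card (N ≃ₐ[K] N) : ℝ)) := by
      calc (Module.finrank K N : ℝ) * Fintype.card (N ≃ₐ[K] N)
          = ∑ w ∈ S, (e w : ℝ) * (Fintype.card (N ≃ₐ[K] N) : ℝ) := by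
            rw [← Finset.sum_mul, ← hsum]
            push_cast
            rfl
        _ ≤ ∑ w ∈ S, (e w : ℝ) *
            (((Finset.univ.filter fun g : N ≃ₐ[K] N => T ≤ (disc K w (g • y) : ℝ)).card : ℝ) +
            ((Finset.univ.filter fun g : N ≃ₐ[K] N => T ≤ (disc K w (g • σ • y) : ℝ)).card : ℝ) +
            ((Finset.univ.filter fun g : N ≃ₐ[K] N =>
              T₂ * (ie K w (g • X) : ℝ) < (q : ℝ) ^ k).card : ℝ)) :=
            Finset.sum_le_sum fun w hw => mul_le_mul_of_nonneg_left (h4 w hw) (Nat.cast_nonneg _)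
        _ ≤ _ := by
            simp only [mul_add, Finset.sum_add_distrib]
            have := add_le_add (add_le_add h1 h3) h2
            linarith
    have h9 := mul_pos hKN hGpos
    linarith
  -- the stabilizers
  have hσX : nz (gal σ x) = σ • X := (HomcAux.gal_nz σ hx).symm
  have hσy : nz ((gAct F N)^[k] (gal σ x)) = σ • y := by
    have h4 : (gAct F N)^[k] (gal σ x) = gal σ ((gAct F N)^[k] x) := SP.CasebAux.gAct_iter_gal F σ k x
    rw [h4]
    exact (HomcAux.gal_nz σ (hiterne x hx)).symm
  rw [dg2_eq, dg2_eq, hσX, hσy]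
  set A : Subgroup (N ≃ₐ[K] N) := MulAction.stabilizer (N ≃ₐ[K] N) (g • X, g • σ • X) with hAdef
  set B : Subgroup (N ≃ₐ[K] N) := MulAction.stabilizer (N ≃ₐ[K] N) (g • y, g • σ • y) with hBdef
  have hA1 : (MulAction.stabilizer (N ≃ₐ[K] N) (X, σ • X)).index = A.index := by
    rw [MulAction.index_stabilizer, hAdef, MulAction.index_stabilizer, ← Prod.smul_mk,
      MulAction.orbit_smul]
  have hB1 : (MulAction.stabilizer (N ≃ₐ[K] N) (y, σ • y)).index = B.index := by
    rw [MulAction.index_stabilizer, hBdef, MulAction.index_stabilizer, ← Prod.smul_mk,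
      MulAction.orbit_smul]
  have hpair : ∀ (P Q : Pt N), MulAction.stabilizer (N ≃ₐ[K] N) (P, Q) =
      MulAction.stabilizer (N ≃ₐ[K] N) P ⊓ MulAction.stabilizer (N ≃ₐ[K] N) Q := by
    intro P Q
    ext τ
    rw [Subgroup.mem_inf, MulAction.mem_stabilizer_iff, MulAction.mem_stabilizer_iff,
      MulAction.mem_stabilizer_iff, Prod.smul_mk, Prod.mk.injEq]
  -- a point determines its iterate
  have hmap : ∀ (z : Fin 2 → N), z ≠ 0 → ∀ τ : N ≃ₐ[K] N, τ • nz z = nz z →
      τ • nz ((gAct F N)^[k] z) = nz ((gAct F N)^[k] z) := by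
    intro z hz τ hτ
    rw [HomcAux.gal_nz τ hz] at hτ
    rw [HomcAux.gal_nz τ (hiterne z hz)]
    have h4 : (fun i => τ ((gAct F N)^[k] z i)) = (gAct F N)^[k] (gal τ z) :=
      (SP.CasebAux.gAct_iter_gal F τ k z).symm
    rw [h4]
    have hzτ : gal τ z ≠ 0 := by
      intro h0
      apply hz
      funext i
      have := congrFun h0 i
      simpa [gal] using this
    obtain ⟨c, hc, h5⟩ := (nz_eq_iff hzτ hz).1 hτ
    exact (nz_eq_iff (hiterne _ hzτ) (hiterne z hz)).2
      (Bas.prl_iter hF.hom ⟨c, hc, h5⟩ k)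
  have hAB : A ≤ B := by
    rw [hAdef, hBdef, hpair, hpair]
    refine inf_le_inf ?_ ?_
    · intro τ hτ
      rw [MulAction.mem_stabilizer_iff] at hτ ⊢
      have e1 : g • X = nz (gal g x) := HomcAux.gal_nz g hx
      have e2 : g • y = nz ((gAct F N)^[k] (gal g x)) := by
        rw [SP.CasebAux.gAct_iter_gal F g k x]
        exact HomcAux.gal_nz g (hiterne x hx)
      rw [e1] at hτ
      rw [e2]
      refine hmap _ ?_ τ hτ
      intro h0
      apply hx
      funext i
      have := congrFun h0 i
      simpa [gal] using this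
    · intro τ hτ
      rw [MulAction.mem_stabilizer_iff] at hτ ⊢
      have e1 : g • σ • X = nz (gal (g * σ) x) := by
        rw [← mul_smul]
        exact HomcAux.gal_nz (g * σ) hx
      have e2 : g • σ • y = nz ((gAct F N)^[k] (gal (g * σ) x)) := by
        rw [← mul_smul, SP.CasebAux.gAct_iter_gal F (g * σ) k x]
        exact HomcAux.gal_nz (g * σ) (hiterne x hx)
      rw [e1] at hτ
      rw [e2]
      refine hmap _ ?_ τ hτ
      intro h0
      apply hx
      funext i
      have := congrFun h0 i
      simpa [gal] using this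
  have hne : ∀ H J : Subgroup (N ≃ₐ[K] N), H.relIndex J ≠ 0 := fun H J => by
    unfold Subgroup.relIndex
    exact Subgroup.index_ne_zero_of_finite
  have h4 : ie K w (g • X) ≤ A.relIndex (inert K w) := by
    unfold ie
    rw [hAdef, hpair]
    exact Subgroup.relIndex_le_of_le_left inf_le_left (hne _ _)
  have h5 : B.relIndex (inert K w) ≤ disc K w (g • y) * disc K w (g • σ • y) := by
    rw [hBdef, hpair]
    exact le_trans Subgroup.relIndex_inf_le (Nat.mul_le_mul (relIndex_le w _) (relIndex_le w _))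
  have h6 : A.relIndex (inert K w) ≤ A.relIndex B * B.relIndex (inert K w) := by
    have h7 := Subgroup.relIndex_inf_mul_relIndex A B (inert K w)
    rw [inf_eq_left.2 hAB] at h7
    rw [← h7]
    exact Nat.mul_le_mul_right _ (Subgroup.relIndex_le_of_le_right inf_le_left (hne _ _))
  have h7 : A.relIndex B * B.index = A.index := Subgroup.relIndex_mul_index hAB
  rw [hA1, hB1, ← h7]
  have h8 : (q : ℝ) ^ k ≤ T₂ * ((A.relIndex B : ℝ) * T ^ 2) := by
    refine hg3.trans (mul_le_mul_of_nonneg_left ?_ hT₂)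
    have h9 : ie K w (g • X) ≤ A.relIndex B * (disc K w (g • y) * disc K w (g • σ • y)) :=
      h4.trans (h6.trans (Nat.mul_le_mul_left _ h5))
    calc (ie K w (g • X) : ℝ)
        ≤ (A.relIndex B : ℝ) * ((disc K w (g • y) : ℝ) * (disc K w (g • σ • y) : ℝ)) := by
          exact_mod_cast h9
      _ ≤ (A.relIndex B : ℝ) * T ^ 2 := by
          refine mul_le_mul_of_nonneg_left ?_ (Nat.cast_nonneg _)
          rw [sq]
          exact mul_le_mul hg1.le hg2.le (Nat.cast_nonneg _) hT
  calc (q : ℝ) ^ k * (B.index : ℝ) ≤ T₂ * ((A.relIndex B : ℝ) * T ^ 2) * (B.index : ℝ) :=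
        mul_le_mul_of_nonneg_right h8 (Nat.cast_nonneg _)
    _ = T₂ * T ^ 2 * ((A.relIndex B * B.index : ℕ) : ℝ) := by
        push_cast
        ring

end Pool.DynLehmer.LP
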