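import Mathlib
import Pool.Agent.Lib.MP_2194ec_nt.LP.Defs
import Pool.Agent.Lib.MP_2194ec_nt.SH.Final
import Pool.Agent.Lib.MP_2194ec_nt.SepE0

set_option autoImplicit false

/-!
# The sharp exponent when the ramification is small for most pairs (place, embedding)
-/

namespace Pool.DynLehmer.LP
open MvPolynomial NumberField Pool.DynLehmer Pool.DynLehmer.SB Pool.DynLehmer.SP
open Filter Topology IsDedekindDomain
open scoped Classical Pointwise

/-- a Frobenius element at a place -/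
theorem exists_frob_at {K : Type} [Field K] [NumberField K] {p f : ℕ} (v : FinitePlace K)
    (hf : Nat.card (𝓞 K ⧸ v.maximalIdeal.asIdeal) = p ^ f) (N : Type) [Field N] [NumberField N]
    [Algebra K N] [IsGalois K N] (w : FinitePlace N) (e : ℕ) (hw : Above v w e) :
    ∃ τ : N ≃ₐ[K] N, ∀ a : N, w a ≤ 1 → w (τ a - a ^ (p ^ f)) < 1 := by
  have hfd : FiniteDimensional K N := Module.Finite.of_restrictScalars_finite ℚ K N
  have hprime : w.maximalIdeal.asIdeal.IsPrime := w.maximalIdeal.isPrime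
  have hfinq : Finite (𝓞 N ⧸ w.maximalIdeal.asIdeal) :=
    Ideal.finiteQuotientOfFreeOfNeBot _ w.maximalIdeal.ne_bot
  obtain ⟨σ, hσ⟩ := IsArithFrobAt.exists_of_isInvariant (𝓞 K) (N ≃ₐ[K] N)
    w.maximalIdeal.asIdeal
  refine ⟨σ, frob_place σ w _ ?_⟩
  intro x
  have h2 := hσ x
  rw [above_under hw, hf] at h2
  exact h2

/-- the number of conjugates of a point over `K` is at most the degree of its field -/
theorem idx_le_hom {K L N : Type} [Field K] [NumberField K] [Field L] [NumberField L]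
    [Algebra K L] [Field N] [NumberField N] [Algebra K N] [IsGalois K N] (φ : L →ₐ[K] N)
    {ι : Type} [Fintype ι] (x : ι → L) (hx : x ≠ 0) :
    idx (⊤ : Subgroup (N ≃ₐ[K] N)) (fun t => φ (x t)) ≤ Module.finrank K L := by
  let _ : Algebra L N := φ.toRingHom.toAlgebra
  have _ : IsScalarTower K L N := IsScalarTower.of_algebraMap_eq fun a => (φ.commutes a).symm
  have h1 := idx_le_finrank (K := K) (M := K) (L := L) (N := N) x hx
  rw [fixGroup_top] at h1
  exact h1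

theorem sharpb (hCore : CorebStatement) (hPair : SH.PairStatement) : SharpbStatement := by
  intro K _ _ p s ι _ _ _ hι hp hs v P hP hv hint hred hdet u hu0 hu1 huu
  obtain ⟨Φ, hΦP, hϖ0, hϖ, hunif⟩ := exists_GF v hp P hP hv hint hred hdet
  have hzP := gno_common_zero hp Φ hϖ P hΦP
  have hvu : v u = v (Φ.ϖ : K) := le_antisymm (hunif u hu1) (huu _ hϖ)
  obtain ⟨f, hf1, hf⟩ := exists_card_eq v hp hv
  obtain ⟨k, hk1, hcore0⟩ := hCore K p s ι hι hp hs v Φ hϖ hϖ0 P hP hzP hΦP f hf1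
  have hq2 : 2 ≤ p ^ s := hp.two_le.trans (Nat.le_self_pow (by omega) p)
  have hq2r : (2 : ℝ) ≤ ((p ^ s : ℕ) : ℝ) := by exact_mod_cast hq2
  obtain ⟨C, hC1, hpair⟩ := hPair K ι (p ^ s) P (by omega) hP hzP
  set q : ℝ := ((p ^ s : ℕ) : ℝ) with hq
  have hq0 : 0 < q := by linarith
  have hC1r : (1 : ℝ) ≤ C := by exact_mod_cast hC1
  obtain ⟨c', hc'⟩ : ∃ c' : ℕ, (C : ℝ) ≤ q ^ c' := by
    obtain ⟨c', hc'⟩ := pow_unbounded_of_one_lt (C : ℝ) (show (1 : ℝ) < q by linarith)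
    exact ⟨c', hc'.le⟩
  set Qk : ℝ := q ^ (k + 1) with hQk
  have hQk1 : (1 : ℝ) ≤ Qk := one_le_pow₀ (by linarith)
  have hCk1 : (1 : ℝ) ≤ (C : ℝ) ^ k := one_le_pow₀ hC1r
  set a : ℝ := 12 * q ^ 2 * ((C : ℝ) ^ k * Qk ^ 2) with ha
  have ha1 : 1 ≤ a := by
    have h1 : (1 : ℝ) ≤ (C : ℝ) ^ k * Qk ^ 2 :=
      one_le_mul_of_one_le_of_one_le hCk1 (one_le_pow₀ hQk1)
    have h2 : (1 : ℝ) ≤ 12 * q ^ 2 := by nlinarith
    exact one_le_mul_of_one_le_of_one_le h2 h1
  obtain ⟨A0, B0, hA0, hB0, hcore⟩ := hcore0 a ha1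
  set θ : ℝ := ((Fintype.card ι - 1 : ℕ) : ℝ) / (((Fintype.card ι - 1 : ℕ) : ℝ) + 1) with hθ
  have hN1 : (1 : ℝ) ≤ ((Fintype.card ι - 1 : ℕ) : ℝ) := by
    have : 1 ≤ Fintype.card ι - 1 := by omega
    exact_mod_cast this
  have hθ12 : 1 / 2 ≤ θ := by
    rw [hθ, div_le_div_iff₀ (by norm_num) (by linarith)]
    linarith
  have hθ1 : θ ≤ 1 := by
    rw [hθ, div_le_one (by linarith)]
    linarith
  have hlogq : 0 ≤ Real.log (2 * q) := Real.log_nonneg (by linarith)
  set G : ℝ := 6 * q * (3 + Real.log (2 * q) + B0) with hG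
  have hG0 : 0 < G := by positivity
  refine ⟨A0 / G, (c' * B0 + B0 + 2) + B0, by positivity, by positivity, ?_⟩
  intro E hE L N _ _ _ _ _ _ _ S e hcardLN hS hcard hlow x hx hwand hper
  have hτ : ∀ w ∈ S, ∃ τ : N ≃ₐ[K] N, ∀ a : N, w a ≤ 1 → w (τ a - a ^ (p ^ f)) < 1 :=
    fun w hw => exists_frob_at v hf N w (e w) (hS w hw)
  choose! τ hτ using hτ
  have hfdKL : FiniteDimensional K L := Module.Finite.of_restrictScalars_finite ℚ K L
  have hfdKN : FiniteDimensional K N := Module.Finite.of_restrictScalars_finite ℚ K N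
  have hDpos : 1 ≤ Module.finrank K L := Module.finrank_pos
  -- the ramification condition does not depend on the uniformizer
  have hlow' : 7 * (Nat.card (L →ₐ[K] N) * ∑ w ∈ S, e w) ≤
      8 * ∑ w ∈ S, e w * Nat.card {φ : L →ₐ[K] N // Low (Φ.ϖ : K) w φ E} := by
    refine hlow.trans (le_of_eq ?_)
    congr 1
    refine Finset.sum_congr rfl fun w hw => ?_
    have h1 : ∀ φ : L →ₐ[K] N, Low u w φ E ↔ Low (Φ.ϖ : K) w φ E := by
      intro φ
      have h2 : w (algebraMap K N u) = w (algebraMap K N (Φ.ϖ : K)) := by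
        rw [(hS w hw).2, (hS w hw).2, hvu]
      unfold Low
      rw [h2]
    have h3 : {φ : L →ₐ[K] N // Low u w φ E} = {φ : L →ₐ[K] N // Low (Φ.ϖ : K) w φ E} := by
      congr 1
      funext φ
      exact propext (h1 φ)
    rw [h3]
  have hne : Nonempty (L →ₐ[K] N) := by
    by_contra h0
    rw [not_nonempty_iff] at h0
    rw [Nat.card_of_isEmpty] at hcardLN
    omega
  obtain ⟨φ0⟩ := hne
  have hidx : ∀ (x : ι → L), x ≠ 0 →
      idx (⊤ : Subgroup (N ≃ₐ[K] N)) (fun t => φ0 (x t)) ≤ Module.finrank K L :=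
    fun x hx => idx_le_hom φ0 x hx
  obtain ⟨h, hlim, hhpos, hcoreD⟩ := hcore L N S e τ E hE hcardLN hS
    hcard hτ (fun w hw a => frob_inv w (τ w) (hτ w hw) a) hlow' x hx hwand
  refine ⟨h, hlim, ?_⟩
  set D : ℕ := Module.finrank K L with hD
  have hD1 : (1 : ℝ) ≤ D := by exact_mod_cast hDpos
  have hE1 : (1 : ℝ) ≤ E := by exact_mod_cast hE
  have hEpos : (0 : ℝ) < E := by linarith
  set m : ℝ := Real.sqrt D with hm
  have hm1 : 1 ≤ m := by
    rw [hm, Real.one_le_sqrt]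
    exact hD1
  have hmD : m ^ 2 = D := by
    rw [hm, Real.sq_sqrt (by linarith)]
  have hmleD : m ≤ D := by nlinarith
  obtain ⟨r0, Lv, hLv1, hexp, hr0, hnc, hbd⟩ := hcoreD m hm1
  set X : ℝ := 1 + (Real.log m) ^ θ with hX
  set Ql : ℝ := q ^ ((k + 1) * Lv) with hQl
  have hQl1 : (1 : ℝ) ≤ Ql := one_le_pow₀ (by linarith)
  have hQlk : Ql = Qk ^ Lv := by rw [hQl, hQk, ← pow_mul]
  set y : ℕ → (ι → L) := fun l => (gAct P L)^[r0 + k * l] x with hy
  have hyne : ∀ l, y l ≠ 0 := fun l => gAct_iter_ne P hP hzP _ _ hx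
  -- the size of the orbits
  obtain ⟨M, hM1, hM2, hM⟩ : ∃ M : ℕ, 1 ≤ M ∧ (M : ℝ) ≤ 2 * q * (Ql * m) ∧ ∀ l < Lv,
      (idx (⊤ : Subgroup (N ≃ₐ[K] N)) (fun t => φ0 (y l t)) ≤ M ^ 2 ∨
        ∀ T, HW K (fun t => φ0 (y l t)) T ≤ M * (T + 1)) := by
    have h1 : 1 ≤ ⌈m⌉₊ := by
      refine Nat.one_le_iff_ne_zero.2 (fun h0 => ?_)
      rw [Nat.ceil_eq_zero] at h0
      linarith
    have h2 : ((⌈m⌉₊ : ℕ) : ℝ) ≤ 2 * m := by
      have := (Nat.ceil_lt_add_one (a := m) (by linarith)).le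
      linarith
    refine ⟨⌈m⌉₊, h1, ?_, fun l _ => Or.inl ?_⟩
    · refine h2.trans ?_
      have h3 : (1 : ℝ) ≤ q * Ql := one_le_mul_of_one_le_of_one_le (by linarith) hQl1
      calc 2 * m = 2 * (1 * m) := by ring
        _ ≤ 2 * ((q * Ql) * m) := by gcongr
        _ = _ := by ring
    · refine (hidx (y l) (hyne l)).trans ?_
      have h4 : m ^ 2 ≤ ((⌈m⌉₊ : ℕ) : ℝ) ^ 2 :=
        pow_le_pow_left₀ (by linarith) (Nat.le_ceil m) 2
      rw [hmD] at h4
      exact_mod_cast h4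
  have hM1r : (1 : ℝ) ≤ M := by exact_mod_cast hM1
  have hlogM : 0 ≤ Real.log M := Real.log_nonneg hM1r
  -- the degree of the separating forms
  set Cl : ℝ := (C : ℝ) ^ (k * Lv) with hCl
  have hCl1 : (1 : ℝ) ≤ Cl := one_le_pow₀ hC1r
  have hClQ : Cl ≤ Ql ^ c' := by
    calc Cl = (C : ℝ) ^ (k * Lv) := rfl
      _ ≤ (q ^ c') ^ (k * Lv) := pow_le_pow_left₀ (by linarith) hc' _
      _ ≤ (q ^ c') ^ ((k + 1) * Lv) :=
          pow_le_pow_right₀ (one_le_pow₀ (by linarith)) (Nat.mul_le_mul_right _ (by omega))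
      _ = Ql ^ c' := by rw [hQl, ← pow_mul, ← pow_mul]; congr 1; ring
  set z : ℝ := Cl * M * (1 + Real.log M) with hz
  have hz1 : 1 ≤ z := one_le_mul_of_one_le_of_one_le
    (one_le_mul_of_one_le_of_one_le hCl1 hM1r) (by linarith)
  set δ : ℕ := ⌈z⌉₊ with hδ
  have hδz : z ≤ δ := Nat.le_ceil z
  have hδz' : (δ : ℝ) ≤ z + 1 := (Nat.ceil_lt_add_one (by linarith)).le
  have ht3 : (((δ + 1 : ℕ)) : ℝ) ≤ 3 * z := by
    push_cast
    linarith
  have hcond : (((δ + 1 : ℕ)) : ℝ) ≤ a ^ (Lv + 1) * m ^ 2 := by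
    have h1 : 1 + Real.log M ≤ M := by
      have := Real.log_le_sub_one_of_pos (show (0 : ℝ) < M by linarith)
      linarith
    have h2 : z ≤ Cl * (4 * q ^ 2 * (Ql ^ 2 * m ^ 2)) := by
      calc z = Cl * (M * (1 + Real.log M)) := by rw [hz]; ring
        _ ≤ Cl * ((2 * q * (Ql * m)) * (2 * q * (Ql * m))) := by
            apply mul_le_mul_of_nonneg_left _ (by linarith)
            exact mul_le_mul hM2 (h1.trans hM2) (by linarith) (by positivity)
        _ = _ := by ring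
    have h3 : 3 * z ≤ 12 * q ^ 2 * (((C : ℝ) ^ k * Qk ^ 2) ^ Lv) * m ^ 2 := by
      calc 3 * z ≤ 3 * (Cl * (4 * q ^ 2 * (Ql ^ 2 * m ^ 2))) := by linarith
        _ = 12 * q ^ 2 * (Cl * Ql ^ 2) * m ^ 2 := by ring
        _ = _ := by
            rw [mul_pow, hCl, hQlk, ← pow_mul (C : ℝ), ← pow_mul Qk Lv 2, ← pow_mul Qk 2 Lv,
              mul_comm Lv 2]
    have h4 : 12 * q ^ 2 * (((C : ℝ) ^ k * Qk ^ 2) ^ Lv) ≤ a ^ (Lv + 1) := by
      have h5 : ((C : ℝ) ^ k * Qk ^ 2) ≤ a := by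
        rw [ha]
        have h6 : (1 : ℝ) ≤ 12 * q ^ 2 := by nlinarith
        exact le_mul_of_one_le_left (by positivity) h6
      have h7 : 12 * q ^ 2 ≤ a := by
        rw [ha]
        exact le_mul_of_one_le_right (by positivity)
          (one_le_mul_of_one_le_of_one_le hCk1 (one_le_pow₀ hQk1))
      calc 12 * q ^ 2 * (((C : ℝ) ^ k * Qk ^ 2) ^ Lv) ≤ a * a ^ Lv := by gcongr
        _ = _ := by ring
    calc _ ≤ 3 * z := ht3
      _ ≤ _ := h3
      _ ≤ _ := by gcongr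
  -- separation
  have hsep : ∀ l' l : ℕ, l' < l → l < Lv → ∃ f : MvPolynomial ι K, f.IsHomogeneous (δ + 1) ∧
      aeval (y l') f = 0 ∧ aeval (y l) f ≠ 0 := by
    intro l' l hll hl
    have hyl : y l = (gAct P L)^[k * (l - l')] (y l') := by
      have h0 : k * l = k * (l - l') + k * l' := by
        rw [← mul_add]; congr 1; omega
      have h1 : r0 + k * l = k * (l - l') + (r0 + k * l') := by omega
      simp only [hy]
      rw [h1, Function.iterate_add_apply]
    have hR0 : (fun t => φ0 (y l' t)) ≠ 0 := by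
      intro h0
      apply hyne l'
      funext t
      have := congrFun h0 t
      simpa using this
    have hiter : (gAct P N)^[k * (l - l')] (fun t => φ0 (y l' t)) = fun t => φ0 (y l t) := by
      rw [gAct_iter_map P φ0, hyl]
    obtain ⟨g, hg, hg0, hg1⟩ := hpair N (fun t => φ0 (y l' t)) hR0
      (fun hcon => hper (OnCurve.of_iter (OnCurve.of_map φ0 hcon))) M hM1
      (hM l' (hll.trans hl)) (k * (l - l')) (Nat.mul_pos hk1 (by omega)) (by
        rintro σ ⟨c, hc, h1⟩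
        rw [hiter] at h1
        exact hnc l l' (by omega) φ0 ((σ : N →ₐ[K] N).comp φ0) ⟨c, h1⟩) δ (by
        refine le_trans ?_ hδz
        rw [hz]
        apply mul_le_mul_of_nonneg_right _ (by linarith)
        apply mul_le_mul_of_nonneg_right _ (by linarith)
        exact pow_le_pow_right₀ hC1r (Nat.mul_le_mul_left k (by omega)))
    have hφ : ∀ z : ι → L, aeval (fun t => φ0 (z t)) g = φ0 (aeval z g) := fun z =>
      (DFunLike.congr_fun (comp_aeval z φ0) g).symm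
    refine ⟨g, hg, ?_, ?_⟩
    · rw [hφ] at hg0
      exact (map_eq_zero φ0).1 hg0
    · rw [hiter, hφ] at hg1
      intro h0
      exact hg1 (by rw [h0, map_zero])
  have h1 := hbd (δ + 1) (by omega) hcond hsep
  have hnum := SH.num_final (c' := c') hθ12 hθ1 hB0.le hq2r hm1 hX hM1r hM2 hQl1 hexp hClQ
  have ht4 : (((δ + 1 : ℕ)) : ℝ) ≤ G * (m * Real.exp ((c' * B0 + B0 + 2) * X)) :=
    ht3.trans hnum
  have htpos : (0 : ℝ) < ((δ + 1 : ℕ) : ℝ) := by positivity
  have hXD : X ≤ 1 + (Real.log D) ^ θ := by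
    rw [hX]
    have h2 : Real.log m ≤ Real.log D := Real.log_le_log (by linarith) hmleD
    have h3 := Real.rpow_le_rpow (Real.log_nonneg hm1) h2 (by linarith : 0 ≤ θ)
    linarith
  refine le_trans ?_ h1
  calc A0 / G / ((E : ℝ) * m) * Real.exp (-(((c' * B0 + B0 + 2) + B0) * (1 + (Real.log D) ^ θ)))
      ≤ A0 / G / ((E : ℝ) * m) * Real.exp (-(((c' * B0 + B0 + 2) + B0) * X)) := by
        apply mul_le_mul_of_nonneg_left _ (by positivity)
        apply Real.exp_le_exp.2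
        apply neg_le_neg
        exact mul_le_mul_of_nonneg_left hXD (by positivity)
    _ = A0 / ((E : ℝ) * (G * (m * Real.exp ((c' * B0 + B0 + 2) * X)))) *
          Real.exp (-(B0 * X)) := by
        have h5 : Real.exp (-(((c' * B0 + B0 + 2) + B0) * X)) =
            Real.exp (-(B0 * X)) / Real.exp ((c' * B0 + B0 + 2) * X) := by
          rw [← Real.exp_sub]; congr 1; ring
        rw [h5]
        have hm0 : m ≠ 0 := by linarith
        field_simp
    _ ≤ _ := by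
        apply mul_le_mul_of_nonneg_right _ (Real.exp_nonneg _)
        apply div_le_div_of_nonneg_left hA0.le (by positivity)
        exact mul_le_mul_of_nonneg_left ht4 hEpos.le

end Pool.DynLehmer.LP
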