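import Pool.Agent.Lib.MP_2194ec_nt.LP.DefsV
import Pool.Agent.Lib.MP_2194ec_nt.LP.FinA
import Pool.Agent.Lib.MP_2194ec_nt.Main
import Pool.Agent.Lib.MP_2194ec_nt.GAL.R.Mor

set_option autoImplicit false

/-!
# Wandering points of bounded degree (row VNOR)
-/

namespace Pool.DynLehmer.LP
open MvPolynomial NumberField Filter Topology Pool.DynLehmer Pool.DynLehmer.SB Pool.DynLehmer.SP
  Pool.DynLehmer.GS
open scoped Classical

/-- Row VNOR. -/
theorem vnor : VnorStatement := by
  intro K _ _ p s v F hF X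
  have hp := hF.prime
  have hs := hF.pos
  have hM := GS.mor K p s v F hF
  obtain ⟨Φ, hΦF, hϖ0, hϖ, hunif⟩ := exists_FF v hp F hF.hom hF.above hF.int
    (fun i t h0 h1 => hF.red i t (by intro j; fin_cases j; exacts [h0, h1])) (by
      have h := hF.det
      rw [Matrix.det_fin_two] at h
      exact h)
  obtain ⟨A, B, hA, hB, hmain⟩ := core_bound hp hs v Φ hϖ hϖ0 hunif F hF.hom hΦF
  refine ⟨A / ((X : ℝ) + 1) * Real.exp (-(B * √(Real.log ((X : ℝ) + 1)))), by positivity, ?_⟩
  intro N _ _ _ y hy hw hX h hlim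
  set L := IntermediateField.adjoin K {y 0 / y 1} with hL
  have hLfin : FiniteDimensional K L := inferInstance
  have hLnf : NumberField L := NumberField.of_module_finite K L
  obtain ⟨Y, hY0, hY1, -⟩ := FinAux.exists_pt L hy (IntermediateField.subset_adjoin _ _ (by simp))
  have hwY : WandP F Y := (Bas.wandP_map L.val).1 (Bas.wandP_prl hF.hom (Bas.prl_symm hY1) hw)
  obtain ⟨h', hlim', hle⟩ := hmain L Y hY0 (by
    intro m n hmn hbr
    refine Bas.wandP_not_prl hwY hmn ?_
    rw [Bas.prl_iff_det (Bas.iter_ne hM hY0 m) (Bas.iter_ne hM hY0 n)]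
    exact sub_eq_zero.1 hbr)
  have heq : h' = h := by
    refine tendsto_nhds_unique (hlim'.congr fun n => ?_) hlim
    congr 1
    have h1 : Height.logHeight ((gAct F N)^[n] y) =
        Height.logHeight ((gAct F N)^[n] (fun i => (Y i : N))) := by
      obtain ⟨c, hc, h1⟩ := Bas.prl_iter hF.hom hY1 n
      rw [h1, Height.logHeight_smul_eq_logHeight _ hc]
    have h2 : (gAct F N)^[n] (fun i => (Y i : N)) = fun i => L.val ((gAct F L)^[n] Y i) :=
      gAct_iter_map F L.val n Y
    rw [h1, h2]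
    exact (logHeight_hom (L.val : L →+* N) _).symm
  rw [heq] at hle
  refine le_trans ?_ hle
  have hd : (Module.finrank K L : ℝ) ≤ (X : ℝ) + 1 := by
    have h1 : ((Module.finrank K L : ℕ) : ℝ) ≤ (X : ℝ) := by exact_mod_cast hX
    linarith
  have hd1 : (1 : ℝ) ≤ Module.finrank K L := by
    have : 1 ≤ Module.finrank K L := Module.finrank_pos
    exact_mod_cast this
  refine mul_le_mul (div_le_div_of_nonneg_left hA.le (by linarith) hd) ?_ (Real.exp_nonneg _)
    (div_nonneg hA.le (by linarith))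
  apply Real.exp_le_exp.2
  have h1 : √(Real.log (Module.finrank K L : ℝ)) ≤ √(Real.log ((X : ℝ) + 1)) :=
    Real.sqrt_le_sqrt (Real.log_le_log (by linarith) hd)
  have h2 := mul_le_mul_of_nonneg_left h1 hB.le
  linarith

end Pool.DynLehmer.LP
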