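import Pool.Agent.Lib.MP_2194ec_nt.LP.DefsW
import Pool.Agent.Lib.MP_2194ec_nt.LP.Vpfin

set_option autoImplicit false
set_option linter.unusedSectionVars false

/-!
# The end of the proof of Theorem W
-/

namespace Pool.DynLehmer.LP
open MvPolynomial NumberField Filter Topology Pool.DynLehmer Pool.DynLehmer.SB Pool.DynLehmer.SP
  Pool.DynLehmer.GS Pool.DynLehmer.GAL
open scoped Classical

namespace WAux

section deg

variable {K : Type} [Field K] {N : Type} [Field N] [Algebra K N] [FiniteDimensional K N]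

theorem dg_le_dg2 (P P' : Fin 2 → N) : dg K P ≤ dg2 K P P' := by
  unfold dg dg2
  refine IntermediateField.finrank_le_of_le_right (IntermediateField.adjoin.mono K _ _ ?_)
  intro x hx
  rw [Set.mem_singleton_iff] at hx
  subst hx
  exact Set.mem_insert _ _

theorem dg2_le_mul (P P' : Fin 2 → N) : dg2 K P P' ≤ dg K P * dg K P' := by
  unfold dg dg2
  have h1 : IntermediateField.adjoin K ({P 0 / P 1, P' 0 / P' 1} : Set N) =
      IntermediateField.adjoin K {P 0 / P 1} ⊔ IntermediateField.adjoin K {P' 0 / P' 1} := by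
    rw [← IntermediateField.adjoin_union]
    rfl
  rw [h1]
  exact IntermediateField.finrank_sup_le _ _

end deg

theorem gal_pt {K : Type} [Field K] {N : Type} [Field N] [Algebra K N] (σ : N ≃ₐ[K] N) {a b : N}
    (h : σ a = b) : gal σ ![a, 1] = ![b, 1] := by
  funext i
  fin_cases i
  · exact h
  · exact map_one σ

end WAux

open FinAux VpAux WAux in
/-- The bound in a Galois extension. -/
theorem w_gal (hLvnw : LvnwStatement) (hRamj : RamjStatement) (hHomc : HomcStatement)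
    (hPth : PthStatement)
    (hVsharp : VsharpStatement) (hVcntp : VcntpStatement) (hVnor : VnorStatement)
    (hVnumw : VnumwStatement) (hMor : MorStatement) (hSeg : SegStatement)
    (hSegH : SegHStatement) (hBif : E.BifS)
    (K : Type) [Field K] [NumberField K] (p s : ℕ) (v : FinitePlace K)
    (F : Fin 2 → MvPolynomial (Fin 2) K) (hyp : HypR p s v F) (hLat : ¬ Lat F) :
    ∃ κ R : ℕ, (CritW F → κ = 0) ∧ (CritW F → OneOrb F → R = 1) ∧ ∀ δ : ℝ, 0 < δ →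
    ∃ c : ℝ, 0 < c ∧ ∀ (N : Type) [Field N] [NumberField N] [Algebra K N] [IsGalois K N] (a : N),
      WandP F ![a, 1] →
      (∀ n : ℕ, 1 / δ < (dg K ((gAct F N)^[n] ![a, 1]) : ℝ) →
        ((p ^ s : ℕ) : ℝ) ^ n * (dg K ((gAct F N)^[n] ![a, 1]) : ℝ) ^ (1 - δ) ≤ dg K ![a, 1] →
        ∃ (u : ℕ) (S : Finset N),
          (∀ b ∈ S, (∃ σ : N ≃ₐ[K] N, σ a = b) ∧
            (((p ^ s : ℕ) : ℝ) ^ n *
                (dg2 K ((gAct F N)^[n] ![a, 1]) ((gAct F N)^[n] ![b, 1]) : ℝ) ^ (1 - δ) ≤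
                dg2 K ![a, 1] ![b, 1] →
              ((p ^ s : ℕ) : ℝ) ^ n *
                (dg2 K ((gAct F N)^[n] ![a, 1]) ((gAct F N)^[n] ![b, 1]) : ℝ) ^ (1 + δ) ≤
                dg K ![a, 1] * min (u : ℝ)
                  ((dg2 K ((gAct F N)^[n] ![a, 1]) ((gAct F N)^[n] ![b, 1]) : ℝ) ^
                    (1 / 2 : ℝ)))) ∧
          ∀ m : ℕ, ((p ^ s : ℕ) : ℝ) ^ m ≤ (dg K ((gAct F N)^[n] ![a, 1]) : ℝ) ^ δ →
            R * ((u : ℝ) * (dg K ((gAct F N)^[n] ![a, 1]) : ℝ) ^ δ) ^ κ <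
              (S.image fun b => pr ((gAct F N)^[n + m] ![b, 1])).card) →
      ∃ h : ℝ, HasHt (p ^ s) F ![a, 1] h ∧ c / (dg K ![a, 1] : ℝ) ≤ h := by
  have hq2 : 2 ≤ p ^ s := by
    calc 2 ≤ p := hyp.prime.two_le
      _ = p ^ 1 := (pow_one p).symm
      _ ≤ p ^ s := Nat.pow_le_pow_right hyp.prime.pos hyp.pos
  have hq1 : 1 ≤ p ^ s := by omega
  have hq0 : (0 : ℝ) < ((p ^ s : ℕ) : ℝ) := by
    have : 0 < p ^ s := by omega
    exact_mod_cast this
  have hmor : Mor (p ^ s) F := hMor K p s v F hyp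
  have hz : ∀ z : Fin 2 → AlgebraicClosure K, (∀ i, aeval z (F i) = 0) → z = 0 := by
    intro z hz
    by_contra h0
    exact hmor.ne (AlgebraicClosure K) z h0 (funext hz)
  obtain ⟨κ, R, C, hκ, hR, hR1, hC1, hV⟩ := hVcntp K p s v F hyp hLat
  refine ⟨κ, R, hκ, hR, fun δ hδ => ?_⟩
  obtain ⟨Fz, hF1, hF2, hF3, hF4, hF5⟩ := hSeg K p s v F hyp
  obtain ⟨B, c₁, hB1, hc₁, hL⟩ := hLvnw K p s v F hyp (1 / 16) (by norm_num)
  obtain ⟨u, hu0, hu1, hu⟩ := exists_unif v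
  obtain ⟨A, B₂, hA, hB₂, hS⟩ := hVsharp K p s (Fin 2 × Fin 2) (by simp) hyp.prime hyp.pos v Fz
    hF1 hyp.above hF2 hF3 hF4 u hu0 hu1 hu
  set θ : ℝ := ((Fintype.card (Fin 2 × Fin 2) - 1 : ℕ) : ℝ) /
    (((Fintype.card (Fin 2 × Fin 2) - 1 : ℕ) : ℝ) + 1) with hθ
  have hθ0 : 0 ≤ θ := by positivity
  have hθ1 : θ < 1 := by
    rw [hθ, div_lt_one (by positivity)]
    linarith
  obtain ⟨X₂, c₂, hc₂, hN₂⟩ := hVnumw δ A B₂ B θ C hδ hA hB₂ hB1 hθ0 hθ1 hC1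
  set X : ℕ := max X₂ (⌈1 / δ⌉₊ + 1) with hX
  obtain ⟨c₃, hc₃, hVn⟩ := hVnor K p s v F hyp X
  have hXX : (1 : ℝ) ≤ X := by
    have h1 : 1 ≤ X := by
      rw [hX]
      exact le_trans (by omega) (le_max_right _ _)
    exact_mod_cast h1
  have hlogX : 0 ≤ Real.log X := Real.log_nonneg hXX
  have hTX : 0 < B * (1 + Real.log X) := by positivity
  refine ⟨min (min c₁ (c₂ / 2)) (c₃ / (B * (1 + Real.log X))), lt_min (lt_min hc₁ (by positivity))
    (by positivity), ?_⟩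
  intro N _ _ _ _ a ha hH
  obtain ⟨S, e, hSe, hsum⟩ := exists_above v N
  set P : Fin 2 → N := ![a, 1] with hP
  have hP0 : P ≠ 0 := fun h0 => one_ne_zero (congrFun h0 1 : (1 : N) = 0)
  obtain ⟨h, hlim, halt⟩ := hL N S e hSe hsum P hP0 ha
  refine ⟨h, hlim, ?_⟩
  have hh0 : 0 ≤ h := ge_of_tendsto' hlim fun n => div_nonneg (div_nonneg
    (Height.logHeight_nonneg _) (Nat.cast_nonneg _)) (by positivity)
  have hhne := hhat_ne_zero hq2 F hyp.hom hz N P hP0 ha h hlim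
  have hhpos : 0 < h := lt_of_le_of_ne hh0 (Ne.symm hhne)
  have hD0eq : dgo K (nz P) = dg K P := dgo_eq hP0
  set D₀ : ℝ := (dg K P : ℝ) with hD₀
  have hD0pos : (0 : ℝ) < D₀ := by
    rw [hD₀]
    exact_mod_cast Module.finrank_pos
  rw [div_le_iff₀ hD0pos]
  rcases halt with h1 | ⟨k, hk1, hk2, hk3⟩
  · rw [hD0eq] at h1
    exact ((min_le_left _ _).trans (min_le_left _ _)).trans (by linarith)
  rw [hD0eq] at hk1
  -- the point at level `k`
  set y : Fin 2 → N := (gAct F N)^[k] P with hy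
  have hy0 : y ≠ 0 := Bas.iter_ne hmor hP0 k
  have hwy : WandP F y := Bas.wandP_iter ha k
  have hlimy : HasHt (p ^ s) F y (((p ^ s : ℕ) : ℝ) ^ k * h) := hasHt_iter (by omega) hlim k
  have hhypos : 0 < ((p ^ s : ℕ) : ℝ) ^ k * h := mul_pos (pow_pos hq0 k) hhpos
  have hqk : (0 : ℝ) < ((p ^ s : ℕ) : ℝ) ^ k := pow_pos hq0 k
  have hdgy : dgo K (nz y) = dg K y := dgo_eq hy0
  rw [hdgy] at hk1
  set D : ℕ := dg K y with hD
  have hD1 : 1 ≤ D := Module.finrank_pos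
  have hD1r : (1 : ℝ) ≤ D := by exact_mod_cast hD1
  have hDpos : (0 : ℝ) < D := by linarith
  have hlogD : 0 ≤ Real.log D := Real.log_nonneg hD1r
  set T : ℝ := B * (1 + Real.log D) with hT
  have hT1 : 1 ≤ T := by nlinarith
  have hT0 : 0 < T := by linarith
  by_cases hDX : D ≤ X
  · -- bounded degree
    refine (min_le_right _ _).trans ?_
    have h1 := hVn N y hy0 hwy hDX _ hlimy
    rw [div_le_iff₀ hTX]
    have h2 : T ≤ B * (1 + Real.log X) := by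
      rw [hT]
      have h3 : Real.log D ≤ Real.log X := Real.log_le_log (by linarith) (by exact_mod_cast hDX)
      have h4 : 0 ≤ B := by linarith
      exact mul_le_mul_of_nonneg_left (by linarith) h4
    calc c₃ ≤ ((p ^ s : ℕ) : ℝ) ^ k * h := h1
      _ ≤ ((p ^ s : ℕ) : ℝ) ^ k * h * D := le_mul_of_one_le_right hhypos.le hD1r
      _ = (((p ^ s : ℕ) : ℝ) ^ k * D) * h := by ring
      _ ≤ (T * D₀) * h := mul_le_mul_of_nonneg_right hk1 hh0
      _ = (h * D₀) * T := by ring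
      _ ≤ (h * D₀) * (B * (1 + Real.log X)) :=
        mul_le_mul_of_nonneg_left h2 (mul_nonneg hh0 hD0pos.le)
  refine ((min_le_left _ _).trans (min_le_right _ _)).trans ?_
  push Not at hDX
  have hDX2 : X₂ ≤ D := (le_max_left _ _).trans hDX.le
  have hDX3 : ⌈1 / δ⌉₊ + 1 ≤ D := (le_max_right _ _).trans hDX.le
  have hDδ : 1 / δ < (D : ℝ) := by
    have h1 : (1 / δ : ℝ) ≤ (⌈1 / δ⌉₊ : ℝ) := Nat.le_ceil _
    have h2 : ((⌈1 / δ⌉₊ : ℕ) : ℝ) + 1 ≤ D := by exact_mod_cast hDX3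
    linarith
  have hX1 : 1 ≤ ⌊T⌋₊ := Nat.le_floor (by exact_mod_cast hT1)
  have hTE : ((⌊T⌋₊ * ⌊T⌋₊ : ℕ) : ℝ) ≤ 4 * (B * (1 + Real.log D)) ^ 2 := by
    have h1 : ((⌊T⌋₊ : ℕ) : ℝ) ≤ T := Nat.floor_le (by linarith)
    have h2 : (0 : ℝ) ≤ ((⌊T⌋₊ : ℕ) : ℝ) := Nat.cast_nonneg _
    rw [← hT]
    push_cast
    nlinarith
  obtain ⟨hTδ, hT4, Q, hQ1, hCQ, hnum⟩ := hN₂ D (⌊T⌋₊ * ⌊T⌋₊) hDX2 (Nat.mul_pos hX1 hX1) hTE
  rw [← hT] at hTδ
  -- the level is thin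
  have hDδ0 : 0 < (D : ℝ) ^ δ := Real.rpow_pos_of_pos hDpos _
  have hthin : ((p ^ s : ℕ) : ℝ) ^ k * (D : ℝ) ^ (1 - δ) ≤ D₀ := by
    have h1 : (D : ℝ) ^ (1 - δ) = D / (D : ℝ) ^ δ := by
      rw [Real.rpow_sub hDpos, Real.rpow_one]
    rw [h1, ← mul_div_assoc, div_le_iff₀ hDδ0]
    calc ((p ^ s : ℕ) : ℝ) ^ k * D ≤ T * D₀ := hk1
      _ ≤ (D : ℝ) ^ δ * D₀ := mul_le_mul_of_nonneg_right hTδ hD0pos.le
      _ = _ := mul_comm _ _
  obtain ⟨uu, Sb, hSb, hSm⟩ := hH k hDδ hthin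
  -- the pairs are thin
  have hpth : ∀ b : N, (∃ σ : N ≃ₐ[K] N, σ a = b) →
      ((p ^ s : ℕ) : ℝ) ^ k * (dg2 K y ((gAct F N)^[k] ![b, 1]) : ℝ) ^ (1 - δ) ≤
        dg2 K P ![b, 1] := by
    rintro b ⟨σ, hσ⟩
    have h1 := hPth K N (p ^ s) F hq1 hmor S e hsum P hP0 k T (B * (1 + Real.log D) ^ 2) hT0.le
      (by positivity) (by rw [hdgy] at hk2 ⊢; exact hk2) (by rw [hdgy] at hk3; exact hk3) σ
    rw [gal_pt σ hσ] at h1
    have h2 : D ≤ dg2 K y ((gAct F N)^[k] ![b, 1]) := dg_le_dg2 _ _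
    set M₁ : ℝ := (dg2 K y ((gAct F N)^[k] ![b, 1]) : ℝ) with hM₁
    have h3 : (D : ℝ) ≤ M₁ := by
      rw [hM₁]
      exact_mod_cast h2
    have h4 : 0 < M₁ := by linarith
    have h5 : M₁ ^ (1 - δ) = M₁ / M₁ ^ δ := by
      rw [Real.rpow_sub h4, Real.rpow_one]
    have h6 : 0 < M₁ ^ δ := Real.rpow_pos_of_pos h4 _
    rw [h5, ← mul_div_assoc, div_le_iff₀ h6]
    have h7 : B * (1 + Real.log D) ^ 2 * T ^ 2 ≤ M₁ ^ δ :=
      hT4.trans (Real.rpow_le_rpow hDpos.le h3 hδ.le)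
    calc ((p ^ s : ℕ) : ℝ) ^ k * M₁ ≤
        B * (1 + Real.log D) ^ 2 * T ^ 2 * (dg2 K P ![b, 1] : ℝ) := h1
      _ ≤ M₁ ^ δ * (dg2 K P ![b, 1] : ℝ) := mul_le_mul_of_nonneg_right h7 (Nat.cast_nonneg _)
      _ = _ := mul_comm _ _
  have hSbne : Sb.Nonempty := by
    have h1 := hSm 0 (by
      rw [pow_zero]
      exact Real.one_le_rpow hD1r hδ.le)
    have h2 : (0 : ℝ) < ((Sb.image fun b => pr ((gAct F N)^[k + 0] ![b, 1])).card : ℝ) :=
      lt_of_le_of_lt (by positivity) h1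
    have h3 : 0 < (Sb.image fun b => pr ((gAct F N)^[k + 0] ![b, 1])).card := by exact_mod_cast h2
    exact Finset.image_nonempty.1 (Finset.card_pos.1 h3)
  have hmain : ∀ b ∈ Sb, ((p ^ s : ℕ) : ℝ) ^ k *
      (dg2 K y ((gAct F N)^[k] ![b, 1]) : ℝ) ^ (1 + δ) ≤
      D₀ * min (uu : ℝ) ((dg2 K y ((gAct F N)^[k] ![b, 1]) : ℝ) ^ (1 / 2 : ℝ)) := fun b hb =>
    (hSb b hb).2 (hpth b (hSb b hb).1)
  have huu1 : 1 ≤ uu := by
    obtain ⟨b, hb⟩ := hSbne
    have h1 := hmain b hb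
    have h2 : D ≤ dg2 K y ((gAct F N)^[k] ![b, 1]) := dg_le_dg2 _ _
    have h3 : (0 : ℝ) < (dg2 K y ((gAct F N)^[k] ![b, 1]) : ℝ) := by
      have : 0 < dg2 K y ((gAct F N)^[k] ![b, 1]) := by omega
      exact_mod_cast this
    rcases Nat.eq_zero_or_pos uu with h0 | h0
    · exfalso
      have h4 : 0 < ((p ^ s : ℕ) : ℝ) ^ k *
          (dg2 K y ((gAct F N)^[k] ![b, 1]) : ℝ) ^ (1 + δ) :=
        mul_pos hqk (Real.rpow_pos_of_pos h3 _)
      have h5 : min (uu : ℝ) ((dg2 K y ((gAct F N)^[k] ![b, 1]) : ℝ) ^ (1 / 2 : ℝ)) ≤ 0 := by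
        refine (min_le_left _ _).trans ?_
        rw [h0]
        norm_num
      have h6 := mul_nonpos_of_nonneg_of_nonpos hD0pos.le h5
      linarith
    · exact h0
  have hQδ : (Q : ℝ) ≤ (D : ℝ) ^ δ := by
    refine le_trans ?_ hCQ
    push_cast
    have h1 : (1 : ℝ) ≤ C := by exact_mod_cast hC1
    nlinarith [Nat.cast_nonneg (α := ℝ) Q]
  -- the conjugate
  obtain ⟨b', hb', hoff⟩ := hV N y hy0 hwy _ hhypos hlimy
    (Sb.image fun b => (gAct F N)^[k] ![b, 1]) (by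
    intro b' hb'
    obtain ⟨b, hb, rfl⟩ := Finset.mem_image.1 hb'
    obtain ⟨σ, hσ⟩ := (hSb b hb).1
    have hb0 : (![b, 1] : Fin 2 → N) ≠ 0 := fun h0 => one_ne_zero (congrFun h0 1 : (1 : N) = 0)
    have hwb : WandP F ![b, 1] := by
      rw [← gal_pt σ hσ]
      exact E.wand_gal ha σ
    have hlb : HasHt (p ^ s) F ![b, 1] h := by
      rw [← gal_pt σ hσ]
      exact hasHt_gal σ hlim
    exact ⟨Bas.iter_ne hmor hb0 k, Bas.wandP_iter hwb k, hasHt_iter (by omega) hlb k⟩) uu Q huu1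
    hQ1 (by
    intro m hm
    have h1 := hSm m (by
      have h2 : (((p ^ s) ^ m : ℕ) : ℝ) ≤ Q := by exact_mod_cast hm
      push_cast at h2
      have h3 := h2.trans hQδ
      push_cast
      exact h3)
    rw [Finset.image_image]
    have h2 : ((R * (C * uu * Q) ^ κ : ℕ) : ℝ) ≤ R * ((uu : ℝ) * (D : ℝ) ^ δ) ^ κ := by
      push_cast
      push_cast at hCQ
      refine mul_le_mul_of_nonneg_left (pow_le_pow_left₀ (by positivity) ?_ κ) (Nat.cast_nonneg _)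
      have h3 : (C : ℝ) * uu * Q = uu * (C * Q) := by ring
      rw [h3]
      exact mul_le_mul_of_nonneg_left hCQ (Nat.cast_nonneg _)
    have h3 : ((fun b => pr ((gAct F N)^[m] b)) ∘ fun b : N => (gAct F N)^[k] ![b, 1]) =
        fun b : N => pr ((gAct F N)^[k + m] ![b, 1]) := by
      funext b
      simp only [Function.comp]
      rw [← Function.iterate_add_apply, add_comm m k]
    rw [h3]
    exact_mod_cast h2.trans_lt h1)
  obtain ⟨b, hb, rfl⟩ := Finset.mem_image.1 hb'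
  obtain ⟨σ, hσ⟩ := (hSb b hb).1
  set y' : Fin 2 → N := (gAct F N)^[k] ![b, 1] with hy'
  have hb0 : (![b, 1] : Fin 2 → N) ≠ 0 := fun h0 => one_ne_zero (congrFun h0 1 : (1 : N) = 0)
  have hy'0 : y' ≠ 0 := Bas.iter_ne hmor hb0 k
  have hyy' : gal σ y = y' := by
    rw [hy, hy', ← SP.CasebAux.gAct_iter_gal, gal_pt σ hσ]
  have hyy : Prl (gal σ y) y' := by
    rw [hyy']
    exact ⟨1, one_ne_zero, (one_smul _ _).symm⟩
  have hwy' : WandP F y' := Bas.wandP_prl hyp.hom (Bas.prl_symm hyy) (E.wand_gal hwy σ)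
  -- the degree of the pair
  set M₀ : ℕ := dg2 K y y' with hM₀
  have hM0a : D ≤ M₀ := dg_le_dg2 _ _
  have hM0b : M₀ ≤ D ^ 2 := by
    have h1 : dg K y' = D := by
      rw [← dgo_eq hy'0, ← hyy', ← hdgy]
      have h2 : nz (gal σ y) = σ • nz y := (HomcAux.gal_nz σ hy0).symm
      rw [h2]
      unfold dgo
      rw [orb_eq_of_mem (smul_mem_orb σ (nz y))]
    calc M₀ ≤ dg K y * dg K y' := dg2_le_mul _ _
      _ = D ^ 2 := by rw [h1]; ring
  obtain ⟨M, U, hU1, hUu, hUM, hMU, hEQ, hnum⟩ := hnum M₀ uu (D₀ / ((p ^ s : ℕ) : ℝ) ^ k) hM0a hM0b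
    huu1 (div_nonneg hD0pos.le hqk.le) (by
      have h1 := hmain b hb
      rw [← hy', ← hM₀] at h1
      rw [div_mul_eq_mul_div, le_div_iff₀ hqk]
      linarith)
  -- the field
  set L := IntermediateField.adjoin K {y 0 / y 1, y' 0 / y' 1} with hLdef
  have hLfin : FiniteDimensional K L := inferInstance
  have hLnf : NumberField L := NumberField.of_module_finite K L
  obtain ⟨Y, hY0, hY1, hY2⟩ := exists_pt L hy0 (IntermediateField.subset_adjoin _ _ (by simp))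
  obtain ⟨Y', hY'0, hY'1, hY'2⟩ := exists_pt L hy'0 (IntermediateField.subset_adjoin _ _ (by simp))
  set φ₀ : L →ₐ[K] N := L.val with hφ₀
  have hadj : IntermediateField.adjoin K {Y 0 / Y 1, Y' 0 / Y' 1} = ⊤ :=
    adj_top hLdef _ _ hY2 hY'2
  have hφY : (nz fun i => φ₀ (Y i)) ∈ orb (N ≃ₐ[K] N) (nz y) := by
    have h1 : nz y = nz fun i => φ₀ (Y i) := nz_prl hy0 (HomcAux.emb_ne φ₀ hY0) hY1
    rw [← h1]
    exact self_mem_orb _
  have hφY' : (nz fun i => φ₀ (Y' i)) ∈ orb (N ≃ₐ[K] N) (nz y) := by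
    have h1 : nz (gal σ y) = nz fun i => φ₀ (Y' i) :=
      nz_prl (gal_ne σ hy0) (HomcAux.emb_ne φ₀ hY'0) (Bas.prl_trans hyy hY'1)
    rw [← h1]
    have h2 : nz (gal σ y) = σ • nz y := (HomcAux.gal_nz σ hy0).symm
    rw [h2]
    exact smul_mem_orb _ _
  have hbad : ∑ w ∈ S, (e w : ℝ) * (((orb (N ≃ₐ[K] N) (nz y)).filter fun z =>
      T ≤ (disc K w z : ℝ)).card : ℝ) ≤ 1 / 16 * Module.finrank K N * dgo K (nz y) := by
    rw [hdgy] at hk2 ⊢
    exact hk2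
  have hgood := good_pairs hHomc hRamj v u hu φ₀ hY0 hY'0 hadj hφY hφY' S e hSe hsum T hbad
  have hcardL : Nat.card (L →ₐ[K] N) = Module.finrank K L := (hHomc K N L φ₀ Y hY0).2.1
  -- the pair is wandering and on no curve of degree at most `U`
  have hwY : WandP F Y := (Bas.wandP_map φ₀).1 (Bas.wandP_prl hyp.hom (Bas.prl_symm hY1) hwy)
  have hwY' : WandP F Y' := (Bas.wandP_map φ₀).1
    (Bas.wandP_prl hyp.hom (Bas.prl_symm hY'1) hwy')
  have hx0 : seg Y Y' ≠ 0 := E.seg_ne hY0 hY'0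
  have hxw : ¬ ∃ m n : ℕ, m ≠ n ∧ ∃ c : L, c ≠ 0 ∧
      (gAct Fz L)^[n] (seg Y Y') = c • (gAct Fz L)^[m] (seg Y Y') := by
    rintro ⟨m, n, hmn, c, hc0, h1⟩
    rw [E.gAct_seg hF5, E.gAct_seg hF5] at h1
    obtain ⟨d, hd, h2⟩ := (E.prl_of_seg (Bas.iter_ne hmor hY0 n) (Bas.iter_ne hmor hY'0 n)
      (Bas.iter_ne hmor hY0 m) (Bas.iter_ne hmor hY'0 m) ⟨c, hc0, h1⟩).1
    exact hwY ⟨m, n, hmn, d, hd, h2⟩
  have hLM : Module.finrank K L ≤ M * U := hMU
  obtain ⟨h', hlim', hle⟩ := hS (⌊T⌋₊ * ⌊T⌋₊) (Nat.mul_pos hX1 hX1) L N S e hcardL hSe hsum.ge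
    hgood (seg Y Y') hx0 hxw M U hU1 hUM hLM (by
    intro m hm hon
    rw [E.gAct_seg hF5] at hon
    obtain ⟨G, hG, hG'⟩ := hBif K (p ^ s) F hq1 hmor Fz hF1 hF5 L _ _ U
      (Bas.iter_ne hmor hY0 m) (Bas.iter_ne hmor hY'0 m) (Bas.wandP_iter hwY m)
      (Bas.wandP_iter hwY' m) hon
    obtain ⟨d₁, d₂, -, -, -, -, hBi⟩ := hG.hom
    have hmQ : (p ^ s) ^ m ≤ Q := by
      have h1 := hm.trans hEQ
      exact_mod_cast h1
    refine hoff m hmQ G (E.PerForm.mono hUu hG) ?_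
    have e1 : (gAct F N)^[m] (fun i => (Y i : N)) = fun i => φ₀ ((gAct F L)^[m] Y i) :=
      gAct_iter_map F φ₀ m Y
    have e2 : (gAct F N)^[m] (fun i => (Y' i : N)) = fun i => φ₀ ((gAct F L)^[m] Y' i) :=
      gAct_iter_map F φ₀ m Y'
    rw [Bas.ev_prl hBi (Bas.prl_iter hyp.hom hY1 m) (Bas.prl_iter hyp.hom hY'1 m), e1, e2,
      ev_hom φ₀ ((gAct F L)^[m] Y) ((gAct F L)^[m] Y') G, hG', map_zero])
  have hh' := height_pair hSegH hyp.hom (by omega) hF5 φ₀ σ 0 (P := y) hY1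
    (Bas.prl_trans hyy hY'1) hlimy hlim'
  rw [pow_zero, one_mul] at hh'
  have h1 : c₂ ≤ D₀ / ((p ^ s : ℕ) : ℝ) ^ k * (2 * (((p ^ s : ℕ) : ℝ) ^ k * h)) :=
    hnum.trans (mul_le_mul_of_nonneg_left (hle.trans hh') (div_nonneg hD0pos.le hqk.le))
  have h2 : D₀ / ((p ^ s : ℕ) : ℝ) ^ k * (2 * (((p ^ s : ℕ) : ℝ) ^ k * h)) = 2 * (h * D₀) := by
    field_simp
  linarith

open FinAux VpAux WAux in
/-- **WFIN** -/
theorem wfin (hLvnw : LvnwStatement) (hRamj : RamjStatement) (hHomc : HomcStatement)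
    (hPth : PthStatement)
    (hVsharp : VsharpStatement) (hVcntp : VcntpStatement) (hVnor : VnorStatement)
    (hVnumw : VnumwStatement) (hMor : MorStatement) (hSeg : SegStatement)
    (hSegH : SegHStatement) (hBif : E.BifS) : WStatement := by
  intro K _ _ p s v F hyp hLat
  obtain ⟨κ, R, hκ, hR, hmain⟩ := w_gal hLvnw hRamj hHomc hPth hVsharp hVcntp hVnor hVnumw hMor
    hSeg hSegH hBif K p s v F hyp hLat
  refine ⟨κ, R, hκ, hR, fun δ hδ => ?_⟩
  obtain ⟨c, hc, hmain⟩ := hmain δ hδ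
  refine ⟨c, hc, ?_⟩
  intro L _ _ _ a ha hH
  -- the Galois closure
  let N := IntermediateField.normalClosure K L (AlgebraicClosure L)
  have hfdKL : FiniteDimensional K L := Module.Finite.of_restrictScalars_finite ℚ K L
  have hfd : FiniteDimensional K N := normalClosure.is_finiteDimensional K L (AlgebraicClosure L)
  have hNnf : NumberField N := NumberField.of_module_finite K N
  have hnormal : Normal K N := normalClosure.normal K L (AlgebraicClosure L)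
  have hgal : IsGalois K N := ⟨⟩
  let φ : L →ₐ[K] N := IsScalarTower.toAlgHom K L N
  have hφ : Function.Injective φ := φ.toRingHom.injective
  have hpt : ∀ x : L, (![φ x, 1] : Fin 2 → N) = fun i => φ ((![x, 1] : Fin 2 → L) i) := by
    intro x
    funext i
    fin_cases i
    · rfl
    · exact (map_one φ).symm
  have hit : ∀ (x : L) (n : ℕ), (gAct F N)^[n] ![φ x, 1] =
      fun i => φ ((gAct F L)^[n] ![x, 1] i) := by
    intro x n
    rw [hpt, gAct_iter_map]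
  have hw : WandP F ![φ a, 1] := by
    rw [hpt]
    exact (Bas.wandP_map φ).2 ha
  have hdgφ : ∀ P : Fin 2 → L, dg K (fun i => φ (P i)) = dg K P := by
    intro P
    unfold dg
    rw [← GAL.H28.finrank_adjoin_hom φ, Set.image_singleton, map_div₀]
  have hdg2φ : ∀ P P' : Fin 2 → L, dg2 K (fun i => φ (P i)) (fun i => φ (P' i)) =
      dg2 K P P' := by
    intro P P'
    unfold dg2
    rw [← GAL.H28.finrank_adjoin_hom φ, Set.image_pair, map_div₀, map_div₀]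
  have hdga : dg K (![φ a, 1] : Fin 2 → N) = dg K (![a, 1] : Fin 2 → L) := by
    rw [hpt, hdgφ]
  have hdg2a : ∀ b : L, dg2 K (![φ a, 1] : Fin 2 → N) ![φ b, 1] =
      dg2 K (![a, 1] : Fin 2 → L) ![b, 1] := by
    intro b
    rw [hpt, hpt, hdg2φ]
  have hdgn : ∀ n : ℕ, dg K ((gAct F N)^[n] ![φ a, 1]) = dg K ((gAct F L)^[n] ![a, 1]) := by
    intro n
    rw [hit, hdgφ]
  have hdg2n : ∀ (n : ℕ) (b : L), dg2 K ((gAct F N)^[n] ![φ a, 1]) ((gAct F N)^[n] ![φ b, 1]) =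
      dg2 K ((gAct F L)^[n] ![a, 1]) ((gAct F L)^[n] ![b, 1]) := by
    intro n b
    rw [hit, hit, hdg2φ]
  obtain ⟨h, hlim, hle⟩ := hmain N (φ a) hw (by
    intro n hyδ hthin
    rw [hdgn] at hyδ
    rw [hdgn, hdga] at hthin
    obtain ⟨u, S, hS, hSm⟩ := hH n hyδ hthin
    refine ⟨u, S.image φ, ?_, ?_⟩
    · intro b hb
      obtain ⟨b', hb', rfl⟩ := Finset.mem_image.1 hb
      obtain ⟨h2, h3⟩ := hS b' hb'
      constructor
      · have h4 : minpoly K (φ a) = minpoly K a := minpoly.algHom_eq φ hφ a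
        refine minpoly.exists_algEquiv_of_root' (Algebra.IsAlgebraic.isAlgebraic (φ a)) ?_
        rw [h4, Polynomial.aeval_algHom_apply, h2, map_zero]
      · rw [hdg2n, hdg2a, hdga]
        exact h3
    · intro m hm
      rw [hdgn] at hm ⊢
      have h1 : ((S.image φ).image fun b => pr ((gAct F N)^[n + m] ![b, 1])).card =
          (S.image fun b => pr ((gAct F L)^[n + m] ![b, 1])).card := by
        rw [Finset.image_image, ← Finset.card_image_of_injective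
          (S.image fun b => pr ((gAct F L)^[n + m] ![b, 1])) (Option.map_injective hφ),
          Finset.image_image]
        congr 1
        refine Finset.image_congr fun b _ => ?_
        simp only [Function.comp]
        rw [hit, pr_hom]
      have h5 : ∀ {α β : Type} (d1 d2 : DecidableEq β) (T : Finset α) (f : α → β),
          (@Finset.image α β d1 f T).card = (@Finset.image α β d2 f T).card := by
        intro α β d1 d2 T f
        rw [Subsingleton.elim d1 d2]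
      refine (hSm m hm).trans_eq (Nat.cast_inj.2 ?_)
      exact (h5 _ _ _ _).trans (h1.symm.trans (h5 _ _ _ _)))
  refine ⟨h, hlim.congr fun n => ?_, ?_⟩
  · rw [hit]
    have h2 := logHeight_hom (φ : L →+* N) ((gAct F L)^[n] ![a, 1])
    exact congrArg (fun x => x / ((p ^ s : ℕ) : ℝ) ^ n) h2
  · rw [hdga] at hle
    exact hle

end Pool.DynLehmer.LP
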